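import Pool.Agent.MCG.Slot

set_option autoImplicit false
set_option linter.unusedSectionVars false

noncomputable section

/-!
PACKAGE MCG-BASE. (1.2) of the page. For `S : Finset (ZMod p)` let
`vS S = ∑ T ∈ S.powerset, (-1) ^ (S.card - T.card) • single (kp T fun _ => w) 1` (private
definition), so `vU w = vS univ` (`Finset.powerset_univ`, the cardinality of `univ` is `p`).
* inversion: `∑ S ⊆ U, vS S = single (kp U fun _ => w) 1` (sum over `S ∈ U.powerset`; exchange the
  sums, `Finset.sum_powerset_neg_one_pow_card`-like identities, or induction).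
* `pk T (vS S) = 0` if not `S ⊆ T` (pair `R` and `insert a R` for `a ∈ S \ T`), so `vS S ∈ J_m` for
  `m ≤ S.card`.
* `sg i (vS S) = vS (S.image (· + i))`.
`vU_mem`: `pk T (vU w) = 0` for `T ≠ univ`. `base`: `io g w = fun _ => w` (because `g w = w`), so
`ia g (single w 1 - 1) = ∑ S ≠ ∅, vS S = vU w + ∑ (proper nonempty S)`, and the latter is
`Nm (∑ S ∈ representatives, vS S)`: the proper nonempty subsets are permuted freely by the shift
(`p` is prime: if `S + i = S` with `i ≠ 0` then `S` is empty or everything). For the choice of the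
representatives: see `exists_reps` below (prove it first; use it for every `0 < m < p`).
Also `ia g (single w 1 - 1) = ∑ x, ia g (XX p x) * ia g (foxl x (single w 1))` (`foxl_sum`), and
`eps (foxl x (single w 1)) = 0` by the hypothesis, so `ia_JJ`. So `InU g N 1 (vU w)` holds with
error `0` for all `N`.
-/

namespace Pool.Agent.MCG

open MonoidAlgebra Pool.Agent.Lvl

section reps

variable (p : ℕ) [Fact p.Prime]

private def BaseU_s (i : ZMod p) (S : Finset (ZMod p)) : Finset (ZMod p) := S.image fun j => j - i

private theorem BaseU_s_inj (i : ZMod p) : Function.Injective fun j : ZMod p => j - i :=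
  sub_left_injective

private theorem BaseU_s_card (i : ZMod p) (S : Finset (ZMod p)) :
    (BaseU_s p i S).card = S.card :=
  Finset.card_image_of_injective _ (BaseU_s_inj p i)

private theorem BaseU_s_s (i k : ZMod p) (S : Finset (ZMod p)) :
    BaseU_s p i (BaseU_s p k S) = BaseU_s p (k + i) S := by
  unfold BaseU_s
  rw [Finset.image_image]
  congr 1
  funext j
  change j - k - i = j - (k + i)
  ring

private theorem BaseU_s_zero (S : Finset (ZMod p)) : BaseU_s p 0 S = S := by
  unfold BaseU_s
  have h : (fun j : ZMod p => j - 0) = id := by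
    funext j
    exact sub_zero j
  rw [h, Finset.image_id]

private theorem BaseU_free {i : ZMod p} {S : Finset (ZMod p)} (h1 : 0 < S.card)
    (h2 : S.card < p) (h : BaseU_s p i S = S) : i = 0 := by
  by_contra hi
  obtain ⟨a, ha⟩ := Finset.card_pos.1 h1
  have key : ∀ k : ℕ, a - k * i ∈ S := by
    intro k
    induction k with
    | zero =>
      rw [Nat.cast_zero, zero_mul, sub_zero]
      exact ha
    | succ k ih =>
      rw [← h]
      refine Finset.mem_image.2 ⟨_, ih, ?_⟩
      push_cast
      ring
  have hall : ∀ b : ZMod p, b ∈ S := by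
    intro b
    have h3 := key ((a - b) / i).val
    rw [ZMod.natCast_zmod_val, div_mul_cancel₀ _ hi] at h3
    have h4 : a - (a - b) = b := by ring
    rwa [h4] at h3
  have h5 : S = Finset.univ := Finset.eq_univ_of_forall hall
  rw [h5, Finset.card_univ, ZMod.card] at h2
  exact lt_irrefl _ h2

private def BaseU_setoid : Setoid (Finset (ZMod p)) where
  r S S' := ∃ i, S' = BaseU_s p i S
  iseqv := by
    refine ⟨fun S => ⟨0, (BaseU_s_zero p S).symm⟩, ?_, ?_⟩
    · rintro S S' ⟨i, rfl⟩
      refine ⟨-i, ?_⟩
      rw [BaseU_s_s, add_neg_cancel, BaseU_s_zero]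
    · rintro S S' S'' ⟨i, rfl⟩ ⟨k, rfl⟩
      exact ⟨i + k, BaseU_s_s p k i S⟩

private theorem BaseU_rep : ∃ f : Finset (ZMod p) → Finset (ZMod p),
    (∀ S, ∃ i, S = BaseU_s p i (f S)) ∧ ∀ S i, f (BaseU_s p i S) = f S := by
  refine ⟨fun S => Quotient.out (Quotient.mk (BaseU_setoid p) S), fun S => ?_, fun S i => ?_⟩
  · have h : (BaseU_setoid p).r (Quotient.out (Quotient.mk (BaseU_setoid p) S)) S :=
      Quotient.exact (Quotient.out_eq _)
    exact h
  · have h : Quotient.mk (BaseU_setoid p) (BaseU_s p i S) = Quotient.mk (BaseU_setoid p) S :=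
      (Quotient.sound (⟨i, rfl⟩ : (BaseU_setoid p).r S (BaseU_s p i S))).symm
    change Quotient.out (Quotient.mk (BaseU_setoid p) (BaseU_s p i S)) = _
    rw [h]

end reps

/-- representatives for the subsets with `m` elements under the shift; every such subset is in
exactly one way a shift of a representative -/
theorem exists_reps (p : ℕ) [Fact p.Prime] {m : ℕ} (h1 : 0 < m) (h2 : m < p) :
    ∃ Rm : Finset (Finset (ZMod p)), (∀ S ∈ Rm, S.card = m) ∧
      ∀ {A : Type} [AddCommMonoid A] (φ : Finset (ZMod p) → A),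
        ∑ S ∈ Finset.univ.filter (fun S : Finset (ZMod p) => S.card = m), φ S =
          ∑ S ∈ Rm, ∑ i : ZMod p, φ (S.image fun j => j - i) := by
  classical
  obtain ⟨f, hf, hf'⟩ := BaseU_rep p
  have hff : ∀ S, f (f S) = f S := by
    intro S
    obtain ⟨i, hi⟩ := hf S
    conv_rhs => rw [hi]
    rw [hf']
  have hcard : ∀ S, (f S).card = S.card := by
    intro S
    obtain ⟨i, hi⟩ := hf S
    conv_rhs => rw [hi]
    rw [BaseU_s_card]
  refine ⟨Finset.univ.filter fun S => S.card = m ∧ f S = S, fun S hS => ?_, ?_⟩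
  · exact (Finset.mem_filter.1 hS).2.1
  intro A _ φ
  rw [← Finset.sum_fiberwise_of_maps_to (t := Finset.univ.filter fun S => S.card = m ∧ f S = S)
    (g := f) (fun S hS => ?_)]
  · refine Finset.sum_congr rfl fun S hS => ?_
    obtain ⟨-, hS1, hS2⟩ := Finset.mem_filter.1 hS
    have hinj : Function.Injective fun i : ZMod p => BaseU_s p i S := by
      intro i k hik
      have h3 : BaseU_s p (-k) (BaseU_s p i S) = BaseU_s p (-k) (BaseU_s p k S) :=
        congrArg _ hik
      rw [BaseU_s_s, BaseU_s_s, add_neg_cancel, BaseU_s_zero] at h3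
      have h4 := BaseU_free p (by omega) (by omega) h3
      exact eq_of_sub_eq_zero (by rw [sub_eq_add_neg]; exact h4)
    have himg : (Finset.univ.filter fun S' : Finset (ZMod p) => S'.card = m).filter
        (fun S' => f S' = S) = Finset.univ.image fun i : ZMod p => BaseU_s p i S := by
      ext S'
      rw [Finset.mem_filter, Finset.mem_filter, Finset.mem_image]
      constructor
      · rintro ⟨-, h3⟩
        obtain ⟨i, hi⟩ := hf S'
        exact ⟨i, Finset.mem_univ _, by rw [hi, h3]⟩
      · rintro ⟨i, -, rfl⟩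
        exact ⟨⟨Finset.mem_univ _, by rw [BaseU_s_card, hS1]⟩, by rw [hf', hS2]⟩
    rw [himg, Finset.sum_image fun i _ k _ h => hinj h]
    rfl
  · obtain ⟨-, hS1⟩ := Finset.mem_filter.1 hS
    exact Finset.mem_filter.2 ⟨Finset.mem_univ _, by rw [hcard, hS1], hff S⟩

variable {p : ℕ} [hp : Fact p.Prime]

section incl

variable {F : Type} [Group F]

private def BaseU_v (w : F) (S : Finset (ZMod p)) : BB p F :=
  ∑ T ∈ S.powerset, (-1 : ZMod p) ^ (S.card - T.card) • single (kp T fun _ => w) 1

private theorem BaseU_v_univ (w : F) : BaseU_v w (Finset.univ : Finset (ZMod p)) = vU w := by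
  unfold BaseU_v vU
  rw [Finset.powerset_univ, Finset.card_univ, ZMod.card]

private theorem BaseU_sum_insert {A : Type} [AddCommGroup A] [Module (ZMod p) A]
    (f : Finset (ZMod p) → A) {a : ZMod p} {S : Finset (ZMod p)} (ha : a ∉ S) :
    ∑ T ∈ (insert a S).powerset, (-1 : ZMod p) ^ ((insert a S).card - T.card) • f T =
      ∑ T ∈ S.powerset, (-1 : ZMod p) ^ (S.card - T.card) • f (insert a T) -
        ∑ T ∈ S.powerset, (-1 : ZMod p) ^ (S.card - T.card) • f T := by
  rw [Finset.sum_powerset_insert ha, Finset.card_insert_of_notMem ha, add_comm,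
    sub_eq_add_neg, ← Finset.sum_neg_distrib]
  congr 1
  · refine Finset.sum_congr rfl fun T hT => ?_
    have hT' := Finset.mem_powerset.1 hT
    rw [Finset.card_insert_of_notMem fun h => ha (hT' h), Nat.add_sub_add_right]
  · refine Finset.sum_congr rfl fun T hT => ?_
    have hT' := Finset.card_le_card (Finset.mem_powerset.1 hT)
    rw [Nat.succ_sub hT', pow_succ, mul_neg_one, neg_smul]

private theorem BaseU_inv {A : Type} [AddCommGroup A] [Module (ZMod p) A]
    (U : Finset (ZMod p)) : ∀ f : Finset (ZMod p) → A,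
    ∑ S ∈ U.powerset, ∑ T ∈ S.powerset, (-1 : ZMod p) ^ (S.card - T.card) • f T = f U := by
  classical
  induction U using Finset.induction_on with
  | empty =>
    intro f
    simp
  | insert a U ha ih =>
    intro f
    rw [Finset.sum_powerset_insert ha, ih f]
    have h1 : ∀ S ∈ U.powerset, ∑ T ∈ (insert a S).powerset,
        (-1 : ZMod p) ^ ((insert a S).card - T.card) • f T =
        ∑ T ∈ S.powerset, (-1 : ZMod p) ^ (S.card - T.card) • f (insert a T) -
          ∑ T ∈ S.powerset, (-1 : ZMod p) ^ (S.card - T.card) • f T := fun S hS =>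
      BaseU_sum_insert f fun h => ha (Finset.mem_powerset.1 hS h)
    rw [Finset.sum_congr rfl h1, Finset.sum_sub_distrib, ih f, ih fun T => f (insert a T)]
    abel

private theorem BaseU_kp (R T : Finset (ZMod p)) (z : ZMod p → F) :
    kp R (kp T z) = kp (R ∩ T) z := by
  funext j
  change (if j ∈ R then (if j ∈ T then z j else 1) else 1) = if j ∈ R ∩ T then z j else 1
  by_cases h1 : j ∈ R <;> by_cases h2 : j ∈ T <;> simp [h1, h2]

private theorem BaseU_pk_v (w : F) {S R : Finset (ZMod p)} (h : ¬ S ⊆ R) :
    pk R (BaseU_v w S) = 0 := by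
  classical
  obtain ⟨a, haS, haR⟩ := Finset.not_subset.1 h
  unfold BaseU_v
  have h0 : ∀ S' : Finset (ZMod p), pk R (∑ T ∈ S'.powerset,
      (-1 : ZMod p) ^ (S'.card - T.card) • single (kp T fun _ => w) 1) =
      ∑ T ∈ S'.powerset, (-1 : ZMod p) ^ (S'.card - T.card) •
        (single (kp (R ∩ T) fun _ => w) 1 : BB p F) := by
    intro S'
    rw [map_sum]
    refine Finset.sum_congr rfl fun T _ => ?_
    rw [pk_smul, pk_single, BaseU_kp]
  rw [h0]
  obtain ⟨S', haS', rfl⟩ : ∃ S', a ∉ S' ∧ S = insert a S' :=
    ⟨S.erase a, Finset.notMem_erase a S, (Finset.insert_erase haS).symm⟩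
  rw [BaseU_sum_insert (fun T => (single (kp (R ∩ T) fun _ => w) 1 : BB p F)) haS', sub_eq_zero]
  refine Finset.sum_congr rfl fun T _ => ?_
  rw [Finset.inter_insert_of_notMem haR]

private theorem BaseU_v_mem (w : F) {S : Finset (ZMod p)} {m : ℕ} (h : m ≤ S.card) :
    BaseU_v w S ∈ JJ p F m := by
  intro T hT
  exact BaseU_pk_v w fun h1 => by
    have := Finset.card_le_card h1
    omega

private theorem BaseU_sg_v (w : F) (i : ZMod p) (S : Finset (ZMod p)) :
    sg i (BaseU_v w S) = BaseU_v w (S.image fun j => j + i) := by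
  classical
  have hinj : Function.Injective fun j : ZMod p => j + i := add_left_injective i
  unfold BaseU_v
  rw [Finset.powerset_image, Finset.sum_image fun T _ T' _ h => Finset.image_injective hinj h,
    map_sum]
  refine Finset.sum_congr rfl fun T _ => ?_
  rw [sg_smul, sg_single, Finset.card_image_of_injective _ hinj,
    Finset.card_image_of_injective _ hinj]
  congr 2
  funext j
  change (if j - i ∈ T then w else 1) = if j ∈ T.image fun j => j + i then w else 1
  have h1 : (j ∈ T.image fun j => j + i) ↔ j - i ∈ T := by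
    rw [Finset.mem_image]
    constructor
    · rintro ⟨k, hk, rfl⟩
      rwa [add_sub_cancel_right]
    · intro hj
      exact ⟨j - i, hj, sub_add_cancel j i⟩
  simp only [h1]

private theorem BaseU_Nm_v (w : F) (S : Finset (ZMod p)) :
    Nm (BaseU_v w S) = ∑ i : ZMod p, BaseU_v w (S.image fun j => j - i) := by
  unfold Nm
  rw [← Equiv.sum_comp (Equiv.neg (ZMod p))]
  refine Finset.sum_congr rfl fun i _ => ?_
  rw [BaseU_sg_v]
  congr 2
  funext j
  exact (sub_eq_add_neg j i).symm

end incl

theorem vU_mem {F : Type} [Group F] (w : F) : vU w ∈ JJ p F p := by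
  rw [← BaseU_v_univ]
  refine BaseU_v_mem w ?_
  rw [Finset.card_univ, ZMod.card]

private theorem BaseU_mid {F : Type} [Group F] (w : F) :
    ∃ z ∈ JJ p F 1, ∑ m ∈ Finset.Ico 1 p,
      ∑ S ∈ Finset.univ.filter (fun S : Finset (ZMod p) => S.card = m), BaseU_v w S = Nm z := by
  refine Finset.sum_induction _ (fun y => ∃ z ∈ JJ p F 1, y = Nm z) ?_ ?_ ?_
  · rintro _ _ ⟨z, hz, rfl⟩ ⟨z', hz', rfl⟩
    exact ⟨z + z', Submodule.add_mem _ hz hz', (Nm_add z z').symm⟩
  · refine ⟨0, Submodule.zero_mem _, ?_⟩
    have h := Nm_sum (p := p) (F := F) (∅ : Finset ℕ) fun _ => 0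
    rw [Finset.sum_empty, Finset.sum_empty] at h
    exact h.symm
  · intro m hm
    rw [Finset.mem_Ico] at hm
    obtain ⟨Rm, hR, h⟩ := exists_reps p (m := m) (by omega) hm.2
    refine ⟨∑ S ∈ Rm, BaseU_v w S, Submodule.sum_mem _ fun S hS => ?_, ?_⟩
    · exact BaseU_v_mem w (by rw [hR S hS]; exact hm.1)
    · rw [h, Nm_sum]
      exact Finset.sum_congr rfl fun S _ => (BaseU_Nm_v w S).symm

/-- `w ⊗ ⋯ ⊗ w = 1 + Nm z + (w - 1) ⊗ ⋯ ⊗ (w - 1)` -/
theorem single_const {F : Type} [Group F] (w : F) : ∃ z ∈ JJ p F 1,
    (single (fun _ : ZMod p => w) 1 : BB p F) = 1 + Nm z + vU w := by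
  classical
  obtain ⟨z, hz, hzN⟩ := BaseU_mid (p := p) w
  have hp1 : 1 ≤ p := hp.out.one_lt.le
  have htot : ∑ S ∈ (Finset.univ : Finset (Finset (ZMod p))), BaseU_v w S =
      (single (fun _ : ZMod p => w) 1 : BB p F) := by
    have h := BaseU_inv (p := p) (A := BB p F) Finset.univ
      fun T => single (kp T fun _ => w) 1
    rw [Finset.powerset_univ] at h
    have h2 : kp (Finset.univ : Finset (ZMod p)) (fun _ => w) = fun _ => w := by
      funext j
      change (if j ∈ Finset.univ then w else 1) = w
      rw [if_pos (Finset.mem_univ j)]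
    rw [h2] at h
    exact h
  have hsplit : ∑ S ∈ (Finset.univ : Finset (Finset (ZMod p))), BaseU_v w S =
      1 + Nm z + vU w := by
    rw [← Finset.sum_fiberwise_of_maps_to (t := Finset.range (p + 1)) (g := Finset.card)
      fun S _ => Finset.mem_range.2 (Nat.lt_succ_of_le ?_)]
    · rw [Finset.sum_range_succ, Finset.range_eq_Ico,
        Finset.sum_eq_sum_Ico_succ_bot (by omega : 0 < p), hzN]
      congr 1
      · congr 1
        have h3 : Finset.univ.filter (fun S : Finset (ZMod p) => S.card = 0) = {∅} := by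
          ext S
          simp
        rw [h3, Finset.sum_singleton]
        unfold BaseU_v
        rw [Finset.powerset_empty, Finset.sum_singleton, Nat.sub_self, pow_zero, one_smul]
        have h4 : kp (∅ : Finset (ZMod p)) (fun _ => w) = 1 := by
          funext j
          change (if j ∈ (∅ : Finset (ZMod p)) then w else 1) = 1
          rw [if_neg (Finset.notMem_empty j)]
        rw [h4]
        rfl
      · have h3 : Finset.univ.filter (fun S : Finset (ZMod p) => S.card = p) =
            {Finset.univ} := by
          ext S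
          rw [Finset.mem_filter, Finset.mem_singleton]
          constructor
          · rintro ⟨-, h⟩
            exact (Finset.card_eq_iff_eq_univ S).1 (by rw [h, ZMod.card])
          · rintro rfl
            exact ⟨Finset.mem_univ _, by rw [Finset.card_univ, ZMod.card]⟩
        rw [h3, Finset.sum_singleton, BaseU_v_univ]
    · have := Finset.card_le_univ S
      rwa [ZMod.card] at this
  exact ⟨z, hz, htot.symm.trans hsplit⟩

theorem base {ι : Type} [DecidableEq ι] [Fintype ι] (g : MulAut (FreeGroup ι)) (N : ℕ)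
    {w : FreeGroup ι} (hw : g w = w)
    (hv : ∀ x, eps (ZMod p) (FreeGroup ι) (foxl (ZMod p) x (single w 1)) = 0) :
    InU g N 1 (vU w : BB p (FreeGroup ι)) := by
  classical
  have hio : io g w = fun _ : ZMod p => w := by
    funext j
    change (g ^ j.val)⁻¹ w = w
    have hpow : ∀ k : ℕ, (g ^ k) w = w := by
      intro k
      induction k with
      | zero => rfl
      | succ k ih => rw [pow_succ, MulAut.mul_apply, hw, ih]
    conv_lhs => rw [← hpow j.val]
    exact MulAut.inv_apply_self _ (g ^ j.val) w
  obtain ⟨z, hz, hzN⟩ := BaseU_mid (p := p) w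
  have hp1 : 1 ≤ p := hp.out.one_lt.le
  have htot : ∑ S ∈ (Finset.univ : Finset (Finset (ZMod p))), BaseU_v w S =
      (single (fun _ : ZMod p => w) 1 : BB p (FreeGroup ι)) := by
    have h := BaseU_inv (p := p) (A := BB p (FreeGroup ι)) Finset.univ
      fun T => single (kp T fun _ => w) 1
    rw [Finset.powerset_univ] at h
    have h2 : kp (Finset.univ : Finset (ZMod p)) (fun _ => w) = fun _ => w := by
      funext j
      change (if j ∈ Finset.univ then w else 1) = w
      rw [if_pos (Finset.mem_univ j)]
    rw [h2] at h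
    exact h
  have hsplit : ∑ S ∈ (Finset.univ : Finset (Finset (ZMod p))), BaseU_v w S =
      1 + Nm z + vU w := by
    rw [← Finset.sum_fiberwise_of_maps_to (t := Finset.range (p + 1)) (g := Finset.card)
      fun S _ => Finset.mem_range.2 (Nat.lt_succ_of_le ?_)]
    · rw [Finset.sum_range_succ, Finset.range_eq_Ico,
        Finset.sum_eq_sum_Ico_succ_bot (by omega : 0 < p), hzN]
      congr 1
      · congr 1
        have h3 : Finset.univ.filter (fun S : Finset (ZMod p) => S.card = 0) = {∅} := by
          ext S
          simp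
        rw [h3, Finset.sum_singleton]
        unfold BaseU_v
        rw [Finset.powerset_empty, Finset.sum_singleton, Nat.sub_self, pow_zero, one_smul]
        have h4 : kp (∅ : Finset (ZMod p)) (fun _ => w) = 1 := by
          funext j
          change (if j ∈ (∅ : Finset (ZMod p)) then w else 1) = 1
          rw [if_neg (Finset.notMem_empty j)]
        rw [h4]
        rfl
      · have h3 : Finset.univ.filter (fun S : Finset (ZMod p) => S.card = p) =
            {Finset.univ} := by
          ext S
          rw [Finset.mem_filter, Finset.mem_singleton]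
          constructor
          · rintro ⟨-, h⟩
            exact (Finset.card_eq_iff_eq_univ S).1 (by rw [h, ZMod.card])
          · rintro rfl
            exact ⟨Finset.mem_univ _, by rw [Finset.card_univ, ZMod.card]⟩
        rw [h3, Finset.sum_singleton, BaseU_v_univ]
    · have := Finset.card_le_univ S
      rwa [ZMod.card] at this
  have hfox : (single w 1 : MonoidAlgebra (ZMod p) (FreeGroup ι)) =
      1 + ∑ x, XX p x * foxl (ZMod p) x (single w 1) := by
    have h := foxl_sum (R := ZMod p) (single w 1 : MonoidAlgebra (ZMod p) (FreeGroup ι))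
    have h5 : eps (ZMod p) (FreeGroup ι) (single w 1) = 1 := by
      unfold eps
      rw [MonoidAlgebra.lift_single]
      simp
    rw [h5] at h
    exact h
  refine ⟨fun x => ia g (foxl (ZMod p) x (single w 1)), -z, fun x => ia_JJ g (hv x),
    Submodule.neg_mem _ hz, ?_⟩
  have h6 : ia g (single w 1 : MonoidAlgebra (ZMod p) (FreeGroup ι)) =
      1 + ∑ x, ia g (XX p x) * ia g (foxl (ZMod p) x (single w 1)) := by
    conv_lhs => rw [hfox]
    rw [map_add, map_one, map_sum]
    congr 1
    exact Finset.sum_congr rfl fun x _ => map_mul _ _ _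
  rw [ia_single, hio, ← htot, hsplit] at h6
  have h7 : Nm (-z) = -Nm z := by
    have h8 := Nm_add z (-z)
    rw [add_neg_cancel] at h8
    have h9 : Nm (0 : BB p (FreeGroup ι)) = 0 := by
      have h := Nm_sum (p := p) (F := FreeGroup ι) (∅ : Finset ℕ) fun _ => 0
      rw [Finset.sum_empty, Finset.sum_empty] at h
      exact h
    rw [h9] at h8
    exact eq_neg_of_add_eq_zero_right h8.symm
  have h10 : vU w - (∑ x, ia g (XX p x) * ia g (foxl (ZMod p) x (single w 1)) + Nm (-z)) =
      (0 : BB p (FreeGroup ι)) := by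
    rw [h7]
    have h11 : ∑ x, ia g (XX p x) * ia g (foxl (ZMod p) x (single w 1)) =
        Nm z + vU w := by
      rw [add_assoc] at h6
      exact (add_left_cancel h6).symm
    rw [h11]
    abel
  rw [h10]
  exact Submodule.zero_mem _

end Pool.Agent.MCG
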