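import Mathlib

set_option autoImplicit false
set_option linter.unusedSectionVars false

noncomputable section

/-!
PACKAGE MCG-COAT. A proper subgroup of a finite `p`-group is contained in the kernel of a nontrivial
homomorphism to `Z/p`: take a maximal subgroup `M ≥ K` (`IsCoatomic`), it is normal
(`Group.normalizerCondition_of_isNilpotent`, `NormalizerCondition.normal_of_coatom`), the quotient
`P / M` is a
simple group and a `p`-group, so it has order `p` (`IsPGroup`, nontrivial center, `IsSimpleGroup`;
or: the index of a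
coatom of a `p`-group), so it is cyclic of order `p` and isomorphic to `Multiplicative (ZMod p)`
(`zmodCyclicMulEquiv` or `mulEquivOfPrimeCardEq`).
-/

namespace Pool.Agent.MCG

theorem exists_alpha {p : ℕ} [Fact p.Prime] {P : Type} [Group P] [Finite P] (hP : IsPGroup p P)
    (K : Subgroup P) (hK : K ≠ ⊤) :
    ∃ α : P →* Multiplicative (ZMod p), α ≠ 1 ∧ ∀ y ∈ K, α y = 1 := by
  have hp : p.Prime := Fact.out
  obtain ⟨n, hn⟩ := IsPGroup.iff_card.1 hP
  obtain ⟨m, hm⟩ := IsPGroup.iff_card.1 (hP.to_subgroup K)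
  have hmn : m < n := by
    by_contra h
    apply hK
    apply Subgroup.eq_top_of_le_card
    rw [hn, hm]
    exact Nat.pow_le_pow_right hp.pos (not_lt.1 h)
  obtain ⟨r, rfl⟩ : ∃ r, n = r + 1 := ⟨n - 1, by omega⟩
  obtain ⟨M, hM, hKM⟩ := Sylow.exists_subgroup_card_pow_prime_le p (n := m) (m := r)
    (by rw [hn]; exact pow_dvd_pow p (Nat.le_succ r)) K hm (by omega)
  have hidx : M.index = p := by
    have h1 := M.card_mul_index
    rw [hM, hn, pow_succ] at h1
    exact Nat.eq_of_mul_eq_mul_left (pow_pos hp.pos r) h1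
  haveI hMn : M.Normal := by
    apply Subgroup.normal_of_index_eq_minFac_card
    rw [hidx, hn, Nat.Prime.pow_minFac hp (Nat.succ_ne_zero r)]
  have hQ : Nat.card (P ⧸ M) = p := hidx
  have hZ : Nat.card (Multiplicative (ZMod p)) = p := by
    rw [Nat.card_congr (Multiplicative.toAdd (α := ZMod p)), Nat.card_zmod]
  let e : (P ⧸ M) ≃* Multiplicative (ZMod p) := mulEquivOfPrimeCardEq hQ hZ
  refine ⟨e.toMonoidHom.comp (QuotientGroup.mk' M), ?_, ?_⟩
  · intro h
    have h1 : M = ⊤ := by
      rw [eq_top_iff]
      intro x _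
      have h2 := DFunLike.congr_fun h x
      simp only [MonoidHom.comp_apply, MonoidHom.one_apply, MulEquiv.toMonoidHom_eq_coe,
        MonoidHom.coe_coe, QuotientGroup.mk'_apply, EmbeddingLike.map_eq_one_iff] at h2
      exact (QuotientGroup.eq_one_iff x).1 h2
    rw [h1, Subgroup.index_top] at hidx
    exact hp.one_lt.ne hidx
  · intro y hy
    have h3 : (QuotientGroup.mk' M) y = 1 := by
      rw [QuotientGroup.mk'_apply]
      exact (QuotientGroup.eq_one_iff y).2 (hKM hy)
    rw [MonoidHom.comp_apply, h3, map_one]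

end Pool.Agent.MCG
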