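import Pool.Agent.MCG.BaseU

set_option autoImplicit false
set_option linter.unusedSectionVars false

noncomputable section

/-!
PACKAGE MCG-CX. (1.5) of the page. `tens a` is the tensor product of the elements `a j` (slot `j`).

`tens` is multilinear (`tens_add`, `tens_smul` or a `MultilinearMap`, as you like) and
`tens (fun j => single (z j) (c j)) = single z (∏ c j)`. Let `emb j : F → F^p` be
`MonoidHom.mulSingle`, `D j` the linear map with
`D j (single z 1) = single (z with slot j replaced by 1) 1 * (emb j) (foxr x (single (z j) 1))`.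
Then `D j (a * b) = a * D j b + D j a * pk (univ \ {j}) b` (check on group elements: `foxr_mul`; the
elements of the slot `j` commute with the elements of the other slots). `pk (univ \ {j'}) (D j z) =
D j (pk (univ \ {j'}) z)` for `j' ≠ j`, so if `pk (univ \ {j'}) z = 0` then also for `D j z`. So for
the
composition `c` of all `D j`: `c (u * z) = u * c z` if `z ∈ J_p`. `D j (Fil (n + 1)) ≤ Fil n`
(`fil_succ_le_of_right`: `D j (v * (z - 1)) = v * D j z + D j v * (pk .. z - 1)`, induction), so
`c (Fil (n + p)) ≤ Fil n`. On group elements `c (single z 1) = tens (fun j => foxr x (single (z j)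
1))`;
so `c` commutes with `sg i` (`tens` of the shifted family is the shift of `tens`), and
`c (vU w) = tens (fun _ => foxr x (single w 1))` because `foxr x 1 = 0`: only `T = univ` survives
(the others have a slot with `1`), its coefficient is `(-1) ^ 0`.
You may also define `c` directly by the formula with `tens` and prove the properties from it.
-/

namespace Pool.Agent.MCG

open MonoidAlgebra Pool.Agent.Lvl

variable {p : ℕ} [hp : Fact p.Prime]

/-- the tensor product of the elements `a j` -/
def tens {F : Type} [Group F] (a : ZMod p → MonoidAlgebra (ZMod p) F) : BB p F :=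
  ∑ z ∈ Fintype.piFinset (fun j => (a j).coeff.support), single z (∏ j, (a j).coeff (z j))

private abbrev RR_Cx (p : ℕ) (F : Type) [Group F] : Type := MonoidAlgebra (ZMod p) F

section tensors

variable {F : Type} [Group F]

private theorem coeff_Cx (a : ZMod p → RR_Cx p F) (z : ZMod p → F) :
    (tens a).coeff z = ∏ j, (a j).coeff (z j) := by
  classical
  unfold tens
  rw [coeff_sum, Finsupp.finsetSum_apply]
  have h1 : ∀ y ∈ Fintype.piFinset (fun j => (a j).coeff.support),
      (single y (∏ j, (a j).coeff (y j)) : BB p F).coeff z =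
        if y = z then ∏ j, (a j).coeff (z j) else 0 := by
    intro y _
    rw [coeff_single, Finsupp.single_apply]
    split_ifs with h
    · rw [h]
    · rfl
  rw [Finset.sum_congr rfl h1, Finset.sum_ite_eq']
  split_ifs with h
  · rfl
  · rw [Fintype.mem_piFinset] at h
    push Not at h
    obtain ⟨j, hj⟩ := h
    rw [Finsupp.notMem_support_iff] at hj
    exact (Finset.prod_eq_zero (Finset.mem_univ j) hj).symm

/-- the coefficient at `z` as a multilinear map -/
private def cM_Cx (z : ZMod p → F) :
    MultilinearMap (ZMod p) (fun _ : ZMod p => RR_Cx p F) (ZMod p) :=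
  (MultilinearMap.mkPiAlgebra (ZMod p) (ZMod p) (ZMod p)).compLinearMap fun j =>
    (Finsupp.lapply (z j)).comp (coeffLinearEquiv (ZMod p)).toLinearMap

private theorem cM_apply_Cx (z : ZMod p → F) (a : ZMod p → RR_Cx p F) :
    cM_Cx z a = (tens a).coeff z := by
  rw [coeff_Cx]
  rfl

private def tM_Cx : MultilinearMap (ZMod p) (fun _ : ZMod p => RR_Cx p F) (BB p F) where
  toFun := tens
  map_update_add' := by
    intro _ a i x y
    ext z
    rw [coeff_add, Finsupp.add_apply, ← cM_apply_Cx, ← cM_apply_Cx, ← cM_apply_Cx]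
    convert (cM_Cx z).map_update_add a i x y
  map_update_smul' := by
    intro _ a i c x
    ext z
    rw [coeff_smul, Finsupp.smul_apply, ← cM_apply_Cx, ← cM_apply_Cx]
    convert (cM_Cx z).map_update_smul a i c x

private theorem tM_apply_Cx (a : ZMod p → RR_Cx p F) : tM_Cx a = tens a := rfl

private theorem tM_single_Cx (z : ZMod p → F) :
    tM_Cx (fun j => (single (z j) 1 : RR_Cx p F)) = single z 1 := by
  classical
  ext y
  rw [tM_apply_Cx, coeff_Cx, coeff_single, Finsupp.single_apply]
  by_cases h : z = y
  · subst h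
    rw [if_pos rfl]
    exact Finset.prod_eq_one fun j _ => by rw [coeff_single, Finsupp.single_apply, if_pos rfl]
  · rw [if_neg h]
    obtain ⟨j, hj⟩ := Function.ne_iff.1 h
    exact Finset.prod_eq_zero (Finset.mem_univ j) (by
      rw [coeff_single, Finsupp.single_apply, if_neg hj])

private theorem ext_Cx {N : Type} [AddCommGroup N] [Module (ZMod p) N]
    {f g : MultilinearMap (ZMod p) (fun _ : ZMod p => RR_Cx p F) N}
    (h : ∀ z : ZMod p → F, f (fun j => single (z j) 1) = g fun j => single (z j) 1) : f = g :=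
  Module.Basis.ext_multilinear (fun _ => MonoidAlgebra.basis F (ZMod p)) fun v => by
    simpa using h v

private theorem lext_Cx {N : Type} [AddCommGroup N] [Module (ZMod p) N]
    {f g : BB p F →ₗ[ZMod p] N} (h : ∀ z, f (single z 1) = g (single z 1)) : f = g :=
  (MonoidAlgebra.basis (ZMod p → F) (ZMod p)).ext fun z => by simpa using h z

/-- `tens` of products with group elements -/
private theorem mul_single_Cx (y : ZMod p → F) (b : ZMod p → RR_Cx p F) :
    tM_Cx (fun j => single (y j) 1 * b j) = single y 1 * tM_Cx b := by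
  have h : tM_Cx.compLinearMap (fun j => LinearMap.mulLeft (ZMod p) (single (y j) 1 : RR_Cx p F)) =
      (LinearMap.mulLeft (ZMod p) (single y 1 : BB p F)).compMultilinearMap tM_Cx := by
    refine ext_Cx fun z => ?_
    rw [MultilinearMap.compLinearMap_apply, LinearMap.compMultilinearMap_apply, tM_single_Cx,
      LinearMap.mulLeft_apply, single_mul_single, one_mul, ← tM_single_Cx]
    congr 1
    funext j
    rw [LinearMap.mulLeft_apply, single_mul_single, one_mul, Pi.mul_apply]
  exact congrArg (fun f => f b) h

private theorem mul_Cx (a b : ZMod p → RR_Cx p F) :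
    tM_Cx (fun j => a j * b j) = tM_Cx a * tM_Cx b := by
  have h : tM_Cx.compLinearMap (fun j => LinearMap.mulRight (ZMod p) (b j)) =
      (LinearMap.mulRight (ZMod p) (tM_Cx b)).compMultilinearMap tM_Cx := by
    refine ext_Cx fun z => ?_
    rw [MultilinearMap.compLinearMap_apply, LinearMap.compMultilinearMap_apply, tM_single_Cx,
      LinearMap.mulRight_apply, ← mul_single_Cx]
    rfl
  exact congrArg (fun f => f a) h

/-- the tensor product of linear maps -/
private def tmap_Cx (φ : ZMod p → (RR_Cx p F →ₗ[ZMod p] RR_Cx p F)) : BB p F →ₗ[ZMod p] BB p F :=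
  (MonoidAlgebra.basis (ZMod p → F) (ZMod p)).constr (ZMod p)
    fun z => tM_Cx fun j => φ j (single (z j) 1)

private theorem tmap_single_Cx (φ : ZMod p → (RR_Cx p F →ₗ[ZMod p] RR_Cx p F)) (z : ZMod p → F) :
    tmap_Cx φ (single z 1) = tM_Cx fun j => φ j (single (z j) 1) := by
  have h := (MonoidAlgebra.basis (ZMod p → F) (ZMod p)).constr_basis (ZMod p)
    (fun z => tM_Cx fun j => φ j (single (z j) 1)) z
  rw [MonoidAlgebra.basis_apply] at h
  exact h

private theorem tmap_tM_Cx (φ : ZMod p → (RR_Cx p F →ₗ[ZMod p] RR_Cx p F))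
    (a : ZMod p → RR_Cx p F) : tmap_Cx φ (tM_Cx a) = tM_Cx fun j => φ j (a j) := by
  have h : (tmap_Cx φ).compMultilinearMap tM_Cx = tM_Cx.compLinearMap φ := by
    refine ext_Cx fun z => ?_
    rw [LinearMap.compMultilinearMap_apply, tM_single_Cx, tmap_single_Cx,
      MultilinearMap.compLinearMap_apply]
  exact congrArg (fun f => f a) h

private theorem tmap_comp_Cx (φ ψ : ZMod p → (RR_Cx p F →ₗ[ZMod p] RR_Cx p F)) :
    tmap_Cx (fun j => φ j ∘ₗ ψ j) = tmap_Cx φ ∘ₗ tmap_Cx ψ := by
  refine lext_Cx fun z => ?_
  rw [LinearMap.comp_apply, tmap_single_Cx, tmap_single_Cx, tmap_tM_Cx]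
  rfl

private theorem tmap_id_Cx :
    tmap_Cx (fun _ => (LinearMap.id : RR_Cx p F →ₗ[ZMod p] RR_Cx p F)) = LinearMap.id := by
  refine lext_Cx fun z => ?_
  rw [tmap_single_Cx]
  exact tM_single_Cx z

private theorem shift_Cx (i : ZMod p) (a : ZMod p → RR_Cx p F) :
    sg i (tM_Cx a) = tM_Cx fun j => a (j - i) := by
  have h : (mapDomainLinearMap (ZMod p) (ZMod p) (sh (p := p) (F := F) i)).compMultilinearMap
      tM_Cx = tM_Cx.domDomCongr (Equiv.subRight i) := by
    refine ext_Cx fun z => ?_
    rw [LinearMap.compMultilinearMap_apply, tM_single_Cx, mapDomainLinearMap_single,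
      MultilinearMap.domDomCongr_apply]
    exact (tM_single_Cx _).symm
  exact congrArg (fun f => f a) h

end tensors

section fox

variable {ι : Type} [DecidableEq ι] (x : ι)

private def foxS_Cx (S : Finset (ZMod p)) (j : ZMod p) :
    RR_Cx p (FreeGroup ι) →ₗ[ZMod p] RR_Cx p (FreeGroup ι) :=
  if j ∈ S then foxr (ZMod p) x else LinearMap.id

private def D_Cx (j : ZMod p) : BB p (FreeGroup ι) →ₗ[ZMod p] BB p (FreeGroup ι) :=
  tmap_Cx (foxS_Cx x {j})

private theorem D_single_Cx (j : ZMod p) (z : ZMod p → FreeGroup ι) :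
    D_Cx x j (single z 1) =
      tM_Cx (Function.update (fun i => (single (z i) 1 : RR_Cx p (FreeGroup ι))) j
        (foxr (ZMod p) x (single (z j) 1))) := by
  unfold D_Cx
  rw [tmap_single_Cx]
  congr 1
  funext i
  unfold foxS_Cx
  by_cases h : i = j
  · subst h
    rw [if_pos (Finset.mem_singleton_self i), Function.update_self]
  · rw [if_neg (by simpa using h), Function.update_of_ne h]
    rfl

private theorem eps_single_Cx {F : Type} [Group F] (f : F) :
    eps (ZMod p) F (single f 1) = 1 := by
  unfold eps
  rw [MonoidAlgebra.lift_single]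
  simp

private theorem D_mul_Cx (j : ZMod p) (v : BB p (FreeGroup ι)) (g : ZMod p → FreeGroup ι) :
    D_Cx x j (v * single g 1) = v * D_Cx x j (single g 1) +
      D_Cx x j v * single (kp (Finset.univ.erase j) g) 1 := by
  have h : D_Cx x j ∘ₗ LinearMap.mulRight (ZMod p) (single g 1 : BB p (FreeGroup ι)) =
      LinearMap.mulRight (ZMod p) (D_Cx x j (single g 1)) +
        LinearMap.mulRight (ZMod p) (single (kp (Finset.univ.erase j) g) 1 :
          BB p (FreeGroup ι)) ∘ₗ D_Cx x j := by
    refine lext_Cx fun z => ?_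
    rw [LinearMap.comp_apply, LinearMap.mulRight_apply, LinearMap.add_apply,
      LinearMap.mulRight_apply, LinearMap.comp_apply, LinearMap.mulRight_apply,
      single_mul_single, one_mul, D_single_Cx, D_single_Cx, D_single_Cx, ← mul_single_Cx,
      ← tM_single_Cx, ← mul_Cx]
    have e1 : foxr (ZMod p) x (single ((z * g) j) 1) =
        single (z j) 1 * foxr (ZMod p) x (single (g j) 1) +
          foxr (ZMod p) x (single (z j) 1) := by
      have h1 := foxr_mul (R := ZMod p) x (single (z j) 1 : RR_Cx p (FreeGroup ι))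
        (single (g j) 1)
      rw [single_mul_single, one_mul, eps_single_Cx, one_smul] at h1
      exact h1
    rw [e1, MultilinearMap.map_update_add]
    congr 1
    · congr 1
      funext i
      by_cases h : i = j
      · subst h
        rw [Function.update_self, Function.update_self]
      · rw [Function.update_of_ne h, Function.update_of_ne h, single_mul_single, one_mul,
          Pi.mul_apply]
    · congr 1
      funext i
      by_cases h : i = j
      · subst h
        rw [Function.update_self, Function.update_self]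
        have e2 : kp (Finset.univ.erase i) g i = 1 := if_neg (Finset.notMem_erase i _)
        rw [e2, ← MonoidAlgebra.one_def, mul_one]
      · rw [Function.update_of_ne h, Function.update_of_ne h]
        have e2 : kp (Finset.univ.erase j) g i = g i :=
          if_pos (Finset.mem_erase.2 ⟨h, Finset.mem_univ i⟩)
        rw [e2, single_mul_single, one_mul, Pi.mul_apply]
  exact LinearMap.congr_fun h v

private theorem D_fil_Cx (j : ZMod p) : ∀ n : ℕ, ∀ v ∈
    Fil (ZMod p) (ZMod p → FreeGroup ι) (n + 1),
    D_Cx x j v ∈ Fil (ZMod p) (ZMod p → FreeGroup ι) n := by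
  intro n
  induction n with
  | zero => exact fun v _ => mem_fil_zero _
  | succ n ih =>
    have h : Fil (ZMod p) (ZMod p → FreeGroup ι) (n + 1 + 1) ≤
        (Fil (ZMod p) (ZMod p → FreeGroup ι) (n + 1)).comap (D_Cx x j) := by
      refine fil_succ_le_of_right _ fun g v hv => ?_
      rw [Submodule.mem_comap, mul_sub, mul_one, map_sub, D_mul_Cx]
      have e : v * D_Cx x j (single g 1) + D_Cx x j v * single (kp (Finset.univ.erase j) g) 1 -
          D_Cx x j v = v * D_Cx x j (single g 1) +
            D_Cx x j v * (single (kp (Finset.univ.erase j) g) 1 - 1) := by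
        rw [mul_sub, mul_one]
        abel
      rw [e]
      exact Submodule.add_mem _ (fil_mul_right hv _) (fil_mul (ih v hv) (single_sub_mem _))
    exact fun v hv => h hv

private def cS_Cx (S : Finset (ZMod p)) : BB p (FreeGroup ι) →ₗ[ZMod p] BB p (FreeGroup ι) :=
  tmap_Cx (foxS_Cx x S)

private theorem cS_insert_Cx {S : Finset (ZMod p)} {j : ZMod p} (hj : j ∉ S) :
    cS_Cx x (insert j S) = D_Cx x j ∘ₗ cS_Cx x S := by
  unfold cS_Cx D_Cx
  rw [← tmap_comp_Cx]
  congr 1
  funext i
  unfold foxS_Cx
  by_cases h : i = j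
  · subst h
    rw [if_pos (Finset.mem_insert_self i S), if_pos (Finset.mem_singleton_self i), if_neg hj]
    rfl
  · rw [if_neg (show i ∉ ({j} : Finset (ZMod p)) by simpa using h)]
    by_cases h2 : i ∈ S
    · rw [if_pos (Finset.mem_insert_of_mem h2), if_pos h2]
      rfl
    · rw [if_neg h2, if_neg (by simp [h, h2])]
      rfl

private theorem cS_fil_Cx (S : Finset (ZMod p)) : ∀ n : ℕ, ∀ z ∈
    Fil (ZMod p) (ZMod p → FreeGroup ι) (n + S.card),
    cS_Cx x S z ∈ Fil (ZMod p) (ZMod p → FreeGroup ι) n := by
  classical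
  induction S using Finset.induction_on with
  | empty =>
    intro n z hz
    have h : cS_Cx x (∅ : Finset (ZMod p)) = LinearMap.id := by
      unfold cS_Cx
      rw [← tmap_id_Cx]
      congr 1
    rw [h]
    simpa using hz
  | insert j S hj ih =>
    intro n z hz
    rw [cS_insert_Cx x hj, LinearMap.comp_apply]
    refine D_fil_Cx x j n _ (ih (n + 1) z ?_)
    rw [Finset.card_insert_of_notMem hj] at hz
    have e : n + (S.card + 1) = n + 1 + S.card := by omega
    rwa [e] at hz

private theorem cS_univ_Cx : cS_Cx x (Finset.univ : Finset (ZMod p)) =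
    tmap_Cx fun _ => foxr (ZMod p) x := by
  unfold cS_Cx
  congr 1
  funext j
  exact if_pos (Finset.mem_univ j)

private def ka_Cx (f : FreeGroup ι) :
    RR_Cx p (FreeGroup ι) →ₗ[ZMod p] RR_Cx p (FreeGroup ι) :=
  (LinearMap.toSpanSingleton (ZMod p) _ (foxr (ZMod p) x (single f 1))) ∘ₗ
    (eps (ZMod p) (FreeGroup ι)).toLinearMap

private theorem ka_single_Cx (f h : FreeGroup ι) :
    ka_Cx (p := p) x f (single h 1) = foxr (ZMod p) x (single f 1) := by
  unfold ka_Cx
  rw [LinearMap.comp_apply, AlgHom.toLinearMap_apply, eps_single_Cx,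
    LinearMap.toSpanSingleton_apply, one_smul]

private theorem left_Cx (y : ZMod p → FreeGroup ι) {z : BB p (FreeGroup ι)}
    (hz : z ∈ JJ p (FreeGroup ι) p) :
    tmap_Cx (fun _ => foxr (ZMod p) x) (single y 1 * z) =
      single y 1 * tmap_Cx (fun _ => foxr (ZMod p) x) z := by
  classical
  let A : ZMod p → (RR_Cx p (FreeGroup ι) →ₗ[ZMod p] RR_Cx p (FreeGroup ι)) := fun j =>
    LinearMap.mulLeft (ZMod p) (single (y j) 1 : RR_Cx p (FreeGroup ι)) ∘ₗ foxr (ZMod p) x
  let B : ZMod p → (RR_Cx p (FreeGroup ι) →ₗ[ZMod p] RR_Cx p (FreeGroup ι)) := fun j =>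
    ka_Cx x (y j)
  have h1 : tmap_Cx (fun _ => foxr (ZMod p) x) ∘ₗ
      LinearMap.mulLeft (ZMod p) (single y 1 : BB p (FreeGroup ι)) =
      ∑ S : Finset (ZMod p), tmap_Cx (S.piecewise A B) := by
    refine lext_Cx fun z => ?_
    rw [LinearMap.comp_apply, LinearMap.mulLeft_apply, single_mul_single, one_mul,
      tmap_single_Cx, LinearMap.sum_apply]
    have e1 : (fun j => foxr (ZMod p) x (single ((y * z) j) 1)) =
        (fun j => A j (single (z j) 1)) + fun j => B j (single (z j) 1) := by
      funext j
      have h1 := foxr_mul (R := ZMod p) x (single (y j) 1 : RR_Cx p (FreeGroup ι))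
        (single (z j) 1)
      rw [single_mul_single, one_mul, eps_single_Cx, one_smul] at h1
      rw [Pi.add_apply]
      show foxr (ZMod p) x (single (y j * z j) 1) =
        single (y j) 1 * foxr (ZMod p) x (single (z j) 1) + ka_Cx x (y j) (single (z j) 1)
      rw [h1, ka_single_Cx]
    rw [e1, MultilinearMap.map_add_univ]
    refine Finset.sum_congr rfl fun S _ => ?_
    rw [tmap_single_Cx]
    congr 1
    funext j
    by_cases h : j ∈ S
    · rw [Finset.piecewise_eq_of_mem _ _ _ h, Finset.piecewise_eq_of_mem _ _ _ h]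
    · rw [Finset.piecewise_eq_of_notMem _ _ _ h, Finset.piecewise_eq_of_notMem _ _ _ h]
  have h2 : ∀ S : Finset (ZMod p), S ≠ Finset.univ → tmap_Cx (S.piecewise A B) z = 0 := by
    intro S hS
    have h3 : tmap_Cx (S.piecewise A B) = tmap_Cx (S.piecewise A B) ∘ₗ
        mapDomainLinearMap (ZMod p) (ZMod p) (kp (F := FreeGroup ι) S) := by
      refine lext_Cx fun z => ?_
      rw [LinearMap.comp_apply, mapDomainLinearMap_single, tmap_single_Cx, tmap_single_Cx]
      congr 1
      funext j
      by_cases h : j ∈ S
      · rw [Finset.piecewise_eq_of_mem _ _ _ h]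
        have e2 : kp S z j = z j := if_pos h
        rw [e2]
      · rw [Finset.piecewise_eq_of_notMem _ _ _ h]
        show ka_Cx x (y j) (single (z j) 1) = ka_Cx x (y j) (single (kp S z j) 1)
        rw [ka_single_Cx, ka_single_Cx]
    have h4 : pk S z = 0 := hz S (by
      obtain ⟨j, hj⟩ : ∃ j, j ∉ S := by
        by_contra h
        push Not at h
        exact hS (Finset.eq_univ_of_forall h)
      have h5 := Finset.card_lt_univ_of_notMem hj
      rwa [ZMod.card] at h5)
    have h5 : mapDomainLinearMap (ZMod p) (ZMod p) (kp (F := FreeGroup ι) S) z = pk S z := rfl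
    rw [h3, LinearMap.comp_apply, h5, h4, map_zero]
  have h6 := LinearMap.congr_fun h1 z
  rw [LinearMap.comp_apply, LinearMap.mulLeft_apply, LinearMap.sum_apply,
    Finset.sum_eq_single Finset.univ (fun S _ hS => h2 S hS)
      (fun h => absurd (Finset.mem_univ _) h)] at h6
  rw [h6]
  have h7 : tmap_Cx (Finset.univ.piecewise A B) =
      LinearMap.mulLeft (ZMod p) (single y 1 : BB p (FreeGroup ι)) ∘ₗ
        tmap_Cx fun _ => foxr (ZMod p) x := by
    refine lext_Cx fun z => ?_
    rw [LinearMap.comp_apply, LinearMap.mulLeft_apply, tmap_single_Cx, tmap_single_Cx,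
      ← mul_single_Cx]
    congr 1
    funext j
    rw [Finset.piecewise_eq_of_mem _ _ _ (Finset.mem_univ j)]
    rfl
  rw [h7]
  rfl

end fox

theorem exists_cx {ι : Type} [DecidableEq ι] (x : ι) :
    ∃ c : BB p (FreeGroup ι) →ₗ[ZMod p] BB p (FreeGroup ι),
      (∀ z ∈ JJ p (FreeGroup ι) p, ∀ u, c (u * z) = u * c z) ∧
      (∀ i z, c (sg i z) = sg i (c z)) ∧
      (∀ n, ∀ z ∈ Fil (ZMod p) (ZMod p → FreeGroup ι) (n + p),
        c z ∈ Fil (ZMod p) (ZMod p → FreeGroup ι) n) ∧
      ∀ w : FreeGroup ι, c (vU w) = tens fun _ => foxr (ZMod p) x (single w 1) := by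
  classical
  refine ⟨tmap_Cx fun _ => foxr (ZMod p) x, ?_, ?_, ?_, ?_⟩
  · intro z hz u
    induction u using MonoidAlgebra.induction_linear with
    | zero => rw [zero_mul, map_zero, zero_mul]
    | add a b ha hb => rw [add_mul, map_add, ha, hb, add_mul]
    | single y c =>
      have e : (single y c : BB p (FreeGroup ι)) = c • single y 1 := by
        rw [smul_single, smul_eq_mul, mul_one]
      rw [e, smul_mul_assoc, map_smul, left_Cx x y hz, smul_mul_assoc]
  · intro i z
    have h : tmap_Cx (fun _ => foxr (ZMod p) x) ∘ₗ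
        mapDomainLinearMap (ZMod p) (ZMod p) (sh (F := FreeGroup ι) i) =
        mapDomainLinearMap (ZMod p) (ZMod p) (sh (F := FreeGroup ι) i) ∘ₗ
          tmap_Cx fun _ => foxr (ZMod p) x := by
      refine lext_Cx fun z => ?_
      rw [LinearMap.comp_apply, LinearMap.comp_apply, mapDomainLinearMap_single,
        tmap_single_Cx, tmap_single_Cx]
      exact (shift_Cx i (fun j => foxr (ZMod p) x (single (z j) 1))).symm
    exact LinearMap.congr_fun h z
  · intro n z hz
    have h := cS_fil_Cx x (Finset.univ : Finset (ZMod p)) n z (by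
      rwa [Finset.card_univ, ZMod.card])
    rwa [cS_univ_Cx] at h
  · intro w
    unfold vU
    rw [map_sum, Finset.sum_eq_single Finset.univ]
    · rw [map_smul, tmap_single_Cx, Finset.card_univ, ZMod.card, Nat.sub_self, pow_zero,
        one_smul, tM_apply_Cx]
      refine congrArg tens (funext fun j => ?_)
      have e : kp (Finset.univ : Finset (ZMod p)) (fun _ => w) j = w :=
        if_pos (Finset.mem_univ j)
      rw [e]
    · intro T _ hT
      rw [map_smul, tmap_single_Cx]
      obtain ⟨j, hj⟩ : ∃ j, j ∉ T := by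
        by_contra h
        push Not at h
        exact hT (Finset.eq_univ_of_forall h)
      have e : kp T (fun _ => w) j = 1 := if_neg hj
      have e2 : foxr (ZMod p) x (single (kp T (fun _ => w) j) 1) = 0 := by
        rw [e, ← MonoidAlgebra.one_def]
        exact foxr_one x
      rw [MultilinearMap.map_coord_zero tM_Cx j e2, smul_zero]
    · intro h
      exact absurd (Finset.mem_univ _) h

end Pool.Agent.MCG
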