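import Pool.Agent.Lvl.AugC
import Pool.Agent.Lvl.SDef
import Pool.Agent.AH.Final
import Pool.Agent.CongCL.Surf

set_option autoImplicit false

noncomputable section

/-!
MCG (MP_95030e): the strong Atiyah conjecture for the mapping class groups of surfaces with
non-empty boundary. Basic definitions. The page is /team-store/MCG.md.
-/

namespace Pool.Agent.MCG

open MonoidAlgebra Pool.Agent.Lvl

section

variable {ι : Type} [DecidableEq ι]

/-- the homomorphism of the free group to the Heisenberg group with `x_i ↦ 1 + E₀₁`,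
`x_j ↦ 1 + E₁₂` (and `x_i ↦ 1 + E₀₁ + E₁₂` if `i = j`), all other generators to `1` -/
def heis (i j : ι) : FreeGroup ι →* Matrix.SpecialLinearGroup (Fin 3) ℤ :=
  FreeGroup.lift fun l => ⟨!![1, if l = i then 1 else 0, 0; 0, 1, if l = j then 1 else 0; 0, 0, 1],
    by simp [Matrix.det_fin_three]⟩

/-- the coefficient of `X_i X_j` in the Magnus expansion of `w` -/
def coef (w : FreeGroup ι) (i j : ι) : ℤ := (heis i j w).1 0 2

/-- `w` is a product of commutators and the matrix of the coefficients of the `X_i X_j` in its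
Magnus expansion is invertible over `ℤ` -/
def Unimod [Fintype ι] (w : FreeGroup ι) : Prop :=
  w ∈ commutator (FreeGroup ι) ∧ IsUnit (Matrix.of fun i j => coef w i j).det

/-- The elements of `W` are products of commutators, and for every prime `p` no nonzero vector
over the field with `p` elements is in the (left) radical of all forms `coef w`, `w ∈ W`. -/
def Nondeg [Fintype ι] (W : Set (FreeGroup ι)) : Prop :=
  (∀ w ∈ W, w ∈ commutator (FreeGroup ι)) ∧ ∀ p : ℕ, p.Prime → ∀ v : ι → ZMod p,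
    (∀ w ∈ W, ∀ j, ∑ i, v i * ((coef w i j : ℤ) : ZMod p) = 0) → v = 0

end

/-- the same at one prime `p` -/
def NondegAt {ι : Type} [DecidableEq ι] [Fintype ι] (p : ℕ) (W : Set (FreeGroup ι)) : Prop :=
  (∀ w ∈ W, w ∈ commutator (FreeGroup ι)) ∧ ∀ v : ι → ZMod p,
    (∀ w ∈ W, ∀ j, ∑ i, v i * ((coef w i j : ℤ) : ZMod p) = 0) → v = 0

/-- Every finite set of nontrivial elements of `G` is detected by a homomorphism `f` to `GL_N(ℤ)`
whose image modulo `q` is a `p`-group and such that `f g ^ p ≡ 1` modulo `q p ^ M` implies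
`f g ≡ 1` modulo `q`. -/
def NT (p q : ℕ) (G : Type) [Group G] : Prop :=
  ∀ E : Finset G, (∀ g ∈ E, g ≠ 1) → ∃ (N : ℕ) (f : G →* Matrix (Fin N) (Fin N) ℤ),
    (∀ g, ∃ a : ℕ, ∀ i j, (q : ℤ) ∣ (f g ^ p ^ a - 1) i j) ∧
    (∃ M : ℕ, ∀ g, (∀ i j, ((q * p ^ M : ℕ) : ℤ) ∣ (f g ^ p - 1) i j) →
      ∀ i j, (q : ℤ) ∣ (f g - 1) i j) ∧
    ∀ g ∈ E, f g ≠ 1

end Pool.Agent.MCG
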