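import Pool.Agent.MCG.Fox
import Pool.Agent.Lvl.SFg

set_option autoImplicit false
set_option linter.unusedSectionVars false

noncomputable section

/-!
Denominators: the passage from congruences in the lattices to congruences in the group algebra over
the field with `p` elements, by the coefficients of the Magnus expansion (iterated Fox derivatives).
-/

namespace Pool.Agent.MCG

open MonoidAlgebra Pool.Agent.Lvl

section

variable (R : Type) [CommRing R] {ι : Type} [DecidableEq ι]

/-- the coefficient of the word `l` in the Magnus expansion -/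
def cw : List ι → MonoidAlgebra R (FreeGroup ι) →ₗ[R] R
  | [] => (eps R (FreeGroup ι)).toLinearMap
  | x :: l => (cw l) ∘ₗ foxl R x

variable {R}

lemma cw_nil (a : MonoidAlgebra R (FreeGroup ι)) : cw R [] a = eps R (FreeGroup ι) a := rfl

lemma cw_cons (x : ι) (l : List ι) (a : MonoidAlgebra R (FreeGroup ι)) :
    cw R (x :: l) a = cw R l (foxl R x a) := rfl

lemma eps_fil {P : Type} [Group P] {a : MonoidAlgebra R P} (h : a ∈ Fil R P 1) :
    eps R P a = 0 := lift_fil_one h

lemma cw_fil (l : List ι) : ∀ {r : ℕ}, l.length ≤ r → ∀ {a : MonoidAlgebra R (FreeGroup ι)},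
    a ∈ Fil R (FreeGroup ι) (r + 1) → cw R l a = 0 := by
  induction l with
  | nil =>
    intro r _ a ha
    exact eps_fil (fil_le (by omega) ha)
  | cons x l ih =>
    intro r hr a ha
    obtain ⟨r, rfl⟩ : ∃ r', r = r' + 1 := ⟨r - 1, by rw [List.length_cons] at hr; omega⟩
    rw [cw_cons]
    exact ih (by rw [List.length_cons] at hr; omega) (foxl_fil x ha)

lemma fil_of_cw [Fintype ι] (r : ℕ) : ∀ a : MonoidAlgebra R (FreeGroup ι),
    (∀ l : List ι, l.length ≤ r → cw R l a = 0) → a ∈ Fil R (FreeGroup ι) (r + 1) := by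
  induction r with
  | zero =>
    intro a h
    have h1 : eps R (FreeGroup ι) a = 0 := h [] le_rfl
    have h2 := foxl_sum a
    rw [h1, single_zero, zero_add] at h2
    rw [h2]
    refine Submodule.sum_mem (Fil R (FreeGroup ι) (0 + 1)) fun x _ => ?_
    exact fil_mul_right (single_sub_mem (R := R) (FreeGroup.of x)) (foxl R x a)
  | succ r ih =>
    intro a h
    have h1 : eps R (FreeGroup ι) a = 0 := h [] (Nat.zero_le _)
    have h4 := foxl_sum a
    rw [h1, single_zero, zero_add] at h4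
    rw [h4]
    refine Submodule.sum_mem _ fun x _ => ?_
    have h2 := ih (foxl R x a) fun l hl => h (x :: l) (by rw [List.length_cons]; omega)
    have h3 := fil_mul (single_sub_mem (R := R) (FreeGroup.of x)) h2
    rwa [Nat.add_comm 1 (r + 1)] at h3

lemma cw_map {S : Type} [CommRing S] (φ : R →+* S) (l : List ι) :
    ∀ a : MonoidAlgebra R (FreeGroup ι),
      cw S l (mapRingHom (FreeGroup ι) φ a) = φ (cw R l a) := by
  induction l with
  | nil =>
    intro a
    exact eps_mapRange φ a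
  | cons x l ih =>
    intro a
    rw [cw_cons, cw_cons, foxl_mapRange, ih]

end

section

variable {ι : Type} [DecidableEq ι]

/-- `q ^ |l| * cw l` is integral -/
private def Itg (q : ℕ) (s : MonoidAlgebra ℚ (FreeGroup ι)) : Prop :=
  ∀ l : List ι, ∃ z : ℤ, (q : ℚ) ^ l.length * cw ℚ l s = z

private lemma itg_mul {q : ℕ} {t : MonoidAlgebra ℚ (FreeGroup ι)} (ht : Itg q t) (l : List ι) :
    ∀ s : MonoidAlgebra ℚ (FreeGroup ι), Itg q s →
      ∃ z : ℤ, (q : ℚ) ^ l.length * cw ℚ l (s * t) = z := by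
  induction l with
  | nil =>
    intro s hs
    obtain ⟨a, ha⟩ := hs []
    obtain ⟨b, hb⟩ := ht []
    refine ⟨a * b, ?_⟩
    simp only [List.length_nil, pow_zero, one_mul, cw_nil] at ha hb ⊢
    rw [map_mul, ha, hb]
    push_cast
    rfl
  | cons x l ih =>
    intro s hs
    obtain ⟨a, ha⟩ := hs []
    obtain ⟨b, hb⟩ := ht (x :: l)
    obtain ⟨c, hc⟩ := ih ((q : ℚ) • foxl ℚ x s) (by
      intro l'
      obtain ⟨z, hz⟩ := hs (x :: l')
      refine ⟨z, ?_⟩
      rw [← hz, map_smul, cw_cons, smul_eq_mul, List.length_cons]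
      ring)
    refine ⟨c + a * b, ?_⟩
    simp only [List.length_nil, pow_zero, one_mul, cw_nil] at ha
    rw [cw_cons, foxl_mul, map_add, map_smul, smul_eq_mul, ha, List.length_cons, mul_add]
    rw [smul_mul_assoc, map_smul, smul_eq_mul] at hc
    rw [cw_cons, List.length_cons] at hb
    push_cast
    rw [← hc, ← hb]
    ring

private lemma cw_single_int (l : List ι) (h : FreeGroup ι) :
    cw ℚ l (single h 1) = ((cw ℤ l (single h 1) : ℤ) : ℚ) := by
  have h1 := cw_map (Int.castRingHom ℚ) l (single h 1)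
  have h2 : mapRingHom (FreeGroup ι) (Int.castRingHom ℚ) (single h 1) = single h 1 := by
    simp
  rw [h2] at h1
  rw [h1]
  rfl

private lemma itg_yy {q : ℕ} (hq : 0 < q) (h : FreeGroup ι) : Itg q (yy q h) := by
  intro l
  have h0 : (q : ℚ) ≠ 0 := by exact_mod_cast hq.ne'
  cases l with
  | nil =>
    refine ⟨0, ?_⟩
    rw [cw_nil, eps_fil (yy_fil h)]
    simp
  | cons x l =>
    refine ⟨(q : ℤ) ^ l.length * cw ℤ (x :: l) (single h 1), ?_⟩
    have h1 : cw ℚ (x :: l) (1 : MonoidAlgebra ℚ (FreeGroup ι)) = 0 := by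
      rw [cw_cons, foxl_one, map_zero]
    unfold yy
    rw [map_smul, map_sub, h1, sub_zero, cw_single_int, smul_eq_mul, List.length_cons]
    push_cast
    field_simp
    ring

private lemma itg_SS {q : ℕ} (hq : 0 < q) {s : MonoidAlgebra ℚ (FreeGroup ι)}
    (hs : s ∈ SS (FreeGroup ι) q) : Itg q s := by
  have hs' : s ∈ Subring.closure (Set.range (yy q : FreeGroup ι → MonoidAlgebra ℚ (FreeGroup ι))) :=
    hs
  clear hs
  induction hs' using Subring.closure_induction with
  | mem x hx =>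
    obtain ⟨h, rfl⟩ := hx
    exact itg_yy hq h
  | zero => exact fun l => ⟨0, by simp⟩
  | one =>
    intro l
    cases l with
    | nil => exact ⟨1, by rw [cw_nil, map_one]; simp⟩
    | cons x l => exact ⟨0, by rw [cw_cons, foxl_one, map_zero]; simp⟩
  | add x y _ _ hx hy =>
    intro l
    obtain ⟨a, ha⟩ := hx l
    obtain ⟨b, hb⟩ := hy l
    refine ⟨a + b, ?_⟩
    rw [map_add, mul_add, ha, hb]
    push_cast
    rfl
  | neg x _ hx =>
    intro l
    obtain ⟨a, ha⟩ := hx l
    refine ⟨-a, ?_⟩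
    rw [map_neg, mul_neg, ha]
    push_cast
    rfl
  | mul x y _ _ hx hy => exact fun l => itg_mul hy l x hx

private lemma dvd_of_pow {p : ℕ} [hp : Fact p.Prime] {Q : ℕ} (hQ : Q ≠ 0) {z : ℤ}
    (h : ((p ^ (padicValNat p Q + 1) : ℕ) : ℤ) ∣ (Q : ℤ) * z) : (p : ℤ) ∣ z := by
  have h1 : p ^ (padicValNat p Q + 1) ∣ Q * z.natAbs := by
    have h2 := Int.natAbs_dvd_natAbs.2 h
    rwa [Int.natAbs_mul, Int.natAbs_natCast, Int.natAbs_natCast] at h2
  by_contra hn
  have h3 : ¬ p ∣ z.natAbs := fun h4 => hn (Int.natCast_dvd.2 h4)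
  have h5 : Nat.Coprime (p ^ (padicValNat p Q + 1)) z.natAbs :=
    Nat.Coprime.pow_left _ ((Nat.Prime.coprime_iff_not_dvd hp.out).2 h3)
  exact pow_succ_padicValNat_not_dvd hQ (h5.dvd_of_dvd_mul_right h1)

theorem denom [Fintype ι] {q : ℕ} (hq : 0 < q) (p : ℕ) [hp : Fact p.Prime] (r : ℕ) :
    ∃ M : ℕ, ∀ a b : FreeGroup ι, ∀ s ∈ SS (FreeGroup ι) q, ∀ v ∈ Fil ℚ (FreeGroup ι) (r + 1),
      (single a (1 : ℚ) - single b 1 : MonoidAlgebra ℚ (FreeGroup ι)) =
        ((q * p ^ M : ℕ) : ℚ) • s + v →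
      single a (1 : ZMod p) - single b 1 ∈ Fil (ZMod p) (FreeGroup ι) (r + 1) := by
  refine ⟨padicValNat p (q ^ r) + 1, fun a b s hs v hv h => fil_of_cw r _ fun l hl => ?_⟩
  have h1 : cw (ZMod p) l (single a (1 : ZMod p) - single b 1) =
      ((cw ℤ l (single a 1 - single b 1) : ℤ) : ZMod p) := by
    have h2 := cw_map (Int.castRingHom (ZMod p)) l (single a 1 - single b 1)
    have h3 : mapRingHom (FreeGroup ι) (Int.castRingHom (ZMod p)) (single a 1 - single b 1) =
        single a 1 - single b 1 := by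
      rw [map_sub]
      simp
    rw [h3] at h2
    rw [h2]
    rfl
  rw [h1, ZMod.intCast_zmod_eq_zero_iff_dvd]
  set z : ℤ := cw ℤ l (single a 1 - single b 1) with hz
  obtain ⟨c, hc⟩ := itg_SS hq hs l
  have h2 : (z : ℚ) = ((q * p ^ (padicValNat p (q ^ r) + 1) : ℕ) : ℚ) * cw ℚ l s := by
    have h3 : cw ℚ l (single a 1 - single b 1) = ((z : ℤ) : ℚ) := by
      rw [hz, map_sub, map_sub, cw_single_int, cw_single_int]
      push_cast
      rfl
    rw [← h3, h, map_add, cw_fil l hl hv, add_zero, map_smul, smul_eq_mul]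
  have h3 : (q : ℤ) ^ l.length * z =
      ((q * p ^ (padicValNat p (q ^ r) + 1) : ℕ) : ℤ) * c := by
    have h4 : ((q : ℚ) ^ l.length * z) =
        ((q * p ^ (padicValNat p (q ^ r) + 1) : ℕ) : ℚ) * c := by
      rw [h2, ← hc]
      ring
    exact_mod_cast h4
  refine dvd_of_pow (p := p) (Q := q ^ r) (pow_pos hq r).ne' ?_
  obtain ⟨k, hk⟩ := Nat.exists_eq_add_of_le hl
  have h5 : ((q ^ r : ℕ) : ℤ) * z = (q : ℤ) ^ k * ((q : ℤ) ^ l.length * z) := by
    rw [hk]
    push_cast
    ring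
  rw [h5, h3]
  refine Dvd.dvd.mul_left (Dvd.dvd.mul_right ?_ _) _
  push_cast
  exact Dvd.intro_left _ rfl

end

end Pool.Agent.MCG
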