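import Mathlib

set_option autoImplicit false

noncomputable section

/-!
PACKAGE MCG-FINA. Linear algebra of nilpotent maps.

* `ker_le_of_free`: `u = t ^ a`. Let `t x = 0`. Then `u x = 0` (`1 ≤ a`), so `x = u^(p-1) y`.
  `u^(p-1) (t y) = t x = 0`, so `t y = u z = t (t^(a-1) z)` by `h2`. `y'' = y - t^(a-1) z` satisfies
  `t y'' = 0`, so `u^(p-1) y'' = 0` (`2 ≤ p`). So `x = u^(p-1) y = t^(a(p-1)) t^(a-1) z =
  t^(p a - 1) z`.
* `exists_span`: choose a basis of `ker t` (`s` elements) and `w j` with `t^(n-1) (w j)` = the basis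
  elements. The family `t^i (w j)` (`i < n`) is a basis of `V`: independent: in a relation with
  coefficients `c i j` let `i` be minimal with some `c i j ≠ 0`, apply `t^(n-1-i)`. Spanning: by
  induction on `m ≤ n`: `ker (t^m)` is in the span: for `t^(m+1) x = 0` the element
  `t^m x ∈ ker t` is `∑ c j t^(n-1) (w j) = t^m (∑ c j t^(n-1-m) (w j))`, so
  `x - ∑ c j t^(n-1-m) (w j) ∈ ker (t^m)`. So `finrank k V = n * s`. The family
  `(1 + t)^i (w j)` (`i < n`) spans `V`: `t^i = ((1 + t) - 1)^i` is a combination of the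
  `(1 + t)^l`, `l ≤ i`.
-/

namespace Pool.Agent.MCG

open Module

variable {k V : Type} [Field k] [AddCommGroup V] [Module k V]

private theorem span_t_FinA (t : V →ₗ[k] V) {n s : ℕ} (w : Fin s → V)
    (b : Basis (Fin s) k (LinearMap.ker t)) (hw : ∀ j, (t ^ (n - 1)) (w j) = (b j : V)) :
    ∀ m, m ≤ n → LinearMap.ker (t ^ m) ≤
      Submodule.span k (Set.range fun x : Fin n × Fin s => (t ^ (x.1 : ℕ)) (w x.2)) := by
  intro m
  induction m with
  | zero =>
    intro _ x hx
    rw [LinearMap.mem_ker, pow_zero, Module.End.one_apply] at hx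
    rw [hx]
    exact zero_mem _
  | succ m ih =>
    intro hm x hx
    have h1 : (t ^ m) x ∈ LinearMap.ker t := by
      rw [LinearMap.mem_ker] at hx ⊢
      rw [pow_succ', Module.End.mul_apply] at hx
      exact hx
    set c := b.repr ⟨(t ^ m) x, h1⟩ with hc
    have h2 : (t ^ m) x = ∑ j, c j • (b j : V) := by
      have h3 := congrArg (Submodule.subtype _) (b.sum_repr ⟨(t ^ m) x, h1⟩)
      rw [map_sum] at h3
      simp only [map_smul] at h3
      exact h3.symm
    set y : V := ∑ j, c j • (t ^ (n - 1 - m)) (w j) with hy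
    have h4 : (t ^ m) y = (t ^ m) x := by
      rw [hy, map_sum, h2]
      refine Finset.sum_congr rfl fun j _ => ?_
      rw [map_smul, ← Module.End.mul_apply, ← pow_add, ← hw j]
      congr 3
      omega
    have h5 : x - y ∈ LinearMap.ker (t ^ m) := by
      rw [LinearMap.mem_ker, map_sub, h4, sub_self]
    have h6 := ih (by omega) h5
    have h7 : y ∈ Submodule.span k
        (Set.range fun x : Fin n × Fin s => (t ^ (x.1 : ℕ)) (w x.2)) := by
      rw [hy]
      refine Submodule.sum_mem _ fun j _ => Submodule.smul_mem _ _ ?_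
      exact Submodule.subset_span ⟨(⟨n - 1 - m, by omega⟩, j), rfl⟩
    have h8 := Submodule.add_mem _ h6 h7
    rwa [sub_add_cancel] at h8

private theorem pow_mem_FinA (t : V →ₗ[k] V) (v : V) (i : ℕ) : (t ^ i) v ∈
    Submodule.span k ((fun l : ℕ => ((1 + t) ^ l) v) '' {l | l ≤ i}) := by
  induction i with
  | zero =>
    apply Submodule.subset_span
    exact ⟨0, Nat.le_refl 0, by simp⟩
  | succ i ih =>
    have h1 : (t ^ (i + 1)) v = (1 + t) ((t ^ i) v) - (t ^ i) v := by
      rw [pow_succ', Module.End.mul_apply, LinearMap.add_apply, Module.End.one_apply]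
      abel
    rw [h1]
    apply Submodule.sub_mem
    · have h2 : (Submodule.span k ((fun l : ℕ => ((1 + t) ^ l) v) '' {l | l ≤ i})).map (1 + t) ≤
          Submodule.span k ((fun l : ℕ => ((1 + t) ^ l) v) '' {l | l ≤ i + 1}) := by
        rw [Submodule.map_span, Submodule.span_le]
        rintro _ ⟨_, ⟨l, hl, rfl⟩, rfl⟩
        apply Submodule.subset_span
        refine ⟨l + 1, Nat.succ_le_succ hl, ?_⟩
        change ((1 + t) ^ (l + 1)) v = (1 + t) (((1 + t) ^ l) v)
        rw [pow_succ', Module.End.mul_apply]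
      exact h2 (Submodule.mem_map_of_mem ih)
    · refine Submodule.span_mono ?_ ih
      apply Set.image_mono
      intro l hl
      exact Nat.le_succ_of_le hl

private theorem finrank_FinA [FiniteDimensional k V] (t : V →ₗ[k] V) {n : ℕ}
    (h : LinearMap.ker t ≤ LinearMap.range (t ^ (n - 1))) :
    ∀ m, m ≤ n → finrank k (LinearMap.ker (t ^ m)) = m * finrank k (LinearMap.ker t) := by
  intro m
  induction m with
  | zero =>
    intro _
    have h1 : LinearMap.ker (t ^ 0) = ⊥ := by
      rw [pow_zero]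
      exact LinearMap.ker_id
    rw [h1, finrank_bot, zero_mul]
  | succ m ih =>
    intro hm
    set f : LinearMap.ker (t ^ (m + 1)) →ₗ[k] V := (t ^ m).domRestrict _ with hf
    have hr : LinearMap.range f = LinearMap.ker t := by
      apply le_antisymm
      · rintro _ ⟨x, rfl⟩
        have hx : (t ^ (m + 1)) (x : V) = 0 := LinearMap.mem_ker.1 x.2
        have hx' : (t ^ (m + 1)) (x : V) = t ((t ^ m) (x : V)) := by
          rw [← Module.End.mul_apply, ← pow_succ']
        rw [LinearMap.mem_ker]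
        exact hx'.symm.trans hx
      · intro y hy
        obtain ⟨z, hz⟩ := h hy
        have h1 : (t ^ m) ((t ^ (n - 1 - m)) z) = y := by
          rw [← Module.End.mul_apply, ← pow_add, ← hz]
          congr 2
          omega
        refine ⟨⟨(t ^ (n - 1 - m)) z, ?_⟩, h1⟩
        rw [LinearMap.mem_ker, pow_succ', Module.End.mul_apply, h1]
        exact hy
    have hle : LinearMap.ker (t ^ m) ≤ LinearMap.ker (t ^ (m + 1)) := by
      intro x hx
      rw [LinearMap.mem_ker] at hx ⊢
      rw [pow_succ', Module.End.mul_apply, hx, map_zero]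
    have hk : LinearMap.ker f =
        (LinearMap.ker (t ^ m)).comap (LinearMap.ker (t ^ (m + 1))).subtype := by
      ext x
      rfl
    have h2 := LinearMap.finrank_range_add_finrank_ker f
    rw [hr, hk, (Submodule.comapSubtypeEquivOfLe hle).finrank_eq, ih (by omega)] at h2
    rw [← h2]
    ring

theorem ker_le_of_free (t : V →ₗ[k] V) {p a : ℕ} (hp : 2 ≤ p) (ha : 1 ≤ a)
    (h1 : LinearMap.ker (t ^ a) ≤ LinearMap.range ((t ^ a) ^ (p - 1)))
    (h2 : LinearMap.ker ((t ^ a) ^ (p - 1)) ≤ LinearMap.range (t ^ a)) :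
    LinearMap.ker t ≤ LinearMap.range (t ^ (p * a - 1)) := by
  intro x hx
  rw [LinearMap.mem_ker] at hx
  have hu : ∀ y : V, t y = 0 → ∀ c, 1 ≤ c → (t ^ c) y = 0 := by
    intro y hy c hc
    obtain ⟨c, rfl⟩ := Nat.exists_eq_add_of_le' hc
    rw [pow_succ, Module.End.mul_apply, hy, map_zero]
  obtain ⟨y, hy⟩ := h1 (LinearMap.mem_ker.2 (hu x hx a ha))
  have e1 : (t ^ a) ^ (p - 1) = t ^ (a * (p - 1)) := by rw [pow_mul]
  have h3 : t y ∈ LinearMap.ker ((t ^ a) ^ (p - 1)) := by
    rw [LinearMap.mem_ker, e1, ← Module.End.mul_apply, ← pow_succ, pow_succ', Module.End.mul_apply,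
      ← e1, hy, hx]
  obtain ⟨z, hz⟩ := h2 h3
  have h4 : t (y - (t ^ (a - 1)) z) = 0 := by
    rw [map_sub, ← hz]
    have e2 : t ((t ^ (a - 1)) z) = (t ^ a) z := by
      rw [← Module.End.mul_apply, ← pow_succ']
      congr 2
      omega
    rw [e2, sub_self]
  have h5 : 1 ≤ a * (p - 1) := Nat.mul_pos ha (by omega)
  have h6 := hu _ h4 _ h5
  rw [map_sub, sub_eq_zero, ← e1, hy, e1, ← Module.End.mul_apply, ← pow_add] at h6
  refine ⟨z, ?_⟩
  rw [h6]
  congr 2
  obtain ⟨a, rfl⟩ := Nat.exists_eq_add_of_le' ha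
  obtain ⟨p, rfl⟩ := Nat.exists_eq_add_of_le' hp
  have e3 : (p + 2) * (a + 1) = (a + 1) * (p + 1) + (a + 1) := by ring
  have e4 : p + 2 - 1 = p + 1 := by omega
  rw [e3, e4]
  omega

theorem exists_span [FiniteDimensional k V] (t : V →ₗ[k] V) {n : ℕ} (hn : 1 ≤ n) (ht : t ^ n = 0)
    (h : LinearMap.ker t ≤ LinearMap.range (t ^ (n - 1))) :
    ∃ (s : ℕ) (w : Fin s → V), finrank k V = n * s ∧
      ⊤ ≤ Submodule.span k (Set.range fun x : Fin n × Fin s => ((1 + t) ^ (x.1 : ℕ)) (w x.2)) := by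
  set s := finrank k (LinearMap.ker t) with hs
  let b : Basis (Fin s) k (LinearMap.ker t) := finBasis k (LinearMap.ker t)
  choose w hw using fun j : Fin s => h (b j).2
  refine ⟨s, w, ?_, ?_⟩
  · have h1 := finrank_FinA t h n le_rfl
    rw [ht] at h1
    have h2 : LinearMap.ker (0 : V →ₗ[k] V) = ⊤ := LinearMap.ker_zero
    rw [h2, finrank_top] at h1
    exact h1
  · have h1 := span_t_FinA t w b hw n le_rfl
    rw [ht] at h1
    have h2 : LinearMap.ker (0 : V →ₗ[k] V) = ⊤ := LinearMap.ker_zero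
    rw [h2] at h1
    refine h1.trans ?_
    rw [Submodule.span_le]
    rintro _ ⟨⟨i, j⟩, rfl⟩
    refine Submodule.span_mono ?_ (pow_mem_FinA t (w j) i)
    rintro _ ⟨l, hl, rfl⟩
    exact ⟨(⟨l, lt_of_le_of_lt hl i.2⟩, j), rfl⟩

end Pool.Agent.MCG
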