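import Mathlib

set_option autoImplicit false

noncomputable section

/-!
PACKAGE MCG-FINE. A fixed point free permutation of order `p` in characteristic `p`.

`g` permutes the basis `b` by `σ`, `σ ^ p = 1`, `σ x ≠ x` for all `x`, `u = g - 1`.
* `u ^ (p-1) = ν := ∑ i < p, g ^ i`: in `(ZMod p)[X]` `(X - 1)^(p-1) = ∑ i < p, X^i` (cancel `X - 1`:
  `(X - 1)^p = X^p - 1 = (∑ i < p, X^i) * (X - 1)`), then `Polynomial.aeval` (or in `k[X]`).
* `ker u ≤ range ν`. Choose representatives: `rep : X → X` with `rep x` in the `σ`-orbit of `x` and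
  `rep x = rep y` for `x`, `y` in the same orbit (`σ.SameCycle` setoid, `Quotient.out`). Every
  orbit has exactly `p` elements: for every `x` there is exactly one `i < p` with
  `σ^i (rep x) = x` (`σ^p = 1`, and `σ^i y = y` with `0 < i < p` gives `σ y = y` by Bezout). For
  `v = ∑ f x • b x` in `ker u` the function `f` is constant on orbits; let
  `w = ∑ x, (if x = rep x then f x else 0) • b x`; then `ν w = v`.
* `ker ν ≤ range u`: dimensions: `dim ker ν = dim V - dim range ν ≤ dim V - dim ker u =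
  dim range u`, and `range u ≤ ker ν` because `ν * u = g^p - 1 = 0`. So they are equal
  (`Submodule.eq_of_le_of_finrank_le`).
-/

namespace Pool.Agent.MCG

open Module

private theorem app_inv_FinE {X : Type} (τ : Equiv.Perm X) (x : X) : τ (τ⁻¹ x) = x := by
  rw [← Equiv.Perm.mul_apply, mul_inv_cancel, Equiv.Perm.one_apply]

private theorem inv_app_FinE {X : Type} (τ : Equiv.Perm X) (x : X) : τ⁻¹ (τ x) = x := by
  rw [← Equiv.Perm.mul_apply, inv_mul_cancel, Equiv.Perm.one_apply]

private theorem sub_pow_FinE {p : ℕ} [hp : Fact p.Prime] {k V : Type} [Field k] [CharP k p]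
    [AddCommGroup V] [Module k V] (g : V →ₗ[k] V) :
    (g - 1) ^ (p - 1) = ∑ i ∈ Finset.range p, g ^ i := by
  have h1 : ((Polynomial.X : Polynomial k) - 1) ^ (p - 1) =
      ∑ i ∈ Finset.range p, (Polynomial.X : Polynomial k) ^ i := by
    have h0 : ((Polynomial.X : Polynomial k) - 1) ≠ 0 := by
      have := Polynomial.X_sub_C_ne_zero (1 : k)
      rwa [map_one] at this
    apply mul_right_cancel₀ h0
    rw [geom_sum_mul, ← pow_succ, Nat.sub_add_cancel hp.out.one_le, sub_pow_char, one_pow]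
  have h2 := congrArg (Polynomial.aeval g) h1
  simpa using h2

private theorem iter_FinE {k X V : Type} [Field k] [AddCommGroup V] [Module k V] (b : Basis X k V)
    (g : V →ₗ[k] V) (σ : Equiv.Perm X) (hg : ∀ x, g (b x) = b (σ x)) (i : ℕ) (x : X) :
    (g ^ i) (b x) = b ((σ ^ i) x) := by
  induction i with
  | zero => simp
  | succ i ih => rw [pow_succ', pow_succ', Module.End.mul_apply, ih, hg, Equiv.Perm.mul_apply]

/-- exactly one point of each orbit is a representative -/
private theorem rep_FinE {p : ℕ} [hp : Fact p.Prime] {X : Type} (σ : Equiv.Perm X)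
    (hσ : σ ^ p = 1) (hfix : ∀ x, σ x ≠ x) (k : Type) [Field k] :
    ∃ c : X → k, ∀ y, ∑ i ∈ Finset.range p, c ((σ⁻¹ ^ i) y) = 1 := by
  classical
  let s : Setoid X := Equiv.Perm.SameCycle.setoid σ
  let rep : X → X := fun x => (Quotient.mk s x).out
  refine ⟨fun x => if x = rep x then 1 else 0, fun y => ?_⟩
  have hτ : σ⁻¹ ^ p = 1 := by rw [inv_pow, hσ, inv_one]
  have hfix' : ∀ x, σ⁻¹ x ≠ x := by
    intro x hx
    apply hfix x
    conv_lhs => rw [← hx]
    exact app_inv_FinE σ x
  have hrep : ∀ i : ℕ, rep ((σ⁻¹ ^ i) y) = rep y := by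
    intro i
    have h1 : Quotient.mk s ((σ⁻¹ ^ i) y) = Quotient.mk s y := by
      apply Quotient.sound
      refine ⟨(i : ℤ), ?_⟩
      rw [inv_pow, zpow_natCast, app_inv_FinE]
    show (Quotient.mk s ((σ⁻¹ ^ i) y)).out = (Quotient.mk s y).out
    rw [h1]
  obtain ⟨z, hz⟩ : ∃ z : ℤ, (σ ^ z) (rep y) = y := by
    have h1 : s (rep y) y := Quotient.mk_out y
    exact h1
  have hp0 : (p : ℤ) ≠ 0 := by exact_mod_cast hp.out.ne_zero
  obtain ⟨i0, hi0, hi1⟩ : ∃ i0 : ℕ, i0 < p ∧ (σ⁻¹ ^ i0) y = rep y := by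
    refine ⟨(z % p).toNat, ?_, ?_⟩
    · have h1 := Int.emod_lt_of_pos z (show (0 : ℤ) < p by exact_mod_cast hp.out.pos)
      have h2 := Int.emod_nonneg z hp0
      omega
    · have h2 := Int.emod_nonneg z hp0
      have h3 : (σ ^ z) = σ ^ ((z % p).toNat) := by
        conv_lhs => rw [← Int.emod_add_mul_ediv z p, zpow_add, zpow_mul, zpow_natCast, hσ,
          one_zpow, mul_one]
        rw [← zpow_natCast, Int.toNat_of_nonneg h2]
      rw [inv_pow, Equiv.Perm.inv_eq_iff_eq, ← h3, hz]
  have hper : ∀ w, Function.minimalPeriod (⇑σ⁻¹) w = p := by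
    intro w
    apply Function.minimalPeriod_eq_prime
    · show (⇑σ⁻¹)^[p] w = w
      rw [← Equiv.Perm.coe_pow, hτ, Equiv.Perm.one_apply]
    · exact hfix' w
  rw [Finset.sum_eq_single i0]
  · exact if_pos (by rw [hrep, hi1])
  · intro j hj hne
    refine if_neg fun h1 => ?_
    apply hne
    rw [hrep] at h1
    have h2 := Function.iterate_injOn_Iio_minimalPeriod (f := ⇑σ⁻¹) (x := y)
    rw [hper] at h2
    apply h2 (Finset.mem_range.1 hj) hi0
    show (⇑σ⁻¹)^[j] y = (⇑σ⁻¹)^[i0] y
    rw [← Equiv.Perm.coe_pow, ← Equiv.Perm.coe_pow, h1, hi1]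
  · intro h1
    exact absurd (Finset.mem_range.2 hi0) h1

theorem perm_free {p : ℕ} [hp : Fact p.Prime] {k X V : Type} [Field k] [CharP k p] [Fintype X]
    [AddCommGroup V] [Module k V] (b : Basis X k V) (g : V →ₗ[k] V) (σ : Equiv.Perm X)
    (hσ : σ ^ p = 1) (hfix : ∀ x, σ x ≠ x) (hg : ∀ x, g (b x) = b (σ x)) :
    LinearMap.ker (g - 1) ≤ LinearMap.range ((g - 1) ^ (p - 1)) ∧
      LinearMap.ker ((g - 1) ^ (p - 1)) ≤ LinearMap.range (g - 1) := by
  classical
  have hit := iter_FinE b g σ hg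
  have hone : LinearMap.ker (g - 1) ≤ LinearMap.range ((g - 1) ^ (p - 1)) := by
    intro v hv
    have hv1 : g v = v := by
      rw [LinearMap.mem_ker, LinearMap.sub_apply, Module.End.one_apply, sub_eq_zero] at hv
      exact hv
    have hpw : ∀ i : ℕ, (g ^ i) v = v := by
      intro i
      induction i with
      | zero => simp
      | succ i ih => rw [pow_succ', Module.End.mul_apply, ih, hv1]
    obtain ⟨c, hc⟩ := rep_FinE (p := p) σ hσ hfix k
    have hf : ∀ (i : ℕ) (y : X), b.repr v ((σ⁻¹ ^ i) y) = b.repr v y := by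
      intro i y
      have h1 : b.repr ((g ^ i) v) y = b.repr v ((σ⁻¹ ^ i) y) := by
        conv_lhs => rw [← b.sum_repr v]
        rw [map_sum, map_sum, Finsupp.finsetSum_apply, Finset.sum_eq_single ((σ⁻¹ ^ i) y)]
        · rw [map_smul, map_smul, hit, b.repr_self, Finsupp.smul_apply, inv_pow,
            app_inv_FinE, Finsupp.single_eq_same, smul_eq_mul, mul_one]
        · intro x _ hx
          rw [map_smul, map_smul, hit, b.repr_self, Finsupp.smul_apply, Finsupp.single_apply,
            if_neg, smul_zero]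
          intro h
          apply hx
          rw [← h, inv_pow, inv_app_FinE]
        · intro h
          exact absurd (Finset.mem_univ _) h
      rw [← h1, hpw]
    refine ⟨∑ x, (b.repr v x * c x) • b x, ?_⟩
    rw [sub_pow_FinE, LinearMap.sum_apply]
    have h1 : ∀ i ∈ Finset.range p, (g ^ i) (∑ x, (b.repr v x * c x) • b x) =
        ∑ y, (b.repr v y * c ((σ⁻¹ ^ i) y)) • b y := by
      intro i _
      rw [map_sum]
      refine Finset.sum_equiv (σ ^ i) (fun _ => by simp) fun x _ => ?_
      rw [map_smul, hit]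
      have h2 : (σ⁻¹ ^ i) ((σ ^ i) x) = x := by rw [inv_pow, inv_app_FinE]
      have h3 := hf i ((σ ^ i) x)
      rw [h2] at h3
      rw [h2, h3]
    rw [Finset.sum_congr rfl h1, Finset.sum_comm]
    conv_rhs => rw [← b.sum_repr v]
    refine Finset.sum_congr rfl fun y _ => ?_
    rw [← Finset.sum_smul, ← Finset.mul_sum, hc, mul_one]
  refine ⟨hone, ?_⟩
  have hfin : Module.Finite k V := Module.Finite.of_basis b
  have hgp : g ^ p = 1 := by
    apply b.ext
    intro x
    rw [hit, hσ, Equiv.Perm.one_apply, Module.End.one_apply]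
  have hmul : (g - 1) ^ (p - 1) * (g - 1) = 0 := by
    rw [sub_pow_FinE, geom_sum_mul, hgp, sub_self]
  have hle : LinearMap.range (g - 1) ≤ LinearMap.ker ((g - 1) ^ (p - 1)) := by
    rintro _ ⟨w, rfl⟩
    rw [LinearMap.mem_ker, ← Module.End.mul_apply, hmul, LinearMap.zero_apply]
  have h1 := LinearMap.finrank_range_add_finrank_ker (g - 1)
  have h2 := LinearMap.finrank_range_add_finrank_ker ((g - 1) ^ (p - 1))
  have h3 := Submodule.finrank_mono hone
  exact (Submodule.eq_of_le_of_finrank_le hle (by omega)).ge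

end Pool.Agent.MCG
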