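import Pool.Agent.MCG.FinA
import Pool.Agent.MCG.FinE

set_option autoImplicit false

noncomputable section

/-!
PACKAGE MCG-FINB. Vanishing of traces.

`V` is a free `ℤ_p`-module with the finite basis `b`, `g^(p^(r+1)) = 1`, and `g^(p^r)` permutes the
basis without fixed points. CLAIM: `trace g = 0`.
Let `n = p^(r+1)`, `a = p^r`, `V1 = V / p V` (a vector space over `ZMod p`; for example
`V1 = X → ZMod p` with the coordinates of `b` and `g1` = the matrix of `g` mapped by
`PadicInt.toZMod`; the map `V → V1` is surjective with kernel `p V`), `g1` the induced map,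
`t = g1 - 1`. `t^a = g1^a - 1` in characteristic `p` (`sub_pow_char_pow` for commuting elements,
`t^n = 0`). `perm_free` for `g1^a` (the permutation `σ` has `σ^p = 1` because `g^n = 1`) and
`ker_le_of_free` give `ker t ≤ range (t^(n-1))`. `exists_span`: `w j ∈ V1` (`j < s`) with
`dim V1 = n s` such that the `g1^i (w j)` (`i < n`) span `V1`. Lift the `w j` to `W j ∈ V`. The
`n s` elements `g^i (W j)` span `V` (Nakayama: `ℤ_p` is local, `V` finite; for example
`IsLocalRing.map_mkQ_eq_top`, `Submodule.le_of_le_smul_of_le_jacobson_bot`) and `V` has rank `n s`,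
so they are a basis (`basisOfTopLeSpanOfCardEqFinrank` needs a field; over `ℤ_p` a surjection
`ℤ_p^(n s) → V` of free modules of the same finite rank is bijective: `OrzechProperty`,
`LinearMap.injective_of_surjective..`, `Module.Basis`). `g` maps the element with index `(i, j)` to the
one with index `(i + 1, j)` (`i + 1` modulo `n`, as `g^n = 1`), so all diagonal entries of the
matrix of `g` in this basis are zero (`n ≥ 2`), `LinearMap.trace_eq_matrix_trace`.
-/

namespace Pool.Agent.MCG

open Module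

private theorem pow_sub_FinB {p : ℕ} [hp : Fact p.Prime] {k V : Type} [Field k] [CharP k p]
    [AddCommGroup V] [Module k V] (g : V →ₗ[k] V) (r : ℕ) :
    (g - 1) ^ p ^ r = g ^ p ^ r - 1 := by
  have h1 : ((Polynomial.X : Polynomial k) - 1) ^ p ^ r =
      (Polynomial.X : Polynomial k) ^ p ^ r - 1 := by
    rw [sub_pow_char_pow, one_pow]
  have h2 := congrArg (Polynomial.aeval g) h1
  simpa using h2

/-- a spanning family whose cardinality is that of a basis is a basis -/
private theorem basis_FinB {R X Y V : Type} [CommRing R] [Fintype X] [Fintype Y] [AddCommGroup V]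
    [Module R V] (b : Basis X R V) (B : Y → V) (hB : ⊤ ≤ Submodule.span R (Set.range B))
    (hc : Fintype.card Y = Fintype.card X) : ∃ b' : Basis Y R V, ∀ y, b' y = B y := by
  classical
  let e : Y ≃ X := Fintype.equivOfCardEq hc
  have hfin : Module.Finite R V := Module.Finite.of_basis b
  let φ : V →ₗ[R] V := b.constr R (fun x => B (e.symm x))
  have hφ : ∀ x, φ (b x) = B (e.symm x) := fun x => b.constr_basis R _ x
  have hs : Function.Surjective φ := by
    rw [← LinearMap.range_eq_top, eq_top_iff]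
    refine hB.trans ?_
    rw [Submodule.span_le]
    rintro _ ⟨y, rfl⟩
    refine ⟨b (e y), ?_⟩
    rw [hφ, Equiv.symm_apply_apply]
  have hi : Function.Injective φ := OrzechProperty.injective_of_surjective_endomorphism φ hs
  let L : V ≃ₗ[R] V := LinearEquiv.ofBijective φ ⟨hi, hs⟩
  refine ⟨(b.map L).reindex e.symm, fun y => ?_⟩
  rw [Basis.reindex_apply, Basis.map_apply]
  change φ (b (e.symm.symm y)) = B y
  rw [hφ, Equiv.symm_symm, Equiv.symm_apply_apply]

theorem trace_zero {p : ℕ} [hp : Fact p.Prime] {X V : Type} [Fintype X] [AddCommGroup V]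
    [Module ℤ_[p] V] (b : Basis X ℤ_[p] V) (g : V →ₗ[ℤ_[p]] V) {r : ℕ}
    (hg : g ^ p ^ (r + 1) = 1) (σ : Equiv.Perm X) (hfix : ∀ x, σ x ≠ x)
    (hσ : ∀ x, (g ^ p ^ r) (b x) = b (σ x)) : LinearMap.trace ℤ_[p] V g = 0 := by
  classical
  obtain ⟨φ, hφ⟩ : ∃ φ : ℤ_[p] →+* ZMod p, φ = PadicInt.toZMod := ⟨_, rfl⟩
  have hφs : Function.Surjective φ := ZMod.ringHom_surjective φ
  have hker : ∀ c : ℤ_[p], φ c = 0 → c ∈ IsLocalRing.maximalIdeal ℤ_[p] := by
    intro c hc
    rw [← PadicInt.ker_toZMod, RingHom.mem_ker, ← hφ]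
    exact hc
  obtain ⟨red, hred⟩ : ∃ red : V → X → ZMod p, ∀ v x, red v x = φ (b.repr v x) :=
    ⟨fun v x => φ (b.repr v x), fun _ _ => rfl⟩
  have red_add : ∀ v w, red (v + w) = red v + red w := by
    intro v w
    funext x
    rw [Pi.add_apply, hred, hred, hred, map_add, Finsupp.add_apply, map_add]
  have red_smul : ∀ (c : ℤ_[p]) v, red (c • v) = φ c • red v := by
    intro c v
    funext x
    rw [Pi.smul_apply, hred, hred, map_smul, Finsupp.smul_apply, smul_eq_mul, map_mul,
      smul_eq_mul]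
  have red_zero : red 0 = 0 := by
    have h := red_smul 0 0
    rw [zero_smul, map_zero, zero_smul] at h
    exact h
  have red_sum : ∀ {ι : Type} (S : Finset ι) (f : ι → V), red (∑ i ∈ S, f i) =
      ∑ i ∈ S, red (f i) := by
    intro ι S f
    induction S using Finset.induction_on with
    | empty => rw [Finset.sum_empty, Finset.sum_empty, red_zero]
    | insert a S ha ih => rw [Finset.sum_insert ha, Finset.sum_insert ha, red_add, ih]
  have red_b : ∀ x, red (b x) = Pi.basisFun (ZMod p) X x := by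
    intro x
    funext y
    rw [hred, b.repr_self, Pi.basisFun_apply, Finsupp.single_apply, Pi.single_apply]
    by_cases h : y = x
    · rw [if_pos h.symm, if_pos h, map_one]
    · rw [if_neg (fun h' => h h'.symm), if_neg h, map_zero]
  have reds : Function.Surjective red := by
    intro f
    choose c hc using fun x => hφs (f x)
    refine ⟨∑ x, c x • b x, ?_⟩
    funext y
    rw [hred, b.repr_sum_self, hc]
  obtain ⟨g1, hg1⟩ : ∃ g1 : (X → ZMod p) →ₗ[ZMod p] (X → ZMod p), ∀ v, red (g v) = g1 (red v) := by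
    refine ⟨Matrix.toLin' ((LinearMap.toMatrix b b g).map φ), fun v => ?_⟩
    funext x
    rw [Matrix.toLin'_apply, hred, ← LinearMap.toMatrix_mulVec_repr b b g v, RingHom.map_mulVec]
    congr 1
    funext y
    exact (hred v y).symm
  have hg1p : ∀ (m : ℕ) v, red ((g ^ m) v) = (g1 ^ m) (red v) := by
    intro m
    induction m with
    | zero => intro v; rfl
    | succ m ih =>
      intro v
      rw [pow_succ', pow_succ', Module.End.mul_apply, Module.End.mul_apply, hg1, ih]
  have hp2 : 2 ≤ p := hp.out.two_le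
  obtain ⟨a, ha⟩ : ∃ a, a = p ^ r := ⟨_, rfl⟩
  have ha1 : 1 ≤ a := by
    rw [ha]
    exact Nat.one_le_pow _ _ (by omega)
  have hn : p ^ (r + 1) = p * a := by rw [ha, pow_succ']
  have hn2 : 2 ≤ p * a := by nlinarith
  have hgn : g ^ (p * a) = 1 := by
    rw [← hn]
    exact hg
  have hg1n : g1 ^ (p * a) = 1 := by
    apply LinearMap.ext
    intro y
    obtain ⟨v, rfl⟩ := reds y
    rw [← hg1p, ← hn, hg, Module.End.one_apply, Module.End.one_apply]
  have ht : (g1 - 1) ^ (p * a) = 0 := by
    rw [← hn, pow_sub_FinB, hn, hg1n, sub_self]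
  have hta : (g1 - 1) ^ a = g1 ^ a - 1 := by
    rw [ha, pow_sub_FinB]
  have hg1a : ∀ x, (g1 ^ a) (Pi.basisFun (ZMod p) X x) = Pi.basisFun (ZMod p) X (σ x) := by
    intro x
    rw [← red_b, ← red_b, ← hg1p, ha, hσ]
  have hσp : σ ^ p = 1 := by
    have h1 : ∀ (m : ℕ) x, ((g ^ p ^ r) ^ m) (b x) = b ((σ ^ m) x) := by
      intro m
      induction m with
      | zero => intro x; rfl
      | succ m ih =>
        intro x
        rw [pow_succ', pow_succ', Module.End.mul_apply, ih, hσ, Equiv.Perm.mul_apply]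
    apply Equiv.ext
    intro x
    apply b.injective
    rw [← h1, ← pow_mul, ← pow_succ, hg, Module.End.one_apply, Equiv.Perm.one_apply]
  obtain ⟨hk1, hk2⟩ := perm_free (p := p) (Pi.basisFun (ZMod p) X) (g1 ^ a) σ hσp hfix hg1a
  rw [← hta] at hk1 hk2
  have hk := ker_le_of_free (g1 - 1) hp2 ha1 hk1 hk2
  obtain ⟨s, w, hdim, hspan⟩ := exists_span (g1 - 1) (n := p * a) (by omega) ht hk
  have hadd : (1 : (X → ZMod p) →ₗ[ZMod p] (X → ZMod p)) + (g1 - 1) = g1 := by abel
  rw [hadd] at hspan
  choose W hW using fun j => reds (w j)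
  have hcard : Fintype.card (Fin (p * a) × Fin s) = Fintype.card X := by
    rw [Fintype.card_prod, Fintype.card_fin, Fintype.card_fin, ← hdim]
    exact Module.finrank_fintype_fun_eq_card (ZMod p)
  have hfinV : Module.Finite ℤ_[p] V := Module.Finite.of_basis b
  have hB : (⊤ : Submodule ℤ_[p] V) ≤ Submodule.span ℤ_[p]
      (Set.range fun x : Fin (p * a) × Fin s => (g ^ (x.1 : ℕ)) (W x.2)) := by
    apply Submodule.le_of_le_smul_of_le_jacobson_bot (I := IsLocalRing.maximalIdeal ℤ_[p])
      Module.Finite.fg_top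
    · rw [IsLocalRing.jacobson_eq_maximalIdeal ⊥ bot_ne_top]
    · intro v _
      have h1 := hspan (show red v ∈ (⊤ : Submodule (ZMod p) (X → ZMod p)) from trivial)
      rw [Submodule.mem_span_range_iff_exists_fun] at h1
      obtain ⟨c, hc⟩ := h1
      choose C hC using fun x => hφs (c x)
      have h2 : red (v - ∑ x, C x • (g ^ (x.1 : ℕ)) (W x.2)) = 0 := by
        have h3 : red (∑ x, C x • (g ^ (x.1 : ℕ)) (W x.2)) = red v := by
          rw [red_sum, ← hc]
          refine Finset.sum_congr rfl fun x _ => ?_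
          rw [red_smul, hC, hg1p, hW]
        have h4 := red_add (v - ∑ x, C x • (g ^ (x.1 : ℕ)) (W x.2))
          (∑ x, C x • (g ^ (x.1 : ℕ)) (W x.2))
        rw [sub_add_cancel, h3] at h4
        exact left_eq_add.1 (h4.trans (add_comm _ _))
      have h5 : v - ∑ x, C x • (g ^ (x.1 : ℕ)) (W x.2) ∈
          IsLocalRing.maximalIdeal ℤ_[p] • (⊤ : Submodule ℤ_[p] V) := by
        rw [← b.sum_repr (v - ∑ x, C x • (g ^ (x.1 : ℕ)) (W x.2))]
        refine Submodule.sum_mem _ fun x _ => Submodule.smul_mem_smul (hker _ ?_) trivial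
        rw [← hred, h2]
        rfl
      have h6 : v = ∑ x, C x • (g ^ (x.1 : ℕ)) (W x.2) +
          (v - ∑ x, C x • (g ^ (x.1 : ℕ)) (W x.2)) := by abel
      rw [h6]
      refine Submodule.add_mem_sup ?_ h5
      refine Submodule.sum_mem _ fun x _ => Submodule.smul_mem _ _ ?_
      exact Submodule.subset_span ⟨x, rfl⟩
  obtain ⟨b', hb'⟩ := basis_FinB b _ hB hcard
  rw [LinearMap.trace_eq_matrix_trace ℤ_[p] b' g, Matrix.trace]
  refine Finset.sum_eq_zero fun x _ => ?_
  rw [Matrix.diag_apply, LinearMap.toMatrix_apply]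
  have hlt : ((x.1 : ℕ) + 1) % (p * a) < p * a := Nat.mod_lt _ (by omega)
  have h1 : g (b' x) = b' (⟨((x.1 : ℕ) + 1) % (p * a), hlt⟩, x.2) := by
    rw [hb', hb']
    change g ((g ^ (x.1 : ℕ)) (W x.2)) = (g ^ (((x.1 : ℕ) + 1) % (p * a))) (W x.2)
    rw [← Module.End.mul_apply, ← pow_succ']
    by_cases h : (x.1 : ℕ) + 1 = p * a
    · rw [h, Nat.mod_self, pow_zero, hgn]
    · rw [Nat.mod_eq_of_lt]
      have := x.1.2
      omega
  rw [h1, b'.repr_self, Finsupp.single_apply, if_neg]
  intro h
  have h2 := congrArg (fun y : Fin (p * a) × Fin s => (y.1 : ℕ)) h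
  change ((x.1 : ℕ) + 1) % (p * a) = x.1 at h2
  have h3 := x.1.2
  by_cases h4 : (x.1 : ℕ) + 1 = p * a
  · rw [h4, Nat.mod_self] at h2
    omega
  · rw [Nat.mod_eq_of_lt (by omega)] at h2
    omega

end Pool.Agent.MCG
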