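import Pool.Agent.MCG.FinB

set_option autoImplicit false

noncomputable section

/-!
PACKAGE MCG-FINLEM. LEMMA K: lattices of finite `p`-groups which are free over a subgroup
containing all elements of order `p`.

* `card_dvd`. For `x ≠ 1` in `G` of order `p^(r+1)` the element `y = x^(p^r)` has `y^p = 1`, `y ≠ 1`,
  so `y ∈ N`, and `ρ y` permutes the basis by `(n, i) ↦ (y n, i)` without fixed points. By
  `trace_zero` `trace (ρ x) = 0`. Let `M x` be the matrix of `ρ x` in the basis `b`, mapped to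
  `ℚ_p`, `e = (card G)⁻¹ ∑ x, M x`. `e * e = e`, and `trace e = (card G)⁻¹ * card (N × Fin s)`.
  The trace of an idempotent matrix over a field of characteristic zero is a natural number (its
  rank; `trace_idem`), so `card N * s = card G * rank e` in `ℚ_p`, hence in `ℕ`.
* `trace_idem`: `LinearMap.IsProj.trace`, `LinearMap.IsIdempotentElem..`, `Matrix.toLin'`.
-/

namespace Pool.Agent.MCG

open Module

theorem trace_idem {K ι : Type} [Field K] [Fintype ι] [DecidableEq ι] (e : Matrix ι ι K)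
    (he : e * e = e) : ∃ m : ℕ, e.trace = m := by
  have h : IsIdempotentElem (Matrix.toLin' e) := by
    change Matrix.toLin' e * Matrix.toLin' e = Matrix.toLin' e
    rw [Module.End.mul_eq_comp, ← Matrix.toLin'_mul, he]
  have h2 := (LinearMap.IsIdempotentElem.isProj_range _ h).trace
  rw [Matrix.trace_toLin'_eq] at h2
  exact ⟨_, h2⟩

private theorem finLem_trace {p : ℕ} [hp : Fact p.Prime] (G : Type) [Group G] [Fintype G]
    (hG : IsPGroup p G)
    (N : Subgroup G) [Fintype N] (hN : ∀ x : G, x ^ p = 1 → x ∈ N) (s : ℕ) (V : Type)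
    [AddCommGroup V] [Module ℤ_[p] V] (ρ : G →* (V →ₗ[ℤ_[p]] V))
    (b : Basis (N × Fin s) ℤ_[p] V)
    (hb : ∀ (n n' : N) (i : Fin s), ρ n (b (n', i)) = b (n * n', i)) (x : G) (hx : x ≠ 1) :
    LinearMap.trace ℤ_[p] V (ρ x) = 0 := by
  classical
  obtain ⟨k, hk⟩ := (IsPGroup.iff_orderOf.mp hG) x
  have hk0 : k ≠ 0 := by
    rintro rfl
    rw [pow_zero, orderOf_eq_one_iff] at hk
    exact hx hk
  obtain ⟨r, rfl⟩ := Nat.exists_eq_succ_of_ne_zero hk0
  have h1 : x ^ p ^ (r + 1) = 1 := by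
    rw [← Nat.succ_eq_add_one, ← hk]; exact pow_orderOf_eq_one x
  have h2 : (x ^ p ^ r) ^ p = 1 := by
    rw [← pow_mul, ← pow_succ]; exact h1
  have h3 : x ^ p ^ r ≠ 1 := by
    intro h
    have h4 := orderOf_dvd_of_pow_eq_one h
    rw [hk, Nat.succ_eq_add_one] at h4
    have h5 := (Nat.pow_dvd_pow_iff_le_right hp.out.one_lt).mp h4
    omega
  have hmem := hN _ h2
  let y : N := ⟨x ^ p ^ r, hmem⟩
  refine trace_zero b (ρ x) (r := r) ?_ ((Equiv.mulLeft y).prodCongr (Equiv.refl _)) ?_ ?_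
  · rw [← map_pow, h1, map_one]
  · rintro ⟨n, i⟩ h
    have h6 : y * n = n := congrArg Prod.fst h
    have h7 : y = 1 := mul_eq_right.mp h6
    exact h3 (congrArg Subtype.val h7)
  · rintro ⟨n, i⟩
    rw [← map_pow]
    exact hb y n i

theorem card_dvd {p : ℕ} [hp : Fact p.Prime] (G : Type) [Group G] [Fintype G] (hG : IsPGroup p G)
    (N : Subgroup G) [Fintype N] (hN : ∀ x : G, x ^ p = 1 → x ∈ N) (s : ℕ) (V : Type)
    [AddCommGroup V] [Module ℤ_[p] V] (ρ : G →* (V →ₗ[ℤ_[p]] V))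
    (b : Basis (N × Fin s) ℤ_[p] V)
    (hb : ∀ (n n' : N) (i : Fin s), ρ n (b (n', i)) = b (n * n', i)) :
    Fintype.card G ∣ s * Fintype.card N := by
  classical
  let T : (V →ₗ[ℤ_[p]] V) →+* Matrix (N × Fin s) (N × Fin s) ℚ_[p] :=
    ((algebraMap ℤ_[p] ℚ_[p]).mapMatrix).comp
      (LinearMap.toMatrixAlgEquiv b : (V →ₗ[ℤ_[p]] V) ≃ₐ[ℤ_[p]] _).toRingEquiv.toRingHom
  have hT : ∀ f, (T f).trace = algebraMap ℤ_[p] ℚ_[p] (LinearMap.trace ℤ_[p] V f) := by
    intro f
    rw [LinearMap.trace_eq_matrix_trace ℤ_[p] b]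
    rw [AddMonoidHom.map_trace]
    rfl
  set c : ℚ_[p] := (Fintype.card G : ℚ_[p]) with hc
  have hc0 : c ≠ 0 := by
    rw [hc]; exact_mod_cast Fintype.card_ne_zero
  let S : Matrix (N × Fin s) (N × Fin s) ℚ_[p] := ∑ x : G, T (ρ x)
  have hS : S * S = c • S := by
    have h1 : ∀ x : G, T (ρ x) * S = S := by
      intro x
      simp only [S, Finset.mul_sum, ← map_mul]
      exact Equiv.sum_comp (Equiv.mulLeft x) (fun z => T (ρ z))
    calc S * S = ∑ x : G, T (ρ x) * S := by
          conv_lhs => rw [show S * S = (∑ x : G, T (ρ x)) * S from rfl]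
          rw [Finset.sum_mul]
      _ = c • S := by
          rw [Finset.sum_congr rfl (fun x _ => h1 x), Finset.sum_const, Finset.card_univ, hc,
            Nat.cast_smul_eq_nsmul]
  have he : (c⁻¹ • S) * (c⁻¹ • S) = c⁻¹ • S := by
    rw [smul_mul_smul_comm, hS, smul_smul, mul_assoc, inv_mul_cancel₀ hc0, mul_one]
  obtain ⟨m, hm⟩ := trace_idem _ he
  have htr : S.trace = ((s * Fintype.card N : ℕ) : ℚ_[p]) := by
    have h1 : S.trace = ∑ x : G, (T (ρ x)).trace := by
      simp only [S, Matrix.trace_sum]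
    rw [h1, Finset.sum_eq_single (1 : G)]
    · rw [map_one, map_one, Matrix.trace_one, Fintype.card_prod, Fintype.card_fin]
      push_cast
      ring
    · intro x _ hx
      rw [hT, finLem_trace G hG N hN s V ρ b hb x hx, map_zero]
    · intro h; exact absurd (Finset.mem_univ _) h
  rw [Matrix.trace_smul, htr, smul_eq_mul] at hm
  have h2 : ((s * Fintype.card N : ℕ) : ℚ_[p]) = ((Fintype.card G * m : ℕ) : ℚ_[p]) := by
    rw [Nat.cast_mul (Fintype.card G) m, ← hm, ← hc, ← mul_assoc, mul_inv_cancel₀ hc0, one_mul]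
  exact ⟨m, by exact_mod_cast h2⟩

end Pool.Agent.MCG
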