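import Pool.Agent.MCG.Defs

set_option autoImplicit false
set_option linter.unusedSectionVars false

noncomputable section

/-!
PACKAGE MCG-FOX. Left and right Fox derivatives over a commutative ring `R`.

`foxG x : F → units of the 2 × 2 matrices over R[F]`, `f ↦ (1, ∂f; 0, f)`, so `∂ (f g) = ∂ f * g + ∂
g` for group elements; `foxl` is the linear extension. `foxl_mul`: both sides are bilinear
(`MonoidAlgebra.induction_linear` twice). `foxl_sum`: linear in `a`; for group elements the set of
all `f` with `f - 1 = ∑ x, (x - 1) * ∂_x f` contains the generators and is closed under products and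
inverses (`FreeGroup.induction_on`): `f g - 1 = (f - 1) g + (g - 1)`. `foxl_unique`: `foxl_mul` with
`eps (x - 1) = 0`. `foxl_fil`: `n = 0` clear; `Fil (n + 1)` is spanned by the `(g - 1) * v` with `v
∈ Fil n` (`fil_succ_le_of`), and `∂ ((g - 1) v) = ∂ (g - 1) * v` (`eps (g - 1) = 0`). Do the same
for the right derivatives: `f ↦ (f, D f; 0, 1)`, `D (f g) = f * D g + D f`; `Fil (n + 1)` is also
spanned by the `v * (g - 1)`, `v ∈ Fil n` (prove this as `fil_succ_le_of_right`, for example `Fil (n
+ 1) = Fil n * Fil 1`, definition of `Fil`). `coef_eq`: both sides satisfy `c (f g) = c f + c g +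
e_y f * e_x g`, where `e` is the exponent sum. -/

namespace Pool.Agent.MCG

open MonoidAlgebra Pool.Agent.Lvl

/-- the augmentation -/
def eps (R P : Type) [CommRing R] [Group P] : MonoidAlgebra R P →ₐ[R] R :=
  MonoidAlgebra.lift R R P (1 : P →* R)

section

variable (R : Type) [CommRing R] {ι : Type} [DecidableEq ι]

/-- the unit `(1, δ; 0, y)` -/
def foxU (x y : ι) : (Matrix (Fin 2) (Fin 2) (MonoidAlgebra R (FreeGroup ι)))ˣ where
  val := !![1, if y = x then 1 else 0; 0, single (FreeGroup.of y) 1]
  inv := !![1, if y = x then -single (FreeGroup.of y)⁻¹ 1 else 0; 0, single (FreeGroup.of y)⁻¹ 1]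
  val_inv := by
    rw [Matrix.mul_fin_two, Matrix.one_fin_two]
    split_ifs <;> simp [single_mul_single, MonoidAlgebra.one_def]
  inv_val := by
    rw [Matrix.mul_fin_two, Matrix.one_fin_two]
    split_ifs <;> simp [single_mul_single, MonoidAlgebra.one_def]

/-- the left Fox derivative with respect to the generator `x` -/
def foxl (x : ι) : MonoidAlgebra R (FreeGroup ι) →ₗ[R] MonoidAlgebra R (FreeGroup ι) where
  toFun a := (MonoidAlgebra.lift R (Matrix (Fin 2) (Fin 2) (MonoidAlgebra R (FreeGroup ι)))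
    (FreeGroup ι) ((Units.coeHom _).comp (FreeGroup.lift (foxU R x))) a) 0 1
  map_add' := by
    intro a b
    rw [map_add, Matrix.add_apply]
  map_smul' := by
    intro r a
    rw [map_smul, Matrix.smul_apply, RingHom.id_apply]

/-- the unit `(y, δ; 0, 1)` -/
def foxV (x y : ι) : (Matrix (Fin 2) (Fin 2) (MonoidAlgebra R (FreeGroup ι)))ˣ where
  val := !![single (FreeGroup.of y) 1, if y = x then 1 else 0; 0, 1]
  inv := !![single (FreeGroup.of y)⁻¹ 1, if y = x then -single (FreeGroup.of y)⁻¹ 1 else 0; 0, 1]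
  val_inv := by
    rw [Matrix.mul_fin_two, Matrix.one_fin_two]
    split_ifs <;> simp [single_mul_single, MonoidAlgebra.one_def]
  inv_val := by
    rw [Matrix.mul_fin_two, Matrix.one_fin_two]
    split_ifs <;> simp [single_mul_single, MonoidAlgebra.one_def]

/-- the right Fox derivative with respect to the generator `x` -/
def foxr (x : ι) : MonoidAlgebra R (FreeGroup ι) →ₗ[R] MonoidAlgebra R (FreeGroup ι) where
  toFun a := (MonoidAlgebra.lift R (Matrix (Fin 2) (Fin 2) (MonoidAlgebra R (FreeGroup ι)))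
    (FreeGroup ι) ((Units.coeHom _).comp (FreeGroup.lift (foxV R x))) a) 0 1
  map_add' := by
    intro a b
    rw [map_add, Matrix.add_apply]
  map_smul' := by
    intro r a
    rw [map_smul, Matrix.smul_apply, RingHom.id_apply]

variable {R}

private theorem eps_single_Fox {P : Type} [Group P] (g : P) (r : R) :
    eps R P (single g r) = r := by
  unfold eps
  rw [MonoidAlgebra.lift_single, MonoidHom.one_apply, smul_eq_mul, mul_one]

private theorem eps_one_Fox {P : Type} [Group P] : eps R P 1 = 1 := map_one _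

private theorem single_smul_Fox {P : Type} [Group P] (g : P) (r : R) :
    (single g r : MonoidAlgebra R P) = r • single g 1 := by
  rw [MonoidAlgebra.smul_single, smul_eq_mul, mul_one]

/-- the homomorphism behind the left derivative -/
private abbrev HU_Fox (R : Type) [CommRing R] (x : ι) :
    MonoidAlgebra R (FreeGroup ι) →ₐ[R] Matrix (Fin 2) (Fin 2) (MonoidAlgebra R (FreeGroup ι)) :=
  MonoidAlgebra.lift R (Matrix (Fin 2) (Fin 2) (MonoidAlgebra R (FreeGroup ι)))
    (FreeGroup ι) ((Units.coeHom _).comp (FreeGroup.lift (foxU R x)))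

private abbrev HV_Fox (R : Type) [CommRing R] (x : ι) :
    MonoidAlgebra R (FreeGroup ι) →ₐ[R] Matrix (Fin 2) (Fin 2) (MonoidAlgebra R (FreeGroup ι)) :=
  MonoidAlgebra.lift R (Matrix (Fin 2) (Fin 2) (MonoidAlgebra R (FreeGroup ι)))
    (FreeGroup ι) ((Units.coeHom _).comp (FreeGroup.lift (foxV R x)))

private theorem HU_single_Fox (x : ι) (g : FreeGroup ι) :
    HU_Fox R x (single g 1) = ((FreeGroup.lift (foxU R x) g :
      (Matrix (Fin 2) (Fin 2) (MonoidAlgebra R (FreeGroup ι)))ˣ) :
        Matrix (Fin 2) (Fin 2) (MonoidAlgebra R (FreeGroup ι))) := by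
  rw [HU_Fox, MonoidAlgebra.lift_single, one_smul]
  rfl

private theorem HV_single_Fox (x : ι) (g : FreeGroup ι) :
    HV_Fox R x (single g 1) = ((FreeGroup.lift (foxV R x) g :
      (Matrix (Fin 2) (Fin 2) (MonoidAlgebra R (FreeGroup ι)))ˣ) :
        Matrix (Fin 2) (Fin 2) (MonoidAlgebra R (FreeGroup ι))) := by
  rw [HV_Fox, MonoidAlgebra.lift_single, one_smul]
  rfl

private theorem HU_of_Fox (x y : ι) :
    HU_Fox R x (single (FreeGroup.of y) 1) =
      !![1, if y = x then 1 else 0; 0, single (FreeGroup.of y) 1] := by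
  rw [HU_single_Fox, FreeGroup.lift_apply_of]
  rfl

private theorem HU_inv_Fox (x y : ι) :
    HU_Fox R x (single (FreeGroup.of y)⁻¹ 1) =
      !![1, if y = x then -single (FreeGroup.of y)⁻¹ 1 else 0;
        0, single (FreeGroup.of y)⁻¹ 1] := by
  rw [HU_single_Fox, map_inv, FreeGroup.lift_apply_of]
  rfl

private theorem HV_of_Fox (x y : ι) :
    HV_Fox R x (single (FreeGroup.of y) 1) =
      !![single (FreeGroup.of y) 1, if y = x then 1 else 0; 0, 1] := by
  rw [HV_single_Fox, FreeGroup.lift_apply_of]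
  rfl

private theorem HV_inv_Fox (x y : ι) :
    HV_Fox R x (single (FreeGroup.of y)⁻¹ 1) =
      !![single (FreeGroup.of y)⁻¹ 1, if y = x then -single (FreeGroup.of y)⁻¹ 1 else 0;
        0, 1] := by
  rw [HV_single_Fox, map_inv, FreeGroup.lift_apply_of]
  rfl

private theorem single_mul_Fox {P : Type} [Group P] (g h : P) :
    (single (g * h) 1 : MonoidAlgebra R P) = single g 1 * single h 1 := by
  rw [single_mul_single, mul_one]

private theorem HU_g_Fox (x : ι) (g : FreeGroup ι) :
    HU_Fox R x (single g 1) 0 0 = 1 ∧ HU_Fox R x (single g 1) 1 0 = 0 ∧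
      HU_Fox R x (single g 1) 1 1 = single g 1 := by
  induction g using FreeGroup.induction_on with
  | C1 =>
    rw [← MonoidAlgebra.one_def, map_one]
    simp
  | of y =>
    rw [HU_of_Fox]
    simp
  | inv_of y _ =>
    rw [HU_inv_Fox]
    simp
  | mul a b ha hb =>
    obtain ⟨a1, a2, a3⟩ := ha
    obtain ⟨b1, b2, b3⟩ := hb
    rw [single_mul_Fox, map_mul]
    simp only [Matrix.mul_apply, Fin.sum_univ_two]
    rw [a1, a2, a3, b1, b2, b3]
    simp

private theorem HV_g_Fox (x : ι) (g : FreeGroup ι) :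
    HV_Fox R x (single g 1) 0 0 = single g 1 ∧ HV_Fox R x (single g 1) 1 0 = 0 ∧
      HV_Fox R x (single g 1) 1 1 = 1 := by
  induction g using FreeGroup.induction_on with
  | C1 =>
    rw [← MonoidAlgebra.one_def, map_one]
    simp
  | of y =>
    rw [HV_of_Fox]
    simp
  | inv_of y _ =>
    rw [HV_inv_Fox]
    simp
  | mul a b ha hb =>
    obtain ⟨a1, a2, a3⟩ := ha
    obtain ⟨b1, b2, b3⟩ := hb
    rw [single_mul_Fox, map_mul]
    simp only [Matrix.mul_apply, Fin.sum_univ_two]
    rw [a1, a2, a3, b1, b2, b3]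
    simp

private theorem HU_all_Fox (x : ι) (a : MonoidAlgebra R (FreeGroup ι)) :
    HU_Fox R x a 0 0 = algebraMap R _ (eps R (FreeGroup ι) a) ∧ HU_Fox R x a 1 0 = 0 ∧
      HU_Fox R x a 1 1 = a := by
  induction a using MonoidAlgebra.induction_linear with
  | zero => simp
  | add a b ha hb =>
    obtain ⟨a1, a2, a3⟩ := ha
    obtain ⟨b1, b2, b3⟩ := hb
    rw [map_add, Matrix.add_apply, Matrix.add_apply, Matrix.add_apply, a1, a2, a3, b1, b2, b3,
      map_add, map_add, add_zero]
    exact ⟨rfl, rfl, rfl⟩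
  | single g r =>
    obtain ⟨a1, a2, a3⟩ := HU_g_Fox (R := R) x g
    rw [single_smul_Fox g r, map_smul, Matrix.smul_apply, Matrix.smul_apply, Matrix.smul_apply,
      a1, a2, a3, map_smul, eps_single_Fox, smul_eq_mul, mul_one, smul_zero,
      Algebra.algebraMap_eq_smul_one]
    exact ⟨rfl, rfl, rfl⟩

private theorem HV_all_Fox (x : ι) (a : MonoidAlgebra R (FreeGroup ι)) :
    HV_Fox R x a 0 0 = a ∧ HV_Fox R x a 1 0 = 0 ∧
      HV_Fox R x a 1 1 = algebraMap R _ (eps R (FreeGroup ι) a) := by
  induction a using MonoidAlgebra.induction_linear with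
  | zero => simp
  | add a b ha hb =>
    obtain ⟨a1, a2, a3⟩ := ha
    obtain ⟨b1, b2, b3⟩ := hb
    rw [map_add, Matrix.add_apply, Matrix.add_apply, Matrix.add_apply, a1, a2, a3, b1, b2, b3,
      map_add, map_add, add_zero]
    exact ⟨rfl, rfl, rfl⟩
  | single g r =>
    obtain ⟨a1, a2, a3⟩ := HV_g_Fox (R := R) x g
    rw [single_smul_Fox g r, map_smul, Matrix.smul_apply, Matrix.smul_apply, Matrix.smul_apply,
      a1, a2, a3, map_smul, eps_single_Fox, smul_eq_mul, mul_one, smul_zero,
      Algebra.algebraMap_eq_smul_one]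
    exact ⟨rfl, rfl, rfl⟩

private theorem foxl_eq_Fox (x : ι) (a : MonoidAlgebra R (FreeGroup ι)) :
    foxl R x a = HU_Fox R x a 0 1 := rfl

private theorem foxr_eq_Fox (x : ι) (a : MonoidAlgebra R (FreeGroup ι)) :
    foxr R x a = HV_Fox R x a 0 1 := rfl

theorem foxl_mul (x : ι) (a b : MonoidAlgebra R (FreeGroup ι)) :
    foxl R x (a * b) = foxl R x a * b + eps R (FreeGroup ι) a • foxl R x b := by
  rw [foxl_eq_Fox, foxl_eq_Fox, foxl_eq_Fox, map_mul, Matrix.mul_apply, Fin.sum_univ_two,
    (HU_all_Fox x a).1, (HU_all_Fox x b).2.2, ← Algebra.smul_def, add_comm]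

theorem foxr_mul (x : ι) (a b : MonoidAlgebra R (FreeGroup ι)) :
    foxr R x (a * b) = a * foxr R x b + eps R (FreeGroup ι) b • foxr R x a := by
  rw [foxr_eq_Fox, foxr_eq_Fox, foxr_eq_Fox, map_mul, Matrix.mul_apply, Fin.sum_univ_two,
    (HV_all_Fox x a).1, (HV_all_Fox x b).2.2, ← Algebra.commutes, ← Algebra.smul_def]

theorem foxl_one (x : ι) : foxl R x 1 = 0 := by
  rw [foxl_eq_Fox, map_one]
  simp

theorem foxr_one (x : ι) : foxr R x 1 = 0 := by
  rw [foxr_eq_Fox, map_one]
  simp

theorem foxl_of (x y : ι) :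
    foxl R x (single (FreeGroup.of y) 1) = if y = x then 1 else 0 := by
  rw [foxl_eq_Fox, HU_of_Fox]
  simp

theorem foxr_of (x y : ι) :
    foxr R x (single (FreeGroup.of y) 1) = if y = x then 1 else 0 := by
  rw [foxr_eq_Fox, HV_of_Fox]
  simp

private theorem foxl_inv_Fox (x y : ι) :
    foxl R x (single (FreeGroup.of y)⁻¹ 1) =
      if y = x then -single (FreeGroup.of y)⁻¹ 1 else 0 := by
  rw [foxl_eq_Fox, HU_inv_Fox]
  simp

private theorem foxr_inv_Fox (x y : ι) :
    foxr R x (single (FreeGroup.of y)⁻¹ 1) =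
      if y = x then -single (FreeGroup.of y)⁻¹ 1 else 0 := by
  rw [foxr_eq_Fox, HV_inv_Fox]
  simp

private theorem foxl_mul_g_Fox (x : ι) (g h : FreeGroup ι) :
    foxl R x (single (g * h) 1) = foxl R x (single g 1) * single h 1 + foxl R x (single h 1) := by
  rw [single_mul_Fox, foxl_mul, eps_single_Fox, one_smul]

private theorem foxr_mul_g_Fox (x : ι) (g h : FreeGroup ι) :
    foxr R x (single (g * h) 1) = single g 1 * foxr R x (single h 1) + foxr R x (single g 1) := by
  rw [single_mul_Fox, foxr_mul, eps_single_Fox, one_smul]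

private theorem foxl_sum_g_Fox [Fintype ι] (g : FreeGroup ι) :
    (single g 1 : MonoidAlgebra R (FreeGroup ι)) = 1 +
      ∑ x, (single (FreeGroup.of x) 1 - 1) * foxl R x (single g 1) := by
  induction g using FreeGroup.induction_on with
  | C1 =>
    rw [← MonoidAlgebra.one_def]
    simp [foxl_one]
  | of y =>
    have h : ∀ x, (single (FreeGroup.of x) 1 - 1 : MonoidAlgebra R (FreeGroup ι)) *
        foxl R x (single (FreeGroup.of y) 1) =
        if y = x then (single (FreeGroup.of x) 1 - 1) else 0 := by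
      intro x
      rw [foxl_of, mul_ite, mul_one, mul_zero]
    rw [Finset.sum_congr rfl fun x _ => h x, Finset.sum_ite_eq, if_pos (Finset.mem_univ _)]
    abel
  | inv_of y _ =>
    have h : ∀ x, (single (FreeGroup.of x) 1 - 1 : MonoidAlgebra R (FreeGroup ι)) *
        foxl R x (single (FreeGroup.of y)⁻¹ 1) =
        if y = x then (single (FreeGroup.of x) 1 - 1) * (-single (FreeGroup.of y)⁻¹ 1) else 0 := by
      intro x
      rw [foxl_inv_Fox, mul_ite, mul_zero]
    rw [Finset.sum_congr rfl fun x _ => h x, Finset.sum_ite_eq, if_pos (Finset.mem_univ _),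
      mul_neg, sub_mul, one_mul, single_mul_single, mul_inv_cancel, mul_one,
      ← MonoidAlgebra.one_def]
    abel
  | mul a b ha hb =>
    have h : ∀ x, (single (FreeGroup.of x) 1 - 1 : MonoidAlgebra R (FreeGroup ι)) *
        foxl R x (single (a * b) 1) =
        ((single (FreeGroup.of x) 1 - 1) * foxl R x (single a 1)) * single b 1 +
          (single (FreeGroup.of x) 1 - 1) * foxl R x (single b 1) := by
      intro x
      rw [foxl_mul_g_Fox, mul_add, mul_assoc]
    rw [Finset.sum_congr rfl fun x _ => h x, Finset.sum_add_distrib, ← Finset.sum_mul,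
      eq_sub_iff_add_eq'.2 ha.symm, eq_sub_iff_add_eq'.2 hb.symm, single_mul_Fox]
    noncomm_ring

private theorem foxr_sum_g_Fox [Fintype ι] (g : FreeGroup ι) :
    (single g 1 : MonoidAlgebra R (FreeGroup ι)) = 1 +
      ∑ x, foxr R x (single g 1) * (single (FreeGroup.of x) 1 - 1) := by
  induction g using FreeGroup.induction_on with
  | C1 =>
    rw [← MonoidAlgebra.one_def]
    simp [foxr_one]
  | of y =>
    have h : ∀ x, foxr R x (single (FreeGroup.of y) 1) *
        (single (FreeGroup.of x) 1 - 1 : MonoidAlgebra R (FreeGroup ι)) =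
        if y = x then (single (FreeGroup.of x) 1 - 1) else 0 := by
      intro x
      rw [foxr_of, ite_mul, one_mul, zero_mul]
    rw [Finset.sum_congr rfl fun x _ => h x, Finset.sum_ite_eq, if_pos (Finset.mem_univ _)]
    abel
  | inv_of y _ =>
    have h : ∀ x, foxr R x (single (FreeGroup.of y)⁻¹ 1) *
        (single (FreeGroup.of x) 1 - 1 : MonoidAlgebra R (FreeGroup ι)) =
        if y = x then (-single (FreeGroup.of y)⁻¹ 1) * (single (FreeGroup.of x) 1 - 1) else 0 := by
      intro x
      rw [foxr_inv_Fox, ite_mul, zero_mul]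
    rw [Finset.sum_congr rfl fun x _ => h x, Finset.sum_ite_eq, if_pos (Finset.mem_univ _),
      neg_mul, mul_sub, mul_one, single_mul_single, inv_mul_cancel, mul_one,
      ← MonoidAlgebra.one_def]
    abel
  | mul a b ha hb =>
    have h : ∀ x, foxr R x (single (a * b) 1) *
        (single (FreeGroup.of x) 1 - 1 : MonoidAlgebra R (FreeGroup ι)) =
        single a 1 * (foxr R x (single b 1) * (single (FreeGroup.of x) 1 - 1)) +
          foxr R x (single a 1) * (single (FreeGroup.of x) 1 - 1) := by
      intro x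
      rw [foxr_mul_g_Fox, add_mul, mul_assoc]
    rw [Finset.sum_congr rfl fun x _ => h x, Finset.sum_add_distrib, ← Finset.mul_sum,
      eq_sub_iff_add_eq'.2 ha.symm, eq_sub_iff_add_eq'.2 hb.symm, single_mul_Fox]
    noncomm_ring

theorem foxl_sum [Fintype ι] (a : MonoidAlgebra R (FreeGroup ι)) :
    a = single 1 (eps R (FreeGroup ι) a) +
      ∑ x, (single (FreeGroup.of x) 1 - 1) * foxl R x a := by
  induction a using MonoidAlgebra.induction_linear with
  | zero => simp
  | add a b ha hb =>
    have h : ∀ x, (single (FreeGroup.of x) 1 - 1 : MonoidAlgebra R (FreeGroup ι)) *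
        foxl R x (a + b) = (single (FreeGroup.of x) 1 - 1) * foxl R x a +
          (single (FreeGroup.of x) 1 - 1) * foxl R x b := by
      intro x
      rw [map_add, mul_add]
    rw [Finset.sum_congr rfl fun x _ => h x, Finset.sum_add_distrib, map_add, single_add]
    nth_rewrite 1 [ha, hb]
    abel
  | single g r =>
    have h : ∀ x, (single (FreeGroup.of x) 1 - 1 : MonoidAlgebra R (FreeGroup ι)) *
        foxl R x (single g r) = r • ((single (FreeGroup.of x) 1 - 1) *
          foxl R x (single g 1)) := by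
      intro x
      rw [single_smul_Fox g r, map_smul, mul_smul_comm]
    rw [Finset.sum_congr rfl fun x _ => h x, ← Finset.smul_sum, eps_single_Fox,
      eq_sub_iff_add_eq'.2 (foxl_sum_g_Fox (R := R) g).symm, smul_sub, ← single_smul_Fox g r,
      MonoidAlgebra.one_def, ← single_smul_Fox 1 r]
    abel

theorem foxr_sum [Fintype ι] (a : MonoidAlgebra R (FreeGroup ι)) :
    a = single 1 (eps R (FreeGroup ι) a) +
      ∑ x, foxr R x a * (single (FreeGroup.of x) 1 - 1) := by
  induction a using MonoidAlgebra.induction_linear with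
  | zero => simp
  | add a b ha hb =>
    have h : ∀ x, foxr R x (a + b) *
        (single (FreeGroup.of x) 1 - 1 : MonoidAlgebra R (FreeGroup ι)) =
        foxr R x a * (single (FreeGroup.of x) 1 - 1) +
          foxr R x b * (single (FreeGroup.of x) 1 - 1) := by
      intro x
      rw [map_add, add_mul]
    rw [Finset.sum_congr rfl fun x _ => h x, Finset.sum_add_distrib, map_add, single_add]
    nth_rewrite 1 [ha, hb]
    abel
  | single g r =>
    have h : ∀ x, foxr R x (single g r) *
        (single (FreeGroup.of x) 1 - 1 : MonoidAlgebra R (FreeGroup ι)) =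
        r • (foxr R x (single g 1) * (single (FreeGroup.of x) 1 - 1)) := by
      intro x
      rw [single_smul_Fox g r, map_smul, smul_mul_assoc]
    rw [Finset.sum_congr rfl fun x _ => h x, ← Finset.smul_sum, eps_single_Fox,
      eq_sub_iff_add_eq'.2 (foxr_sum_g_Fox (R := R) g).symm, smul_sub, ← single_smul_Fox g r,
      MonoidAlgebra.one_def, ← single_smul_Fox 1 r]
    abel

theorem foxl_unique [Fintype ι] (u : ι → MonoidAlgebra R (FreeGroup ι)) (x : ι) :
    foxl R x (∑ y, (single (FreeGroup.of y) 1 - 1) * u y) = u x := by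
  rw [map_sum]
  have h : ∀ y, foxl R x ((single (FreeGroup.of y) 1 - 1) * u y) = if y = x then u y else 0 := by
    intro y
    rw [foxl_mul, map_sub, map_sub, foxl_of, foxl_one, sub_zero, eps_single_Fox, map_one,
      sub_self, zero_smul, add_zero, ite_mul, one_mul, zero_mul]
  rw [Finset.sum_congr rfl fun y _ => h y, Finset.sum_ite_eq', if_pos (Finset.mem_univ _)]

theorem foxr_unique [Fintype ι] (u : ι → MonoidAlgebra R (FreeGroup ι)) (x : ι) :
    foxr R x (∑ y, u y * (single (FreeGroup.of y) 1 - 1)) = u x := by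
  rw [map_sum]
  have h : ∀ y, foxr R x (u y * (single (FreeGroup.of y) 1 - 1)) = if y = x then u y else 0 := by
    intro y
    rw [foxr_mul, map_sub, map_sub, foxr_of, foxr_one, sub_zero, eps_single_Fox, map_one,
      sub_self, zero_smul, add_zero, mul_ite, mul_one, mul_zero]
  rw [Finset.sum_congr rfl fun y _ => h y, Finset.sum_ite_eq', if_pos (Finset.mem_univ _)]

end

theorem fil_succ_le_of_right {R P : Type} [CommRing R] [Group P] {n : ℕ}
    (W : Submodule R (MonoidAlgebra R P))
    (h : ∀ (g : P), ∀ v ∈ Fil R P n, v * (single g (1 : R) - 1) ∈ W) : Fil R P (n + 1) ≤ W := by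
  have e : Fil R P (n + 1) = Fil R P n * aug R P := by
    unfold Fil
    rw [pow_succ, mul_assoc]
  rw [e, Submodule.mul_le]
  intro v hv m hm
  refine Submodule.span_induction (p := fun m _ => v * m ∈ W) ?_ ?_ ?_ ?_ hm
  · rintro _ ⟨g, rfl⟩
    exact h g v hv
  · rw [mul_zero]; exact Submodule.zero_mem _
  · intro a b _ _ ha hb
    rw [mul_add]; exact Submodule.add_mem _ ha hb
  · intro r a _ ha
    rw [mul_smul_comm]; exact Submodule.smul_mem _ _ ha

section

variable {R : Type} [CommRing R] {ι : Type} [DecidableEq ι]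

theorem foxl_fil (x : ι) {n : ℕ} {a : MonoidAlgebra R (FreeGroup ι)}
    (h : a ∈ Fil R (FreeGroup ι) (n + 1)) : foxl R x a ∈ Fil R (FreeGroup ι) n := by
  have h1 : Fil R (FreeGroup ι) (n + 1) ≤
      Submodule.comap (foxl R x) (Fil R (FreeGroup ι) n) := by
    apply fil_succ_le_of
    intro g v hv
    rw [Submodule.mem_comap, foxl_mul, map_sub (eps R (FreeGroup ι)), eps_single_Fox,
      eps_one_Fox, sub_self, zero_smul, add_zero]
    exact fil_mul_left hv _
  exact h1 h

theorem foxr_fil (x : ι) {n : ℕ} {a : MonoidAlgebra R (FreeGroup ι)}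
    (h : a ∈ Fil R (FreeGroup ι) (n + 1)) : foxr R x a ∈ Fil R (FreeGroup ι) n := by
  have h1 : Fil R (FreeGroup ι) (n + 1) ≤
      Submodule.comap (foxr R x) (Fil R (FreeGroup ι) n) := by
    apply fil_succ_le_of_right
    intro g v hv
    rw [Submodule.mem_comap, foxr_mul, map_sub (eps R (FreeGroup ι)), eps_single_Fox,
      eps_one_Fox, sub_self, zero_smul, add_zero]
    exact fil_mul_right hv _
  exact h1 h

/-- change of the coefficients -/
theorem foxl_mapRange {S : Type} [CommRing S] (φ : R →+* S) (x : ι)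
    (a : MonoidAlgebra R (FreeGroup ι)) :
    foxl S x (mapRingHom (FreeGroup ι) φ a) =
      mapRingHom (FreeGroup ι) φ (foxl R x a) := by
  have hg : ∀ g : FreeGroup ι, foxl S x (single g 1) =
      mapRingHom (FreeGroup ι) φ (foxl R x (single g 1)) := by
    intro g
    induction g using FreeGroup.induction_on with
    | C1 => rw [← MonoidAlgebra.one_def, ← MonoidAlgebra.one_def, foxl_one, foxl_one, map_zero]
    | of y =>
      rw [foxl_of, foxl_of]
      split_ifs
      · rw [map_one]
      · rw [map_zero]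
    | inv_of y _ =>
      rw [foxl_inv_Fox, foxl_inv_Fox]
      split_ifs
      · rw [map_neg, mapRingHom_single, map_one]
      · rw [map_zero]
    | mul a b ha hb =>
      rw [foxl_mul_g_Fox, foxl_mul_g_Fox, map_add, map_mul, mapRingHom_single, map_one, ha, hb]
  have hs : ∀ (r : R) (b : MonoidAlgebra R (FreeGroup ι)),
      mapRingHom (FreeGroup ι) φ (r • b) = φ r • mapRingHom (FreeGroup ι) φ b := by
    intro r b
    rw [Algebra.smul_def, map_mul, Algebra.smul_def]
    congr 1
    rw [Algebra.algebraMap_eq_smul_one, Algebra.algebraMap_eq_smul_one, MonoidAlgebra.one_def,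
      ← single_smul_Fox, mapRingHom_single, MonoidAlgebra.one_def, ← single_smul_Fox]
  induction a using MonoidAlgebra.induction_linear with
  | zero => rw [map_zero, map_zero, map_zero, map_zero]
  | add a b ha hb => rw [map_add, map_add, map_add, map_add, ha, hb]
  | single g r =>
    rw [mapRingHom_single, single_smul_Fox g (φ r), map_smul, hg, single_smul_Fox g r, map_smul,
      hs]

theorem eps_mapRange {P : Type} [Group P] {S : Type} [CommRing S] (φ : R →+* S)
    (a : MonoidAlgebra R P) :
    eps S P (mapRingHom P φ a) = φ (eps R P a) := by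
  induction a using MonoidAlgebra.induction_linear with
  | zero => rw [map_zero, map_zero, map_zero, map_zero]
  | add a b ha hb => rw [map_add, map_add, map_add, map_add, ha, hb]
  | single g r => rw [mapRingHom_single, eps_single_Fox, eps_single_Fox]

private theorem heis_of_Fox (i j l : ι) : (heis i j (FreeGroup.of l)).1 =
    !![1, if l = i then 1 else 0, 0; 0, 1, if l = j then 1 else 0; 0, 0, 1] := by
  unfold heis
  rw [FreeGroup.lift_apply_of]

private theorem heis_inv_Fox (i j l : ι) : (heis i j (FreeGroup.of l)⁻¹).1 =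
    !![1, -(if l = i then 1 else 0), (if l = i then 1 else 0) * (if l = j then 1 else 0);
      0, 1, -(if l = j then 1 else 0); 0, 0, 1] := by
  rw [map_inv, Matrix.SpecialLinearGroup.coe_inv, heis_of_Fox, Matrix.adjugate_fin_three_of]
  simp

private theorem heis_ut_Fox (i j : ι) (w : FreeGroup ι) :
    (heis i j w).1 0 0 = 1 ∧ (heis i j w).1 1 1 = 1 ∧ (heis i j w).1 2 2 = 1 ∧
    (heis i j w).1 1 0 = 0 ∧ (heis i j w).1 2 0 = 0 ∧ (heis i j w).1 2 1 = 0 := by
  induction w using FreeGroup.induction_on with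
  | C1 => rw [map_one]; simp
  | of l => rw [heis_of_Fox]; simp
  | inv_of l _ => rw [heis_inv_Fox]; simp
  | mul a b ha hb =>
    obtain ⟨a1, a2, a3, a4, a5, a6⟩ := ha
    obtain ⟨b1, b2, b3, b4, b5, b6⟩ := hb
    rw [map_mul, Matrix.SpecialLinearGroup.coe_mul]
    simp only [Matrix.mul_apply, Fin.sum_univ_three]
    simp [a1, a2, a3, a4, a5, a6, b1, b2, b3, b4, b5, b6]

private theorem heis_mul_Fox (i j : ι) (a b : FreeGroup ι) :
    (heis i j (a * b)).1 0 1 = (heis i j a).1 0 1 + (heis i j b).1 0 1 ∧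
    (heis i j (a * b)).1 1 2 = (heis i j a).1 1 2 + (heis i j b).1 1 2 ∧
    (heis i j (a * b)).1 0 2 = (heis i j a).1 0 2 + (heis i j b).1 0 2 +
      (heis i j a).1 0 1 * (heis i j b).1 1 2 := by
  obtain ⟨a1, a2, a3, a4, a5, a6⟩ := heis_ut_Fox i j a
  obtain ⟨b1, b2, b3, b4, b5, b6⟩ := heis_ut_Fox i j b
  rw [map_mul, Matrix.SpecialLinearGroup.coe_mul]
  simp only [Matrix.mul_apply, Fin.sum_univ_three]
  rw [a1, a2, a4, b2, b3, b6]
  refine ⟨by ring, by ring, by ring⟩

private theorem eps_all_Fox (i j : ι) (w : FreeGroup ι) :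
    eps R (FreeGroup ι) (foxl R i (single w 1)) = (((heis i j w).1 0 1 : ℤ) : R) ∧
    eps R (FreeGroup ι) (foxr R j (single w 1)) = (((heis i j w).1 1 2 : ℤ) : R) ∧
    eps R (FreeGroup ι) (foxl R i (foxr R j (single w 1))) =
      (((heis i j w).1 0 2 : ℤ) : R) := by
  induction w using FreeGroup.induction_on with
  | C1 =>
    rw [← MonoidAlgebra.one_def, foxl_one, foxr_one, map_zero, map_zero, map_zero, map_one]
    simp
  | of l =>
    rw [foxl_of, foxr_of, heis_of_Fox]
    refine ⟨?_, ?_, ?_⟩
    · by_cases h : l = i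
      · simp [h]
      · simp [h]
    · by_cases h : l = j
      · simp [h]
      · simp [h]
    · by_cases h : l = j
      · simp [h, foxl_one]
      · simp [h]
  | inv_of l _ =>
    rw [foxl_inv_Fox, foxr_inv_Fox, heis_inv_Fox]
    have he : eps R (FreeGroup ι) (single (FreeGroup.of l)⁻¹ 1) = 1 := eps_single_Fox _ _
    refine ⟨?_, ?_, ?_⟩
    · by_cases h : l = i
      · rw [if_pos h, map_neg, he]
        simp [h]
      · simp [h]
    · by_cases h : l = j
      · rw [if_pos h, map_neg, he]
        simp [h]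
      · simp [h]
    · by_cases h : l = j
      · rw [if_pos h, map_neg, foxl_inv_Fox]
        by_cases h' : l = i
        · rw [if_pos h', neg_neg, he]
          simp [← h, ← h']
        · rw [if_neg h']
          simp [h']
      · simp [h]
  | mul a b ha hb =>
    obtain ⟨a1, a2, a3⟩ := ha
    obtain ⟨b1, b2, b3⟩ := hb
    obtain ⟨h1, h2, h3⟩ := heis_mul_Fox i j a b
    rw [h1, h2, h3]
    have hea : eps R (FreeGroup ι) (single a 1) = 1 := eps_single_Fox _ _
    have heb : eps R (FreeGroup ι) (single b 1) = 1 := eps_single_Fox _ _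
    refine ⟨?_, ?_, ?_⟩
    · rw [foxl_mul_g_Fox, map_add, map_mul, heb, mul_one, a1, b1]
      push_cast
      ring
    · rw [foxr_mul_g_Fox, map_add, map_mul, hea, one_mul, a2, b2]
      push_cast
      ring
    · rw [foxr_mul_g_Fox, map_add, foxl_mul, hea, one_smul, map_add, map_add, map_mul, a1, b2,
        a3, b3]
      push_cast
      ring

/-- the exponent sum -/
theorem eps_foxl_single (i j : ι) (w : FreeGroup ι) :
    eps R (FreeGroup ι) (foxl R i (single w 1)) = (((heis i j w).1 0 1 : ℤ) : R) := by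
  exact (eps_all_Fox i j w).1

/-- the coefficient of `X_i X_j` -/
theorem eps_foxl_foxr (i j : ι) (w : FreeGroup ι) :
    eps R (FreeGroup ι) (foxl R i (foxr R j (single w 1))) = ((coef w i j : ℤ) : R) := by
  exact (eps_all_Fox i j w).2.2

end

end Pool.Agent.MCG
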