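import Pool.Agent.MCG.Fox

set_option autoImplicit false
set_option linter.unusedSectionVars false

noncomputable section

/-!
PACKAGE MCG-FREE ((1.3) of the page, general form). `F` free, `ρ : F → H` a homomorphism,
`gr ρ f = (f, ρ f)`. If `∑ x, (gr x - 1) * u x ∈ Fil (N + 1)` then `u x ∈ Fil N` for all `x`.

Let `T`, `T'` be the linear maps of `R[F × H]` with `T (f, h) = (f, (ρ f)⁻¹ h)`,
`T' (f, h) = (f, ρ f * h)`; they are inverse to each other.
(1) `T (Fil n) ≤ Fil n`: `T (v * z) = (1, (ρ f₀)⁻¹) * T v * z` for `z = (f₀, h₀)`; so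
`T (v (z - 1)) = a (T v) z - T v = (a - 1) (T v) z + (T v) (z - 1)` is in `Fil (n + 1)` if
`T v ∈ Fil n`; induction with `fil_succ_le_of_right`.
(2) `Fil (n + 1)` is contained in the sum of the span of the `((f, 1) - 1) * v` and of the span of
the `v * ((1, h) - 1)`, `v ∈ Fil n`. Induction on `n`: let `z = (f₀, h₀)`,
`z - 1 = ((f₀, 1) - 1) (1, h₀) + ((1, h₀) - 1)`. For `n = 0`: `(f₀, 1)`, `(1, h₀)` commute, so
`v (z - 1) = ...`: write `v = v₁`; it is easiest to prove: the elements
`((f, 1) - 1) v₁ * (z - 1)` are of the first kind, `v₂ * ((1, h) - 1) * ((1, h₀) - 1)` of the second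
kind, and `v₂ ((1, h) - 1) ((f₀, 1) - 1) (1, h₀) =
[v₂ ((f₀, 1) - 1) (1, h₀)] ((1, h₀⁻¹ h h₀) - 1)` of the second kind. For `n = 0` directly:
`v = (f, h)`: `(f, h) ((f₀, 1) - 1) = ((f f₀ f⁻¹, 1) - 1) (f, h)`.
(3) `T' (Fil n) ≤ Fil n`: `T' ((f₀, 1) v) = (gr f₀) * T' v`, `T' (v (1, h)) = T' v * (1, h)`, and
(2).
(4) `D (f, h) = foxl x f ⊗ h` (the linear map with `D (single (f, h) 1) =
i (foxl x (single f 1)) * single (1, h) 1`, `i` induced by `f ↦ (f, 1)`); `D (z₀ v) = D z₀ * v +
(1, h₀) * D v`, so `D ((z₀ - 1) v) = D z₀ * v + ((1, h₀) - 1) * D v` and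
`D (Fil (n + 1)) ≤ Fil n` by `fil_succ_le_of` (induction on `n`).
(5) `D (T (∑ x, (gr x - 1) * u x)) = T (u x)`: `T ((gr f) * v) = (f, 1) * T v`, and
`D ((f, 1) * v) = D (f, 1) * v + D v`. So `T (u x) ∈ Fil N` and `u x = T' (T (u x)) ∈ Fil N`.
-/

namespace Pool.Agent.MCG

open MonoidAlgebra Pool.Agent.Lvl

section general

variable {R : Type} [CommRing R]

private theorem single_smul_FF {P : Type} (g : P) (r : R) :
    (single g r : MonoidAlgebra R P) = r • single g 1 := by
  rw [MonoidAlgebra.smul_single, smul_eq_mul, mul_one]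

private theorem ss_FF {P : Type} [Group P] (g h : P) :
    (single g 1 : MonoidAlgebra R P) * single h 1 = single (g * h) 1 := by
  rw [single_mul_single, mul_one]

/-- two linear maps agree if they agree on the group elements -/
private theorem lin_ext_FF {P : Type} [Group P] {M : Type} [AddCommGroup M] [Module R M]
    {f g : MonoidAlgebra R P →ₗ[R] M} (h : ∀ z, f (single z 1) = g (single z 1))
    (v : MonoidAlgebra R P) : f v = g v := by
  induction v using MonoidAlgebra.induction_linear with
  | zero => rw [map_zero, map_zero]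
  | add a b ha hb => rw [map_add, map_add, ha, hb]
  | single z r => rw [single_smul_FF, map_smul, map_smul, h]

/-- the linear map induced by a map -/
private def mapL_FF {P Q : Type} [Group P] [Group Q] (φ : P → Q) :
    MonoidAlgebra R P →ₗ[R] MonoidAlgebra R Q where
  toFun := mapDomain φ
  map_add' := mapDomain_add φ
  map_smul' := fun _ _ => MonoidAlgebra.mapDomain_smul _ _ _

private theorem mapL_single_FF {P Q : Type} [Group P] [Group Q] (φ : P → Q) (z : P) (r : R) :
    mapL_FF φ (single z r) = single (φ z) r := mapDomain_single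

/-- the decomposition of the filtration of a product -/
private theorem fil_prod_FF {A B : Type} [Group A] [Group B] (n : ℕ) :
    Fil R (A × B) (n + 1) ≤
      Submodule.span R ({x | ∃ (f : A) (v : MonoidAlgebra R (A × B)), v ∈ Fil R (A × B) n ∧
        x = (single (f, 1) 1 - 1) * v} ∪
        {x | ∃ (h : B) (v : MonoidAlgebra R (A × B)), v ∈ Fil R (A × B) n ∧
          x = v * (single (1, h) 1 - 1)}) := by
  induction n with
  | zero =>
    apply fil_succ_le_of_right
    rintro ⟨a, b⟩ v -
    have e : v * (single (a, b) (1 : R) - 1) =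
        v * (single (a, 1) 1 - 1) * single (1, b) 1 + v * (single (1, b) 1 - 1) := by
      rw [mul_assoc, sub_mul, ss_FF, Prod.mk_mul_mk, mul_one, one_mul]
      noncomm_ring
    rw [e]
    refine Submodule.add_mem _ ?_ (Submodule.subset_span (Or.inr ⟨b, v, mem_fil_zero _, rfl⟩))
    induction v using MonoidAlgebra.induction_linear with
    | zero => rw [zero_mul, zero_mul]; exact Submodule.zero_mem _
    | add v w hv hw =>
      have hv' := hv ?_
      have hw' := hw ?_
      · rw [add_mul, add_mul]
        exact Submodule.add_mem _ hv' hw'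
      all_goals
        rw [mul_assoc, sub_mul, ss_FF, Prod.mk_mul_mk, mul_one, one_mul]
        noncomm_ring
    | single z r =>
      refine Submodule.subset_span (Or.inl ⟨z.1 * a * z.1⁻¹, single z r * single (1, b) 1,
        mem_fil_zero _, ?_⟩)
      have key : (single z r : MonoidAlgebra R (A × B)) * single (a, 1) 1 =
          single (z.1 * a * z.1⁻¹, 1) 1 * single z r := by
        rw [single_mul_single, single_mul_single, one_mul, mul_one]
        congr 1
        refine Prod.ext ?_ ?_
        · show z.1 * a = z.1 * a * z.1⁻¹ * z.1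
          rw [inv_mul_cancel_right]
        · show z.2 * 1 = 1 * z.2
          rw [mul_one, one_mul]
      rw [mul_sub, mul_one, key]
      noncomm_ring
  | succ n ih =>
    apply fil_succ_le_of_right
    rintro ⟨a, b⟩ v hv
    have e : v * (single (a, b) (1 : R) - 1) =
        v * ((single (a, 1) 1 - 1) * single (1, b) 1) + v * (single (1, b) 1 - 1) := by
      rw [sub_mul, ss_FF, Prod.mk_mul_mk, mul_one, one_mul]
      noncomm_ring
    rw [e]
    refine Submodule.add_mem _ ?_ (Submodule.subset_span (Or.inr ⟨b, v, hv, rfl⟩))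
    refine Submodule.span_induction (p := fun v _ => v * ((single (a, 1) 1 - 1) *
      single (1, b) 1) ∈ _) ?_ ?_ ?_ ?_ (ih hv)
    · rintro _ (⟨f, w, hw, rfl⟩ | ⟨h, w, hw, rfl⟩)
      · refine Submodule.subset_span (Or.inl ⟨f, w * ((single (a, 1) 1 - 1) * single (1, b) 1),
          ?_, ?_⟩)
        · exact fil_mul hw (fil_mul_right (single_sub_mem _) _)
        · rw [mul_assoc]
      · refine Submodule.subset_span (Or.inr ⟨b⁻¹ * h * b, w * ((single (a, 1) 1 - 1) *
          single (1, b) 1), ?_, ?_⟩)
        · exact fil_mul hw (fil_mul_right (single_sub_mem _) _)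
        · have e1 : (single ((1 : A), h) (1 : R) - 1) * ((single (a, 1) 1 - 1) *
              single (1, b) 1) = (single (a, 1) 1 - 1) * single (1, b) 1 *
                (single (1, b⁻¹ * h * b) 1 - 1) := by
            have k1 : (single ((1 : A), h) (1 : R)) * single (a, 1) 1 * single (1, b) 1 =
                single (a, 1) 1 * single (1, b) 1 * single (1, b⁻¹ * h * b) 1 := by
              rw [ss_FF, ss_FF, ss_FF, ss_FF]
              congr 1
              simp [mul_assoc]
            have k2 : (single ((1 : A), h) (1 : R)) * single (1, b) 1 =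
                single (1, b) 1 * single (1, b⁻¹ * h * b) 1 := by
              rw [ss_FF, ss_FF]
              congr 1
              simp [mul_assoc]
            have k3 : (single ((1 : A), h) (1 : R) - 1) * ((single (a, 1) 1 - 1) *
                single (1, b) 1) = (single ((1 : A), h) (1 : R)) * single (a, 1) 1 *
                  single (1, b) 1 - (single ((1 : A), h) (1 : R)) * single (1, b) 1 -
                  (single (a, 1) 1 * single (1, b) 1 - single (1, b) 1) := by
              noncomm_ring
            rw [k3, k1, k2]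
            noncomm_ring
          rw [mul_assoc w, e1]
          exact (mul_assoc w _ _).symm
    · rw [zero_mul]; exact Submodule.zero_mem _
    · intro x y _ _ hx hy
      rw [add_mul]; exact Submodule.add_mem _ hx hy
    · intro r x _ hx
      rw [smul_mul_assoc]; exact Submodule.smul_mem _ _ hx

section twist

variable {A B : Type} [Group A] [Group B] (ρ : A →* B)

private abbrev TT_FF (R : Type) [CommRing R] :
    MonoidAlgebra R (A × B) →ₗ[R] MonoidAlgebra R (A × B) :=
  mapL_FF fun z => (z.1, (ρ z.1)⁻¹ * z.2)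

private abbrev TI_FF (R : Type) [CommRing R] :
    MonoidAlgebra R (A × B) →ₗ[R] MonoidAlgebra R (A × B) :=
  mapL_FF fun z => (z.1, ρ z.1 * z.2)

private theorem TI_TT_FF (v : MonoidAlgebra R (A × B)) : TI_FF ρ R (TT_FF ρ R v) = v := by
  have h := lin_ext_FF (f := (TI_FF ρ R).comp (TT_FF ρ R)) (g := LinearMap.id) (fun z => by
    rw [LinearMap.comp_apply, mapL_single_FF, mapL_single_FF, LinearMap.id_apply]
    congr 1
    refine Prod.ext rfl ?_
    show ρ z.1 * ((ρ z.1)⁻¹ * z.2) = z.2
    rw [mul_inv_cancel_left]) v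
  exact h

private theorem TT_right_FF (z : A × B) (v : MonoidAlgebra R (A × B)) :
    TT_FF ρ R (v * single z 1) = single (1, (ρ z.1)⁻¹) 1 * TT_FF ρ R v * single z 1 := by
  have h := lin_ext_FF (R := R) (P := A × B)
    (f := (TT_FF ρ R).comp (LinearMap.mulRight R (single z 1)))
    (g := (LinearMap.mulRight R (single z 1)).comp ((LinearMap.mulLeft R
      (single (1, (ρ z.1)⁻¹) 1)).comp (TT_FF ρ R))) (fun w => by
    simp only [LinearMap.comp_apply, LinearMap.mulRight_apply, LinearMap.mulLeft_apply]
    rw [ss_FF, mapL_single_FF, mapL_single_FF, ss_FF, ss_FF]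
    congr 1
    refine Prod.ext ?_ ?_
    · show w.1 * z.1 = 1 * w.1 * z.1
      rw [one_mul]
    · show (ρ (w.1 * z.1))⁻¹ * (w.2 * z.2) = (ρ z.1)⁻¹ * ((ρ w.1)⁻¹ * w.2) * z.2
      rw [map_mul, mul_inv_rev]
      simp only [mul_assoc]) v
  exact h

private theorem TT_left_FF (f : A) (v : MonoidAlgebra R (A × B)) :
    TT_FF ρ R (single (f, ρ f) 1 * v) = single (f, 1) 1 * TT_FF ρ R v := by
  have h := lin_ext_FF (R := R) (P := A × B)
    (f := (TT_FF ρ R).comp (LinearMap.mulLeft R (single (f, ρ f) 1)))
    (g := (LinearMap.mulLeft R (single (f, 1) 1)).comp (TT_FF ρ R)) (fun w => by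
    simp only [LinearMap.comp_apply, LinearMap.mulLeft_apply]
    rw [ss_FF, mapL_single_FF, mapL_single_FF, ss_FF]
    congr 1
    refine Prod.ext rfl ?_
    show (ρ (f * w.1))⁻¹ * (ρ f * w.2) = 1 * ((ρ w.1)⁻¹ * w.2)
    rw [map_mul, mul_inv_rev, one_mul]
    simp only [mul_assoc, inv_mul_cancel_left]) v
  exact h

private theorem TI_left_FF (f : A) (v : MonoidAlgebra R (A × B)) :
    TI_FF ρ R (single (f, 1) 1 * v) = single (f, ρ f) 1 * TI_FF ρ R v := by
  have h := lin_ext_FF (R := R) (P := A × B)
    (f := (TI_FF ρ R).comp (LinearMap.mulLeft R (single (f, 1) 1)))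
    (g := (LinearMap.mulLeft R (single (f, ρ f) 1)).comp (TI_FF ρ R)) (fun w => by
    simp only [LinearMap.comp_apply, LinearMap.mulLeft_apply]
    rw [ss_FF, mapL_single_FF, mapL_single_FF, ss_FF]
    congr 1
    refine Prod.ext rfl ?_
    show ρ (f * w.1) * (1 * w.2) = ρ f * (ρ w.1 * w.2)
    rw [map_mul, one_mul, mul_assoc]) v
  exact h

private theorem TI_right_FF (b : B) (v : MonoidAlgebra R (A × B)) :
    TI_FF ρ R (v * single (1, b) 1) = TI_FF ρ R v * single (1, b) 1 := by
  have h := lin_ext_FF (R := R) (P := A × B)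
    (f := (TI_FF ρ R).comp (LinearMap.mulRight R (single (1, b) 1)))
    (g := (LinearMap.mulRight R (single (1, b) 1)).comp (TI_FF ρ R)) (fun w => by
    simp only [LinearMap.comp_apply, LinearMap.mulRight_apply]
    rw [ss_FF, mapL_single_FF, mapL_single_FF, ss_FF]
    congr 1
    refine Prod.ext rfl ?_
    show ρ (w.1 * 1) * (w.2 * b) = ρ w.1 * w.2 * b
    rw [mul_one, mul_assoc]) v
  exact h

private theorem TT_fil_FF (n : ℕ) :
    Fil R (A × B) n ≤ Submodule.comap (TT_FF ρ R) (Fil R (A × B) n) := by
  induction n with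
  | zero =>
    intro v _
    exact mem_fil_zero _
  | succ n ih =>
    apply fil_succ_le_of_right
    intro z v hv
    have hv' : TT_FF ρ R v ∈ Fil R (A × B) n := ih hv
    rw [Submodule.mem_comap, mul_sub, mul_one, map_sub, TT_right_FF]
    have e : single (1, (ρ z.1)⁻¹) 1 * TT_FF ρ R v * single z 1 - TT_FF ρ R v =
        (single (1, (ρ z.1)⁻¹) 1 - 1) * TT_FF ρ R v * single z 1 +
          TT_FF ρ R v * (single z 1 - 1) := by noncomm_ring
    rw [e]
    refine Submodule.add_mem _ (fil_mul_right ?_ _) (fil_mul hv' (single_sub_mem z))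
    rw [Nat.add_comm n 1]
    exact fil_mul (single_sub_mem _) hv'

private theorem TI_fil_FF (n : ℕ) :
    Fil R (A × B) n ≤ Submodule.comap (TI_FF ρ R) (Fil R (A × B) n) := by
  induction n with
  | zero =>
    intro v _
    exact mem_fil_zero _
  | succ n ih =>
    refine (fil_prod_FF n).trans (Submodule.span_le.2 ?_)
    rintro _ (⟨f, v, hv, rfl⟩ | ⟨h, v, hv, rfl⟩)
    · have hv' : TI_FF ρ R v ∈ Fil R (A × B) n := ih hv
      rw [SetLike.mem_coe, Submodule.mem_comap, sub_mul, one_mul, map_sub, TI_left_FF]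
      have e : single (f, ρ f) 1 * TI_FF ρ R v - TI_FF ρ R v =
          (single (f, ρ f) 1 - 1) * TI_FF ρ R v := by noncomm_ring
      rw [e, Nat.add_comm n 1]
      exact fil_mul (single_sub_mem _) hv'
    · have hv' : TI_FF ρ R v ∈ Fil R (A × B) n := ih hv
      rw [SetLike.mem_coe, Submodule.mem_comap, mul_sub, mul_one, map_sub, TI_right_FF]
      have e : TI_FF ρ R v * single (1, h) 1 - TI_FF ρ R v =
          TI_FF ρ R v * (single (1, h) 1 - 1) := by noncomm_ring
      rw [e]
      exact fil_mul hv' (single_sub_mem _)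

end twist

section deriv

variable {ι : Type} [DecidableEq ι] {H : Type} [Group H]

private abbrev ee_FF (R H : Type) [CommRing R] [Group H] (ι : Type) :
    MonoidAlgebra R (FreeGroup ι) →+* MonoidAlgebra R (FreeGroup ι × H) :=
  mapDomainRingHom R (MonoidHom.inl (FreeGroup ι) H)

private theorem ee_single_FF (f : FreeGroup ι) (r : R) :
    ee_FF R H ι (single f r) = single (f, 1) r := mapDomain_single

private theorem ee_smul_FF (r : R) (a : MonoidAlgebra R (FreeGroup ι)) :
    ee_FF R H ι (r • a) = r • ee_FF R H ι a := MonoidAlgebra.mapDomain_smul _ _ _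

/-- the derivative of the first factor -/
private def DD_FF (R H : Type) [CommRing R] [Group H] {ι : Type} [DecidableEq ι] (x : ι) :
    MonoidAlgebra R (FreeGroup ι × H) →ₗ[R] MonoidAlgebra R (FreeGroup ι × H) :=
  (Finsupp.linearCombination R fun z : FreeGroup ι × H =>
    ee_FF R H ι (foxl R x (single z.1 1)) * single (1, z.2) 1).comp
    (MonoidAlgebra.coeffLinearEquiv R).toLinearMap

private theorem DD_single_FF (x : ι) (z : FreeGroup ι × H) :
    DD_FF R H x (single z 1) = ee_FF R H ι (foxl R x (single z.1 1)) * single (1, z.2) 1 := by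
  unfold DD_FF
  rw [LinearMap.comp_apply]
  have h : (MonoidAlgebra.coeffLinearEquiv R).toLinearMap
      (single z (1 : R) : MonoidAlgebra R (FreeGroup ι × H)) = Finsupp.single z 1 := rfl
  rw [h, Finsupp.linearCombination_single, one_smul]

private theorem ee_comm_FF (a : MonoidAlgebra R (FreeGroup ι)) (h : H) :
    single (1, h) 1 * ee_FF R H ι a = ee_FF R H ι a * single (1, h) 1 := by
  induction a using MonoidAlgebra.induction_linear with
  | zero => rw [map_zero, mul_zero, zero_mul]
  | add a b ha hb => rw [map_add, mul_add, add_mul, ha, hb]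
  | single f r =>
    rw [ee_single_FF, single_mul_single, single_mul_single]
    congr 1
    · refine Prod.ext ?_ ?_
      · show 1 * f = f * 1
        rw [one_mul, mul_one]
      · show h * 1 = 1 * h
        rw [one_mul, mul_one]
    · rw [one_mul, mul_one]

private theorem eps_g_FF (g : FreeGroup ι) : eps R (FreeGroup ι) (single g 1) = 1 := by
  unfold eps
  rw [MonoidAlgebra.lift_single, MonoidHom.one_apply, smul_eq_mul, mul_one]

private theorem DD_mul_FF (x : ι) (z : FreeGroup ι × H) (v : MonoidAlgebra R (FreeGroup ι × H)) :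
    DD_FF R H x (single z 1 * v) =
      DD_FF R H x (single z 1) * v + single (1, z.2) 1 * DD_FF R H x v := by
  have h := lin_ext_FF (R := R) (P := FreeGroup ι × H)
    (f := (DD_FF R H x).comp (LinearMap.mulLeft R (single z 1)))
    (g := LinearMap.mulLeft R (DD_FF R H x (single z 1)) +
      (LinearMap.mulLeft R (single (1, z.2) 1)).comp (DD_FF R H x)) (fun w => by
    simp only [LinearMap.comp_apply, LinearMap.mulLeft_apply, LinearMap.add_apply]
    rw [ss_FF, DD_single_FF, DD_single_FF, DD_single_FF]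
    have e1 : (single (z * w).1 (1 : R) : MonoidAlgebra R (FreeGroup ι)) =
        single z.1 1 * single w.1 1 := by
      rw [ss_FF]
      rfl
    rw [e1, foxl_mul, eps_g_FF, one_smul, map_add, map_mul, add_mul, ee_single_FF]
    congr 1
    · rw [mul_assoc, mul_assoc, ss_FF, ss_FF]
      congr 2
      refine Prod.ext ?_ ?_
      · show w.1 * 1 = 1 * w.1
        rw [one_mul, mul_one]
      · show 1 * (z.2 * w.2) = z.2 * w.2
        rw [one_mul]
    · rw [← mul_assoc, ee_comm_FF, mul_assoc, ss_FF]
      congr 2) v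
  exact h

private theorem DD_fil_FF (x : ι) (n : ℕ) :
    Fil R (FreeGroup ι × H) (n + 1) ≤
      Submodule.comap (DD_FF R H x) (Fil R (FreeGroup ι × H) n) := by
  induction n with
  | zero =>
    intro v _
    exact mem_fil_zero _
  | succ n ih =>
    apply fil_succ_le_of
    intro z v hv
    have hv' : DD_FF R H x v ∈ Fil R (FreeGroup ι × H) n := ih hv
    rw [Submodule.mem_comap, sub_mul, one_mul, map_sub, DD_mul_FF]
    have e : DD_FF R H x (single z 1) * v + single (1, z.2) 1 * DD_FF R H x v -
        DD_FF R H x v = DD_FF R H x (single z 1) * v +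
          (single (1, z.2) 1 - 1) * DD_FF R H x v := by noncomm_ring
    rw [e]
    refine Submodule.add_mem _ (fil_mul_left hv _) ?_
    rw [Nat.add_comm n 1]
    exact fil_mul (single_sub_mem _) hv'

private theorem DD_of_FF (x y : ι) :
    DD_FF R H x (single (FreeGroup.of y, 1) 1) = if y = x then 1 else 0 := by
  rw [DD_single_FF]
  have h1 : (single ((1 : FreeGroup ι), (1 : H)) (1 : R) : MonoidAlgebra R (FreeGroup ι × H)) =
    1 := rfl
  show ee_FF R H ι (foxl R x (single (FreeGroup.of y) 1)) * single (1, 1) 1 = _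
  rw [foxl_of, h1, mul_one]
  split_ifs
  · rw [map_one]
  · rw [map_zero]

end deriv

end general

variable {R : Type} [CommRing R] {ι : Type} [DecidableEq ι] [Fintype ι] {H : Type} [Group H]

theorem fox_free (ρ : FreeGroup ι →* H) {N : ℕ}
    (u : ι → MonoidAlgebra R (FreeGroup ι × H))
    (h : ∑ x, (single (FreeGroup.of x, ρ (FreeGroup.of x)) 1 - 1) * u x ∈
      Fil R (FreeGroup ι × H) (N + 1)) (x : ι) :
    u x ∈ Fil R (FreeGroup ι × H) N := by
  have h1 : TT_FF ρ R (∑ x, (single (FreeGroup.of x, ρ (FreeGroup.of x)) 1 - 1) * u x) ∈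
      Fil R (FreeGroup ι × H) (N + 1) := TT_fil_FF ρ (N + 1) h
  have h2 : TT_FF ρ R (∑ x, (single (FreeGroup.of x, ρ (FreeGroup.of x)) 1 - 1) * u x) =
      ∑ x, (single (FreeGroup.of x, 1) 1 - 1) * TT_FF ρ R (u x) := by
    rw [map_sum]
    refine Finset.sum_congr rfl fun y _ => ?_
    rw [sub_mul, one_mul, map_sub, TT_left_FF, sub_mul, one_mul]
  rw [h2] at h1
  have h3 := DD_fil_FF x N h1
  rw [Submodule.mem_comap, map_sum] at h3
  have h4 : ∀ y, DD_FF R H x ((single (FreeGroup.of y, 1) 1 - 1) * TT_FF ρ R (u y)) =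
      if y = x then TT_FF ρ R (u y) else 0 := by
    intro y
    have h5 : (single ((1 : FreeGroup ι), (1 : H)) (1 : R) :
      MonoidAlgebra R (FreeGroup ι × H)) = 1 := rfl
    rw [sub_mul, one_mul, map_sub, DD_mul_FF, DD_of_FF, h5, one_mul, add_sub_cancel_right,
      ite_mul, one_mul, zero_mul]
  rw [Finset.sum_congr rfl fun y _ => h4 y, Finset.sum_ite_eq', if_pos (Finset.mem_univ x)] at h3
  have h6 := TI_fil_FF ρ N h3
  rw [Submodule.mem_comap, TI_TT_FF] at h6
  exact h6

end Pool.Agent.MCG
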