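import Pool.Agent.MCG.HomD

set_option autoImplicit false
set_option linter.unusedSectionVars false

noncomputable section

/-!
PACKAGE MCG-FREEEX. A finitely generated module with `H_1 = 0` over a local ring is free.

`b : C 1 → A` is the row `D 0 J0` (`C 0` has one element), `J = {∑ b I * x I}` is the set of all
non-units (`hloc`). Let `m` be minimal such that there are `m` generators of `Y`
(`Module.Finite`), `y : Fin m → Y` such generators, `φ : (Fin m → A) → Y`, `v ↦ ∑ v l • y l`,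
`Z' = ker φ`. (a) For `z ∈ Z'` no coordinate `z l` is a unit: otherwise
`y l = - ∑ (z l)⁻¹ * z l' • y l'` over `l' ≠ l` and `Y` has `m - 1` generators. So
`z l = ∑ I, b I * v I l` by `hloc` (`choose`). (b) `∑ I, b I • φ (v I) = φ z = 0`, so by
`Ex D 0 Y` `φ (v I) = ∑ K, D 1 I K • u K`, `u : C 2 → Y`, lift `u K = φ (u' K)` and let
`v' I = v I - ∑ K, D 1 I K • u' K ∈ Z'`. `z = ∑ I, b I • v' I` by `act_mul`. So every element of
`Z'` is `∑ I, b I • v' I` with `v' I ∈ Z'`, and `hsep` gives `Z' = ⊥`.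
-/

namespace Pool.Agent.MCG

open Module

private theorem freeEx_gen {A : Type} [Ring A] {Y : Type} [AddCommGroup Y] [Module A Y] {k : ℕ}
    (y : Fin (k + 1) → Y) (hy : Submodule.span A (Set.range y) = ⊤) (z : Fin (k + 1) → A)
    (hz : ∑ l, z l • y l = 0) (l : Fin (k + 1)) (hu : IsUnit (z l)) :
    Submodule.span A (Set.range (fun i => y (l.succAbove i))) = ⊤ := by
  rw [eq_top_iff, ← hy, Submodule.span_le]
  rintro _ ⟨j, rfl⟩
  by_cases hj : j = l
  · subst hj
    obtain ⟨u, hu⟩ := hu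
    rw [Fin.sum_univ_succAbove _ j, ← hu] at hz
    have h1 : y j = -∑ i, ((↑u⁻¹ : A) * z (j.succAbove i)) • y (j.succAbove i) := by
      have h2 : (u : A) • y j = -∑ i, z (j.succAbove i) • y (j.succAbove i) :=
        eq_neg_of_add_eq_zero_left hz
      have h3 := congrArg (fun t => (↑u⁻¹ : A) • t) h2
      simp only [smul_neg, Finset.smul_sum, smul_smul, Units.inv_mul, one_smul] at h3
      exact h3
    rw [h1]
    refine Submodule.neg_mem _ (Submodule.sum_mem _ fun i _ => ?_)
    exact Submodule.smul_mem _ _ (Submodule.subset_span ⟨i, rfl⟩)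
  · obtain ⟨i, hi⟩ := Fin.exists_succAbove_eq hj
    exact Submodule.subset_span ⟨i, by rw [← hi]⟩

theorem free_of_ex {A : Type} [Ring A] {C : ℕ → Type} [∀ i, Fintype (C i)] [Unique (C 0)]
    {D : ∀ i, Matrix (C i) (C (i + 1)) A} (h0 : D 0 * D (0 + 1) = 0)
    (hloc : ∀ a : A, ¬ IsUnit a → ∃ x : C (0 + 1) → A, a = ∑ I, D 0 default I * x I)
    (hsep : ∀ (m : ℕ) (N : AddSubgroup (Fin m → A)),
      (∀ z ∈ N, ∃ v : C (0 + 1) → Fin m → A, (∀ I, v I ∈ N) ∧ z = ∑ I, D 0 default I • v I) →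
      N = ⊥)
    (Y : Type) [AddCommGroup Y] [Module A Y] [Module.Finite A Y] (hY : Ex D 0 Y) :
    ∃ m : ℕ, Nonempty (Y ≃ₗ[A] (Fin m → A)) := by
  classical
  have hP : ∃ m : ℕ, ∃ y : Fin m → Y, Submodule.span A (Set.range y) = ⊤ :=
    Module.Finite.exists_fin
  obtain ⟨m, hm⟩ : ∃ m, m = Nat.find hP := ⟨_, rfl⟩
  have hspec := Nat.find_spec hP
  have hmin : ∀ n, n < m → ¬ ∃ y : Fin n → Y, Submodule.span A (Set.range y) = ⊤ :=
    fun n hn => Nat.find_min hP (hm ▸ hn)
  rw [← hm] at hspec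
  obtain ⟨y, hy⟩ := hspec
  have hφ : ∀ v : Fin m → A, Fintype.linearCombination A y v = ∑ l, v l • y l := fun v => by
    rw [Fintype.linearCombination_apply]
  obtain ⟨φ, hφd⟩ : ∃ φ : (Fin m → A) →ₗ[A] Y, φ = Fintype.linearCombination A y := ⟨_, rfl⟩
  rw [← hφd] at hφ
  have hφs : Function.Surjective φ := by
    rw [← LinearMap.range_eq_top, hφd, Fintype.range_linearCombination, hy]
  have hun : ∀ z : Fin m → A, φ z = 0 → ∀ l, ¬ IsUnit (z l) := by
    intro z hz l hu
    rw [hφ] at hz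
    obtain _ | k := m
    · exact l.elim0
    · exact hmin k (Nat.lt_succ_self k) ⟨_, freeEx_gen y hy z hz l hu⟩
  have hbot : (LinearMap.ker φ).toAddSubgroup = ⊥ := by
    refine hsep m _ ?_
    intro z hz
    have hz0 : φ z = 0 := hz
    choose x hx using fun l => hloc (z l) (hun z hz0 l)
    have hzv : z = ∑ I, D 0 default I • (fun l => x l I) := by
      funext l
      rw [Finset.sum_apply, hx l]
      rfl
    obtain ⟨w, hw⟩ := hY (fun I => φ (fun l => x l I)) (fun J => by
      have hJ : J = default := Subsingleton.elim _ _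
      rw [hJ]
      have h1 := congrArg φ hzv
      rw [hz0, map_sum] at h1
      simp only [map_smul] at h1
      exact h1.symm)
    choose u hu using fun K => hφs (w K)
    refine ⟨fun I => (fun l => x l I) - ∑ K, D (0 + 1) I K • u K, fun I => ?_, ?_⟩
    · change φ _ = 0
      rw [map_sub, map_sum, hw I, sub_eq_zero]
      exact Finset.sum_congr rfl fun K _ => by rw [map_smul, hu K]
    · simp only [smul_sub, Finset.sum_sub_distrib]
      rw [act_mul (D 0) (D (0 + 1)) h0 u default, sub_zero]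
      exact hzv
  have hker : LinearMap.ker φ = ⊥ := by
    rw [eq_bot_iff]
    intro z hz
    have h1 : z ∈ (LinearMap.ker φ).toAddSubgroup := hz
    rw [hbot, AddSubgroup.mem_bot] at h1
    rw [h1]
    exact Submodule.zero_mem _
  exact ⟨m, ⟨(LinearEquiv.ofBijective φ ⟨LinearMap.ker_eq_bot.1 hker, hφs⟩).symm⟩⟩

end Pool.Agent.MCG
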