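import Mathlib

set_option autoImplicit false
set_option linter.unusedSectionVars false

noncomputable section

/-!
PACKAGE MCG-HOMD. Homology of left modules by matrices, dimension shifting.

`A` is a ring, `D i : C i × C (i+1)` are matrices with `D i * D (i+1) = 0`. For a left module
`Z` the matrices act on the columns `C i → Z`: `(D z) J = ∑ I, D J I • z I`. `Ex D i Z` is exactness
at `C (i+1) → Z`.

* `act_mul`: `D z = 0` for `z = D' w` and `D * D' = 0` (associativity: `∑ I, D J I • ∑ K, D' I K • w K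
  = ∑ K, (D * D') J K • w K`).
* `ex_pi`: coordinatewise: `Z = κ → A`; for every `l : κ` the column `fun I => z I l` is killed
  by `D i`, so it is `(D (i+1)).mulVec (x l)`; `w K l = x l K` (`choose`).
* `ex_equiv`: transport.
* `ex_ker`: let `z : C (i+1) → ker φ`, `D z = 0`. Then `z = D' f`, `f : C (i+2) → F` by `Ex D i F`.
  `φ f : C (i+2) → X` satisfies `D' (φ f) = φ z = 0`, so by `Ex D (i+1) X` `φ f = D'' x`, `x : C
  (i+3) → X`, `x = φ f'` (`φ` is surjective, `choose`). `w = f - D'' f'` has values in `ker φ` and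
  `D' w = D' f - 0 = z`.
* `ex_empty`: `C (i+1)` is empty.
* `ex_chain`: induction on `m`: for all `j` with `n ≤ j + m`: `Ex D j (ker (f m))`. `m = 0`:
  `ex_empty`. `m + 1`: `f (m+1)` with codomain restricted to `ker (f m)` is surjective
  (`hex`), its kernel is (isomorphic to) `ker (f (m+1))` (`ex_equiv`, `LinearMap.ker_codRestrict`).
-/

namespace Pool.Agent.MCG

open Module

variable {A : Type} [Ring A] {C : ℕ → Type} [∀ i, Fintype (C i)]

/-- exactness at the place `i + 1` of the complex of columns with entries in `Z` -/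
def Ex (D : ∀ i, Matrix (C i) (C (i + 1)) A) (i : ℕ) (Z : Type) [AddCommGroup Z] [Module A Z] :
    Prop :=
  ∀ z : C (i + 1) → Z, (∀ J, ∑ I, D i J I • z I = 0) →
    ∃ w : C (i + 1 + 1) → Z, ∀ I, z I = ∑ K, D (i + 1) I K • w K

theorem act_mul {α β γ Z : Type} [Fintype β] [Fintype γ] [AddCommGroup Z] [Module A Z]
    (M : Matrix α β A) (M' : Matrix β γ A) (h : M * M' = 0) (w : γ → Z) (J : α) :
    ∑ I, M J I • ∑ K, M' I K • w K = 0 := by
  classical
  have h1 : ∀ K, ∑ I, M J I * M' I K = 0 := by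
    intro K
    have := congrFun (congrFun h J) K
    simpa [Matrix.mul_apply] using this
  calc ∑ I, M J I • ∑ K, M' I K • w K
      = ∑ I, ∑ K, (M J I * M' I K) • w K := by
        refine Finset.sum_congr rfl fun I _ => ?_
        rw [Finset.smul_sum]
        exact Finset.sum_congr rfl fun K _ => (mul_smul _ _ _).symm
    _ = ∑ K, ∑ I, (M J I * M' I K) • w K := Finset.sum_comm
    _ = 0 := by
        refine Finset.sum_eq_zero fun K _ => ?_
        rw [← Finset.sum_smul, h1 K, zero_smul]

theorem ex_pi {D : ∀ i, Matrix (C i) (C (i + 1)) A}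
    (hex : ∀ i (y : C (i + 1) → A), (D i).mulVec y = 0 →
      ∃ x : C (i + 1 + 1) → A, y = (D (i + 1)).mulVec x) (κ : Type) (i : ℕ) :
    Ex D i (κ → A) := by
  intro z hz
  have h1 : ∀ l : κ, ∃ x : C (i + 1 + 1) → A, (fun I => z I l) = (D (i + 1)).mulVec x := by
    intro l
    refine hex i (fun I => z I l) ?_
    funext J
    have h2 := congrFun (hz J) l
    rw [Finset.sum_apply] at h2
    exact h2
  choose x hx using h1
  refine ⟨fun K l => x l K, fun I => ?_⟩
  funext l
  have h2 := congrFun (hx l) I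
  rw [Finset.sum_apply]
  exact h2

theorem ex_equiv {D : ∀ i, Matrix (C i) (C (i + 1)) A} {i : ℕ} {Z Z' : Type} [AddCommGroup Z]
    [Module A Z] [AddCommGroup Z'] [Module A Z'] (e : Z ≃ₗ[A] Z') (h : Ex D i Z) : Ex D i Z' := by
  intro z hz
  obtain ⟨w, hw⟩ := h (fun I => e.symm (z I)) (fun J => by
    have h1 := congrArg e.symm (hz J)
    rw [map_sum, map_zero] at h1
    simpa only [map_smul] using h1)
  refine ⟨fun K => e (w K), fun I => ?_⟩
  have h1 := congrArg e (hw I)
  rw [LinearEquiv.apply_symm_apply, map_sum] at h1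
  simpa only [map_smul] using h1

theorem ex_ker {D : ∀ i, Matrix (C i) (C (i + 1)) A} (h0 : ∀ i, D i * D (i + 1) = 0) {i : ℕ}
    {F X : Type} [AddCommGroup F] [Module A F] [AddCommGroup X] [Module A X] (φ : F →ₗ[A] X)
    (hφ : Function.Surjective φ) (hF : Ex D i F) (hX : Ex D (i + 1) X) :
    Ex D i (LinearMap.ker φ) := by
  intro z hz
  obtain ⟨f, hf⟩ := hF (fun I => (z I : F)) (fun J => by
    have h1 := congrArg (Submodule.subtype (LinearMap.ker φ)) (hz J)
    rw [map_sum, map_zero] at h1
    simpa only [map_smul, Submodule.subtype_apply] using h1)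
  obtain ⟨x, hx⟩ := hX (fun K => φ (f K)) (fun I => by
    have h1 : φ (z I : F) = 0 := (z I).2
    rw [hf I, map_sum] at h1
    simpa only [map_smul] using h1)
  choose f' hf' using fun L => hφ (x L)
  refine ⟨fun K => ⟨f K - ∑ L, D (i + 1 + 1) K L • f' L, ?_⟩, fun I => ?_⟩
  · rw [LinearMap.mem_ker, map_sub, map_sum, hx K, sub_eq_zero]
    exact Finset.sum_congr rfl fun L _ => by rw [map_smul, hf' L]
  · apply Subtype.ext
    have h1 : ((∑ K, D (i + 1) I K • (⟨f K - ∑ L, D (i + 1 + 1) K L • f' L, by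
        rw [LinearMap.mem_ker, map_sub, map_sum, hx K, sub_eq_zero]
        exact Finset.sum_congr rfl fun L _ => by rw [map_smul, hf' L]⟩ :
        LinearMap.ker φ) : LinearMap.ker φ) : F) =
        ∑ K, D (i + 1) I K • (f K - ∑ L, D (i + 1 + 1) K L • f' L) := by
      rw [AddSubmonoidClass.coe_finsetSum]
      exact Finset.sum_congr rfl fun K _ => rfl
    rw [h1, hf I]
    simp only [smul_sub, Finset.sum_sub_distrib]
    rw [act_mul _ _ (h0 (i + 1)) f' I, sub_zero]

theorem ex_empty {D : ∀ i, Matrix (C i) (C (i + 1)) A} {i : ℕ} (h : IsEmpty (C (i + 1)))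
    (Z : Type) [AddCommGroup Z] [Module A Z] : Ex D i Z := by
  intro z _
  exact ⟨0, fun I => (h.false I).elim⟩

/-- dimension shifting along an exact sequence -/
theorem ex_chain {D : ∀ i, Matrix (C i) (C (i + 1)) A} (h0 : ∀ i, D i * D (i + 1) = 0) {n : ℕ}
    (he : ∀ i, n ≤ i → IsEmpty (C (i + 1))) (F : ℕ → Type) [∀ i, AddCommGroup (F i)]
    [∀ i, Module A (F i)] (hF : ∀ i j, Ex D j (F i)) (f : ∀ i, F (i + 1) →ₗ[A] F i)
    (hex : ∀ i, LinearMap.ker (f i) = LinearMap.range (f (i + 1))) (m : ℕ) (hm : n ≤ m) :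
    Ex D 0 (LinearMap.ker (f m)) := by
  have key : ∀ m j : ℕ, n ≤ j + m → Ex D j (LinearMap.ker (f m)) := by
    intro m
    induction m with
    | zero => exact fun j hj => ex_empty (he j hj) _
    | succ m ih =>
      intro j hj
      have hr : ∀ x, f (m + 1) x ∈ LinearMap.ker (f m) := fun x => by
        rw [hex m]
        exact LinearMap.mem_range_self _ x
      have hs : Function.Surjective
          (LinearMap.codRestrict (LinearMap.ker (f m)) (f (m + 1)) hr) := by
        rintro ⟨y, hy⟩
        rw [hex m] at hy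
        obtain ⟨x, hx⟩ := hy
        exact ⟨x, Subtype.ext hx⟩
      have h1 := ex_ker h0 _ hs (hF (m + 1 + 1) j) (ih (j + 1) (by omega))
      exact ex_equiv (LinearEquiv.ofEq _ _ (LinearMap.ker_codRestrict _ _ hr)) h1
  exact key m 0 (by omega)

end Pool.Agent.MCG
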