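import Pool.Agent.Lvl.Trans
import Pool.Agent.Lvl.OddG

set_option autoImplicit false
set_option linter.unusedSectionVars false

noncomputable section

/-!
MCG: the index trick. If for every prime `q` the group `G` has a subgroup of finite index prime to `q`
which satisfies the strong Atiyah conjecture, then `G` satisfies it.
-/

namespace Pool.Agent.MCG

open Pool.Agent.VN Pool.Agent.Lvl

/-- one matrix: the dimension of the kernel times the index is an integer -/
theorem index_kerDim {G : Type} [Group G] (K : Subgroup G) (hK : AtiyahOver ⊤ K) {m n : ℕ}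
    (A : Matrix (Fin m) (Fin n) (G →₀ ℂ)) : ∃ z : ℤ, (K.index : ℝ) * kerDim A = z :=
  transfer K hK A fun _ _ _ => Subring.mem_top _

/-- one matrix: if for every prime `q` some number prime to `q` is a denominator, then the dimension
is an integer -/
theorem int_of_index {x : ℝ} (h : ∀ q : ℕ, q.Prime → ∃ n : ℕ, n ≠ 0 ∧ ¬ q ∣ n ∧
    ∃ z : ℤ, (n : ℝ) * x = z) : ∃ z : ℤ, x = z := by
  obtain ⟨d, -, ⟨z, hz⟩, h2⟩ := exists_den (x := x)
    (S := {k | k ≠ 0 ∧ ∃ z : ℤ, (k : ℝ) * x = z}) (fun k hk => hk) (by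
      obtain ⟨n, hn, -, hz⟩ := h 2 Nat.prime_two
      exact ⟨n, hn, hz⟩)
  have h3 : d = 1 := by
    by_contra h4
    obtain ⟨q, hq, hqd⟩ := Nat.exists_prime_and_dvd h4
    obtain ⟨n, hn, h5, hz'⟩ := h q hq
    exact h5 (hqd.trans (h2 n ⟨hn, hz'⟩))
  rw [h3, Nat.cast_one, one_mul] at hz
  exact ⟨z, hz⟩

/-- **the index trick** -/
theorem atiyah_of_index {k : Subring ℂ} {G : Type} [Group G] (h : ∀ q : ℕ, q.Prime →
    ∃ K : Subgroup G, K.index ≠ 0 ∧ ¬ q ∣ K.index ∧ AtiyahOver k K) : AtiyahOver k G := by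
  intro m n A hA
  refine int_of_index fun q hq => ?_
  obtain ⟨K, hK0, hKq, hK⟩ := h q hq
  exact ⟨K.index, hK0, hKq, transfer K hK A hA⟩

end Pool.Agent.MCG
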