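import Mathlib

set_option autoImplicit false
set_option linter.unusedSectionVars false

noncomputable section

/-!
MCG (MP_95030e), part REG: the Koszul matrices of a family of ring elements (definitions).
-/

namespace Pool.Agent.MCG

/-- the subsets of `{0, .., d - 1}` with `i` elements -/
abbrev Cb (d i : ℕ) : Type := {I : Finset (Fin d) // I.card = i}

/-- the sign of `j` with respect to `J` -/
def ksg (A : Type) [Ring A] {d : ℕ} (j : Fin d) (J : Finset (Fin d)) : A :=
  (-1) ^ (J.filter (· < j)).card

/-- the Koszul matrix: the entry at `(J, J ∪ {j})` is `± b j`, all other entries are zero -/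
def kos {A : Type} [Ring A] {d : ℕ} (b : Fin d → A) (i : ℕ) : Matrix (Cb d i) (Cb d (i + 1)) A :=
  fun J I => ∑ j, if j ∉ J.1 ∧ I.1 = insert j J.1 then ksg A j J.1 * b j else 0

end Pool.Agent.MCG
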