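import Pool.Agent.Lvl.LimZ
import Pool.Agent.Lvl.Konig

set_option autoImplicit false
set_option linter.unusedSectionVars false

noncomputable section

/-!
PACKAGE MCG-KOSC. Compactness: if `y` can be approximated by `D x` with `x` in the step `r` of the
filtration, then `y = D x` for such an `x`. (`D` is a matrix over `L1 = lim F_p[P k]`, it acts on
columns.)

Copy the proof of `Pool.Agent.Lvl.exists_of_approx` (file `Lvl/Approx.lean`): given the level `k`
choose `N` with `Fil N = ⊥` at the level `k` (`exists_fil_eq_bot`, `isPGroup_P`):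
`Z k = {x : β → GA T k // (∀ j, x j ∈ Fil r) ∧ ∀ i, (y i) k = ∑ j, (D i j) k * x j}` is nonempty and
finite, `prA` maps `Z (k + 1)` to `Z k` (`prA` maps `Fil r` to `Fil r`: `mem_fil_iff` and `pl_pr`,
`pl_coeff_ne`). `konig` gives a compatible family.
-/

namespace Pool.Agent.MCG

open Pool.Agent.Lvl

variable {p q d : ℕ} [hp : Fact p.Prime] (T : Tower p q d)

theorem prA_fil {k r : ℕ} {u : GA T (k + 1)} (hu : u ∈ Fil (ZMod p) (T.P (k + 1)) r) :
    prA T k u ∈ Fil (ZMod p) (T.P k) r := by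
  rw [mem_fil_iff T] at hu ⊢
  intro e he
  have h1 := pl_coeff_ne T he
  rw [pl_pr T u h1] at he
  exact hu e he

private theorem coe_sum_KosC {ι : Type} (s : Finset ι) (z : ι → Lim T (ZMod p)) (k : ℕ) :
    (∑ i ∈ s, z i).1 k = ∑ i ∈ s, (z i).1 k := by
  have h1 : (∑ i ∈ s, z i).1 = ∑ i ∈ s, (z i).1 := AddSubmonoidClass.coe_finsetSum _ _
  rw [h1, Finset.sum_apply]

private instance finite_KosC (k : ℕ) : Finite (GA T k) := by
  have : Finite (T.P k → ZMod p) := inferInstance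
  exact Finite.of_injective (fun (u : GA T k) (g : T.P k) => u.coeff g) fun u v h =>
    MonoidAlgebra.ext (Finsupp.ext fun g => congrFun h g)

theorem approx_col {α β : Type} [Fintype α] [Fintype β] (D : Matrix α β (Lim T (ZMod p)))
    (y : α → Lim T (ZMod p)) (r : ℕ)
    (h : ∀ N, ∃ x : β → Lim T (ZMod p), (∀ j, FL T r (x j)) ∧
      ∀ i, FL T N (y i - ∑ j, D i j * x j)) :
    ∃ x : β → Lim T (ZMod p), (∀ j, FL T r (x j)) ∧ ∀ i, y i = ∑ j, D i j * x j := by
  let Z : ℕ → Type := fun k => {x : β → GA T k // (∀ j, x j ∈ Fil (ZMod p) (T.P k) r) ∧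
    ∀ i, (y i).1 k = ∑ j, (D i j).1 k * x j}
  have hfin : ∀ k, Finite (Z k) := fun k => inferInstance
  have hne : ∀ k, Nonempty (Z k) := by
    intro k
    obtain ⟨N, hN⟩ := exists_fil_eq_bot (isPGroup_P T k)
    obtain ⟨x, hx, hy⟩ := h N
    refine ⟨⟨fun j => (x j).1 k, fun j => hx j k, fun i => ?_⟩⟩
    have h1 := hy i k
    rw [hN, Submodule.mem_bot] at h1
    have h2 : (y i - ∑ j, D i j * x j).1 k = (y i).1 k - ∑ j, (D i j).1 k * (x j).1 k := by
      have h3 : (y i - ∑ j, D i j * x j).1 k = (y i).1 k - (∑ j, D i j * x j).1 k := rfl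
      rw [h3, coe_sum_KosC]
      rfl
    rw [h2] at h1
    exact sub_eq_zero.1 h1
  have key : ∀ k (z : Z (k + 1)), (∀ j, prA T k (z.1 j) ∈ Fil (ZMod p) (T.P k) r) ∧
      ∀ i, (y i).1 k = ∑ j, (D i j).1 k * prA T k (z.1 j) := by
    intro k z
    refine ⟨fun j => prA_fil T (z.2.1 j), fun i => ?_⟩
    have h1 : prA T k ((y i).1 (k + 1)) = (y i).1 k := (y i).2 k
    have h3 : prA T k ((y i).1 (k + 1)) = prA T k (∑ j, (D i j).1 (k + 1) * z.1 j) :=
      congrArg (prA T k) (z.2.2 i)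
    rw [← h1, h3, map_sum]
    refine Finset.sum_congr rfl fun j _ => ?_
    have h2 : prA T k ((D i j).1 (k + 1)) = (D i j).1 k := (D i j).2 k
    rw [map_mul, h2]
  let f : ∀ k, Z (k + 1) → Z k := fun k z => ⟨fun j => prA T k (z.1 j), key k z⟩
  obtain ⟨z, hz⟩ := konig Z f
  refine ⟨fun j => ⟨fun k => (z k).1 j, fun k => ?_⟩, fun j k => (z k).2.1 j, fun i => ?_⟩
  · have h1 := congrArg (fun w : Z k => w.1 j) (hz k)
    exact h1
  · apply Subtype.ext
    funext k
    rw [coe_sum_KosC]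
    exact (z k).2.2 i

end Pool.Agent.MCG
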