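import Pool.Agent.MCG.Kos

set_option autoImplicit false
set_option linter.unusedSectionVars false

noncomputable section

/-!
PACKAGE MCG-KOSG. The exactness of the graded Koszul complex over `S = k[X_0, .., X_(d-1)]`.

* `kos_exact`, `kos_exact0`. Let `m = min` of a nonempty finite set. Define
  `φ m : S → S`, linear, `(φ m f).coeff b = if (∀ l < m, b l = 0) then f.coeff (b + e_m) else 0`
  (`e_m = Finsupp.single m 1`), and for `f : Cb d i → S` let
  `(h f) K = φ (min K) (f (K.erase (min K)))`, `K : Cb d (i + 1)`.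
  CLAIM: for `f : Cb d i → S` and `(J, b)` with `i ≠ 0` or `b ≠ 0`:
  coefficient at `b` of `(kos X i).mulVec (h f) J + [i ≥ 1] h ((kos X (i-1)).mulVec f) J` is
  `(f J).coeff b`.
  PROOF. `((kos X i).mulVec g J).coeff b =
  ∑ j ∉ J, b j ≥ 1, ksg j J * (g (J ∪ {j})).coeff (b - e_j)`.
  Let `c = b + 1_J` and `m = ` the smallest `l` with `c l ≠ 0`. For `j ∉ J`, `b j ≥ 1` and
  `K = J ∪ {j}` the exponent `b - e_j + 1_K` is again `c`, so `(h f K).coeff (b - e_j)` is
  `(f (K \ m)).coeff (b - e_j + e_m)` if `m ∈ K` and `0` otherwise (`min K = m` and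
  `(b - e_j) l = 0` for `l < min K` holds iff `m ∈ K`).
  - If `m ∉ J`: then `b m ≥ 1`, `m ∈ K` only for `j = m`, the sign is `1`: this term is
    `(f J).coeff b`. And `h (..) J` has coefficient `0` at `b` (`min J > m` and `b m ≠ 0`).
  - If `m ∈ J`: all `j ∉ J` with `b j ≥ 1` are `> m`, the first sum is
    `∑ j ∉ J, b j ≥ 1, ksg j J * (f (J \ m ∪ j)).coeff (b - e_j + e_m)`; the second is
    `((kos X (i-1)).mulVec f (J \ m)).coeff (b + e_m) = ∑ j ∉ J \ m, (b + e_m) j ≥ 1,
    ksg j (J \ m) * (f ((J \ m) ∪ j)).coeff (b + e_m - e_j)`: the term `j = m` is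
    `(f J).coeff b` with sign `1`, for the others `ksg j (J \ m) = - ksg j J` (`m ∈ J`, `m < j`),
    they
    cancel with the first sum.
  So if `(kos X i).mulVec f = 0` (`f : Cb d (i + 1) → S`) then `f = (kos X (i+1)).mulVec (h f)`;
  `h f`
  is homogeneous of degree `r - 1` if `f` is homogeneous of degree `r` (and `h f = 0` for
  `r = 0`). For `i = 0`: `f : Cb d 0 → S` homogeneous of degree `r + 1`, all exponents `b` with
  nonzero coefficient are `≠ 0`, so `f = (kos X 0).mulVec (h f)`.
  You may define `φ m f` as `∑ e ∈ f.support.filter (..), monomial (e - e_m) (f.coeff e)` or with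
  `MvPolynomial.divMonomial`; or work with coefficient functions `(Fin d →₀ ℕ) → k` first.
-/

namespace Pool.Agent.MCG

open MvPolynomial

section KosG

variable {k : Type} [CommRing k] {d : ℕ}

/-- the differential on coefficients -/
private def KD (F : Finset (Fin d) → (Fin d →₀ ℕ) → k) (J : Finset (Fin d)) (b : Fin d →₀ ℕ) : k :=
  ∑ j, if j ∉ J ∧ 1 ≤ b j then ksg k j J * F (insert j J) (b - Finsupp.single j 1) else 0

/-- the homotopy on coefficients -/
private def KH (F : Finset (Fin d) → (Fin d →₀ ℕ) → k) (K : Finset (Fin d)) (b : Fin d →₀ ℕ) : k :=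
  if h : K.Nonempty then
    (if ∀ l < K.min' h, b l = 0 then F (K.erase (K.min' h)) (b + Finsupp.single (K.min' h) 1)
      else 0) else 0

private theorem KH_eq (F : Finset (Fin d) → (Fin d →₀ ℕ) → k) {K : Finset (Fin d)}
    {b : Fin d →₀ ℕ} {m : Fin d} (hm : m ∈ K) (hl : ∀ l ∈ K, m ≤ l) (hb : ∀ l < m, b l = 0) :
    KH F K b = F (K.erase m) (b + Finsupp.single m 1) := by
  have hne : K.Nonempty := ⟨m, hm⟩
  have e : K.min' hne = m := le_antisymm (K.min'_le m hm) (hl _ (K.min'_mem hne))
  unfold KH
  rw [dif_pos hne, e, if_pos hb]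

private theorem KH_zero (F : Finset (Fin d) → (Fin d →₀ ℕ) → k) {K : Finset (Fin d)}
    {b : Fin d →₀ ℕ} {m : Fin d} (hl : ∀ l ∈ K, m < l) (hb : b m ≠ 0) : KH F K b = 0 := by
  unfold KH
  by_cases hne : K.Nonempty
  · rw [dif_pos hne, if_neg]
    intro h
    exact hb (h m (hl _ (K.min'_mem hne)))
  · rw [dif_neg hne]

private theorem sg_one {j : Fin d} {J : Finset (Fin d)} (h : ∀ l ∈ J, j ≤ l) : ksg k j J = 1 := by
  unfold ksg
  rw [Finset.filter_false_of_mem fun l hl => not_lt.2 (h l hl), Finset.card_empty, pow_zero]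

private theorem sg_erase {j m : Fin d} {J : Finset (Fin d)} (hm : m ∈ J) (h : m < j) :
    ksg k j (J.erase m) = - ksg k j J := by
  unfold ksg
  have h1 : m ∈ J.filter (· < j) := Finset.mem_filter.2 ⟨hm, h⟩
  have h2 : (J.erase m).filter (· < j) = (J.filter (· < j)).erase m := by
    ext x
    simp only [Finset.mem_filter, Finset.mem_erase]
    tauto
  rw [h2, ← Finset.card_erase_add_one h1, pow_succ, mul_neg, mul_one, neg_neg]

private theorem K_main (F : Finset (Fin d) → (Fin d →₀ ℕ) → k) (J : Finset (Fin d))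
    (b : Fin d →₀ ℕ) (hJ : J.Nonempty ∨ b ≠ 0) : KD (KH F) J b + KH (KD F) J b = F J b := by
  obtain ⟨m, hm, hmin⟩ : ∃ m, (m ∈ J ∨ b m ≠ 0) ∧ ∀ l < m, l ∉ J ∧ b l = 0 := by
    have h1 : ((Finset.univ : Finset (Fin d)).filter fun m => m ∈ J ∨ b m ≠ 0).Nonempty := by
      rcases hJ with ⟨x, hx⟩ | h
      · exact ⟨x, by simp [hx]⟩
      · obtain ⟨x, hx⟩ := Finsupp.ne_iff.1 h
        exact ⟨x, by simp only [Finset.mem_filter, Finset.mem_univ, true_and]; exact Or.inr hx⟩
    refine ⟨Finset.min' _ h1, ?_, fun l hl => ?_⟩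
    · have := Finset.min'_mem _ h1
      simpa only [Finset.mem_filter, Finset.mem_univ, true_and] using this
    · by_contra hc
      rw [not_and_or, not_not] at hc
      exact absurd (Finset.min'_le _ l (by simpa using hc)) (not_le.2 hl)
  have hJm : ∀ l ∈ J, m ≤ l := fun l hl => not_lt.1 fun h => (hmin l h).1 hl
  by_cases hmJ : m ∈ J
  · -- the minimum lies in `J`
    have h2 : KH (KD F) J b = KD F (J.erase m) (b + Finsupp.single m 1) :=
      KH_eq _ hmJ hJm fun l hl => (hmin l hl).2
    rw [h2]
    unfold KD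
    rw [← Finset.sum_add_distrib]
    have h3 : ∀ j, ((if j ∉ J ∧ 1 ≤ b j then
          ksg k j J * KH F (insert j J) (b - Finsupp.single j 1) else 0) +
        if j ∉ J.erase m ∧ 1 ≤ (b + Finsupp.single m 1 : Fin d →₀ ℕ) j then ksg k j (J.erase m) *
          F (insert j (J.erase m)) (b + Finsupp.single m 1 - Finsupp.single j 1) else 0) =
        if j = m then F J b else 0 := by
      intro j
      by_cases hj : j = m
      · subst hj
        rw [if_neg fun h => h.1 hmJ, if_pos rfl, if_pos, sg_one, Finset.insert_erase hmJ,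
          add_tsub_cancel_right, zero_add, one_mul]
        · exact fun l hl => hJm l (Finset.mem_of_mem_erase hl)
        · refine ⟨Finset.notMem_erase j J, ?_⟩
          simp
      · rw [if_neg hj]
        have e1 : (b + Finsupp.single m 1 : Fin d →₀ ℕ) j = b j := by
          rw [Finsupp.add_apply, Finsupp.single_eq_of_ne hj, add_zero]
        have e2 : (j ∉ J.erase m ∧ 1 ≤ (b + Finsupp.single m 1 : Fin d →₀ ℕ) j) ↔
            (j ∉ J ∧ 1 ≤ b j) := by
          rw [e1, Finset.mem_erase]
          simp [hj]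
        by_cases hc : j ∉ J ∧ 1 ≤ b j
        · rw [if_pos hc, if_pos (e2.2 hc)]
          have hmj : m < j := by
            rcases lt_trichotomy m j with h | h | h
            · exact h
            · exact absurd h.symm hj
            · have := (hmin j h).2
              omega
          have h4 : KH F (insert j J) (b - Finsupp.single j 1) =
              F ((insert j J).erase m) (b - Finsupp.single j 1 + Finsupp.single m 1) := by
            refine KH_eq _ (Finset.mem_insert_of_mem hmJ) (fun l hl => ?_) (fun l hl => ?_)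
            · rcases Finset.mem_insert.1 hl with h | h
              · rw [h]; exact hmj.le
              · exact hJm l h
            · rw [Finsupp.tsub_apply, (hmin l hl).2, Nat.zero_sub]
          have h5 : (insert j J).erase m = insert j (J.erase m) :=
            Finset.erase_insert_of_ne hj
          have h6 : b - Finsupp.single j 1 + Finsupp.single m 1 =
              b + Finsupp.single m 1 - Finsupp.single j 1 := by
            rw [add_comm b, add_comm (b - _), add_tsub_assoc_of_le]
            rw [Finsupp.single_le_iff]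
            exact hc.2
          rw [h4, sg_erase hmJ hmj, h5, h6]
          ring
        · rw [if_neg hc, if_neg fun h => hc (e2.1 h), add_zero]
    rw [Finset.sum_congr rfl fun j _ => h3 j, Finset.sum_ite_eq' Finset.univ m,
      if_pos (Finset.mem_univ m)]
  · -- the minimum does not lie in `J`
    have hbm : b m ≠ 0 := hm.resolve_left hmJ
    have hJm' : ∀ l ∈ J, m < l := fun l hl =>
      lt_of_le_of_ne (hJm l hl) fun h => hmJ (h ▸ hl)
    rw [KH_zero _ hJm' hbm, add_zero]
    unfold KD
    have h3 : ∀ j, (if j ∉ J ∧ 1 ≤ b j then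
          ksg k j J * KH F (insert j J) (b - Finsupp.single j 1) else 0) =
        if j = m then F J b else 0 := by
      intro j
      by_cases hj : j = m
      · subst hj
        rw [if_pos rfl, if_pos ⟨hmJ, Nat.one_le_iff_ne_zero.2 hbm⟩, sg_one hJm, one_mul,
          KH_eq F (m := j) (Finset.mem_insert_self j J), Finset.erase_insert hmJ,
          tsub_add_cancel_of_le]
        · rw [Finsupp.single_le_iff]
          omega
        · intro l hl
          rcases Finset.mem_insert.1 hl with h | h
          · exact h.ge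
          · exact hJm l h
        · intro l hl
          rw [Finsupp.tsub_apply, (hmin l hl).2, Nat.zero_sub]
      · rw [if_neg hj]
        by_cases hc : j ∉ J ∧ 1 ≤ b j
        · rw [if_pos hc, KH_zero (m := m), mul_zero]
          · intro l hl
            rcases Finset.mem_insert.1 hl with h | h
            · rw [h]
              rcases lt_trichotomy m j with h' | h' | h'
              · exact h'
              · exact absurd h'.symm hj
              · have := (hmin j h').2
                omega
            · exact hJm' l h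
          · rw [Finsupp.tsub_apply, Finsupp.single_eq_of_ne (Ne.symm hj), Nat.sub_zero]
            exact hbm
        · rw [if_neg hc]
    rw [Finset.sum_congr rfl fun j _ => h3 j, Finset.sum_ite_eq' Finset.univ m,
      if_pos (Finset.mem_univ m)]

/-- the coefficients of a family -/
private def Kx {i : ℕ} (f : Cb d i → MvPolynomial (Fin d) k) (K : Finset (Fin d))
    (b : Fin d →₀ ℕ) : k :=
  if h : K.card = i then coeff b (f ⟨K, h⟩) else 0

private theorem Kx_eq {i : ℕ} (f : Cb d i → MvPolynomial (Fin d) k) (K : Cb d i)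
    (b : Fin d →₀ ℕ) : Kx f K.1 b = coeff b (f K) := by
  unfold Kx
  rw [dif_pos K.2]

private theorem K_coeff {i : ℕ} (g : Cb d (i + 1) → MvPolynomial (Fin d) k) (J : Cb d i)
    (b : Fin d →₀ ℕ) :
    coeff b ((kos (fun j => (X j : MvPolynomial (Fin d) k)) i).mulVec g J) = KD (Kx g) J.1 b := by
  have h1 : (kos (fun j => (X j : MvPolynomial (Fin d) k)) i).mulVec g J =
      ∑ j, if h : j ∉ J.1 then ksg (MvPolynomial (Fin d) k) j J.1 * X j *
        g ⟨insert j J.1, by rw [Finset.card_insert_of_notMem h, J.2]⟩ else 0 := by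
    unfold Matrix.mulVec dotProduct kos
    simp only [Finset.sum_mul]
    rw [Finset.sum_comm]
    refine Finset.sum_congr rfl fun j _ => ?_
    by_cases h : j ∉ J.1
    · rw [dif_pos h, Finset.sum_eq_single_of_mem
        (⟨insert j J.1, by rw [Finset.card_insert_of_notMem h, J.2]⟩ : Cb d (i + 1))
        (Finset.mem_univ _), if_pos ⟨h, rfl⟩]
      intro I _ hI
      rw [if_neg, zero_mul]
      rintro ⟨-, h2⟩
      exact hI (Subtype.ext h2)
    · rw [dif_neg h]
      refine Finset.sum_eq_zero fun I _ => ?_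
      rw [if_neg fun h2 => h h2.1, zero_mul]
  rw [h1, coeff_sum]
  unfold KD
  refine Finset.sum_congr rfl fun j _ => ?_
  by_cases h : j ∉ J.1
  · rw [dif_pos h]
    have h2 : ksg (MvPolynomial (Fin d) k) j J.1 = C (ksg k j J.1) := by
      unfold ksg
      simp
    rw [h2, mul_assoc, coeff_C_mul, coeff_X_mul']
    by_cases hb : 1 ≤ b j
    · rw [if_pos (Finsupp.mem_support_iff.2 (by omega)), if_pos ⟨h, hb⟩]
      congr 1
      exact (Kx_eq g ⟨insert j J.1, by rw [Finset.card_insert_of_notMem h, J.2]⟩ _).symm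
    · rw [if_neg fun h3 => hb (Nat.one_le_iff_ne_zero.2 (Finsupp.mem_support_iff.1 h3)),
        if_neg fun h3 => hb h3.2, mul_zero]
  · rw [dif_neg h, if_neg fun h2 => h h2.1, coeff_zero]

/-- the homotopy on polynomials -/
private def Kph (m : Fin d) (f : MvPolynomial (Fin d) k) : MvPolynomial (Fin d) k :=
  open Classical in
  ∑ e ∈ f.support.image (fun e => e - Finsupp.single m 1),
    monomial e (if ∀ l < m, e l = 0 then coeff (e + Finsupp.single m 1) f else 0)

private theorem coeff_Kph (m : Fin d) (f : MvPolynomial (Fin d) k) (b : Fin d →₀ ℕ) :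
    coeff b (Kph m f) = if ∀ l < m, b l = 0 then coeff (b + Finsupp.single m 1) f else 0 := by
  classical
  unfold Kph
  rw [coeff_sum]
  simp only [coeff_monomial]
  rw [Finset.sum_ite_eq' (f.support.image (fun e => e - Finsupp.single m 1)) b]
  by_cases h : b ∈ f.support.image (fun e => e - Finsupp.single m 1)
  · rw [if_pos h]
  · rw [if_neg h]
    by_cases h2 : coeff (b + Finsupp.single m 1) f = 0
    · rw [h2, ite_self]
    · exfalso
      apply h
      rw [Finset.mem_image]
      exact ⟨b + Finsupp.single m 1, mem_support_iff.2 h2, add_tsub_cancel_right _ _⟩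

private theorem K_ne {i : ℕ} (K : Cb d (i + 1)) : K.1.Nonempty :=
  Finset.card_pos.1 (by rw [K.2]; omega)

private theorem K_card {i : ℕ} (K : Cb d (i + 1)) : (K.1.erase (K.1.min' (K_ne K))).card = i := by
  rw [Finset.card_erase_of_mem (Finset.min'_mem _ _), K.2, Nat.add_sub_cancel]

/-- the preimage -/
private def Kg {i : ℕ} (f : Cb d i → MvPolynomial (Fin d) k) (K : Cb d (i + 1)) :
    MvPolynomial (Fin d) k :=
  Kph (K.1.min' (K_ne K)) (f ⟨K.1.erase (K.1.min' (K_ne K)), K_card K⟩)

private theorem coeff_Kg {i : ℕ} (f : Cb d i → MvPolynomial (Fin d) k) (K : Cb d (i + 1))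
    (b : Fin d →₀ ℕ) : coeff b (Kg f K) = KH (Kx f) K.1 b := by
  unfold Kg KH
  rw [coeff_Kph, dif_pos (K_ne K)]
  congr 1
  exact (Kx_eq f ⟨K.1.erase (K.1.min' (K_ne K)), K_card K⟩ _).symm

private theorem K_conclude {i : ℕ} (f : Cb d i → MvPolynomial (Fin d) k)
    (h1 : ∀ J b, KD (Kx f) J b = 0) (h0 : i = 0 → ∀ I, coeff 0 (f I) = 0) :
    f = (kos (fun j => (X j : MvPolynomial (Fin d) k)) i).mulVec (Kg f) := by
  funext J
  ext b
  rw [K_coeff]
  have h2 : KD (Kx (Kg f)) J.1 b = KD (KH (Kx f)) J.1 b := by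
    unfold KD
    refine Finset.sum_congr rfl fun j _ => ?_
    by_cases hc : j ∉ J.1 ∧ 1 ≤ b j
    · rw [if_pos hc, if_pos hc]
      congr 1
      rw [← coeff_Kg f ⟨insert j J.1, by rw [Finset.card_insert_of_notMem hc.1, J.2]⟩]
      exact Kx_eq (Kg f) ⟨insert j J.1, by rw [Finset.card_insert_of_notMem hc.1, J.2]⟩ _
    · rw [if_neg hc, if_neg hc]
  rw [h2]
  by_cases hJ : J.1.Nonempty ∨ b ≠ 0
  · have h3 := K_main (Kx f) J.1 b hJ
    have h4 : KH (KD (Kx f)) J.1 b = 0 := by
      unfold KH
      split_ifs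
      · exact h1 _ _
      · rfl
      · rfl
    rw [h4, add_zero, Kx_eq] at h3
    exact h3.symm
  · rw [not_or, not_not, Finset.not_nonempty_iff_eq_empty] at hJ
    obtain ⟨hJ1, rfl⟩ := hJ
    have hi : i = 0 := by
      rw [← J.2, hJ1, Finset.card_empty]
    rw [h0 hi J]
    unfold KD
    symm
    refine Finset.sum_eq_zero fun j _ => ?_
    rw [if_neg]
    rintro ⟨-, h⟩
    simp at h

private theorem Kg_hom {i r : ℕ} (f : Cb d i → MvPolynomial (Fin d) k)
    (hf : ∀ I, (f I).IsHomogeneous r) (K : Cb d (i + 1)) {b : Fin d →₀ ℕ}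
    (hb : coeff b (Kg f K) ≠ 0) : b.degree + 1 = r := by
  unfold Kg at hb
  rw [coeff_Kph] at hb
  split_ifs at hb
  · by_contra hne
    apply hb
    refine (hf _).coeff_eq_zero ?_
    rw [map_add, Finsupp.degree_single]
    exact hne
  · exact absurd rfl hb

end KosG

/-- exactness of the graded Koszul complex in positive cardinality -/
theorem kos_exact {k : Type} [CommRing k] {d : ℕ} (i r : ℕ)
    (f : Cb d (i + 1) → MvPolynomial (Fin d) k) (hf : ∀ I, (f I).IsHomogeneous r)
    (hc : (kos (fun j => (X j : MvPolynomial (Fin d) k)) i).mulVec f = 0) :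
    ∃ g : Cb d (i + 1 + 1) → MvPolynomial (Fin d) k, (∀ K, (g K).IsHomogeneous (r - 1)) ∧
      (r = 0 → g = 0) ∧ f = (kos (fun j => (X j : MvPolynomial (Fin d) k)) (i + 1)).mulVec g := by
  refine ⟨Kg f, fun K => ?_, fun hr => ?_, K_conclude f (fun J b => ?_) fun h => by omega⟩
  · intro b hb
    have h1 := Kg_hom f hf K hb
    have h2 : Finsupp.weight (1 : Fin d → ℕ) b = b.degree :=
      (DFunLike.congr_fun Finsupp.degree_eq_weight_one b).symm
    rw [h2]
    omega
  · funext K
    ext b
    by_contra hb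
    have h1 := Kg_hom f hf K (b := b) (by simpa using hb)
    omega
  · by_cases hJ : J.card = i
    · rw [← K_coeff f ⟨J, hJ⟩, hc]
      simp
    · unfold KD
      refine Finset.sum_eq_zero fun j _ => ?_
      split_ifs with h
      · have h2 : Kx f (insert j J) (b - Finsupp.single j 1) = 0 := by
          unfold Kx
          rw [dif_neg]
          rw [Finset.card_insert_of_notMem h.1]
          omega
        rw [h2, mul_zero]
      · rfl

/-- exactness of the graded Koszul complex in cardinality zero -/
theorem kos_exact0 {k : Type} [CommRing k] {d : ℕ} (r : ℕ)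
    (f : Cb d 0 → MvPolynomial (Fin d) k) (hf : ∀ I, (f I).IsHomogeneous (r + 1)) :
    ∃ g : Cb d (0 + 1) → MvPolynomial (Fin d) k, (∀ K, (g K).IsHomogeneous r) ∧
      f = (kos (fun j => (X j : MvPolynomial (Fin d) k)) 0).mulVec g := by
  refine ⟨Kg f, fun K => ?_, K_conclude f (fun J b => ?_) fun _ I => ?_⟩
  · intro b hb
    have h1 := Kg_hom f hf K hb
    have h2 : Finsupp.weight (1 : Fin d → ℕ) b = b.degree :=
      (DFunLike.congr_fun Finsupp.degree_eq_weight_one b).symm
    rw [h2]
    omega
  · unfold KD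
    refine Finset.sum_eq_zero fun j _ => ?_
    split_ifs with h
    · have h2 : Kx f (insert j J) (b - Finsupp.single j 1) = 0 := by
        unfold Kx
        rw [dif_neg]
        rw [Finset.card_insert_of_notMem h.1]
        omega
      rw [h2, mul_zero]
    · rfl
  · refine (hf I).coeff_eq_zero ?_
    simp

end Pool.Agent.MCG
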