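import Pool.Agent.MCG.Kos

set_option autoImplicit false
set_option linter.unusedSectionVars false

noncomputable section

/-!
PACKAGE MCG-KOSK. The product of two Koszul matrices.

The entry of the product at `(J, K)` is the sum over `I` and `j ∉ J`, `I = J ∪ {j}`, `l ∉ I`,
`K = I ∪ {l}` of `ksg j J * b j * (ksg l I * b l)` (for given `j` there is at most one `I`). So it
is
the sum over all pairs `(j, l)` with `j ∉ J`, `l ∉ J`, `j ≠ l`, `K = insert l (insert j J)` of
`ksg j J * b j * (ksg l (insert j J) * b l)`, and the condition is symmetric in `(j, l)`. For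
`j < l`: `ksg l (insert j J) = - ksg l J`, `ksg j (insert l J) = ksg j J`, and signs commute with
everything, so the terms of `(j, l)` and `(l, j)` add up to
`± (b j * b l - b l * b j) ∈ N`. (There is at most one such pair with `j < l`, but this is not
needed: split the sum over all pairs into `j < l` and `l < j`, `Finset.sum_comm`/`Equiv.prodComm`.)
-/

namespace Pool.Agent.MCG

/-- the contribution of the pair `(j, l)` -/
private def KosKT {A : Type} [Ring A] {d : ℕ} (b : Fin d → A) (J K : Finset (Fin d))
    (j l : Fin d) : A :=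
  if j ∉ J ∧ l ∉ insert j J ∧ K = insert l (insert j J) then
    ksg A j J * b j * (ksg A l (insert j J) * b l) else 0

private theorem KosK_sum {A : Type} [Ring A] {d : ℕ} (b : Fin d → A) (i : ℕ)
    (J : Cb d i) (K : Cb d (i + 1 + 1)) :
    (kos b i * kos b (i + 1)) J K = ∑ j, ∑ l, KosKT b J.1 K.1 j l := by
  rw [Matrix.mul_apply]
  unfold kos
  have h1 : ∀ I : Cb d (i + 1),
      (∑ j, if j ∉ J.1 ∧ I.1 = insert j J.1 then ksg A j J.1 * b j else 0) *
        (∑ l, if l ∉ I.1 ∧ K.1 = insert l I.1 then ksg A l I.1 * b l else 0) =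
      ∑ j, (if j ∉ J.1 ∧ I.1 = insert j J.1 then ksg A j J.1 * b j else 0) *
        ∑ l, (if l ∉ I.1 ∧ K.1 = insert l I.1 then ksg A l I.1 * b l else 0) := by
    intro I
    rw [Finset.sum_mul]
  rw [Finset.sum_congr rfl fun I _ => h1 I, Finset.sum_comm]
  refine Finset.sum_congr rfl fun j _ => ?_
  by_cases hj : j ∈ J.1
  · rw [Finset.sum_eq_zero, Finset.sum_eq_zero]
    · intro l _
      unfold KosKT
      rw [if_neg (fun h => h.1 hj)]
    · intro I _
      rw [if_neg (fun h => h.1 hj), zero_mul]
  · have hc : (insert j J.1).card = i + 1 := by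
      rw [Finset.card_insert_of_notMem hj, J.2]
    rw [Finset.sum_eq_single (⟨insert j J.1, hc⟩ : Cb d (i + 1))]
    · rw [if_pos ⟨hj, rfl⟩, Finset.mul_sum]
      refine Finset.sum_congr rfl fun l _ => ?_
      unfold KosKT
      by_cases hl : l ∉ insert j J.1 ∧ K.1 = insert l (insert j J.1)
      · rw [if_pos hl, if_pos ⟨hj, hl⟩]
      · rw [if_neg hl, if_neg (fun h => hl h.2), mul_zero]
    · intro I _ hI
      rw [if_neg, zero_mul]
      rintro ⟨-, h2⟩
      exact hI (Subtype.ext h2)
    · intro h
      exact absurd (Finset.mem_univ _) h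

private theorem KosK_sg_insert {A : Type} [Ring A] {d : ℕ} (J : Finset (Fin d)) (j l : Fin d)
    (hj : j ∉ J) (hjl : j < l) : ksg A l (insert j J) = - ksg A l J := by
  unfold ksg
  rw [Finset.filter_insert, if_pos hjl, Finset.card_insert_of_notMem, pow_succ, mul_neg_one]
  intro h
  exact hj (Finset.mem_filter.mp h).1

private theorem KosK_sg_insert' {A : Type} [Ring A] {d : ℕ} (J : Finset (Fin d)) (j l : Fin d)
    (hjl : j < l) : ksg A j (insert l J) = ksg A j J := by
  unfold ksg
  rw [Finset.filter_insert, if_neg (not_lt.mpr hjl.le)]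

private theorem KosK_pair {A : Type} [Ring A] {d : ℕ} (b : Fin d → A) (N : AddSubgroup A)
    (hN : ∀ j l, b j * b l - b l * b j ∈ N) (J K : Finset (Fin d)) (j l : Fin d) (hjl : j < l) :
    KosKT b J K j l + KosKT b J K l j ∈ N := by
  unfold KosKT
  have hne : j ≠ l := ne_of_lt hjl
  by_cases h : j ∉ J ∧ l ∉ insert j J ∧ K = insert l (insert j J)
  · obtain ⟨h1, h2, h3⟩ := h
    have h4 : l ∉ J := fun h => h2 (Finset.mem_insert_of_mem h)
    have h5 : j ∉ insert l J := by
      intro h
      rcases Finset.mem_insert.mp h with h6 | h6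
      · exact hne h6
      · exact h1 h6
    have h6 : K = insert j (insert l J) := by
      rw [h3, Finset.insert_comm]
    rw [if_pos ⟨h1, h2, h3⟩, if_pos ⟨h4, h5, h6⟩, KosK_sg_insert J j l h1 hjl,
      KosK_sg_insert' J j l hjl]
    unfold ksg
    rcases neg_one_pow_eq_or A (J.filter (· < j)).card with ha | ha <;>
    rcases neg_one_pow_eq_or A (J.filter (· < l)).card with hb | hb <;>
    rw [ha, hb]
    · have h7 : 1 * b j * (-1 * b l) + 1 * b l * (1 * b j) = -(b j * b l - b l * b j) := by
        noncomm_ring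
      rw [h7]
      exact N.neg_mem (hN j l)
    · have h7 : 1 * b j * (- -1 * b l) + -1 * b l * (1 * b j) = b j * b l - b l * b j := by
        noncomm_ring
      rw [h7]
      exact hN j l
    · have h7 : -1 * b j * (-1 * b l) + 1 * b l * (-1 * b j) = b j * b l - b l * b j := by
        noncomm_ring
      rw [h7]
      exact hN j l
    · have h7 : -1 * b j * (- -1 * b l) + -1 * b l * (-1 * b j) = -(b j * b l - b l * b j) := by
        noncomm_ring
      rw [h7]
      exact N.neg_mem (hN j l)
  · rw [if_neg h, if_neg, add_zero]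
    · exact N.zero_mem
    · rintro ⟨h1, h2, h3⟩
      apply h
      have h4 : j ∉ J := fun h => h2 (Finset.mem_insert_of_mem h)
      refine ⟨h4, ?_, ?_⟩
      · intro h5
        rcases Finset.mem_insert.mp h5 with h6 | h6
        · exact hne h6.symm
        · exact h1 h6
      · rw [h3, Finset.insert_comm]

/-- the product of two Koszul matrices has entries in the group generated by commutators -/
theorem kos_kos {A : Type} [Ring A] {d : ℕ} (b : Fin d → A) (i : ℕ) (N : AddSubgroup A)
    (hN : ∀ j l, b j * b l - b l * b j ∈ N) (J : Cb d i) (K : Cb d (i + 1 + 1)) :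
    (kos b i * kos b (i + 1)) J K ∈ N := by
  rw [KosK_sum]
  have h1 : ∑ j, ∑ l, KosKT b J.1 K.1 j l =
      ∑ j, ∑ l, if j < l then KosKT b J.1 K.1 j l + KosKT b J.1 K.1 l j else 0 := by
    have h2 : ∑ j, ∑ l, KosKT b J.1 K.1 j l =
        ∑ j, ∑ l, (if j < l then KosKT b J.1 K.1 j l else 0) +
          ∑ j, ∑ l, (if l < j then KosKT b J.1 K.1 j l else 0) := by
      rw [← Finset.sum_add_distrib]
      refine Finset.sum_congr rfl fun j _ => ?_
      rw [← Finset.sum_add_distrib]
      refine Finset.sum_congr rfl fun l _ => ?_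
      rcases lt_trichotomy j l with h | h | h
      · rw [if_pos h, if_neg (not_lt.mpr h.le), add_zero]
      · subst h
        rw [if_neg (lt_irrefl j), add_zero]
        unfold KosKT
        rw [if_neg]
        rintro ⟨-, h3, -⟩
        exact h3 (Finset.mem_insert_self j J.1)
      · rw [if_neg (not_lt.mpr h.le), if_pos h, zero_add]
    rw [h2, Finset.sum_comm (f := fun j l => if l < j then KosKT b J.1 K.1 j l else 0),
      ← Finset.sum_add_distrib]
    refine Finset.sum_congr rfl fun j _ => ?_
    rw [← Finset.sum_add_distrib]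
    refine Finset.sum_congr rfl fun l _ => ?_
    by_cases h : j < l
    · rw [if_pos h, if_pos h, if_pos h]
    · rw [if_neg h, if_neg h, if_neg h, add_zero]
  rw [h1]
  refine N.sum_mem fun j _ => N.sum_mem fun l _ => ?_
  split_ifs with h
  · exact KosK_pair b N hN J.1 K.1 j l h
  · exact N.zero_mem

end Pool.Agent.MCG
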