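import Pool.Agent.MCG.KosG
import Pool.Agent.MCG.KosC

set_option autoImplicit false
set_option linter.unusedSectionVars false

noncomputable section

/-!
PACKAGE MCG-KOSS. The strictness of the Koszul complex over `A = L1 = lim F_p[P k]` by lifting of
the graded one.

`vb T j = evL T (X j)` is the element `b j` (`FL 1`, symbol `lf 1 = X j`). `Kap T i D`: the matrix
`D : Cb d i × Cb d (i+1)` is the Koszul matrix of the `b j` modulo `FL 2`.

* `comm_fl`: `lf_mul`, `lf_sub`, `fl_mul`: the symbol of `b j * b l - b l * b j` in degree `2` is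
  `X j * X l - X l * X j = 0`, so `fl_succ`.
* SYMBOLS: if `Kap T i D`, `x : Cb d (i+1) → A` with `FL r (x I)` then `D.mulVec x J` is in
  `FL (r + 1)` and its symbol of degree `r + 1` is
  `(kos X i).mulVec (fun I => lf r (x I)) J` (`lf_sum`, `lf_mul`; `lf 1 (D J I)` is the entry
  of `kos X i`: `lf 1` of an element of `FL 2` is zero, `lf 1` is additive, the entry of `kos b i`
  is `± b j` or zero or a sum).
* `str_succ`: let `y : Cb d (i+1) → A` with `FL r (y I)` and `D.mulVec y = 0`. CLAIM: for all `N`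
  there is `x` with `FL (r - 1) (x K)` for all `K` and `FL N (y - D' x)`. Induction on `N`; `N ≤ r`:
  `x = 0`. Step `N → N + 1`, `N ≥ r`: `y' = y - D' x` is in `FL N` with `D y' = 0` (`D * D' = 0`).
  The symbol `f I = lf N (y' I)` (homogeneous of degree `N`) satisfies `(kos X i).mulVec f = 0`. By
  `kos_exact` `f = (kos X (i+1)).mulVec g`, `g` homogeneous of degree `N - 1`, `g = 0` if
  `N = 0`. Let `x'' K = evL T (g K)` (`fl_evL`, `lf_evL`). If `N ≥ 1`: `D' x''` is in `FL N` with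
  symbol `f`, so `y' - D' x''` is in `FL (N + 1)` (`fl_succ`); `FL (N - 1) (x'' K)` and
  `r - 1 ≤ N - 1` (monotonicity of `FL`: `fil_le`). If `N = 0`: `f = 0`, so `y'` is in `FL 1`.
  Then `approx_col`.
* `str_zero`: the same with `kos_exact0`.
-/

namespace Pool.Agent.MCG

open Pool.Agent.Lvl MvPolynomial

variable {p q d : ℕ} [hp : Fact p.Prime] (T : Tower p q d)

/-- the element `b j = c j - 1` of the limit ring -/
def vb (j : Fin d) : Lim T (ZMod p) := evL T (X j)

/-- the matrix `D` is the Koszul matrix modulo the second step of the filtration -/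
def Kap (i : ℕ) (D : Matrix (Cb d i) (Cb d (i + 1)) (Lim T (ZMod p))) : Prop :=
  ∀ J I, FL T 2 (D J I - kos (vb T) i J I)

private theorem KosS_lf_zero (n : ℕ) : lf T n (0 : Lim T (ZMod p)) = 0 := by
  have h := lf_sub T n (0 : Lim T (ZMod p)) 0
  rw [sub_self, sub_self] at h
  exact h

private theorem KosS_lf_neg (n : ℕ) (u : Lim T (ZMod p)) : lf T n (-u) = -lf T n u := by
  rw [← zero_sub, lf_sub, KosS_lf_zero, zero_sub]

private theorem KosS_lf_add (n : ℕ) (u v : Lim T (ZMod p)) :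
    lf T n (u + v) = lf T n u + lf T n v := by
  rw [← sub_neg_eq_add, lf_sub, KosS_lf_neg, sub_neg_eq_add]

private theorem KosS_fl_z (n : ℕ) : FL T n (0 : Lim T (ZMod p)) :=
  fun _ => Submodule.zero_mem _

private theorem KosS_fl_neg {n : ℕ} {u : Lim T (ZMod p)} (hu : FL T n u) : FL T n (-u) :=
  fun k => Submodule.neg_mem _ (hu k)

private theorem KosS_fl_add {n : ℕ} {u v : Lim T (ZMod p)} (hu : FL T n u) (hv : FL T n v) :
    FL T n (u + v) := fun k => Submodule.add_mem _ (hu k) (hv k)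

private theorem KosS_fl_mono {m n : ℕ} (h : m ≤ n) {u : Lim T (ZMod p)} (hu : FL T n u) :
    FL T m u := fun k => fil_le h (hu k)

private theorem KosS_lf_succ {n : ℕ} {u : Lim T (ZMod p)} (hu : FL T (n + 1) u) :
    lf T n u = 0 := by
  unfold lf
  ext e
  rw [coeff_homogeneousComponent, MvPolynomial.coeff_zero]
  split_ifs with he
  · by_contra hne
    have h1 := (mem_fil_iff T).1 (hu n) e hne
    omega
  · rfl

private theorem KosS_fl_vb (j : Fin d) : FL T 1 (vb T j) :=
  fl_evL T (isHomogeneous_X (ZMod p) j)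

private theorem KosS_lf_vb (j : Fin d) : lf T 1 (vb T j) = X j :=
  lf_evL T (isHomogeneous_X (ZMod p) j)

theorem comm_fl (j l : Fin d) : FL T 3 (vb T j * vb T l - vb T l * vb T j) := by
  refine fl_succ T ((fl_mul T (KosS_fl_vb T j) (KosS_fl_vb T l)).sub T
    (fl_mul T (KosS_fl_vb T l) (KosS_fl_vb T j))) ?_
  rw [lf_sub, lf_mul T (KosS_fl_vb T j) (KosS_fl_vb T l),
    lf_mul T (KosS_fl_vb T l) (KosS_fl_vb T j), KosS_lf_vb, KosS_lf_vb, mul_comm, sub_self]

private theorem KosS_sg (j : Fin d) (J : Finset (Fin d)) :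
    FL T 1 (ksg (Lim T (ZMod p)) j J * vb T j) ∧
      lf T 1 (ksg (Lim T (ZMod p)) j J * vb T j) =
        ksg (MvPolynomial (Fin d) (ZMod p)) j J * X j := by
  unfold ksg
  rcases Nat.even_or_odd (J.filter (· < j)).card with h | h
  · rw [h.neg_one_pow, h.neg_one_pow, one_mul, one_mul]
    exact ⟨KosS_fl_vb T j, KosS_lf_vb T j⟩
  · rw [h.neg_one_pow, h.neg_one_pow, neg_one_mul, neg_one_mul, KosS_lf_neg, KosS_lf_vb]
    exact ⟨KosS_fl_neg T (KosS_fl_vb T j), rfl⟩

private theorem KosS_kos (i : ℕ) (J : Cb d i) (I : Cb d (i + 1)) :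
    FL T 1 (kos (vb T) i J I) ∧
      lf T 1 (kos (vb T) i J I) =
        kos (fun j => (X j : MvPolynomial (Fin d) (ZMod p))) i J I := by
  unfold kos
  refine ⟨FL.sum T fun j _ => ?_, ?_⟩
  · split_ifs
    · exact (KosS_sg T j J.1).1
    · exact KosS_fl_z T 1
  · rw [lf_sum]
    refine Finset.sum_congr rfl fun j _ => ?_
    split_ifs
    · exact (KosS_sg T j J.1).2
    · exact KosS_lf_zero T 1

private theorem KosS_ent {i : ℕ} {D : Matrix (Cb d i) (Cb d (i + 1)) (Lim T (ZMod p))}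
    (hD : Kap T i D) (J : Cb d i) (I : Cb d (i + 1)) :
    FL T 1 (D J I) ∧ lf T 1 (D J I) =
      kos (fun j => (X j : MvPolynomial (Fin d) (ZMod p))) i J I := by
  have h1 := KosS_kos T i J I
  have h2 := hD J I
  have h3 : D J I = kos (vb T) i J I + (D J I - kos (vb T) i J I) := by abel
  rw [h3]
  refine ⟨KosS_fl_add T h1.1 (KosS_fl_mono T (by norm_num) h2), ?_⟩
  rw [KosS_lf_add, h1.2, KosS_lf_succ T h2, add_zero]

private theorem KosS_mv {i : ℕ} {D : Matrix (Cb d i) (Cb d (i + 1)) (Lim T (ZMod p))}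
    (hD : Kap T i D) {r : ℕ} {x : Cb d (i + 1) → Lim T (ZMod p)} (hx : ∀ I, FL T r (x I))
    (J : Cb d i) :
    FL T (r + 1) (D.mulVec x J) ∧ lf T (r + 1) (D.mulVec x J) =
      (kos (fun j => (X j : MvPolynomial (Fin d) (ZMod p))) i).mulVec
        (fun I => lf T r (x I)) J := by
  have h1 : D.mulVec x J = ∑ I, D J I * x I := rfl
  have h2 : (kos (fun j => (X j : MvPolynomial (Fin d) (ZMod p))) i).mulVec
      (fun I => lf T r (x I)) J =
      ∑ I, kos (fun j => (X j : MvPolynomial (Fin d) (ZMod p))) i J I * lf T r (x I) := rfl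
  rw [h1, h2, add_comm r 1]
  refine ⟨FL.sum T fun I _ => fl_mul T (KosS_ent T hD J I).1 (hx I), ?_⟩
  rw [lf_sum]
  refine Finset.sum_congr rfl fun I _ => ?_
  rw [lf_mul T (KosS_ent T hD J I).1 (hx I), (KosS_ent T hD J I).2]

/-- one step of the approximation -/
private theorem KosS_step {i : ℕ} {D : Matrix (Cb d i) (Cb d (i + 1)) (Lim T (ZMod p))}
    (hD : Kap T i D) {M : ℕ} {z : Cb d i → Lim T (ZMod p)} (hz : ∀ J, FL T (M + 1) (z J))
    {g : Cb d (i + 1) → MvPolynomial (Fin d) (ZMod p)} (hg : ∀ K, (g K).IsHomogeneous M)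
    (h : (fun J => lf T (M + 1) (z J)) =
      (kos (fun j => (X j : MvPolynomial (Fin d) (ZMod p))) i).mulVec g) (J : Cb d i) :
    FL T (M + 1 + 1) (z J - D.mulVec (fun K => evL T (g K)) J) := by
  have h1 := KosS_mv T hD (x := fun K => evL T (g K)) (fun K => fl_evL T (hg K)) J
  refine fl_succ T ((hz J).sub T h1.1) ?_
  rw [lf_sub, h1.2]
  have h2 : (fun I => lf T M (evL T (g I))) = g := funext fun I => lf_evL T (hg I)
  rw [h2, ← congrFun h J, sub_self]

private theorem KosS_fin {i r : ℕ} {D : Matrix (Cb d i) (Cb d (i + 1)) (Lim T (ZMod p))}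
    {y : Cb d i → Lim T (ZMod p)}
    (h : ∀ N, ∃ x : Cb d (i + 1) → Lim T (ZMod p), (∀ K, FL T r (x K)) ∧
      ∀ J, FL T N (y J - D.mulVec x J)) :
    ∃ x : Cb d (i + 1) → Lim T (ZMod p), (∀ K, FL T r (x K)) ∧ y = D.mulVec x := by
  obtain ⟨x, hx, hy⟩ := approx_col T D y r h
  exact ⟨x, hx, funext hy⟩

theorem str_zero {D : Matrix (Cb d 0) (Cb d (0 + 1)) (Lim T (ZMod p))} (hD : Kap T 0 D) (r : ℕ)
    (y : Cb d 0 → Lim T (ZMod p)) (hy : ∀ I, FL T (r + 1) (y I)) :
    ∃ x : Cb d (0 + 1) → Lim T (ZMod p), (∀ K, FL T r (x K)) ∧ y = D.mulVec x := by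
  refine KosS_fin T fun N => ?_
  induction N with
  | zero =>
    refine ⟨0, fun K => KosS_fl_z T r, fun J => ?_⟩
    exact fl_zero T _
  | succ N ih =>
    rcases Nat.lt_or_ge r N with hN | hN
    · obtain ⟨x, hx, hz⟩ := ih
      obtain ⟨M, rfl⟩ : ∃ M, N = M + 1 := ⟨N - 1, by omega⟩
      obtain ⟨g, hg, hf⟩ := kos_exact0 (k := ZMod p) M
        (fun J => lf T (M + 1) (y J - D.mulVec x J)) fun J => lf_isHomogeneous T (M + 1) _
      refine ⟨x + fun K => evL T (g K), fun K => ?_, fun J => ?_⟩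
      · exact KosS_fl_add T (hx K) (KosS_fl_mono T (by omega) (fl_evL T (hg K)))
      · have h1 := KosS_step T hD hz hg hf J
        rw [Matrix.mulVec_add, Pi.add_apply, ← sub_sub]
        exact h1
    · refine ⟨0, fun K => KosS_fl_z T r, fun J => ?_⟩
      rw [Matrix.mulVec_zero, Pi.zero_apply, sub_zero]
      exact KosS_fl_mono T (by omega) (hy J)

theorem str_succ (i : ℕ) {D : Matrix (Cb d i) (Cb d (i + 1)) (Lim T (ZMod p))}
    {D' : Matrix (Cb d (i + 1)) (Cb d (i + 1 + 1)) (Lim T (ZMod p))} (hD : Kap T i D)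
    (hD' : Kap T (i + 1) D') (h0 : D * D' = 0) (r : ℕ)
    (y : Cb d (i + 1) → Lim T (ZMod p)) (hy : ∀ I, FL T r (y I)) (hy0 : D.mulVec y = 0) :
    ∃ x : Cb d (i + 1 + 1) → Lim T (ZMod p), (∀ K, FL T (r - 1) (x K)) ∧ y = D'.mulVec x := by
  refine KosS_fin T fun N => ?_
  induction N with
  | zero =>
    refine ⟨0, fun K => KosS_fl_z T _, fun J => ?_⟩
    exact fl_zero T _
  | succ N ih =>
    rcases Nat.lt_or_ge N r with hN | hN
    · refine ⟨0, fun K => KosS_fl_z T _, fun J => ?_⟩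
      rw [Matrix.mulVec_zero, Pi.zero_apply, sub_zero]
      exact KosS_fl_mono T (by omega) (hy J)
    · obtain ⟨x, hx, hz⟩ := ih
      have hz0 : D.mulVec (y - D'.mulVec x) = 0 := by
        rw [Matrix.mulVec_sub, hy0, Matrix.mulVec_mulVec, h0, Matrix.zero_mulVec, sub_zero]
      have hc : (kos (fun j => (X j : MvPolynomial (Fin d) (ZMod p))) i).mulVec
          (fun I => lf T N (y I - D'.mulVec x I)) = 0 := by
        funext J
        have h1 := (KosS_mv T hD (r := N) (x := y - D'.mulVec x) hz J).2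
        rw [hz0, Pi.zero_apply, KosS_lf_zero] at h1
        exact h1.symm
      obtain ⟨g, hg, hg0, hf⟩ := kos_exact (k := ZMod p) i N
        (fun I => lf T N (y I - D'.mulVec x I)) (fun I => lf_isHomogeneous T N _) hc
      rcases Nat.eq_zero_or_pos N with h00 | hpos
      · subst h00
        rw [hg0 rfl, Matrix.mulVec_zero] at hf
        exact ⟨x, hx, fun J => fl_succ T (hz J) (congrFun hf J)⟩
      · obtain ⟨M, rfl⟩ : ∃ M, N = M + 1 := ⟨N - 1, by omega⟩
        rw [Nat.add_sub_cancel] at hg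
        refine ⟨x + fun K => evL T (g K), fun K => ?_, fun J => ?_⟩
        · exact KosS_fl_add T (hx K) (KosS_fl_mono T (by omega) (fl_evL T (hg K)))
        · have h1 := KosS_step T hD' hz hg hf J
          rw [Matrix.mulVec_add, Pi.add_apply, ← sub_sub]
          exact h1

end Pool.Agent.MCG
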