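import Pool.Agent.MCG.KosK
import Pool.Agent.MCG.KosS

set_option autoImplicit false
set_option linter.unusedSectionVars false

noncomputable section

/-!
PACKAGE MCG-KOSN. The Koszul resolution over `A = L1 = lim F_p[P k]`.

* `next_succ`: `D : i × (i+1)` and `D' : (i+1) × (i+2)` are given. Let `κ` be the column of `kos
  (vb T) (i+2)` at `K : Cb d (i+3)`; `y = D'.mulVec κ` satisfies `D.mulVec y = 0` (`D * D' = 0`)
  and lies in `FL 3`: `D' κ = (D' - kos b (i+1)) κ + kos b (i+1) κ`, the first summand is in `FL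
  (2 + 1)` (`fl_mul`, `FL.sum`; the entries of `kos` are in `FL 1`), the second is an entry of
  `kos b (i+1) * kos b (i+2)`, in `FL 3` by `kos_kos` (`N` = the additive subgroup of all `u` with
  `FL T 3 u`) and `comm_fl`. By `str_succ` (`r = 3`) `y = D' z` with `FL 2 (z ..)`. The column `K`
  of `D''` is `κ - z`.
* `next_zero`: the same with `D' = kos b 0` and `str_zero` (`r = 2`).
* `koszul`: `D 0 = kos (vb T) 0`, `D 1` from `next_zero`, then dependent choice (for example on the
  type of pairs `(D i, D (i+1))` with the three properties, `Nat.rec` on a subtype, or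
  `exists_seq`-like lemma). Exactness: `str_succ` with `r = 0`, `str_zero` with `r = 0`. The entries
  of `kos (vb T) 0` are in `FL 1`.
-/

namespace Pool.Agent.MCG

open Pool.Agent.Lvl MvPolynomial

variable {p q d : ℕ} [hp : Fact p.Prime] (T : Tower p q d)

private theorem KosN_zero (n : ℕ) : FL T n (0 : Lim T (ZMod p)) :=
  fun _ => Submodule.zero_mem _

private theorem KosN_neg {n : ℕ} {u : Lim T (ZMod p)} (hu : FL T n u) : FL T n (-u) := by
  have h := FL.sub T (KosN_zero T n) hu
  rwa [zero_sub] at h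

private theorem KosN_add {n : ℕ} {u v : Lim T (ZMod p)} (hu : FL T n u) (hv : FL T n v) :
    FL T n (u + v) := by
  have h := FL.sub T hu (KosN_neg T hv)
  rwa [sub_neg_eq_add] at h

/-- the additive subgroup of the elements of the step `n` of the filtration -/
private def KosN_grp (n : ℕ) : AddSubgroup (Lim T (ZMod p)) where
  carrier := {u | FL T n u}
  add_mem' := fun hu hv => KosN_add T hu hv
  zero_mem' := KosN_zero T n
  neg_mem' := fun hu => KosN_neg T hu

private theorem KosN_vb (j : Fin d) : FL T 1 (vb T j) := fl_evL T (isHomogeneous_X _ j)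

private theorem KosN_kos (i : ℕ) (J : Cb d i) (I : Cb d (i + 1)) :
    FL T 1 (kos (vb T) i J I) := by
  unfold kos
  refine FL.sum T fun j _ => ?_
  split_ifs
  · have h := fl_mul T (fl_zero T (ksg (Lim T (ZMod p)) j J.1)) (KosN_vb T j)
    rwa [zero_add] at h
  · exact KosN_zero T 1

private theorem KosN_kk (i : ℕ) (J : Cb d i) (K : Cb d (i + 1 + 1)) :
    FL T 3 ((kos (vb T) i * kos (vb T) (i + 1)) J K) :=
  kos_kos (vb T) i (KosN_grp T 3) (fun j l => comm_fl T j l) J K

/-- the vector `D' κ` is in the third step of the filtration -/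
private theorem KosN_three (i : ℕ) {D : Matrix (Cb d i) (Cb d (i + 1)) (Lim T (ZMod p))}
    (hD : Kap T i D) (J : Cb d i) (K : Cb d (i + 1 + 1)) :
    FL T 3 (D.mulVec (fun I => kos (vb T) (i + 1) I K) J) := by
  have h1 : D.mulVec (fun I => kos (vb T) (i + 1) I K) J =
      (∑ I : Cb d (i + 1), (D J I - kos (vb T) i J I) * kos (vb T) (i + 1) I K) +
        (kos (vb T) i * kos (vb T) (i + 1)) J K := by
    rw [Matrix.mul_apply, ← Finset.sum_add_distrib]
    simp only [Matrix.mulVec, dotProduct]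
    refine Finset.sum_congr rfl fun I _ => ?_
    rw [← add_mul, sub_add_cancel]
  rw [h1]
  refine KosN_add T (FL.sum T fun I _ => ?_) (KosN_kk T i J K)
  exact fl_mul T (m := 2) (n := 1) (hD J I) (KosN_kos T (i + 1) I K)

theorem next_zero : ∃ D' : Matrix (Cb d (0 + 1)) (Cb d (0 + 1 + 1)) (Lim T (ZMod p)),
    Kap T (0 + 1) D' ∧ kos (vb T) 0 * D' = 0 := by
  have hK : Kap T 0 (kos (vb T) 0) := by
    intro J I
    rw [sub_self]
    exact KosN_zero T 2
  have h : ∀ K : Cb d (0 + 1 + 1), ∃ x : Cb d (0 + 1) → Lim T (ZMod p), (∀ I, FL T 2 (x I)) ∧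
      (kos (vb T) 0).mulVec (fun I => kos (vb T) (0 + 1) I K) = (kos (vb T) 0).mulVec x :=
    fun K => str_zero T hK 2 _ fun J => KosN_three T 0 hK J K
  choose z hz hz' using h
  refine ⟨fun I K => kos (vb T) (0 + 1) I K - z K I, ?_, ?_⟩
  · intro I K
    have h2 : kos (vb T) (0 + 1) I K - z K I - kos (vb T) (0 + 1) I K = -(z K I) := by abel
    rw [h2]
    exact KosN_neg T (hz K I)
  · ext1 J K
    have h3 := congrFun (hz' K) J
    rw [Matrix.mul_apply]
    have h4 : ∑ I, kos (vb T) 0 J I * (kos (vb T) (0 + 1) I K - z K I) =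
        (kos (vb T) 0).mulVec (fun I => kos (vb T) (0 + 1) I K) J -
          (kos (vb T) 0).mulVec (z K) J := by
      simp only [Matrix.mulVec, dotProduct, mul_sub, Finset.sum_sub_distrib]
    rw [h4, h3, sub_self]
    rfl

theorem next_succ (i : ℕ) {D : Matrix (Cb d i) (Cb d (i + 1)) (Lim T (ZMod p))}
    {D' : Matrix (Cb d (i + 1)) (Cb d (i + 1 + 1)) (Lim T (ZMod p))} (hD : Kap T i D)
    (hD' : Kap T (i + 1) D') (h0 : D * D' = 0) :
    ∃ D'' : Matrix (Cb d (i + 1 + 1)) (Cb d (i + 1 + 1 + 1)) (Lim T (ZMod p)),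
      Kap T (i + 1 + 1) D'' ∧ D' * D'' = 0 := by
  have h : ∀ K : Cb d (i + 1 + 1 + 1), ∃ x : Cb d (i + 1 + 1) → Lim T (ZMod p),
      (∀ I, FL T (3 - 1) (x I)) ∧
      D'.mulVec (fun I => kos (vb T) (i + 1 + 1) I K) = D'.mulVec x := by
    intro K
    refine str_succ T i hD hD' h0 3 _ (fun J => KosN_three T (i + 1) hD' J K) ?_
    rw [Matrix.mulVec_mulVec, h0, Matrix.zero_mulVec]
  choose z hz hz' using h
  refine ⟨fun I K => kos (vb T) (i + 1 + 1) I K - z K I, ?_, ?_⟩
  · intro I K
    have h2 : kos (vb T) (i + 1 + 1) I K - z K I - kos (vb T) (i + 1 + 1) I K = -(z K I) := by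
      abel
    rw [h2]
    exact KosN_neg T (hz K I)
  · ext1 J K
    have h3 := congrFun (hz' K) J
    rw [Matrix.mul_apply]
    have h4 : ∑ I, D' J I * (kos (vb T) (i + 1 + 1) I K - z K I) =
        D'.mulVec (fun I => kos (vb T) (i + 1 + 1) I K) J - D'.mulVec (z K) J := by
      simp only [Matrix.mulVec, dotProduct, mul_sub, Finset.sum_sub_distrib]
    rw [h4, h3, sub_self]
    rfl

/-- two consecutive matrices of the resolution -/
private structure KosN_pair (i : ℕ) where
  D : Matrix (Cb d i) (Cb d (i + 1)) (Lim T (ZMod p))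
  D' : Matrix (Cb d (i + 1)) (Cb d (i + 1 + 1)) (Lim T (ZMod p))
  hD : Kap T i D
  hD' : Kap T (i + 1) D'
  h0 : D * D' = 0

private def KosN_step (i : ℕ) (s : KosN_pair T i) : KosN_pair T (i + 1) where
  D := s.D'
  D' := (next_succ T i s.hD s.hD' s.h0).choose
  hD := s.hD'
  hD' := (next_succ T i s.hD s.hD' s.h0).choose_spec.1
  h0 := (next_succ T i s.hD s.hD' s.h0).choose_spec.2

private def KosN_init : KosN_pair T 0 where
  D := kos (vb T) 0
  D' := (next_zero T).choose
  hD := by
    intro J I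
    rw [sub_self]
    exact KosN_zero T 2
  hD' := (next_zero T).choose_spec.1
  h0 := (next_zero T).choose_spec.2

private def KosN_seq : ∀ i, KosN_pair T i
  | 0 => KosN_init T
  | i + 1 => KosN_step T i (KosN_seq i)

/-- the Koszul resolution of the trivial module by free right modules -/
theorem koszul : ∃ D : ∀ i, Matrix (Cb d i) (Cb d (i + 1)) (Lim T (ZMod p)),
    (∀ i, D i * D (i + 1) = 0) ∧
    (∀ i (y : Cb d (i + 1) → Lim T (ZMod p)), (D i).mulVec y = 0 →
      ∃ x : Cb d (i + 1 + 1) → Lim T (ZMod p), y = (D (i + 1)).mulVec x) ∧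
    (∀ y : Cb d 0 → Lim T (ZMod p), (∀ J, FL T 1 (y J)) →
      ∃ x : Cb d (0 + 1) → Lim T (ZMod p), y = (D 0).mulVec x) ∧
    ∀ J I, FL T 1 (D 0 J I) := by
  have hs : ∀ i, (KosN_seq T (i + 1)).D = (KosN_seq T i).D' := fun _ => rfl
  refine ⟨fun i => (KosN_seq T i).D, fun i => ?_, fun i y hy => ?_, fun y hy => ?_, ?_⟩
  · show (KosN_seq T i).D * (KosN_seq T (i + 1)).D = 0
    rw [hs i]
    exact (KosN_seq T i).h0
  · obtain ⟨x, -, hx⟩ := str_succ T i (KosN_seq T i).hD (KosN_seq T i).hD' (KosN_seq T i).h0 0 y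
      (fun I => fl_zero T (y I)) hy
    exact ⟨x, hx⟩
  · obtain ⟨x, -, hx⟩ := str_zero T (KosN_seq T 0).hD 0 y (fun I => by
      rw [zero_add]
      exact hy I)
    exact ⟨x, hx⟩
  · intro J I
    exact KosN_kos T 0 J I

end Pool.Agent.MCG
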