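import Pool.Agent.MCG.Cx

set_option autoImplicit false
set_option linter.unusedSectionVars false

noncomputable section

/-!
PACKAGE MCG-LAM. (1.6) of the page. `π : F → P` a homomorphism to a finite group, `g` an automorphism
of
`F`, `gb` the induced automorphism of `P`, `gb ^ p = 1`; `α : P → Z/p` a homomorphism which vanishes
on the
fixed points of `gb`. Let `lam : (ZMod p → P) → ZMod p`, `lam t = α y` if there are `f : P`, `y : P`
with
`t j = (gb ^ j.val)⁻¹ f * y` for all `j`, and `0` otherwise. Well defined: if also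
`t j = (gb ^ j.val)⁻¹ f' * y'` then `h = f'⁻¹ * f` satisfies `(gb ^ j.val)⁻¹ h = y' * y⁻¹` for all
`j`;
`j = 0`, `j = 1` (`ZMod.val_one`, `p ≥ 2`) give `gb h = h`, so `α h = 0` and `α y' = α y`.
`lam (io gb f * t) = lam t`; `lam (sh i t) = lam t` (it is enough to prove it for `i = 1`, or
directly:
`(gb ^ (j - i).val)⁻¹ f = (gb ^ j.val)⁻¹ (gb ^ i.val f)` because `gb ^ p = 1`).
`Λ` is the linear map with `Λ (single z c) = c * lam (fun j => π (z j))`.
The last property: `tens (fun _ => a) = ∑ z, ∏ j (a (z j)) • single z 1` over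
`z ∈ Fintype.piFinset _`,
so `Λ (tens ..) = ∑ z, G z`, `G z = ∏ j a (z j) * lam (π ∘ z)`, and `G (sh i z) = G z`. The shift
group
`Multiplicative (ZMod p)` (a `p`-group) acts on this finite set, the sum over an orbit which is not
a point is
`0` in `ZMod p`, so the sum is the sum over the fixed points, which are the constant tuples
(for example by `Finset.sum_involution`-like arguments, or a lemma: for a permutation `τ` of order
dividing `p`
of a finite set and a `τ`-invariant function with values in `ZMod p`, the sum is the sum over the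
fixed
points); `G (const f) = (a f) ^ p * α (π f) = a f * α (π f)` (`ZMod.pow_card`;
`lam (const y) = α y` with `f = 1`).
-/

namespace Pool.Agent.MCG

open MonoidAlgebra Pool.Agent.Lvl

variable {p : ℕ} [hp : Fact p.Prime]

private theorem sum_free_Lam {X : Type} [DecidableEq X] (T : Finset X) (G : X → ZMod p)
    (τ : ZMod p → X → X) (h0 : ∀ x, τ 0 x = x) (hadd : ∀ i j x, τ (i + j) x = τ i (τ j x))
    (hT : ∀ i, ∀ x ∈ T, τ i x ∈ T) (hG : ∀ i x, G (τ i x) = G x)
    (hfree : ∀ x ∈ T, ∃ i, τ i x ≠ x) : ∑ x ∈ T, G x = 0 := by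
  classical
  have hc : ∀ c : ZMod p, ((T.filter fun x => G x = c).card : ZMod p) = 0 := by
    intro c
    let _ : MulAction (Multiplicative (ZMod p)) {x // x ∈ T.filter fun x => G x = c} :=
      { smul := fun i x => ⟨τ i.toAdd x.1, by
          have h1 := Finset.mem_filter.1 x.2
          exact Finset.mem_filter.2 ⟨hT _ _ h1.1, by rw [hG]; exact h1.2⟩⟩
        one_smul := fun x => Subtype.ext (h0 x.1)
        mul_smul := fun i j x => Subtype.ext (hadd i.toAdd j.toAdd x.1) }
    have hp1 : IsPGroup p (Multiplicative (ZMod p)) :=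
      IsPGroup.of_card (n := 1) (by
        rw [pow_one, Nat.card_eq_fintype_card, Fintype.card_multiplicative, ZMod.card])
    have h1 := hp1.card_modEq_card_fixedPoints {x // x ∈ T.filter fun x => G x = c}
    have h2 : IsEmpty (MulAction.fixedPoints (Multiplicative (ZMod p))
        {x // x ∈ T.filter fun x => G x = c}) := by
      refine ⟨fun x => ?_⟩
      obtain ⟨i, hi⟩ := hfree x.1.1 (Finset.mem_filter.1 x.1.2).1
      exact hi (congrArg Subtype.val (x.2 (Multiplicative.ofAdd i)))
    rw [Nat.card_of_isEmpty (α := MulAction.fixedPoints (Multiplicative (ZMod p))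
      {x // x ∈ T.filter fun x => G x = c}), Nat.card_eq_fintype_card, Fintype.card_coe] at h1
    exact (ZMod.natCast_eq_zero_iff _ _).2 ((Nat.modEq_zero_iff_dvd).1 h1)
  rw [← Finset.sum_fiberwise T G]
  refine Finset.sum_eq_zero fun c _ => ?_
  rw [Finset.sum_congr rfl fun x hx => (Finset.mem_filter.1 hx).2, Finset.sum_const, nsmul_eq_mul,
    hc, zero_mul]

section

variable {P : Type} [Group P] (gb : MulAut P) (α : P →* Multiplicative (ZMod p))

/-- `t` is `(f y, gb⁻¹ f y, …)` for some `f` -/
private def QQ_Lam (t : ZMod p → P) (y : P) : Prop := ∃ f, ∀ j : ZMod p, t j = (gb ^ j.val)⁻¹ f * y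

open scoped Classical in
private def pick_Lam (R : P → Prop) : ZMod p :=
  if h : ∃ y, R y then (α h.choose).toAdd else 0

private def lam_Lam (t : ZMod p → P) : ZMod p := pick_Lam α (QQ_Lam gb t)

private theorem lam_congr_Lam {t t' : ZMod p → P} (h : ∀ y, QQ_Lam gb t y ↔ QQ_Lam gb t' y) :
    lam_Lam gb α t = lam_Lam gb α t' := by
  have h1 : QQ_Lam gb t = QQ_Lam gb t' := funext fun y => propext (h y)
  unfold lam_Lam
  rw [h1]

private theorem lam_eq_Lam (hα : ∀ y, gb y = y → α y = 1) {t : ZMod p → P} {y : P}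
    (h : QQ_Lam gb t y) : lam_Lam gb α t = (α y).toAdd := by
  have h1 : ∃ y, QQ_Lam gb t y := ⟨y, h⟩
  unfold lam_Lam pick_Lam
  rw [dif_pos h1]
  obtain ⟨f, hf⟩ := h
  obtain ⟨f', hf'⟩ := h1.choose_spec
  have hp2 : 1 < p := hp.out.one_lt
  have : Fact (1 < p) := ⟨hp2⟩
  have e0 := (hf 0).symm.trans (hf' 0)
  have e1 := (hf 1).symm.trans (hf' 1)
  rw [ZMod.val_zero, pow_zero, inv_one, MulAut.one_apply, MulAut.one_apply] at e0
  rw [ZMod.val_one, pow_one] at e1
  have k0 : f'⁻¹ * f = h1.choose * y⁻¹ := by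
    rw [inv_mul_eq_iff_eq_mul, ← mul_assoc, eq_mul_inv_iff_mul_eq]
    exact e0
  have k1 : gb⁻¹ (f'⁻¹ * f) = h1.choose * y⁻¹ := by
    rw [map_mul, map_inv, inv_mul_eq_iff_eq_mul, ← mul_assoc, eq_mul_inv_iff_mul_eq]
    exact e1
  have k2 : gb (h1.choose * y⁻¹) = h1.choose * y⁻¹ := by
    conv_lhs => rw [← k1]
    rw [MulAut.apply_inv_self, k0]
  have k3 := hα _ k2
  rw [map_mul, map_inv, mul_inv_eq_one] at k3
  rw [k3]

private theorem pow_val_Lam (hp1 : gb ^ p = 1) (i j : ZMod p) :
    gb ^ (i + j).val = gb ^ i.val * gb ^ j.val := by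
  rw [ZMod.val_add, ← pow_add]
  conv_rhs => rw [← Nat.mod_add_div (i.val + j.val) p, pow_add, pow_mul, hp1, one_pow, mul_one]

private theorem lam_io_Lam (f : P) (t : ZMod p → P) :
    lam_Lam gb α (fun j => (gb ^ j.val)⁻¹ f * t j) = lam_Lam gb α t := by
  refine lam_congr_Lam gb α fun y => ⟨?_, ?_⟩
  · rintro ⟨f', hf'⟩
    refine ⟨f⁻¹ * f', fun j => ?_⟩
    rw [map_mul, map_inv, mul_assoc, ← hf' j, inv_mul_cancel_left]
  · rintro ⟨f', hf'⟩
    refine ⟨f * f', fun j => ?_⟩
    show (gb ^ j.val)⁻¹ f * t j = _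
    rw [hf' j, map_mul, mul_assoc]

private theorem lam_sh_Lam (hp1 : gb ^ p = 1) (i : ZMod p) (t : ZMod p → P) :
    lam_Lam gb α (fun j => t (j - i)) = lam_Lam gb α t := by
  have key : ∀ (t : ZMod p → P) (i : ZMod p) (y : P), QQ_Lam gb t y →
      QQ_Lam gb (fun j => t (j - i)) y := by
    rintro t i y ⟨f, hf⟩
    refine ⟨(gb ^ i.val) f, fun j => ?_⟩
    show t (j - i) = _
    rw [hf (j - i)]
    congr 1
    have h1 := pow_val_Lam gb hp1 i (j - i)
    rw [add_sub_cancel] at h1
    rw [h1, mul_inv_rev, MulAut.mul_apply, MulAut.inv_apply_self]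
  refine lam_congr_Lam gb α fun y => ⟨fun h => ?_, key t i y⟩
  have h1 := key _ (-i) y h
  simpa only [sub_neg_eq_add, add_sub_cancel_right] using h1

end

theorem exists_lam {F P : Type} [Group F] [Group P] [Finite P] (π : F →* P) (g : MulAut F)
    (gb : MulAut P) (hg : ∀ f, π (g f) = gb (π f)) (hp1 : gb ^ p = 1)
    (α : P →* Multiplicative (ZMod p)) (hα : ∀ y, gb y = y → α y = 1) :
    ∃ Λ : BB p F →ₗ[ZMod p] ZMod p,
      (∀ f z, Λ (single (io g f) 1 * z) = Λ z) ∧
      (∀ i z, Λ (sg i z) = Λ z) ∧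
      (∀ z, mapDomainRingHom (ZMod p) (MonoidHom.pi fun j => π.comp (Pi.evalMonoidHom
        (fun _ : ZMod p => F) j)) z = 0 → Λ z = 0) ∧
      ∀ a : MonoidAlgebra (ZMod p) F, Λ (tens fun _ => a) =
        a.coeff.sum fun f c => c * (α (π f)).toAdd := by
  classical
  have hfin : Fintype P := Fintype.ofFinite P
  -- the functional on the group algebra of `P ^ p`
  let LP : BB p P →ₗ[ZMod p] ZMod p :=
    (Finsupp.linearCombination (ZMod p) (lam_Lam gb α)).comp
      (MonoidAlgebra.coeffLinearEquiv (ZMod p)).toLinearMap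
  have hLP : ∀ (t : ZMod p → P) (c : ZMod p), LP (single t c) = c * lam_Lam gb α t := by
    intro t c
    have h : (MonoidAlgebra.coeffLinearEquiv (ZMod p)).toLinearMap
        (single t c : BB p P) = Finsupp.single t c := rfl
    show (Finsupp.linearCombination (ZMod p) (lam_Lam gb α))
      ((MonoidAlgebra.coeffLinearEquiv (ZMod p)).toLinearMap (single t c)) = _
    rw [h, Finsupp.linearCombination_single, smul_eq_mul]
  let πp : (ZMod p → F) →* (ZMod p → P) := MonoidHom.pi fun j => π.comp (Pi.evalMonoidHom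
        (fun _ : ZMod p => F) j)
  let Λ : BB p F →ₗ[ZMod p] ZMod p :=
    LP.comp (mapDomainAlgHom (ZMod p) (ZMod p) πp).toLinearMap
  have hΛ : ∀ (t : ZMod p → F) (c : ZMod p),
      Λ (single t c) = c * lam_Lam gb α (fun j => π (t j)) := by
    intro t c
    show LP (mapDomainRingHom (ZMod p) πp (single t c)) = _
    have h : mapDomainRingHom (ZMod p) πp (single t c) = single (πp t) c := mapDomain_single
    rw [h, hLP]
    rfl
  have hpi : ∀ (n : ℕ) (f : F), π ((g ^ n)⁻¹ f) = (gb ^ n)⁻¹ (π f) := by
    have h1 : ∀ (n : ℕ) (f : F), π ((g ^ n) f) = (gb ^ n) (π f) := by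
      intro n
      induction n with
      | zero => intro f; rfl
      | succ n ih =>
        intro f
        rw [pow_succ, MulAut.mul_apply, ih, hg, pow_succ, MulAut.mul_apply]
    intro n f
    have h2 := h1 n ((g ^ n)⁻¹ f)
    rw [MulAut.apply_inv_self] at h2
    rw [h2, MulAut.inv_apply_self]
  refine ⟨Λ, fun f z => ?_, fun i z => ?_, fun z hz => ?_, fun a => ?_⟩
  · induction z using MonoidAlgebra.induction_linear with
    | zero => rw [mul_zero]
    | add a b ha hb => rw [mul_add, map_add, map_add, ha, hb]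
    | single t r =>
      rw [single_mul_single, one_mul, hΛ, hΛ]
      congr 1
      have h1 : (fun j => π ((io g f * t : ZMod p → F) j)) =
          fun j : ZMod p => (gb ^ j.val)⁻¹ (π f) * π (t j) := by
        funext j
        show π ((g ^ j.val)⁻¹ f * t j) = _
        rw [map_mul, hpi]
      rw [h1, lam_io_Lam]
  · induction z using MonoidAlgebra.induction_linear with
    | zero => rw [map_zero]
    | add a b ha hb => rw [map_add, map_add, map_add, ha, hb]
    | single t r =>
      have h1 : sg i (single t r) = single (sh i t) r := mapDomain_single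
      rw [h1, hΛ, hΛ]
      congr 1
      exact lam_sh_Lam gb α hp1 i fun j => π (t j)
  · show LP (mapDomainRingHom (ZMod p) πp z) = 0
    rw [hz, map_zero]
  · unfold tens
    rw [map_sum, Finset.sum_congr rfl fun z _ => hΛ z _]
    -- the sum over the tuples which are not constant is zero
    rw [← Finset.sum_filter_add_sum_filter_not _ (fun z : ZMod p → F => ∀ i, sh i z = z)]
    have h0 : ∑ z ∈ (Fintype.piFinset fun _ : ZMod p => a.coeff.support).filter
        (fun z : ZMod p → F => ¬ ∀ i, sh i z = z),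
        (∏ j, a.coeff (z j)) * lam_Lam gb α (fun j => π (z j)) = 0 := by
      refine sum_free_Lam _ (fun z : ZMod p → F => (∏ j, a.coeff (z j)) *
        lam_Lam gb α (fun j => π (z j))) (fun i z => sh i z) (fun z => ?_) (fun i j z => ?_)
        (fun i z hz => ?_) (fun i z => ?_) (fun z hz => ?_)
      · funext j
        show z (j - 0) = z j
        rw [sub_zero]
      · funext k
        show z (k - (i + j)) = z (k - i - j)
        rw [sub_sub]
      · obtain ⟨h1, h2⟩ := Finset.mem_filter.1 hz
        refine Finset.mem_filter.2 ⟨Fintype.mem_piFinset.2 fun j =>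
          Fintype.mem_piFinset.1 h1 (j - i), fun h3 => h2 fun k => ?_⟩
        have h4 : ∀ k j, z (j - k - i) = z (j - i) := fun k j => by
          have := congrFun (h3 k) j
          exact this
        funext j
        show z (j - k) = z j
        have h5 := h4 k (j + i)
        rw [add_sub_right_comm, add_sub_cancel_right, add_sub_cancel_right] at h5
        exact h5
      · congr 1
        · exact Fintype.prod_equiv (Equiv.subRight i) _ _ fun j => rfl
        · exact lam_sh_Lam gb α hp1 i fun j => π (z j)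
      · have h2 := (Finset.mem_filter.1 hz).2
        push Not at h2
        exact h2
    rw [h0, add_zero]
    unfold Finsupp.sum
    symm
    refine Finset.sum_bij (fun f _ => fun _ : ZMod p => f) (fun f hf => ?_) (fun f _ f' _ h => ?_)
      (fun z hz => ?_) (fun f hf => ?_)
    · exact Finset.mem_filter.2 ⟨Fintype.mem_piFinset.2 fun _ => hf, fun i => rfl⟩
    · exact congrFun h 0
    · obtain ⟨h1, h2⟩ := Finset.mem_filter.1 hz
      refine ⟨z 0, Fintype.mem_piFinset.1 h1 0, ?_⟩
      funext j
      have h3 := congrFun (h2 j) j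
      have h4 : z (j - j) = z j := h3
      rw [sub_self] at h4
      exact h4
    · rw [Finset.prod_const, Finset.card_univ, ZMod.card, ZMod.pow_card,
        lam_eq_Lam gb α hα (t := fun _ => π f) (y := π f) ⟨1, fun j => ?_⟩]
      rw [map_one, one_mul]

end Pool.Agent.MCG
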