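import Mathlib

set_option autoImplicit false
set_option linter.unusedSectionVars false

noncomputable section

open Classical

/-!
The integral representation given by a lattice in a rational representation.
-/

namespace Pool.Agent.MCG

variable {G : Type} [Group G]

private def latAct {V : Type} [AddCommGroup V] [Module ℚ V]
    (ρ : G →* Module.End ℚ V) (Λ : AddSubgroup V) (h : ∀ g, ∀ x ∈ Λ, ρ g x ∈ Λ) :
    G →* Module.End ℤ Λ where
  toFun g :=
    { toFun := fun x => ⟨ρ g x, h g x x.2⟩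
      map_add' := fun x y => Subtype.ext (by simp)
      map_smul' := fun n x => Subtype.ext (by simp) }
  map_one' := by
    ext x
    simp
  map_mul' g g' := by
    ext x
    simp

theorem lattice_rep {V : Type} [AddCommGroup V] [Module ℚ V]
    (ρ : G →* Module.End ℚ V) (Λ : AddSubgroup V) (hfg : Λ.FG)
    (hmem : ∀ g, ∀ x ∈ Λ, ρ g x ∈ Λ) :
    ∃ (N : ℕ) (f : G →* Matrix (Fin N) (Fin N) ℤ),
      (∀ g, f g = 1 → ∀ x ∈ Λ, ρ g x = x) ∧
      ∀ (n : ℕ) (g : G), (∀ i j, (n : ℤ) ∣ (f g - 1) i j) ↔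
        ∀ x ∈ Λ, ∃ y ∈ Λ, ρ g x = x + n • y := by
  have hfin : Module.Finite ℤ Λ := by
    have h1 : Module.Finite ℤ (AddSubgroup.toIntSubmodule Λ) :=
      Module.Finite.iff_fg.2 ((Submodule.fg_iff_addSubgroup_fg _).2 hfg)
    exact h1
  have htf : Module.IsTorsionFree ℤ V := Module.IsTorsionFree.trans ℚ
  have htf2 : Module.IsTorsionFree ℤ (AddSubgroup.toIntSubmodule Λ) := inferInstance
  have htf3 : Module.IsTorsionFree ℤ Λ := htf2
  have hfree : Module.Free ℤ Λ := Module.free_of_finite_type_torsion_free'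
  set b := Module.finBasis ℤ Λ with hb
  let f0 : G →* Matrix (Fin (Module.finrank ℤ Λ)) (Fin (Module.finrank ℤ Λ)) ℤ :=
    { toFun := fun g => LinearMap.toMatrixAlgEquiv b (latAct ρ Λ hmem g)
      map_one' := by rw [map_one, map_one]
      map_mul' := fun g g' => by rw [map_mul, map_mul] }
  have hval : ∀ g (x : Λ), ((latAct ρ Λ hmem g x : Λ) : V) = ρ g x := fun g x => rfl
  refine ⟨_, f0, fun g hg x hx => ?_, fun n g => ⟨fun hd x hx => ?_, fun hd i j => ?_⟩⟩
  · have h2 : latAct ρ Λ hmem g = 1 := by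
      apply (LinearMap.toMatrixAlgEquiv b).injective
      rw [map_one]
      exact hg
    exact congrArg Subtype.val (LinearMap.congr_fun h2 ⟨x, hx⟩)
  · choose X hX using hd
    have h2 : latAct ρ Λ hmem g = 1 + (n : ℤ) • (LinearMap.toMatrixAlgEquiv b).symm X := by
      apply (LinearMap.toMatrixAlgEquiv b).injective
      rw [map_add, map_one, map_smul, AlgEquiv.apply_symm_apply]
      ext i j
      have h3 := hX i j
      rw [Matrix.sub_apply] at h3
      rw [Matrix.add_apply, Matrix.smul_apply, smul_eq_mul, ← h3]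
      show f0 g i j = _
      ring
    have h3 := congrArg Subtype.val (LinearMap.congr_fun h2 ⟨x, hx⟩)
    rw [hval] at h3
    refine ⟨((LinearMap.toMatrixAlgEquiv b).symm X ⟨x, hx⟩ : Λ), SetLike.coe_mem _, ?_⟩
    rw [h3]
    simp
  · have h1 : ∀ i, ∃ y : Λ, latAct ρ Λ hmem g (b i) = b i + (n : ℤ) • y := by
      intro i
      obtain ⟨y, hy, h1⟩ := hd (b i) (b i).2
      refine ⟨⟨y, hy⟩, Subtype.ext ?_⟩
      rw [hval, h1]
      simp
    choose y hy using h1
    have h2 : latAct ρ Λ hmem g = 1 + (n : ℤ) • b.constr ℤ y := by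
      apply b.ext
      intro i
      rw [hy i]
      simp
    have h3 : f0 g = 1 + (n : ℤ) • LinearMap.toMatrixAlgEquiv b (b.constr ℤ y) := by
      show LinearMap.toMatrixAlgEquiv b (latAct ρ Λ hmem g) = _
      rw [h2, map_add, map_one, map_smul]
    rw [h3, add_sub_cancel_left, Matrix.smul_apply, smul_eq_mul]
    exact dvd_mul_right _ _

end Pool.Agent.MCG
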