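import Pool.Agent.MCG.Main
import Pool.Agent.Lvl.OddR

set_option autoImplicit false
set_option linter.unusedSectionVars false

noncomputable section

/-!
Level subgroups and stabilizers: one theorem, prime by prime. It contains `Lvl.levels_res` (level
subgroups) and `MCG.atiyah_fix` (mapping class groups of surfaces with boundary).
-/

namespace Pool.Agent.MCG

open Pool.Agent.VN Pool.Agent.Lvl

/-- `H` is a free group, and `S` fixes every element of a set `W ⊆ [H, H]` such that no nonzero
vector over the field with `q` elements is in the left radical of all forms `coef w`, `w ∈ W`: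
`coef w x y` is the coefficient of `X_x X_y` in the Magnus expansion of `w`. For example `H` has the
basis `a_1, b_1, ..., a_g, b_g` and `S` fixes the product of the commutators `[a_i, b_i]`. -/
def FixAt (H : Type) [Group H] (q : ℕ) (S : Subgroup (MulAut H)) : Prop :=
  ∃ (n : ℕ) (e : H ≃* FreeGroup (Fin n)) (W : Set H),
    NondegAt q (e '' W) ∧ ∀ φ ∈ S, ∀ w ∈ W, φ w = w

/-- Let `L m` be the level `m` subgroup of `Q`. For every subgroup `G` of `Q` (every group `G` with
an injective homomorphism `f : G → Q`) let `G[m]` be the preimage of `L m`. The index `[G : G[m]]` is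
finite for all `m ≥ 3`. If for every prime `q ≤ N + 1` there is a subgroup `K` of `G` of finite index
prime to `q` such that `K ≤ G[m]` for some `m ≥ 3` or `S q K`, then `G` satisfies the strong Atiyah
conjecture over `ℂ`. In general the von Neumann dimensions `kerDim A` of the kernels of all matrices
`A` over `ℂG` lie in `(1/[G : G[m]]) ℤ` for all `m ≥ 3`, and in `(1/mink N) ℤ`. -/
def Bounds {Q : Type} [Group Q] (L : ℕ → Subgroup Q) (S : ℕ → Subgroup Q → Prop) (N : ℕ) :
    Prop :=
  ∀ (G : Type) [Group G] (f : G →* Q), Function.Injective f →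
    (∀ m : ℕ, 3 ≤ m → ((L m).comap f).FiniteIndex) ∧
    ((∀ q : ℕ, q.Prime → q ≤ N + 1 → ∃ K : Subgroup G, K.FiniteIndex ∧ ¬ q ∣ K.index ∧
        ((∃ m : ℕ, 3 ≤ m ∧ K.map f ≤ L m) ∨ S q (K.map f))) → AtiyahOver ⊤ G) ∧
    ∀ (r n : ℕ) (A : Matrix (Fin r) (Fin n) (G →₀ ℂ)),
      (∀ m : ℕ, 3 ≤ m → ∃ z : ℤ, (((L m).comap f).index : ℝ) * kerDim A = z) ∧
        ∃ z : ℤ, (mink N : ℝ) * kerDim A = z

theorem not_dvd_mink {N q : ℕ} (hq : q.Prime) (h : N + 1 < q) : ¬ q ∣ mink N := by
  have := Fact.mk hq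
  have h1 := mink_val hq N
  rw [mexp_eq_zero hq h, padicValNat.eq_zero_iff] at h1
  rcases h1 with h1 | h1 | h1
  · exact absurd h1 hq.one_lt.ne'
  · exact absurd h1 (mink_ne_zero N)
  · exact h1

/-- a subgroup of a subgroup -/
theorem sub_sub {G : Type} [Group G] {q : ℕ} (hq : q.Prime) (K : Subgroup G) (hK : K.FiniteIndex)
    (hKq : ¬ q ∣ K.index)
    (h : ∃ M : Subgroup K, M.index ≠ 0 ∧ ¬ q ∣ M.index ∧ AtiyahOver ⊤ M) :
    ∃ M : Subgroup G, M.index ≠ 0 ∧ ¬ q ∣ M.index ∧ AtiyahOver ⊤ M := by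
  obtain ⟨M, h0, h1, h2⟩ := h
  refine ⟨M.map K.subtype, ?_, ?_, ?_⟩
  · rw [Subgroup.index_map_subtype]
    exact mul_ne_zero h0 hK.index_ne_zero
  · rw [Subgroup.index_map_subtype, hq.dvd_mul]
    push Not
    exact ⟨h1, hKq⟩
  · let e := M.equivMapOfInjective K.subtype K.subtype_injective
    exact h2.of_injective e.symm.toMonoidHom e.symm.injective

theorem exists_of_fixAt {H : Type} [Group H] {q : ℕ} (hq : q.Prime) {K : Type} [Group K]
    (f : K →* MulAut H) (hf : Function.Injective f) (h : FixAt H q f.range) :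
    ∃ M : Subgroup K, M.index ≠ 0 ∧ ¬ q ∣ M.index ∧ AtiyahOver ⊤ M := by
  have := Fact.mk hq
  obtain ⟨n, e, W, hW, hfix⟩ := h
  refine exists_sub hW ((MulAut.congr e).toMonoidHom.comp f)
    ((MulAut.congr e).injective.comp hf) ?_
  rintro g _ ⟨w, hw, rfl⟩
  show e (f g (e.symm (e w))) = e w
  rw [e.symm_apply_apply, hfix (f g) ⟨g, rfl⟩ w hw]

theorem bounds_of {Q : Type} [Group Q] {L : ℕ → Subgroup Q} {S : ℕ → Subgroup Q → Prop} {N : ℕ}
    (h : LevelBounds L N) (hS : ∀ q : ℕ, q.Prime → ∀ (K : Type) [Group K] (f : K →* Q),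
      Function.Injective f → S q f.range →
        ∃ M : Subgroup K, M.index ≠ 0 ∧ ¬ q ∣ M.index ∧ AtiyahOver ⊤ M) : Bounds L S N := by
  intro G _ f hf
  obtain ⟨h1, -, h3⟩ := h G f hf
  refine ⟨h1, fun hG r n A _ => ?_, h3⟩
  refine int_of_index fun q hq => ?_
  by_cases hqN : q ≤ N + 1
  · obtain ⟨K, hK, hKq, hKS⟩ := hG q hq hqN
    obtain ⟨M, hM0, hMq, hM⟩ := sub_sub hq K hK hKq (by
      have hr : (f.comp K.subtype).range = K.map f := by
        rw [MonoidHom.range_comp, Subgroup.range_subtype]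
      rcases hKS with ⟨m, hm, hKm⟩ | hKS
      · refine ⟨⊤, ?_, ?_, ?_⟩
        · rw [Subgroup.index_top]
          exact one_ne_zero
        · rw [Subgroup.index_top]
          exact fun h => hq.one_lt.ne' (Nat.dvd_one.1 h)
        · have h4 := (h K (f.comp K.subtype) (hf.comp K.subtype_injective)).2.1
            fun p hp _ => ⟨m, hm, by
              have h5 : (L m).comap (f.comp K.subtype) = ⊤ := by
                rw [eq_top_iff]
                intro g _
                exact hKm ⟨g, g.2, rfl⟩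
              rw [h5, Subgroup.index_top]
              exact fun h => hp.one_lt.ne' (Nat.dvd_one.1 h)⟩
          exact h4.of_injective (⊤ : Subgroup K).subtype (Subgroup.subtype_injective _)
      · exact hS q hq K (f.comp K.subtype) (hf.comp K.subtype_injective) (by rwa [hr]))
    exact ⟨M.index, hM0, hMq, index_kerDim M hM A⟩
  · exact ⟨mink N, mink_ne_zero N, not_dvd_mink hq (by omega), (h3 r n A).2⟩

/-- The main theorem. -/
theorem levels_fix :
    (∀ (H : Type) [Group H] (N : ℕ), RTFN H N → Bounds (level H) (FixAt H) N) ∧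
    ∀ (H : Type) [Group H] (N : ℕ), SurfN H N →
      Bounds (level H) (FixAt H) N ∧ Bounds (outLevel H) (fun _ _ => False) N :=
  ⟨fun _ _ _ h => bounds_of h.bounds fun _ hq _ _ f hf h => exists_of_fixAt hq f hf h,
    fun _ _ _ h => ⟨bounds_of (levels_all h).1 fun _ hq _ _ f hf h => exists_of_fixAt hq f hf h,
      bounds_of (levels_all h).2 fun _ _ _ _ _ _ h => h.elim⟩⟩

end Pool.Agent.MCG
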