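import Pool.Agent.MCG.RegRed

set_option autoImplicit false
set_option linter.unusedSectionVars false

noncomputable section

/-!
PACKAGE MCG-LIFTFREE. Lifting of freeness from `A = lim F_p[P k]` to `L = lim ℤ_p[P k]`.

`K ≤ L ^ n` is saturated (`p • z ∈ K → z ∈ K`), its reduction is `K1 ≤ A ^ n` (every element of
`K` reduces into `K1`, every element of `K1` is the reduction of an element of `K`), and
`K1 ≃ A ^ m`. Then `K ≃ L ^ m`.

Let `v j ∈ K1` be the basis, `y j ∈ K` with `redv (y j) = v j`,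
`Φ : L ^ m → K`, `c ↦ ∑ c j • y j`.
* injective: let `∑ c j • y j = 0`, `c ≠ 0`. There are `s`, `c'` with `c = p ^ s • c'` and
  `redv c' ≠ 0` (as in `Pool.Agent.Lvl.exists_unit_part`: otherwise `c ∈ p ^ n L ^ m` for all `n`
  by `redv_eq_zero`, `lsep`). `p ^ s • ∑ c' j • y j = 0`, so `∑ c' j • y j = 0` (`p_torsion`), reduce:
  `∑ red (c' j) • v j = 0`, so `redv c' = 0` (basis), contradiction.
* surjective: for `y ∈ K` there are `c` and `y' ∈ K` with `y = ∑ c j • y j + p • y'`: `redv y =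
  ∑ a j • v j`, `a = redv c`, `redv (y - ∑ c j • y j) = 0`, so it is `p • y'`, `y' ∈ K`
  (saturated). Iterate: `y = ∑ j, (∑ r < N, p ^ r * c r j) • y j + p ^ N • y N`. `lcomp` gives
  `C j` with `C j - ∑ r < N, p ^ r * c r j ∈ p ^ N L`; `y - ∑ C j • y j` is in `p ^ N L ^ n` for all
  `N`, so it is zero (`lsep`). See `noeth_lift` in `Lvl/Lift.lean` for the same argument.
-/

namespace Pool.Agent.MCG

open Pool.Agent.Lvl

variable {p q d : ℕ} [hp : Fact p.Prime] (T : Tower p q d)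

private theorem lf_redv_sum {n m : ℕ} (c : Fin m → Lim T ℤ_[p])
    (y : Fin m → Fin n → Lim T ℤ_[p]) :
    redv T (∑ j, c j • y j) = ∑ j, red T (c j) • redv T (y j) := by
  funext i
  simp only [redv, Finset.sum_apply, Pi.smul_apply, smul_eq_mul, map_sum, map_mul]

private theorem lf_redv_sub {n : ℕ} (y z : Fin n → Lim T ℤ_[p]) :
    redv T (y - z) = redv T y - redv T z := by
  funext i
  simp only [redv, Pi.sub_apply, map_sub]

private theorem lf_unit_part {m : ℕ} (c : Fin m → Lim T ℤ_[p]) (hc : c ≠ 0) :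
    ∃ (s : ℕ) (c' : Fin m → Lim T ℤ_[p]), c = (((p : ℕ) : Lim T ℤ_[p]) ^ s) • c' ∧
      redv T c' ≠ 0 := by
  by_contra hcon
  push Not at hcon
  have h1 : ∀ n : ℕ, ∃ c' : Fin m → Lim T ℤ_[p], c = (((p : ℕ) : Lim T ℤ_[p]) ^ n) • c' := by
    intro n
    induction n with
    | zero => exact ⟨c, by rw [pow_zero, one_smul]⟩
    | succ n ih =>
      obtain ⟨y, hy⟩ := ih
      obtain ⟨y', rfl⟩ := redv_eq_zero T (hcon n y hy)
      exact ⟨y', by rw [hy, pow_succ, mul_smul]⟩
  refine hc (funext fun i => lsep T fun n => ?_)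
  obtain ⟨c', hc'⟩ := h1 n
  exact ⟨c' i, by conv_lhs => rw [hc']
                  rfl⟩

private theorem lf_pow_torsion {n : ℕ} (s : ℕ) (z : Fin n → Lim T ℤ_[p])
    (h : (((p : ℕ) : Lim T ℤ_[p]) ^ s) • z = 0) : z = 0 := by
  funext i
  have h1 : ((p : ℕ) : Lim T ℤ_[p]) ^ s * z i = 0 := congrFun h i
  have h2 : ∀ (s : ℕ) (x : Lim T ℤ_[p]), ((p : ℕ) : Lim T ℤ_[p]) ^ s * x = 0 → x = 0 := by
    intro s
    induction s with
    | zero => intro x hx; rwa [pow_zero, one_mul] at hx
    | succ s ih =>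
      intro x hx
      rw [pow_succ', mul_assoc] at hx
      exact ih x (p_torsion T hx)
  exact h2 s _ h1

private theorem lf_comm (s : ℕ) (x : Lim T ℤ_[p]) :
    ((p : ℕ) : Lim T ℤ_[p]) ^ s * x = x * ((p : ℕ) : Lim T ℤ_[p]) ^ s :=
  ((Nat.cast_commute p x).pow_left s).eq

theorem lift_free {n : ℕ} (K : Submodule (Lim T ℤ_[p]) (Fin n → Lim T ℤ_[p]))
    (hsat : ∀ z, ((p : ℕ) : Lim T ℤ_[p]) • z ∈ K → z ∈ K)
    (K1 : Submodule (Lim T (ZMod p)) (Fin n → Lim T (ZMod p)))
    (h1 : ∀ y ∈ K, redv T y ∈ K1) (h2 : ∀ v ∈ K1, ∃ y ∈ K, redv T y = v) {m : ℕ}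
    (e : K1 ≃ₗ[Lim T (ZMod p)] (Fin m → Lim T (ZMod p))) :
    Nonempty (K ≃ₗ[Lim T ℤ_[p]] (Fin m → Lim T ℤ_[p])) := by
  classical
  -- the basis of `K1`
  set v : Fin m → K1 := fun j => e.symm (Pi.single j 1) with hv
  have hrep : ∀ w : K1, w = ∑ j, e w j • v j := by
    intro w
    apply e.injective
    rw [map_sum]
    funext i
    simp only [hv, map_smul, LinearEquiv.apply_symm_apply, Finset.sum_apply, Pi.smul_apply,
      Pi.single_apply, smul_eq_mul, mul_ite, mul_one, mul_zero, Finset.sum_ite_eq,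
      Finset.mem_univ, if_true]
  have hind : ∀ a : Fin m → Lim T (ZMod p), ∑ j, a j • v j = 0 → a = 0 := by
    intro a ha
    have h3 := congrArg e ha
    rw [map_sum, map_zero] at h3
    rw [← h3]
    funext i
    simp only [hv, map_smul, LinearEquiv.apply_symm_apply, Finset.sum_apply, Pi.smul_apply,
      Pi.single_apply, smul_eq_mul, mul_ite, mul_one, mul_zero, Finset.sum_ite_eq,
      Finset.mem_univ, if_true]
  choose y hyK hy using fun j => h2 (v j : Fin n → Lim T (ZMod p)) (v j).2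
  have hyj : ∀ c : Fin m → Lim T ℤ_[p], redv T (∑ j, c j • y j) =
      ((∑ j, red T (c j) • v j : K1) : Fin n → Lim T (ZMod p)) := by
    intro c
    rw [lf_redv_sum, Submodule.coe_sum]
    refine Finset.sum_congr rfl fun j _ => ?_
    rw [hy j, Submodule.coe_smul]
  let Φ : (Fin m → Lim T ℤ_[p]) →ₗ[Lim T ℤ_[p]] K :=
    Fintype.linearCombination (Lim T ℤ_[p]) (fun j => (⟨y j, hyK j⟩ : K))
  have hΦ : ∀ c, ((Φ c : K) : Fin n → Lim T ℤ_[p]) = ∑ j, c j • y j := by
    intro c
    simp only [Φ, Fintype.linearCombination_apply, Submodule.coe_sum, Submodule.coe_smul]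
  have hinj : Function.Injective Φ := by
    rw [injective_iff_map_eq_zero]
    intro c hc
    by_contra hne
    obtain ⟨s, c', rfl, hc'⟩ := lf_unit_part T c hne
    rw [map_smul] at hc
    have h3 := congrArg (fun z : K => (z : Fin n → Lim T ℤ_[p])) hc
    simp only [Submodule.coe_smul, Submodule.coe_zero] at h3
    have h4 := lf_pow_torsion T s _ h3
    rw [hΦ] at h4
    have h5 := hyj c'
    rw [h4] at h5
    have h6 : (∑ j, red T (c' j) • v j : K1) = 0 := by
      apply Subtype.ext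
      rw [← h5]
      funext i
      simp only [redv, Pi.zero_apply, map_zero, Submodule.coe_zero]
    exact hc' (hind _ h6)
  have hsurj : Function.Surjective Φ := by
    -- one step
    have step : ∀ w : K, ∃ (c : Fin m → Lim T ℤ_[p]) (w' : K),
        (w : Fin n → Lim T ℤ_[p]) - ∑ j, c j • y j = ((p : ℕ) : Lim T ℤ_[p]) • (w' : _) := by
      intro w
      obtain ⟨c, hc⟩ := redv_surj T (e ⟨redv T w, h1 w w.2⟩)
      have h3 : redv T ((w : Fin n → Lim T ℤ_[p]) - ∑ j, c j • y j) = 0 := by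
        rw [lf_redv_sub, hyj, sub_eq_zero]
        have h4 := congrArg (fun z : K1 => (z : Fin n → Lim T (ZMod p)))
          (hrep ⟨redv T w, h1 w w.2⟩)
        simp only at h4
        rw [h4]
        have h5 : ∀ j, red T (c j) = e ⟨redv T w, h1 w w.2⟩ j := fun j => congrFun hc j
        simp only [h5]
      obtain ⟨z, hz⟩ := redv_eq_zero T h3
      refine ⟨c, ⟨z, hsat z ?_⟩, hz⟩
      rw [← hz]
      exact K.sub_mem w.2 (K.sum_mem fun j _ => K.smul_mem _ (hyK j))
    choose c nxt hstep using step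
    intro w
    let Y : ℕ → K := fun r => Nat.rec w (fun _ z => nxt z) r
    have hsum : ∀ N, (w : Fin n → Lim T ℤ_[p]) -
        ∑ j, (∑ r ∈ Finset.range N, ((p : ℕ) : Lim T ℤ_[p]) ^ r * c (Y r) j) • y j =
          (((p : ℕ) : Lim T ℤ_[p]) ^ N) • (Y N).1 := by
      intro N
      induction N with
      | zero => simp [Y]
      | succ N ih =>
        have h3 : ∑ j, (∑ r ∈ Finset.range (N + 1), ((p : ℕ) : Lim T ℤ_[p]) ^ r *
              c (Y r) j) • y j =
            ∑ j, (∑ r ∈ Finset.range N, ((p : ℕ) : Lim T ℤ_[p]) ^ r * c (Y r) j) • y j +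
              (((p : ℕ) : Lim T ℤ_[p]) ^ N) • ∑ j, c (Y N) j • y j := by
          rw [Finset.smul_sum, ← Finset.sum_add_distrib]
          refine Finset.sum_congr rfl fun j _ => ?_
          rw [Finset.sum_range_succ, add_smul, mul_smul]
        rw [h3, ← sub_sub, ih, ← smul_sub, hstep (Y N), pow_succ, mul_smul]
    choose C hC using fun j => lcomp T fun r => c (Y r) j
    choose D hD using hC
    refine ⟨C, Subtype.ext ?_⟩
    rw [hΦ]
    symm
    rw [← sub_eq_zero]
    funext i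
    refine lsep T fun N => ⟨(Y N).1 i - ∑ j, D j N * y j i, ?_⟩
    have h3 := congrFun (hsum N) i
    simp only [Pi.sub_apply, Finset.sum_apply, Pi.smul_apply, smul_eq_mul] at h3 ⊢
    rw [mul_sub, ← h3, Finset.mul_sum, sub_sub, ← Finset.sum_add_distrib]
    congr 1
    refine Finset.sum_congr rfl fun j _ => ?_
    rw [← mul_assoc, ← hD j N, ← add_mul, add_sub_cancel]
  exact ⟨(LinearEquiv.ofBijective Φ ⟨hinj, hsurj⟩).symm⟩

end Pool.Agent.MCG
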