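import Pool.Agent.Lvl.LimZ

set_option autoImplicit false
set_option linter.unusedSectionVars false

noncomputable section

/-!
PACKAGE MCG-LOCL. The ring `L1 = lim F_p[P k]` is local: `u` is a unit if it is not in `FL 1`.

* `fl_mono`: `Fil` is decreasing (`fil_le`).
* `isUnit_of_not_fl`: let `¬ FL T 1 u`. The symbol `lf T 0 u` is homogeneous of degree `0`, a constant
  `C c`, `c ≠ 0` (`fl_zero`, `fl_succ`). Let `c' = evL T (C c⁻¹)` (`lf_evL`, `fl_evL`), then
  `n = 1 - c' * u` has symbol `lf 0 = 0`, so `FL 1 n`. So `FL N (n ^ N)` (`fl_mul`), and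
  `1 - (∑ i < N, n ^ i) * (1 - n) = n ^ N` (`geom_sum_mul`..). `exists_of_approx` (with
  `ι = Unit`, `m = c' * u`) gives `z` with `1 = z * (c' * u)`. So `u` has a left inverse `w`;
  `w * u = 1` gives `u * w = 1` because `(u * w - 1) * u = 0` and `L1` has no zero divisors,
  `u ≠ 0`.
* `fl_sep`: an element which is in all `FL N` is zero (`exists_lf`, or: `exists_fil_eq_bot`).
-/

namespace Pool.Agent.MCG

open Pool.Agent.Lvl MvPolynomial

variable {p q d : ℕ} [hp : Fact p.Prime] (T : Tower p q d)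

theorem fl_mono {m n : ℕ} (h : m ≤ n) {u : Lim T (ZMod p)} (hu : FL T n u) : FL T m u :=
  fun k => fil_le h (hu k)

theorem fl_sep {u : Lim T (ZMod p)} (hu : ∀ N, FL T N u) : u = 0 := by
  by_contra h
  apply h
  apply Subtype.ext
  funext k
  obtain ⟨N, hN⟩ := exists_fil_eq_bot (isPGroup_P T k)
  have h1 := hu N k
  rw [hN, Submodule.mem_bot] at h1
  exact h1

private theorem fl_pow {n : Lim T (ZMod p)} (hn : FL T 1 n) (N : ℕ) : FL T N (n ^ N) := by
  induction N with
  | zero => exact fl_zero T _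
  | succ N ih =>
    rw [pow_succ]
    exact fl_mul T ih hn

theorem isUnit_of_not_fl {u : Lim T (ZMod p)} (hu : ¬ FL T 1 u) : IsUnit u := by
  have hf0 : lf T 0 u ≠ 0 := fun h => hu (fl_succ T (fl_zero T u) h)
  have hC : lf T 0 u = C ((lf T 0 u).coeff 0) :=
    totalDegree_eq_zero_iff_eq_C.1 ((lf_isHomogeneous T 0 u).totalDegree hf0)
  set a : ZMod p := (lf T 0 u).coeff 0 with ha
  have ha0 : a ≠ 0 := by
    intro h
    apply hf0
    rw [hC, h, map_zero]
  have hg : (C a⁻¹ : MvPolynomial (Fin d) (ZMod p)).IsHomogeneous 0 := isHomogeneous_C _ _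
  have h1 : lf T 0 (1 : Lim T (ZMod p)) = 1 := by
    have h2 := lf_mul T (fl_zero T (1 : Lim T (ZMod p))) (fl_zero T u)
    rw [one_mul, add_zero] at h2
    have h3 : (lf T 0 (1 : Lim T (ZMod p)) - 1) * lf T 0 u = 0 := by
      rw [sub_mul, ← h2, one_mul, sub_self]
    rcases mul_eq_zero.1 h3 with h4 | h4
    · exact sub_eq_zero.1 h4
    · exact absurd h4 hf0
  have h2 : lf T 0 (evL T (C a⁻¹) * u) = 1 := by
    have h3 := lf_mul T (fl_zero T (evL T (C a⁻¹))) (fl_zero T u)
    rw [add_zero, lf_evL T hg, hC, ← C_mul, inv_mul_cancel₀ ha0, C_1] at h3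
    exact h3
  have hn : FL T 1 (1 - evL T (C a⁻¹) * u) := by
    refine fl_succ T (fl_zero T _) ?_
    rw [lf_sub, h1, h2, sub_self]
  obtain ⟨z, hz⟩ := exists_of_approx T (fun _ : Unit => evL T (C a⁻¹) * u) 1 (by
    intro N
    refine ⟨fun _ => ∑ i ∈ Finset.range N, (1 - evL T (C a⁻¹) * u) ^ i, ?_⟩
    have h3 : (∑ i ∈ Finset.range N, (1 - evL T (C a⁻¹) * u) ^ i) * (evL T (C a⁻¹) * u) =
        1 - (1 - evL T (C a⁻¹) * u) ^ N := by
      have h4 := geom_sum_mul_neg (1 - evL T (C a⁻¹) * u) N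
      rw [sub_sub_cancel] at h4
      exact h4
    rw [Fintype.sum_unique]
    rw [h3, sub_sub_cancel]
    exact fl_pow T hn N)
  rw [Fintype.sum_unique] at hz
  have hwu : (z default * evL T (C a⁻¹)) * u = 1 := by
    rw [mul_assoc]
    exact hz.symm
  have hu0 : u ≠ 0 := by
    rintro rfl
    rw [mul_zero] at hwu
    exact zero_ne_one hwu
  have huw : u * (z default * evL T (C a⁻¹)) = 1 := by
    have h3 : (u * (z default * evL T (C a⁻¹)) - 1) * u = 0 := by
      rw [sub_mul, mul_assoc, hwu, mul_one, one_mul, sub_self]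
    rcases mul_eq_zero.1 h3 with h4 | h4
    · exact sub_eq_zero.1 h4
    · exact absurd h4 hu0
  exact ⟨⟨u, _, huw, hwu⟩, rfl⟩

end Pool.Agent.MCG
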