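import Pool.Agent.MCG.Defs

set_option autoImplicit false
set_option linter.unusedSectionVars false

noncomputable section

open Classical

/-!
The property `NT` passes to subgroups and to finite powers.
-/

namespace Pool.Agent.MCG

open Matrix

variable {p q : ℕ} {G G' : Type} [Group G] [Group G']

theorem NT.of_injective (h : NT p q G) (φ : G' →* G) (hφ : Function.Injective φ) : NT p q G' := by
  intro E hE
  obtain ⟨N, f, ha, ⟨M, hM⟩, hc⟩ := h (E.image φ) (by
    intro g hg
    obtain ⟨e, he, rfl⟩ := Finset.mem_image.1 hg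
    intro h1
    exact hE e he (hφ (h1.trans (map_one φ).symm)))
  refine ⟨N, f.comp φ, fun g => ha (φ g), ⟨M, fun g => hM (φ g)⟩, fun g hg => ?_⟩
  exact hc (φ g) (Finset.mem_image_of_mem φ hg)

/-- divisibility of all entries of `A - 1` -/
private lemma dvd_iff {n : Type} [Fintype n] [DecidableEq n] (d : ℤ) (A : Matrix n n ℤ) :
    (∀ i j, d ∣ (A - 1) i j) ↔ (Int.castRingHom (ZMod d.natAbs)).mapMatrix A = 1 := by
  have key : ∀ z : ℤ, d ∣ z ↔ ((z : ℤ) : ZMod d.natAbs) = 0 := fun z => by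
    rw [ZMod.intCast_zmod_eq_zero_iff_dvd, Int.natCast_natAbs, abs_dvd]
  constructor
  · intro h
    ext i j
    have h1 := (key _).1 (h i j)
    rw [Matrix.sub_apply, Int.cast_sub, sub_eq_zero] at h1
    rw [RingHom.mapMatrix_apply, Matrix.map_apply]
    show ((A i j : ℤ) : ZMod d.natAbs) = _
    rw [h1, Matrix.one_apply, Matrix.one_apply]
    split_ifs <;> simp
  · intro h i j
    rw [key, Matrix.sub_apply, Int.cast_sub, sub_eq_zero]
    have h1 := congrFun (congrFun h i) j
    rw [RingHom.mapMatrix_apply, Matrix.map_apply] at h1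
    have h2 : ((A i j : ℤ) : ZMod d.natAbs) = (1 : Matrix n n (ZMod d.natAbs)) i j := h1
    rw [h2, Matrix.one_apply, Matrix.one_apply]
    split_ifs <;> simp

private lemma dvd_pow_step {n : Type} [Fintype n] [DecidableEq n] (d : ℤ) (A : Matrix n n ℤ)
    (h : ∀ i j, d ∣ (A - 1) i j) (k : ℕ) : ∀ i j, d ∣ (A ^ k - 1) i j := by
  rw [dvd_iff] at h ⊢
  rw [map_pow, h, one_pow]

/-- block sums -/
private def blk {m N : ℕ} (f : G →* Matrix (Fin N) (Fin N) ℤ) :
    (Fin m → G) →* Matrix (Fin (N * m)) (Fin (N * m)) ℤ :=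
  ((Matrix.reindexAlgEquiv ℤ ℤ (finProdFinEquiv (m := N) (n := m))).toRingEquiv.toRingHom :
    Matrix (Fin N × Fin m) (Fin N × Fin m) ℤ →* Matrix (Fin (N * m)) (Fin (N * m)) ℤ).comp
  (((Matrix.blockDiagonalRingHom (Fin N) (Fin m) ℤ :
    (Fin m → Matrix (Fin N) (Fin N) ℤ) →+* _) : (Fin m → Matrix (Fin N) (Fin N) ℤ) →* _).comp
  (MonoidHom.pi fun i => f.comp (Pi.evalMonoidHom (fun _ : Fin m => G) i)))

private lemma blk_apply {m N : ℕ} (f : G →* Matrix (Fin N) (Fin N) ℤ) (u : Fin m → G)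
    (x y : Fin (N * m)) : blk f u x y =
      if (finProdFinEquiv.symm x).2 = (finProdFinEquiv.symm y).2 then
        f (u (finProdFinEquiv.symm x).2) (finProdFinEquiv.symm x).1 (finProdFinEquiv.symm y).1
      else 0 := by
  show Matrix.blockDiagonal (fun i => f (u i)) (finProdFinEquiv.symm x)
    (finProdFinEquiv.symm y) = _
  rw [Matrix.blockDiagonal_apply]

private lemma blk_sub {m N : ℕ} (f : G →* Matrix (Fin N) (Fin N) ℤ) (u : Fin m → G) (d : ℤ) :
    (∀ x y, d ∣ (blk f u - 1) x y) ↔ ∀ i x y, d ∣ (f (u i) - 1) x y := by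
  constructor
  · intro h i x y
    have h1 := h (finProdFinEquiv (x, i)) (finProdFinEquiv (y, i))
    rw [Matrix.sub_apply, blk_apply] at h1
    simp only [Equiv.symm_apply_apply, if_true] at h1
    rw [Matrix.sub_apply]
    convert h1 using 2
    rw [Matrix.one_apply, Matrix.one_apply]
    refine if_congr ?_ rfl rfl
    rw [finProdFinEquiv.injective.eq_iff, Prod.mk.injEq]
    simp
  · intro h x y
    rw [Matrix.sub_apply, blk_apply]
    by_cases h1 : (finProdFinEquiv.symm x).2 = (finProdFinEquiv.symm y).2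
    · rw [if_pos h1]
      have h2 := h (finProdFinEquiv.symm x).2 (finProdFinEquiv.symm x).1 (finProdFinEquiv.symm y).1
      rw [Matrix.sub_apply] at h2
      convert h2 using 2
      rw [Matrix.one_apply, Matrix.one_apply]
      refine if_congr ?_ rfl rfl
      rw [← finProdFinEquiv.symm.injective.eq_iff, Prod.ext_iff]
      exact and_iff_left h1
    · rw [if_neg h1, Matrix.one_apply_ne, sub_zero]
      · exact dvd_zero _
      · intro h2
        exact h1 (by rw [h2])

theorem NT.pi (h : NT p q G) (m : ℕ) : NT p q (Fin m → G) := by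
  intro E hE
  obtain ⟨N, f, ha, ⟨M, hM⟩, hc⟩ := h
    ((E.biUnion fun u => Finset.univ.image u).filter fun g => g ≠ 1)
    (fun g hg => (Finset.mem_filter.1 hg).2)
  refine ⟨N * m, blk f, fun u => ?_, ⟨M, fun u hu => ?_⟩, fun u hu h1 => ?_⟩
  · choose a ha' using fun i => ha (u i)
    refine ⟨∑ i, a i, ?_⟩
    rw [← map_pow, blk_sub]
    intro i
    have h1 : a i ≤ ∑ i, a i := Finset.single_le_sum (fun _ _ => Nat.zero_le _) (Finset.mem_univ i)
    obtain ⟨b, hb⟩ := Nat.exists_eq_add_of_le h1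
    rw [Pi.pow_apply, hb, pow_add, pow_mul, map_pow, map_pow]
    exact dvd_pow_step _ _ (ha' i) _
  · rw [← map_pow, blk_sub] at hu
    rw [blk_sub]
    intro i
    refine hM (u i) ?_
    rw [← map_pow]
    exact hu i
  · have h2 : ∃ i, u i ≠ 1 := by
      by_contra hcon
      push Not at hcon
      exact hE u hu (funext hcon)
    obtain ⟨i, hi⟩ := h2
    refine hc (u i) (Finset.mem_filter.2 ⟨Finset.mem_biUnion.2 ⟨u, hu,
      Finset.mem_image_of_mem _ (Finset.mem_univ i)⟩, hi⟩) ?_
    have h3 := (blk_sub f u 0).1 (fun x y => by rw [h1]; simp) i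
    ext x y
    have h4 := h3 x y
    rw [zero_dvd_iff, Matrix.sub_apply, sub_eq_zero] at h4
    exact h4

end Pool.Agent.MCG
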