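import Mathlib

set_option autoImplicit false

/-!
Preimages of Sylow subgroups.
-/

namespace Pool.Agent.MCG

theorem exists_sylow_comap {G A : Type} [Group G] [Group A] [Finite A] (θ : G →* A) (p : ℕ)
    [hp : Fact p.Prime] :
    ∃ K : Subgroup G, K.index ≠ 0 ∧ ¬ p ∣ K.index ∧ ∀ g ∈ K, ∃ a : ℕ, θ g ^ p ^ a = 1 := by
  obtain ⟨P⟩ : Nonempty (Sylow p θ.range) := inferInstance
  have h1 : ((P : Subgroup θ.range).comap θ.rangeRestrict).index =
      (P : Subgroup θ.range).index :=
    Subgroup.index_comap_of_surjective _ θ.rangeRestrict_surjective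
  refine ⟨(P : Subgroup θ.range).comap θ.rangeRestrict, ?_, ?_, fun g hg => ?_⟩
  · rw [h1]
    exact Subgroup.index_ne_zero_of_finite
  · rw [h1]
    exact P.not_dvd_index
  · obtain ⟨a, ha⟩ := P.isPGroup' ⟨θ.rangeRestrict g, hg⟩
    refine ⟨a, ?_⟩
    have h2 := congrArg (fun u : (P : Subgroup θ.range) => ((u : θ.range) : A)) ha
    simpa using h2

end Pool.Agent.MCG
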