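import Pool.Agent.Lvl.Dens

set_option autoImplicit false
set_option linter.unusedSectionVars false

noncomputable section

/-!
MCG (MP_95030e), part 2: finite extensions of towers (definitions).

`T` is a tower (finite `p`-groups `P k`, `Pool.Agent.Lvl.Tower`); an extension `XT T G` consists of
finite `p`-groups `Q k` with compatible surjections from `G` and with `P k ≤ Q k` normal,
the preimage of `P k` in `Q (k + 1)` being `P (k + 1)`; at some level all elements of order `p` of
`Q k` lie in `P k`.
-/

namespace Pool.Agent.MCG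

open MonoidAlgebra Pool.Agent.Lvl

/-- a finite extension of a tower without new `p`-torsion, with a dense homomorphism from `G` -/
structure XT {p q d : ℕ} (T : Tower p q d) (G : Type) [Group G] where
  Q : ℕ → Type
  [grp : ∀ k, Group (Q k)]
  [fin : ∀ k, Fintype (Q k)]
  pr : ∀ k, Q (k + 1) →* Q k
  e : ∀ k, G →* Q k
  e_surj : ∀ k, Function.Surjective (e k)
  e_pr : ∀ k g, pr k (e (k + 1) g) = e k g
  j : ∀ k, T.P k →* Q k
  j_inj : ∀ k, Function.Injective (j k)
  j_pr : ∀ k u, pr k (j (k + 1) u) = j k (T.pr k u)
  j_ker : ∀ k z, pr k z ∈ (j k).range → z ∈ (j (k + 1)).range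
  j_normal : ∀ k, (j k).range.Normal
  pgroup : ∀ k, IsPGroup p (Q k)
  nt : ∃ k, ∀ z : Q k, z ^ p = 1 → z ∈ (j k).range

attribute [instance] XT.grp XT.fin

variable {p q d : ℕ} {T : Tower p q d} {G : Type} [Group G]

/-- the inverse limit of the group rings `R[Q k]` -/
def LimQ (X : XT T G) (R : Type) [CommRing R] : Subring (∀ k, MonoidAlgebra R (X.Q k)) where
  carrier := {a | ∀ k, mapDomainRingHom R (X.pr k) (a (k + 1)) = a k}
  mul_mem' := by
    intro a b ha hb k
    rw [Pi.mul_apply, map_mul, ha k, hb k, Pi.mul_apply]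
  one_mem' := by
    intro k
    rw [Pi.one_apply, map_one, Pi.one_apply]
  add_mem' := by
    intro a b ha hb k
    rw [Pi.add_apply, map_add, ha k, hb k, Pi.add_apply]
  zero_mem' := by
    intro k
    rw [Pi.zero_apply, map_zero, Pi.zero_apply]
  neg_mem' := by
    intro a ha k
    rw [Pi.neg_apply, map_neg, ha k, Pi.neg_apply]

/-- the inclusion of the limit of the group rings of the tower -/
def inc (X : XT T G) (R : Type) [CommRing R] : Lim T R →+* LimQ X R where
  toFun b := ⟨fun k => mapDomainRingHom R (X.j k) (b.1 k), fun k => by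
    have h1 : (X.pr k).comp (X.j (k + 1)) = (X.j k).comp (T.pr k) :=
      MonoidHom.ext fun u => X.j_pr k u
    have h2 : mapDomainRingHom R (T.pr k) (b.1 (k + 1)) = b.1 k := b.2 k
    have h3 : (mapDomainRingHom R (X.pr k)).comp (mapDomainRingHom R (X.j (k + 1))) =
        (mapDomainRingHom R (X.j k)).comp (mapDomainRingHom R (T.pr k)) := by
      rw [← mapDomainRingHom_comp, ← mapDomainRingHom_comp, h1]
    exact (DFunLike.congr_fun h3 (b.1 (k + 1))).trans (congrArg (mapDomainRingHom R (X.j k)) h2)⟩
  map_one' := Subtype.ext (funext fun k => map_one _)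
  map_mul' a b := Subtype.ext (funext fun k => map_mul _ _ _)
  map_zero' := Subtype.ext (funext fun k => map_zero _)
  map_add' a b := Subtype.ext (funext fun k => map_add _ _ _)

lemma inc_apply (X : XT T G) (R : Type) [CommRing R] (b : Lim T R) (k : ℕ) :
    (inc X R b).1 k = mapDomainRingHom R (X.j k) (b.1 k) := rfl

/-- the group elements in the limit of the group rings -/
def elQ (X : XT T G) (R : Type) [CommRing R] : G →* LimQ X R where
  toFun g := ⟨fun k => single (X.e k g) 1, fun k => by
    show mapDomainRingHom R (X.pr k) (single (X.e (k + 1) g) 1) = _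
    rw [mapDomainRingHom_apply, mapDomain_single, X.e_pr]⟩
  map_one' := Subtype.ext (funext fun k => by
    show single (X.e k 1) (1 : R) = 1
    rw [map_one, one_def])
  map_mul' a b := Subtype.ext (funext fun k => by
    show single (X.e k (a * b)) (1 : R) = single (X.e k a) 1 * single (X.e k b) 1
    rw [map_mul, single_mul_single, one_mul])

lemma elQ_apply (X : XT T G) (R : Type) [CommRing R] (g : G) (k : ℕ) :
    (elQ X R g).1 k = single (X.e k g) 1 := rfl

/-- representatives of the quotient -/
def rp (X : XT T G) : X.Q 0 → G := Function.surjInv (X.e_surj 0)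

lemma e_rp (X : XT T G) (x : X.Q 0) : X.e 0 (rp X x) = x := Function.surjInv_eq (X.e_surj 0) x

end Pool.Agent.MCG
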