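import Pool.Agent.MCG.TowC
import Pool.Agent.MCG.XT

set_option autoImplicit false
set_option linter.unusedSectionVars false

noncomputable section

/-!
MCG, part T. The extension of the tower of a chain by the finite quotients of the group.
-/

namespace Pool.Agent.MCG

open Pool.Agent.Lvl

namespace Chain

variable {p s d : ℕ} {G : Type} [Group G] (C : Chain p s d G)

instance norU (k : ℕ) : (C.U k).Normal := C.nor k

instance fiU (k : ℕ) : (C.U k).FiniteIndex := C.fi k

/-- the inclusion of the groups of the tower in the finite quotients of `G` -/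
def jj (k : ℕ) : C.P k →* G ⧸ C.U k :=
  QuotientGroup.map ((C.U k).subgroupOf (C.U 0)) (C.U k) (C.U 0).subtype (le_refl _)

theorem jj_prj (k : ℕ) (u : ↥(C.U 0)) : C.jj k (C.prj k u) = ((u : G) : G ⧸ C.U k) := rfl

theorem mem_range_jj (k : ℕ) (g : G) : (g : G ⧸ C.U k) ∈ (C.jj k).range ↔ g ∈ C.U 0 := by
  constructor
  · rintro ⟨z, hz⟩
    obtain ⟨u, rfl⟩ := C.prj_surj k z
    rw [jj_prj, QuotientGroup.eq] at hz
    have h1 := (C.U 0).mul_mem u.2 (C.anti (Nat.zero_le k) hz)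
    rwa [mul_inv_cancel_left] at h1
  · intro h
    exact ⟨C.prj k ⟨g, h⟩, rfl⟩

theorem jj_inj (k : ℕ) : Function.Injective (C.jj k) := by
  rw [injective_iff_map_eq_one]
  intro z hz
  obtain ⟨u, rfl⟩ := C.prj_surj k z
  rw [jj_prj, QuotientGroup.eq_one_iff] at hz
  exact C.prj_eq_one.2 hz

/-- the extension of the tower of a chain -/
def xt [hp : Fact p.Prime] (hpg : ∀ k, IsPGroup p (G ⧸ C.U k))
    (hnt : ∃ k, ∀ g : G, g ^ p ∈ C.U k → g ∈ C.U 0) : XT C.tower G where
  Q k := G ⧸ C.U k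
  grp k := inferInstance
  fin k := Fintype.ofFinite _
  pr k := QuotientGroup.map (C.U (k + 1)) (C.U k) (MonoidHom.id G) (C.le k)
  e k := QuotientGroup.mk' (C.U k)
  e_surj k := QuotientGroup.mk'_surjective _
  e_pr k g := rfl
  j k := C.jj k
  j_inj k := C.jj_inj k
  j_pr k u := by
    obtain ⟨u, rfl⟩ := C.prj_surj (k + 1) u
    rfl
  j_ker k z := by
    obtain ⟨g, rfl⟩ := QuotientGroup.mk_surjective z
    intro h
    exact (C.mem_range_jj (k + 1) g).2 ((C.mem_range_jj k g).1 h)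
  j_normal k := by
    constructor
    intro z hz y
    obtain ⟨g, rfl⟩ := QuotientGroup.mk_surjective z
    obtain ⟨h, rfl⟩ := QuotientGroup.mk_surjective y
    have h1 := (C.mem_range_jj k g).1 hz
    exact (C.mem_range_jj k (h * g * h⁻¹)).2 ((C.nor 0).conj_mem g h1 h)
  pgroup k := hpg k
  nt := by
    obtain ⟨k, hk⟩ := hnt
    refine ⟨k, fun z hz => ?_⟩
    obtain ⟨g, rfl⟩ := QuotientGroup.mk_surjective z
    refine (C.mem_range_jj k g).2 (hk g ?_)
    have h1 : ((g ^ p : G) : G ⧸ C.U k) = 1 := hz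
    exact (QuotientGroup.eq_one_iff _).1 h1

theorem xt_e [Fact p.Prime] (hpg : ∀ k, IsPGroup p (G ⧸ C.U k))
    (hnt : ∃ k, ∀ g : G, g ^ p ∈ C.U k → g ∈ C.U 0) (k : ℕ) (g : G) :
    (C.xt hpg hnt).e k g = 1 ↔ g ∈ C.U k := QuotientGroup.eq_one_iff _

end Chain

end Pool.Agent.MCG
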