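import Pool.Agent.MCG.XC
import Pool.Agent.Lvl.ThmA

set_option autoImplicit false
set_option linter.unusedSectionVars false

noncomputable section

open Classical

/-!
PACKAGE MCG-XM. The models `Q k` of the group `G` and the matrices over `lim ℤ_p[Q k]` of the lists.

This is a copy of the corresponding part of `Pool/Agent/Lvl/ThmA.lean` (`mdl`, `mdl_smul`, `el`, `matL`,
`term_eq`, `lmL_matL`, `finrank_kX`) with `T.P k`, `F.f k`, `Lim T ℤ_[p]`, `lmL`, `rho` replaced by
`X.Q k`, `X.e k`, `LimQ X ℤ_[p]`, `lmQ`, `rhoQ`.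
-/

namespace Pool.Agent.MCG

open MonoidAlgebra Pool.Agent.Lvl Filter Topology Module

open Pool.Agent.AH (LQ mX kX sz pw sf Intg)

variable {p q d : ℕ} [hp : Fact p.Prime] {T : Tower p q d} {G : Type} [Group G] (X : XT T G)

/-- the model of the level `k` -/
def mdlQ (k : ℕ) : AH.Mod G where
  X := X.Q k
  fin := X.fin k
  act := MulAction.compHom (X.Q k) ((X.e k).comp (pw G))
  ne := ⟨(1 : X.Q k)⟩

lemma mdlQ_smul (k : ℕ) (w : FreeGroup G) (x : X.Q k) :
    (w • (show (mdlQ X k).X from x) : (mdlQ X k).X) = (X.e k (pw G w) * x : X.Q k) := rfl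

variable {ι κ : Type} [Fintype ι] [Fintype κ]

/-- the matrix of an integral list (numerators of the coefficients) -/
def matQ (L : LQ κ ι (FreeGroup G)) : Matrix κ ι (LimQ X ℤ_[p]) := fun j i =>
  (L.map fun t => if j = t.2.1 ∧ i = t.2.2.1 then
    ((t.1.num : ℤ) : LimQ X ℤ_[p]) * elQ X ℤ_[p] (pw G t.2.2.2)⁻¹ else 0).sum

omit [Fintype ι] [Fintype κ] in
private lemma term_eqQ (t : ℚ × κ × ι × FreeGroup G)
    (ht : ∃ z : ℤ, t.1 = z) (k : ℕ) (j : κ) (i : ι) (x y : X.Q k) :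
    lmQ X k (if j = t.2.1 ∧ i = t.2.2.1 then
      ((t.1.num : ℤ) : LimQ X ℤ_[p]) * elQ X ℤ_[p] (pw G t.2.2.2)⁻¹ else 0) x y =
      (((if j = t.2.1 ∧ i = t.2.2.1 ∧ y = X.e k (pw G t.2.2.2) * x then t.1 else 0 : ℚ)) :
        ℚ_[p]) := by
  obtain ⟨z, hz⟩ := ht
  by_cases h : j = t.2.1 ∧ i = t.2.2.1
  · rw [if_pos h, map_mul, map_intCast, hz, Rat.num_intCast]
    have h1 : ((z : Matrix (X.Q k) (X.Q k) ℚ_[p]) * lmQ X k (elQ X ℤ_[p] (pw G t.2.2.2)⁻¹)) x y =
        (z : ℚ_[p]) * lmQ X k (elQ X ℤ_[p] (pw G t.2.2.2)⁻¹) x y := by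
      rw [← zsmul_eq_mul, Matrix.smul_apply, zsmul_eq_mul]
    rw [h1, lmQ_apply]
    have h2 : ((elQ X ℤ_[p] (pw G t.2.2.2)⁻¹).1 k).coeff (x * y⁻¹) =
        if y = X.e k (pw G t.2.2.2) * x then 1 else 0 := by
      show (single (X.e k (pw G t.2.2.2)⁻¹) (1 : ℤ_[p])).coeff (x * y⁻¹) = _
      rw [coeff_single, Finsupp.single_apply]
      refine if_congr ?_ rfl rfl
      rw [map_inv]
      constructor
      · intro h
        have h3 := congrArg (fun g => X.e k (pw G t.2.2.2) * g * y) h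
        simpa [mul_assoc] using h3
      · intro h
        rw [h]
        group
    rw [h2]
    by_cases h3 : y = X.e k (pw G t.2.2.2) * x
    · rw [if_pos h3, if_pos ⟨h.1, h.2, h3⟩, map_one, mul_one]
      push_cast
      rfl
    · rw [if_neg h3, if_neg fun h4 => h3 h4.2.2, map_zero, mul_zero, Rat.cast_zero]
  · rw [if_neg h, if_neg fun h4 => h ⟨h4.1, h4.2.1⟩, map_zero, Rat.cast_zero]
    rfl

theorem lmQ_matQ {L : LQ κ ι (FreeGroup G)} (hL : Intg L) (k : ℕ) (j : κ) (i : ι)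
    (x y : X.Q k) :
    lmQ X k (matQ X L j i) x y = ((mX (mdlQ X k) L (j, x) (i, y) : ℚ) : ℚ_[p]) := by
  have key : ∀ L : LQ κ ι (FreeGroup G), (∀ t ∈ L, ∃ z : ℤ, t.1 = z) →
      lmQ X k ((L.map fun t => if j = t.2.1 ∧ i = t.2.2.1 then
        ((t.1.num : ℤ) : LimQ X ℤ_[p]) * elQ X ℤ_[p] (pw G t.2.2.2)⁻¹ else 0).sum) x y =
      (((L.map fun t => if j = t.2.1 ∧ i = t.2.2.1 ∧ y = X.e k (pw G t.2.2.2) * x then t.1
        else 0).sum : ℚ) : ℚ_[p]) := by
    intro L
    induction L with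
    | nil =>
      intro _
      simp
    | cons a L ih =>
      intro h
      rw [List.map_cons, List.sum_cons, List.map_cons, List.sum_cons, map_add, Matrix.add_apply,
        term_eqQ X a (h a List.mem_cons_self), ih fun t ht => h t (List.mem_cons_of_mem _ ht),
        Rat.cast_add]
  exact key L hL

theorem finrank_kQ {L : LQ κ ι (FreeGroup G)} (hL : Intg L) (k : ℕ) :
    finrank ℚ (kX (mdlQ X k) L) = finrank ℚ_[p] (LinearMap.ker (op (rhoQ X k) (matQ X L))) := by
  set M : Matrix (κ × X.Q k) (ι × X.Q k) ℚ := mX (mdlQ X k) L with hM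
  have h1 : finrank ℚ (kX (mdlQ X k) L) + M.rank = Fintype.card (ι × X.Q k) := by
    have h := LinearMap.finrank_range_add_finrank_ker M.mulVecLin
    rw [Module.finrank_fintype_fun_eq_card] at h
    rw [← h, Matrix.rank, add_comm]
    rfl
  set M' : Matrix (κ × X.Q k) (ι × X.Q k) ℚ_[p] := M.map (Rat.castHom ℚ_[p]) with hM'
  have h2 : finrank ℚ_[p] (LinearMap.ker M'.mulVecLin) + M.rank = Fintype.card (ι × X.Q k) := by
    have h := LinearMap.finrank_range_add_finrank_ker M'.mulVecLin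
    rw [Module.finrank_fintype_fun_eq_card] at h
    rw [← h, ← rank_map_field (Rat.castHom ℚ_[p]) M, Matrix.rank, add_comm]
  have h3 : ∀ v : ι × X.Q k → ℚ_[p], op (rhoQ X k) (matQ X L) (Function.curry v) =
      Function.curry (M'.mulVec v) := by
    intro v
    funext j x
    rw [op_apply, Finset.sum_apply]
    show ∑ i, (rhoQ X k (matQ X L j i)) (Function.curry v i) x = ∑ q, M' (j, x) q * v q
    rw [Fintype.sum_prod_type]
    refine Finset.sum_congr rfl fun i _ => ?_
    rw [rhoQ_apply]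
    show ∑ y, lmQ X k (matQ X L j i) x y * v (i, y) = _
    refine Finset.sum_congr rfl fun y _ => ?_
    rw [lmQ_matQ X hL]
    rfl
  have h4 : LinearMap.ker (op (rhoQ X k) (matQ X L)) =
      (LinearMap.ker M'.mulVecLin).map
        (LinearEquiv.curry ℚ_[p] ℚ_[p] ι (X.Q k) : (ι × X.Q k → ℚ_[p]) →ₗ[ℚ_[p]] _) := by
    ext w
    rw [LinearMap.mem_ker, Submodule.mem_map]
    constructor
    · intro h
      refine ⟨Function.uncurry w, ?_, ?_⟩
      · rw [LinearMap.mem_ker]
        have h5 := h3 (Function.uncurry w)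
        rw [Function.curry_uncurry, h] at h5
        funext q
        exact (congrFun (congrFun h5 q.1) q.2).symm
      · exact Function.curry_uncurry w
    · rintro ⟨v, hv, rfl⟩
      have h5 := h3 v
      rw [LinearMap.mem_ker] at hv
      have hv' : M'.mulVec v = 0 := hv
      rw [hv'] at h5
      exact h5
  rw [h4, LinearEquiv.finrank_map_eq]
  omega

end Pool.Agent.MCG
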