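import Pool.Agent.MCG.XI
import Pool.Agent.MCG.XM
import Pool.Agent.Lvl.ThmB

set_option autoImplicit false
set_option linter.unusedSectionVars false

noncomputable section

open Classical

/-!
PACKAGE MCG-XY. Groups which are residually extensions of towers satisfy the Atiyah conjecture over
`ℚ`.

* `exists_limitQ`: as `exists_limit` at the end of `Pool/Agent/Lvl/ThmA.lean`, with `int_limit` (file `XI`)
  and `finrank_kQ` (file `XM`).
* `exists_goodQ`, `near_intQ`, `dm_intQ`, `atiyah_of_detX`: copies of `exists_good`, `near_int`,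
  `dm_int`, `atiyah_of_towers` in `Pool/Agent/Lvl/ThmB.lean`.
-/

namespace Pool.Agent.MCG

open MonoidAlgebra Pool.Agent.Lvl Filter Topology Module Pool.Agent.VN Pool.Agent.LFT

open Pool.Agent.AH (LQ mX kX sz pw sf Intg oG bad Qc)

variable {G : Type} [Group G]

/-- every finite set of nontrivial elements of `G` is detected by an extension of a tower -/
def DetX (p : ℕ) (G : Type) [Group G] : Prop :=
  ∀ E : Finset G, (∀ g ∈ E, g ≠ 1) → ∃ (q d : ℕ) (T : Tower p q d) (X : XT T G) (k : ℕ),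
    ∀ g ∈ E, X.e k g ≠ 1

theorem exists_limitQ {p q d : ℕ} [hp : Fact p.Prime] {T : Tower p q d} (X : XT T G)
    {ι κ : Type} [Fintype ι] [Fintype κ] (L : LQ κ ι (FreeGroup G)) :
    ∃ z : ℤ, Tendsto (fun k => (finrank ℚ (kX (mdlQ X k) L) : ℝ) / sz (mdlQ X k)) atTop
      (𝓝 (z : ℝ)) := by
  obtain ⟨D, hD, hL⟩ := AH.exists_den L
  have hD' : (D : ℚ) ≠ 0 := by exact_mod_cast hD.ne'
  obtain ⟨z, hz⟩ := int_limit X (matQ X (AH.sml (D : ℚ) L))
  refine ⟨z, ?_⟩
  refine hz.congr fun k => ?_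
  rw [← finrank_kQ X hL k, AH.kX_sml _ _ hD']
  rfl

theorem exists_goodQ {p : ℕ} (h : DetX p G) (F : Finset (FreeGroup G)) :
    ∃ (q d : ℕ) (T : Tower p q d) (X : XT T G) (k0 : ℕ),
      ∀ k, k0 ≤ k → bad (mdlQ X k) F = ∅ := by
  obtain ⟨q, d, T, X, k0, hk⟩ := h ((F.image (pw G)).filter fun g => g ≠ 1)
    (fun g hg => (Finset.mem_filter.1 hg).2)
  refine ⟨q, d, T, X, k0, fun k hk0 => ?_⟩
  have h1 : ∀ g : G, X.e k0 g ≠ 1 → X.e k g ≠ 1 := by
    intro g hg
    induction k, hk0 using Nat.le_induction with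
    | base => exact hg
    | succ n _ ih =>
      intro h2
      apply ih
      rw [← X.e_pr, h2, map_one]
  unfold bad
  rw [Finset.filter_eq_empty_iff]
  rintro x - ⟨w, hw, h2⟩
  apply h2
  have h3 : (w • x = x) ↔ X.e k (pw G w) = 1 := by
    constructor
    · intro h4
      have h5 : X.e k (pw G w) * (show X.Q k from x) = (show X.Q k from x) := h4
      exact mul_eq_right.1 h5
    · intro h4
      show X.e k (pw G w) * (show X.Q k from x) = (show X.Q k from x)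
      rw [h4, one_mul]
  rw [h3]
  constructor
  · intro h4
    by_contra h5
    exact h1 _ (hk _ (Finset.mem_filter.2 ⟨Finset.mem_image_of_mem _ hw, h5⟩)) h4
  · intro h4
    rw [h4, map_one]

theorem near_intQ {p : ℕ} [hp : Fact p.Prime] (h : DetX p G) {ι κ : Type} [Fintype ι]
    [Fintype κ] (L : LQ κ ι (FreeGroup G)) {ε : ℝ} (hε : 0 < ε) :
    ∃ z : ℤ, |(z : ℝ) - dm (kr (oG L))| ≤ ε := by
  have h1 : ∀ᶠ M in sf G, |(finrank ℚ (kX M L) : ℝ) / sz M - dm (kr (oG L))| < ε := by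
    have h2 := (Pool.Agent.AH.lueck L).eventually (Metric.ball_mem_nhds _ hε)
    filter_upwards [h2] with M hM
    rwa [Real.dist_eq] at hM
  obtain ⟨F, δ, hδ, h3⟩ := h1
  obtain ⟨q, d, T, X, k0, hk⟩ := exists_goodQ h F
  obtain ⟨z, hz⟩ := exists_limitQ X L
  refine ⟨z, ?_⟩
  have h4 : Tendsto (fun k => |(finrank ℚ (kX (mdlQ X k) L) : ℝ) / sz (mdlQ X k)
      - dm (kr (oG L))|) atTop (𝓝 |(z : ℝ) - dm (kr (oG L))|) :=
    (hz.sub_const _).abs
  refine le_of_tendsto h4 ?_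
  filter_upwards [eventually_ge_atTop k0] with k hk1
  refine le_of_lt (h3 (mdlQ X k) ?_)
  rw [hk k hk1, Finset.card_empty, Nat.cast_zero]
  unfold sz
  positivity

theorem dm_intQ {p : ℕ} [hp : Fact p.Prime] (h : DetX p G) {ι κ : Type} [Fintype ι] [Fintype κ]
    (L : LQ κ ι (FreeGroup G)) : ∃ z : ℤ, dm (kr (oG L)) = z := by
  have h1 : dm (kr (oG L)) ∈ closure (Set.range ((↑) : ℤ → ℝ)) := by
    rw [Metric.mem_closure_iff]
    intro ε hε
    obtain ⟨z, hz⟩ := near_intQ h L (half_pos hε)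
    refine ⟨(z : ℝ), ⟨z, rfl⟩, ?_⟩
    rw [dist_comm, Real.dist_eq]
    linarith
  rw [Int.isClosedEmbedding_coe_real.isClosed_range.closure_eq] at h1
  obtain ⟨z, hz⟩ := h1
  exact ⟨z, hz.symm⟩

theorem atiyah_of_detX {p : ℕ} [hp : Fact p.Prime] (h : DetX p G) : AtiyahOver Qc G := by
  intro m n A hA
  have h1 : LocOp Qc (fun _ : Fin m => ()) (fun _ : Fin n => ())
      (mulR (colF A) : L2 (Fin m) G →L[ℂ] L2 (Fin n) G) :=
    ⟨colF A, fun j p => colF_coef hA _ ⟨j, rfl⟩ p, fun _ _ _ => rfl, rfl⟩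
  obtain ⟨L, -, hL⟩ := Pool.Agent.AH.exists_list h1
  obtain ⟨z, hz⟩ := dm_intQ h L
  refine ⟨z, ?_⟩
  rw [kerDim_eq, ← hz, hL]
  unfold dm
  rw [← ker_mulR]

end Pool.Agent.MCG
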