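import Pool.Agent.MCG.TowB
import Pool.Agent.MCG.TowD
import Pool.Agent.MCG.XY
import Pool.Agent.MCG.Defs

set_option autoImplicit false
set_option linter.unusedSectionVars false

noncomputable section

/-!
MCG, part T. The condition `NT` implies `DetX`.
-/

namespace Pool.Agent.MCG

open Pool.Agent.Lvl

variable {p N : ℕ} {G : Type} [Group G] [hp : Fact p.Prime] (f : G →* Matrix (Fin N) (Fin N) ℤ)

/-- the group of the leading matrices -/
def WA {j : ℕ} (hj : 1 ≤ j) : AddSubgroup (Matrix (Fin N) (Fin N) (ZMod p)) where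
  carrier := WW p f j
  add_mem' := by
    intro a b ha hb
    rw [WW_eq_range f hj] at ha hb ⊢
    obtain ⟨g, rfl⟩ := ha
    obtain ⟨h, rfl⟩ := hb
    refine ⟨g * h, ?_⟩
    show (lead f hj (g * h)).toAdd = _
    rw [map_mul, toAdd_mul]
  zero_mem' := by
    rw [WW_eq_range f hj]
    refine ⟨1, ?_⟩
    show (lead f hj 1).toAdd = _
    rw [map_one, toAdd_one]
  neg_mem' := by
    intro a ha
    rw [WW_eq_range f hj] at ha ⊢
    obtain ⟨g, rfl⟩ := ha
    refine ⟨g⁻¹, ?_⟩
    show (lead f hj g⁻¹).toAdd = _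
    rw [map_inv, toAdd_inv]

/-- the space of the leading matrices -/
def WS {j : ℕ} (hj : 1 ≤ j) : Submodule (ZMod p) (Matrix (Fin N) (Fin N) (ZMod p)) :=
  AddSubgroup.toZModSubmodule p (WA (p := p) f hj)

theorem mem_WS {j : ℕ} (hj : 1 ≤ j) {w : Matrix (Fin N) (Fin N) (ZMod p)} :
    w ∈ WS f hj ↔ w ∈ WW p f j := Iff.rfl

/-- coordinates for the leading matrices -/
def cW {j : ℕ} (hj : 1 ≤ j) : ↥(WS (p := p) f hj) ≃ₗ[ZMod p]
    (Fin (Module.finrank (ZMod p) ↥(WS (p := p) f hj)) → ZMod p) :=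
  (Module.finBasis (ZMod p) ↥(WS (p := p) f hj)).equivFun

/-- the chain of the congruence subgroups -/
def chain {j : ℕ} (hj : 1 ≤ j) (h3 : 3 ≤ p ^ j) (hst : ∀ i, j ≤ i → WW p f i = WW p f j) :
    Chain p j (Module.finrank (ZMod p) ↥(WS (p := p) f hj)) G where
  U k := VV p f (j + k)
  nor k := inferInstance
  le k := VV_anti f (by omega)
  fi k := by
    have h : Finite (G ⧸ VV p f (j + k)) := inferInstance
    exact Subgroup.finiteIndex_of_finite_quotient
  θ k := (MonoidHom.mk' (fun g => Multiplicative.ofAdd (cW f hj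
    ⟨(lead f (j := j + k) (by omega) g).toAdd, by
      rw [mem_WS, ← hst (j + k) (by omega), WW_eq_range f (j := j + k) (by omega)]
      exact ⟨g, rfl⟩⟩)) (by
      intro a b
      rw [← ofAdd_add, ← map_add]
      congr 2
      apply Subtype.ext
      show (lead f _ (a * b)).toAdd = _
      rw [map_mul, toAdd_mul]
      rfl))
  θ_surj k := by
    intro x
    obtain ⟨⟨w, hw⟩, hx⟩ := (cW f hj).surjective x.toAdd
    have h1 : w ∈ WW p f (j + k) := by
      rw [hst (j + k) (by omega)]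
      exact hw
    rw [WW_eq_range f (j := j + k) (by omega)] at h1
    obtain ⟨g, hg⟩ := h1
    refine ⟨g, ?_⟩
    show Multiplicative.ofAdd (cW f hj ⟨(lead f (j := j + k) _ g).toAdd, _⟩) = x
    have h2 : (⟨(lead f (j := j + k) (by omega) g).toAdd, by
      rw [mem_WS, ← hst (j + k) (by omega), WW_eq_range f (j := j + k) (by omega)]
      exact ⟨g, rfl⟩⟩ : ↥(WS (p := p) f hj)) = ⟨w, hw⟩ := Subtype.ext hg
    rw [h2, hx]
    rfl
  θ_ker k g := by
    show Multiplicative.ofAdd (cW f hj ⟨(lead f (j := j + k) _ g).toAdd, _⟩) = 1 ↔ _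
    rw [ofAdd_eq_one, LinearEquiv.map_eq_zero_iff]
    have h1 := lead_ker f (p := p) (j := j + k) (by omega)
    have h2 : g ∈ (lead f (j := j + k) (by omega)).ker ↔ (g : G) ∈ VV p f (j + k + 1) := by
      rw [h1, Subgroup.mem_subgroupOf]
    rw [← add_assoc, ← h2, MonoidHom.mem_ker]
    constructor
    · intro h
      exact Multiplicative.toAdd.injective (congrArg Subtype.val h)
    · intro h
      apply Subtype.ext
      show (lead f (j := j + k) _ g).toAdd = 0
      rw [h]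
      rfl
  pow_mem k g hg := by
    refine pow_mem_VV f (j := j + k) (by omega) ?_ hg
    exact h3.trans (Nat.pow_le_pow_right hp.out.pos (by omega))
  θ_pow k g := by
    have h3' : 3 ≤ p ^ (j + k) := h3.trans (Nat.pow_le_pow_right hp.out.pos (by omega))
    have h1 := lead_pow f (j := j + k) (by omega) h3' g
    show Multiplicative.ofAdd (cW f hj ⟨(lead f (j := j + (k + 1)) _ _).toAdd, _⟩) =
      Multiplicative.ofAdd (cW f hj ⟨(lead f (j := j + k) _ g).toAdd, _⟩)
    congr 2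
    apply Subtype.ext
    exact congrArg Multiplicative.toAdd h1
  comm k g h hg hh := VV_anti f (by omega) (VV_comm f hg hh)
  comm0 g h hg hh := VV_comm f hg hh
  h3 := h3

theorem mem_VV_of_dvd {s : ℕ} {g : G} (h : ∀ i j, ((p ^ s : ℕ) : ℤ) ∣ (f g - 1) i j) :
    g ∈ VV p f s := by
  choose X hX using h
  refine ⟨Matrix.of X, ?_⟩
  have h1 : f g - 1 = (p ^ s : ℕ) • Matrix.of X := by
    ext i j
    rw [hX, Matrix.smul_apply, Matrix.of_apply, nsmul_eq_mul]
  rw [← h1]
  abel

theorem dvd_of_mem_VV {s : ℕ} {g : G} (h : g ∈ VV p f s) (i j : Fin N) :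
    ((p ^ s : ℕ) : ℤ) ∣ (f g - 1) i j := by
  obtain ⟨X, hX⟩ := h
  refine ⟨X i j, ?_⟩
  rw [hX, add_sub_cancel_left, Matrix.smul_apply, nsmul_eq_mul]

theorem exists_not_mem {g : G} (hg : f g ≠ 1) : ∃ k0, ∀ k, k0 ≤ k → g ∉ VV p f k := by
  have h1 : ∃ i j, (f g - 1) i j ≠ 0 := by
    by_contra hcon
    push Not at hcon
    exact hg (sub_eq_zero.1 (by ext i j; exact hcon i j))
  obtain ⟨i, j, hij⟩ := h1
  refine ⟨((f g - 1) i j).natAbs, fun k hk hmem => ?_⟩
  have h2 := dvd_of_mem_VV f hmem i j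
  have h3 : p ^ k ∣ ((f g - 1) i j).natAbs := Int.natCast_dvd.1 h2
  have h4 := Nat.le_of_dvd (Int.natAbs_pos.2 hij) h3
  have h5 : k < p ^ k := Nat.lt_pow_self hp.out.one_lt
  omega

theorem detX_of_NT {q : ℕ} (hq : ∃ s, q = p ^ s) (h3 : 3 ≤ q) (h : NT p q G) : DetX p G := by
  intro E hE
  obtain ⟨s, rfl⟩ := hq
  obtain ⟨N, f, ha, ⟨M, hb⟩, hc⟩ := h E hE
  have hs : 1 ≤ s := by
    rcases Nat.eq_zero_or_pos s with h0 | h0
    · rw [h0] at h3
      norm_num at h3
    · exact h0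
  obtain ⟨j0, hj0, hst⟩ := exists_stable f hs h3
  set j := max j0 (s + M) with hjdef
  have hj : 1 ≤ j := by omega
  have hsj : s ≤ j := by omega
  have h3j : 3 ≤ p ^ j := h3.trans (Nat.pow_le_pow_right hp.out.pos hsj)
  have hstj : ∀ i, j ≤ i → WW p f i = WW p f j := by
    intro i hi
    rw [hst i (by omega), hst j (by omega)]
  set C := chain f hj h3j hstj with hC
  have hU : ∀ k, C.U k = VV p f (j + k) := fun k => rfl
  have hpg : ∀ k, IsPGroup p (G ⧸ C.U k) := by
    intro k z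
    obtain ⟨g, rfl⟩ := QuotientGroup.mk_surjective z
    obtain ⟨a, ha⟩ := ha g
    have h1 : g ^ p ^ a ∈ VV p f s := by
      refine mem_VV_of_dvd f ?_
      rw [map_pow]
      exact ha
    have h2 : ∀ n, (g ^ p ^ a) ^ p ^ n ∈ VV p f (s + n) := by
      intro n
      induction n with
      | zero => rw [pow_zero, pow_one]; exact h1
      | succ n ih =>
        rw [pow_succ, pow_mul]
        refine pow_mem_VV f (j := s + n) (by omega) ?_ ih
        exact h3.trans (Nat.pow_le_pow_right hp.out.pos (by omega))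
    refine ⟨a + (j + k), ?_⟩
    have h4 : ((g ^ p ^ (a + (j + k)) : G) : G ⧸ C.U k) = 1 := by
      rw [QuotientGroup.eq_one_iff, pow_add, pow_mul, hU]
      exact VV_anti f (by omega) (h2 (j + k))
    exact h4
  have hnt : ∃ k, ∀ g : G, g ^ p ∈ C.U k → g ∈ C.U 0 := by
    refine ⟨1, fun g hg => ?_⟩
    rw [hU] at hg ⊢
    have h1 : g ∈ VV p f s := by
      refine mem_VV_of_dvd f (hb g ?_)
      intro a b
      rw [← map_pow]
      have h2 := dvd_of_mem_VV f (s := s + M) (VV_anti f (by omega) hg) a b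
      rwa [pow_add] at h2
    have h2 := mem_of_pow_mem f hs h3 h1 (j - s) (by
      rw [show s + (j - s) + 1 = j + 1 by omega]
      exact hg)
    rw [show s + (j - s) = j by omega] at h2
    exact h2
  choose K hK using fun (g : {g : G // g ∈ E}) => exists_not_mem (p := p) f (hc g g.2)
  refine ⟨p ^ j, _, C.tower, C.xt hpg hnt, E.attach.sup K, fun g hg h1 => ?_⟩
  rw [C.xt_e, hU] at h1
  refine hK ⟨g, hg⟩ _ ?_ h1
  have h2 : K ⟨g, hg⟩ ≤ E.attach.sup K := Finset.le_sup (f := K) (Finset.mem_attach E ⟨g, hg⟩)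
  omega

end Pool.Agent.MCG
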