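import Pool.Agent.MCG.Defs

set_option autoImplicit false
set_option linter.unusedSectionVars false

noncomputable section

/-!
PACKAGE MCG-UNI. `nondeg_of_unimod`: the determinant is `± 1`, so it is a unit modulo `p`
(`RingHom.map_det`), and a vector `v` with `vecMul v C = 0` is zero
(`Matrix.eq_zero_of_vecMul_eq_zero`, the determinant is not zero in the field `ZMod p`).
`coef_mul`: `coef (u v) i j = coef u i j + coef v i j + e_i u * e_j v`, where `e_i u = (heis i j u).1 0 1`,
`e_j v = (heis i j v).1 1 2` (all values of `heis` are unitriangular: `FreeGroup.induction_on`); for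
elements `u`, `v` of the commutator subgroup (`e = 0`) `coef` is additive, so
`coef (surfRel g) = ∑ k, coef [a_k, b_k]`, and `coef [a, b] i j` is `1` for `(i, j) = (a, b)`, `-1`
for
`(b, a)` and `0` otherwise (compute the product of four matrices; case distinction). So the matrix
is
the standard symplectic matrix: `C * C = -1`, so its determinant is a unit
(`Matrix.isUnit_det_of_left_inverse`).
-/

namespace Pool.Agent.MCG

open CongCL

theorem nondeg_of_unimod {ι : Type} [DecidableEq ι] [Fintype ι] {w : FreeGroup ι}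
    (hw : Unimod w) : Nondeg {w} := by
  refine ⟨fun w' hw' => ?_, fun p hp v hv => ?_⟩
  · rw [Set.mem_singleton_iff.1 hw']
    exact hw.1
  · have : Fact p.Prime := ⟨hp⟩
    have h1 : ((Matrix.of fun i j => coef w i j).map (Int.castRingHom (ZMod p))).det ≠ 0 := by
      rw [← RingHom.mapMatrix_apply, ← RingHom.map_det]
      exact (hw.2.map (Int.castRingHom (ZMod p))).ne_zero
    refine Matrix.eq_zero_of_vecMul_eq_zero h1 (funext fun j => ?_)
    have h2 := hv w (Set.mem_singleton w) j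
    simpa [Matrix.vecMul, dotProduct] using h2

/-- unitriangular matrices -/
private def TriU (M : Matrix.SpecialLinearGroup (Fin 3) ℤ) : Prop :=
  M.1 0 0 = 1 ∧ M.1 1 1 = 1 ∧ M.1 2 2 = 1 ∧ M.1 1 0 = 0 ∧ M.1 2 0 = 0 ∧ M.1 2 1 = 0

private theorem triU_mul {M N : Matrix.SpecialLinearGroup (Fin 3) ℤ} (hM : TriU M)
    (hN : TriU N) : TriU (M * N) := by
  obtain ⟨m1, m2, m3, m4, m5, m6⟩ := hM
  obtain ⟨n1, n2, n3, n4, n5, n6⟩ := hN
  refine ⟨?_, ?_, ?_, ?_, ?_, ?_⟩ <;>
    simp [Matrix.SpecialLinearGroup.coe_mul, Matrix.mul_apply, Fin.sum_univ_three, *]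

private theorem triU_inv {M : Matrix.SpecialLinearGroup (Fin 3) ℤ} (hM : TriU M) :
    TriU M⁻¹ := by
  obtain ⟨m1, m2, m3, m4, m5, m6⟩ := hM
  refine ⟨?_, ?_, ?_, ?_, ?_, ?_⟩ <;>
    simp [Matrix.SpecialLinearGroup.coe_inv, Matrix.adjugate_fin_three, *]

private theorem triU_heis {ι : Type} [DecidableEq ι] (i j : ι) (u : FreeGroup ι) :
    TriU (heis i j u) := by
  have hof : ∀ l : ι, TriU (heis i j (FreeGroup.of l)) := by
    intro l
    simp [heis, TriU]
  refine FreeGroup.induction_on (C := fun u => TriU (heis i j u)) u ?_ hof ?_ ?_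
  · simp [TriU]
  · intro l h
    rw [map_inv]
    exact triU_inv (hof l)
  · intro u v hu hv
    rw [map_mul]
    exact triU_mul hu hv

private theorem uni_mul {M N : Matrix.SpecialLinearGroup (Fin 3) ℤ} (hM : TriU M)
    (hN : TriU N) : (M * N).1 0 1 = M.1 0 1 + N.1 0 1 ∧ (M * N).1 1 2 = M.1 1 2 + N.1 1 2 ∧
      (M * N).1 0 2 = M.1 0 2 + N.1 0 2 + M.1 0 1 * N.1 1 2 := by
  obtain ⟨m1, m2, m3, m4, m5, m6⟩ := hM
  obtain ⟨n1, n2, n3, n4, n5, n6⟩ := hN
  refine ⟨?_, ?_, ?_⟩ <;>
    simp [Matrix.SpecialLinearGroup.coe_mul, Matrix.mul_apply, Fin.sum_univ_three, *] <;> ring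

private theorem uni_inv {M : Matrix.SpecialLinearGroup (Fin 3) ℤ} (hM : TriU M) :
    (M⁻¹).1 0 1 = - M.1 0 1 ∧ (M⁻¹).1 1 2 = - M.1 1 2 ∧
      (M⁻¹).1 0 2 = - M.1 0 2 + M.1 0 1 * M.1 1 2 := by
  have h := uni_mul (triU_inv hM) hM
  rw [inv_mul_cancel] at h
  simp only [Matrix.SpecialLinearGroup.coe_one] at h
  obtain ⟨h1, h2, h3⟩ := h
  have e1 : (1 : Matrix (Fin 3) (Fin 3) ℤ) 0 1 = 0 := by simp
  have e2 : (1 : Matrix (Fin 3) (Fin 3) ℤ) 1 2 = 0 := by simp
  have e3 : (1 : Matrix (Fin 3) (Fin 3) ℤ) 0 2 = 0 := by simp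
  rw [e1] at h1
  rw [e2] at h2
  rw [e3] at h3
  have k1 : (M⁻¹).1 0 1 = - M.1 0 1 := by linarith
  refine ⟨k1, by linarith, ?_⟩
  rw [k1] at h3
  linarith

private theorem uni_comm {ι : Type} [DecidableEq ι] (i j : ι) (u v : FreeGroup ι) :
    (heis i j (u * v * u⁻¹ * v⁻¹)).1 0 1 = 0 ∧ (heis i j (u * v * u⁻¹ * v⁻¹)).1 1 2 = 0 ∧
    (heis i j (u * v * u⁻¹ * v⁻¹)).1 0 2 =
      (heis i j u).1 0 1 * (heis i j v).1 1 2 - (heis i j v).1 0 1 * (heis i j u).1 1 2 := by
  have hu := triU_heis i j u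
  have hv := triU_heis i j v
  rw [map_mul, map_mul, map_mul, map_inv, map_inv]
  obtain ⟨a1, a2, a3⟩ := uni_mul hu hv
  obtain ⟨b1, b2, b3⟩ := uni_inv hu
  obtain ⟨c1, c2, c3⟩ := uni_inv hv
  obtain ⟨d1, d2, d3⟩ := uni_mul (triU_mul hu hv) (triU_inv hu)
  obtain ⟨e1, e2, e3⟩ := uni_mul (triU_mul (triU_mul hu hv) (triU_inv hu)) (triU_inv hv)
  refine ⟨?_, ?_, ?_⟩
  · rw [e1, d1, a1, b1, c1]; ring
  · rw [e2, d2, a2, b2, c2]; ring
  · rw [e3, d3, d1, a3, a1, b1, b2, b3, c2, c3]; ring

private theorem uni_list {ι : Type} [DecidableEq ι] (i j : ι) (L : List (FreeGroup ι))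
    (hL : ∀ u ∈ L, (heis i j u).1 0 1 = 0) :
    (heis i j L.prod).1 0 1 = 0 ∧ coef L.prod i j = (L.map fun u => coef u i j).sum := by
  induction L with
  | nil => simp [coef]
  | cons u L ih =>
    obtain ⟨h1, h2⟩ := ih fun v hv => hL v (List.mem_cons_of_mem _ hv)
    have h3 := hL u List.mem_cons_self
    obtain ⟨a1, a2, a3⟩ := uni_mul (triU_heis i j u) (triU_heis i j L.prod)
    rw [List.prod_cons, List.map_cons, List.sum_cons, ← h2]
    refine ⟨?_, ?_⟩
    · rw [map_mul, a1, h3, h1]; ring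
    · unfold coef
      rw [map_mul, a3, h3]; ring

private theorem heis_of {ι : Type} [DecidableEq ι] (i j l : ι) :
    (heis i j (FreeGroup.of l)).1 0 1 = (if l = i then 1 else 0) ∧
    (heis i j (FreeGroup.of l)).1 1 2 = (if l = j then 1 else 0) := by
  constructor <;> simp [heis]

private theorem coef_surfRel (g : ℕ) (i j : Fin g × Bool) :
    coef (surfRel g) i j = if j = (i.1, !i.2) then (if i.2 then -1 else 1) else 0 := by
  have h1 := (uni_list i j (List.ofFn fun k : Fin g => FreeGroup.of (k, false) *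
    FreeGroup.of (k, true) * (FreeGroup.of (k, false))⁻¹ * (FreeGroup.of (k, true))⁻¹) (by
      intro u hu
      rw [List.mem_ofFn] at hu
      obtain ⟨k, rfl⟩ := hu
      exact (uni_comm i j _ _).1)).2
  rw [surfRel, h1, List.map_ofFn, List.sum_ofFn]
  have h2 : ∀ k : Fin g, ((fun u => coef u i j) ∘ fun k : Fin g => FreeGroup.of (k, false) *
      FreeGroup.of (k, true) * (FreeGroup.of (k, false))⁻¹ * (FreeGroup.of (k, true))⁻¹) k =
      (if (k, false) = i then 1 else 0) * (if (k, true) = j then 1 else 0) -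
      (if (k, true) = i then 1 else 0) * (if (k, false) = j then 1 else 0) := by
    intro k
    simp only [Function.comp_apply]
    unfold coef
    rw [(uni_comm i j _ _).2.2, (heis_of i j _).1, (heis_of i j _).2, (heis_of i j _).1,
      (heis_of i j _).2]
  rw [Finset.sum_congr rfl fun k _ => h2 k]
  obtain ⟨k, s⟩ := i
  obtain ⟨l, t⟩ := j
  rw [Finset.sum_eq_single k]
  · by_cases hkl : k = l
    · subst hkl
      cases s <;> cases t <;> simp
    · have hlk : ¬ l = k := fun h => hkl h.symm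
      cases s <;> cases t <;> simp [hkl, hlk]
  · intro b _ hb
    simp [Prod.ext_iff, hb]
  · intro h
    exact absurd (Finset.mem_univ k) h

theorem unimod_surfRel (g : ℕ) : Unimod (surfRel g) := by
  refine ⟨?_, ?_⟩
  · rw [surfRel]
    refine Subgroup.list_prod_mem _ fun u hu => ?_
    rw [List.mem_ofFn] at hu
    obtain ⟨k, rfl⟩ := hu
    rw [← commutatorElement_def]
    exact Subgroup.commutator_mem_commutator (Subgroup.mem_top _) (Subgroup.mem_top _)
  · have h : -(Matrix.of fun i j => coef (surfRel g) i j) *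
        (Matrix.of fun i j => coef (surfRel g) i j) = 1 := by
      ext i j
      rw [Matrix.neg_mul, Matrix.neg_apply, Matrix.mul_apply]
      simp only [Matrix.of_apply, coef_surfRel]
      rw [Finset.sum_eq_single (i.1, !i.2)]
      · obtain ⟨k, s⟩ := i
        obtain ⟨l, t⟩ := j
        by_cases hkl : k = l
        · subst hkl
          cases s <;> cases t <;> simp
        · have hlk : ¬ l = k := fun h => hkl h.symm
          cases s <;> cases t <;> simp [hkl, hlk]
      · intro b _ hb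
        rw [if_neg hb, zero_mul]
      · intro h
        exact absurd (Finset.mem_univ _) h
    exact Matrix.isUnit_det_of_left_inverse h

end Pool.Agent.MCG
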