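import Pool.Agent.MCG.NTFix
import Pool.Agent.MCG.NTPi
import Pool.Agent.MCG.Syl
import Pool.Agent.MCG.Index
import Pool.Agent.MCG.Uni
import Pool.Agent.MCG.XY
import Pool.Agent.MCG.TowE
import Pool.Agent.HX.Base

set_option autoImplicit false
set_option linter.unusedSectionVars false

noncomputable section

/-!
The strong Atiyah conjecture for groups of automorphisms of a free group which fix a nondegenerate
set, for example the mapping class groups of surfaces with boundary.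
-/

namespace Pool.Agent.MCG

open Pool.Agent.VN Pool.Agent.Lvl

open Pool.Agent.AH (Qc)

theorem atiyah_of_NT {p q : ℕ} [Fact p.Prime] {G : Type} [Group G] (hq : ∃ s, q = p ^ s)
    (h3 : 3 ≤ q) (h : NT p q G) : AtiyahOver ⊤ G := by
  have h1 : ∀ m : ℕ, AtiyahOver Qc (Fin m → G) := fun m =>
    atiyah_of_detX (detX_of_NT hq h3 (h.pi m))
  have h2 := HX.base_change Qc G h1 1
  let f : G →* (Fin 1 → G) := MonoidHom.mk' (fun g _ => g) fun _ _ => rfl
  exact h2.of_injective f fun a b hab => congrFun hab 0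

variable {ι : Type} [DecidableEq ι] [Fintype ι]

/-- a subgroup of index prime to `p`, from the criterion `nt_of_level` -/
theorem exists_sub_of_level {p : ℕ} [hp : Fact p.Prime] {G : Type} [Group G]
    (f : G →* MulAut (FreeGroup ι)) (hf : Function.Injective f)
    (hN : ∃ s : ℕ, 3 ≤ p ^ s ∧ ∃ N0 : ℕ, ∀ g,
      (∀ h, MonoidAlgebra.single ((f g ^ p) h) (1 : ZMod p) - MonoidAlgebra.single h 1 ∈
        Fil (ZMod p) (FreeGroup ι) N0) → f g ∈ level (FreeGroup ι) (p ^ s)) :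
    ∃ K : Subgroup G, K.index ≠ 0 ∧ ¬ p ∣ K.index ∧ AtiyahOver ⊤ K := by
  obtain ⟨s, hs, N0, hN0⟩ := hN
  have hfg : Group.FG (FreeGroup ι) := inferInstance
  have hfin : Finite (FreeGroup ι ⧸ UU (FreeGroup ι) (p ^ s)) := finite_quot (by omega)
  have hfin2 : Finite (Monoid.End (FreeGroup ι ⧸ UU (FreeGroup ι) (p ^ s))) :=
    Finite.of_injective (fun f : Monoid.End (FreeGroup ι ⧸ UU (FreeGroup ι) (p ^ s)) =>
      (f : FreeGroup ι ⧸ UU (FreeGroup ι) (p ^ s) → FreeGroup ι ⧸ UU (FreeGroup ι) (p ^ s)))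
      DFunLike.coe_injective
  obtain ⟨K, h1, h2, h3⟩ := exists_sylow_comap ((actQ (FreeGroup ι) (p ^ s)).toHomUnits.comp f) p
  refine ⟨K, h1, h2, atiyah_of_NT (p := p) (q := p ^ s) ⟨s, rfl⟩ hs ?_⟩
  refine nt_of_level ⟨s, rfl⟩ hs (f.comp K.subtype) (hf.comp K.subtype_injective)
    ⟨N0, fun g => hN0 g⟩ fun g => ?_
  obtain ⟨a, ha⟩ := h3 g g.2
  refine ⟨a, ?_⟩
  rw [← ker_actQ, MonoidHom.mem_ker, map_pow]
  exact ha

/-- a subgroup of index prime to `p` -/
theorem exists_sub {p : ℕ} [hp : Fact p.Prime] {W : Set (FreeGroup ι)} (hW : NondegAt p W)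
    {G : Type} [Group G] (f : G →* MulAut (FreeGroup ι)) (hf : Function.Injective f)
    (hfix : ∀ g, ∀ w ∈ W, f g w = w) :
    ∃ K : Subgroup G, K.index ≠ 0 ∧ ¬ p ∣ K.index ∧ AtiyahOver ⊤ K := by
  obtain ⟨s, hs⟩ : ∃ s : ℕ, 3 ≤ p ^ s := ⟨2, by
    have := hp.out.two_le
    nlinarith⟩
  exact exists_sub_of_level f hf ⟨s, hs, level_of_fix hW ⟨s, rfl⟩ hs f hfix⟩

theorem atiyah_fix {W : Set (FreeGroup ι)} (hW : Nondeg W) {G : Type} [Group G]
    (f : G →* MulAut (FreeGroup ι)) (hf : Function.Injective f)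
    (hfix : ∀ g, ∀ w ∈ W, f g w = w) : AtiyahOver ⊤ G := by
  refine atiyah_of_index fun p hp => ?_
  have : Fact p.Prime := ⟨hp⟩
  exact exists_sub ⟨hW.1, hW.2 p hp⟩ f hf hfix

end Pool.Agent.MCG
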