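import Pool.Agent.MCG.Step
import Pool.Agent.MCG.Lam
import Pool.Agent.MCG.Coat

set_option autoImplicit false
set_option linter.unusedSectionVars false

noncomputable section

/-!
PACKAGE MCG-THM1. Theorem 1 of the page, for a set `W` of fixed elements.

`comm_eps`: the entry `(0, 1)` of `heis x x` is a homomorphism to an abelian group, so it is `0`
on the commutator subgroup; `eps_foxl_single`.
`alpha_lin`: for a homomorphism `α : F → Z/p`: `∑ a_f α f = ∑ y, α y * eps (foxl y a)` (linear; for
group elements both sides are additive in `f`).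
`no_torsion`: `N`: let `s` with `Fil s = ⊥` for the group `ZMod p → P`
(`exists_fil_eq_bot`), and `s'` with `Fil s' = ⊥` for `P`; `N = s + p + s'`. Given `g`, `gb`:
`gb ^ p = 1` because `π ((g ^ p) f) = π f`: `single (π ..) - single (π f) ∈ Fil N = ⊥` (`map_fil`)
and `π` is surjective. If `gb ≠ 1` let `K` be the subgroup of the fixed points of `gb`, `K ≠ ⊤`,
`exists_alpha`. Let `w ∈ W`. `base`, and `step` for `m = 1, .., p - 1` give `InU g N p (vU w)`
(`vU_mem`, `JJ_anti`).
Let `x : ι`, `c` from `exists_cx`, `Λ` from `exists_lam`. `Λ ∘ c` vanishes on `ia g (XX y) * w y`,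
`w y ∈ J_p`
(`c (ia g (XX y) * w y) = ia g (XX y) * c (w y)`, `ia g (XX y) = single (io g y) 1 - 1`), on
`Nm z`
(`∑ i, Λ (sg i (c z)) = p • Λ (c z) = 0`), and on `Fil N` (`c` maps it to `Fil s`, whose image in
the group algebra of `ZMod p → P` is `0`, `map_fil`). So `Λ (c (vU w)) = 0`, which is
`∑ (foxr x w)_f α (π f) = ∑ y, α (π y) * eps (foxl y (foxr x w)) = ∑ y, α (π y) * coef w y x`
(`eps_foxl_foxr`). For all `w ∈ W` and all `x`, so `α (π y) = 0` for all generators `y` (`hW.2`), so
`α = 1`
(`π` surjective, `FreeGroup.closure_range_of`). Contradiction.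
-/

namespace Pool.Agent.MCG

open MonoidAlgebra Pool.Agent.Lvl

variable {p : ℕ} [hp : Fact p.Prime] {ι : Type} [DecidableEq ι] [Fintype ι]

private theorem eps_single_Thm1 {P : Type} [Group P] (g : P) :
    eps (ZMod p) P (single g 1) = 1 := by
  unfold eps
  rw [MonoidAlgebra.lift_single]
  simp

private theorem eps_foxl_mul_Thm1 (x : ι) (a b : FreeGroup ι) :
    eps (ZMod p) (FreeGroup ι) (foxl (ZMod p) x (single (a * b) 1)) =
      eps (ZMod p) (FreeGroup ι) (foxl (ZMod p) x (single a 1)) +
        eps (ZMod p) (FreeGroup ι) (foxl (ZMod p) x (single b 1)) := by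
  have h1 : (single (a * b) 1 : MonoidAlgebra (ZMod p) (FreeGroup ι)) =
      single a 1 * single b 1 := by
    rw [single_mul_single, mul_one]
  rw [h1, foxl_mul, map_add, map_mul, map_smul, eps_single_Thm1, eps_single_Thm1, mul_one,
    one_smul]

private def eh_Thm1 (p : ℕ) [hp : Fact p.Prime] (x : ι) : FreeGroup ι →* Multiplicative (ZMod p) :=
  MonoidHom.mk' (fun f => Multiplicative.ofAdd
    (eps (ZMod p) (FreeGroup ι) (foxl (ZMod p) x (single f 1)))) (by
      intro a b
      rw [eps_foxl_mul_Thm1, ofAdd_add])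

private def ah_Thm1 (α : FreeGroup ι →* Multiplicative (ZMod p)) :
    FreeGroup ι →* Multiplicative (ZMod p) :=
  MonoidHom.mk' (fun f => Multiplicative.ofAdd (∑ y, (α (FreeGroup.of y)).toAdd *
    eps (ZMod p) (FreeGroup ι) (foxl (ZMod p) y (single f 1)))) (by
      intro a b
      rw [← ofAdd_add, ← Finset.sum_add_distrib]
      congr 1
      refine Finset.sum_congr rfl fun y _ => ?_
      rw [eps_foxl_mul_Thm1, mul_add])

private theorem ah_eq_Thm1 (α : FreeGroup ι →* Multiplicative (ZMod p)) : ah_Thm1 α = α := by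
  refine FreeGroup.ext_hom _ _ fun x => ?_
  change Multiplicative.ofAdd (∑ y, (α (FreeGroup.of y)).toAdd *
    eps (ZMod p) (FreeGroup ι) (foxl (ZMod p) y (single (FreeGroup.of x) 1))) = _
  have h1 : ∀ y, (α (FreeGroup.of y)).toAdd *
      eps (ZMod p) (FreeGroup ι) (foxl (ZMod p) y (single (FreeGroup.of x) 1)) =
      if x = y then (α (FreeGroup.of y)).toAdd else 0 := by
    intro y
    rw [foxl_of]
    by_cases h : x = y
    · rw [if_pos h, if_pos h, map_one, mul_one]
    · rw [if_neg h, if_neg h, map_zero, mul_zero]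
  rw [Finset.sum_congr rfl fun y _ => h1 y, Finset.sum_ite_eq, if_pos (Finset.mem_univ _),
    ofAdd_toAdd]

private theorem pg_Thm1 {P : Type} [Group P] [Finite P] (hP : IsPGroup p P) :
    IsPGroup p (ZMod p → P) := by
  obtain ⟨n, hn⟩ := IsPGroup.iff_card.1 hP
  intro z
  refine ⟨n, ?_⟩
  funext j
  rw [Pi.pow_apply, Pi.one_apply, ← hn]
  exact pow_card_eq_one'

private theorem single_inj_Thm1 {P : Type} [Group P] {a b : P}
    (h : (single a 1 : MonoidAlgebra (ZMod p) P) = single b 1) : a = b := by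
  classical
  by_contra hne
  have h1 := congrArg (fun u : MonoidAlgebra (ZMod p) P => u.coeff a) h
  simp only [coeff_single] at h1
  rw [Finsupp.single_eq_same, Finsupp.single_eq_of_ne hne] at h1
  exact one_ne_zero h1

theorem comm_eps {w : FreeGroup ι} (hw : w ∈ commutator (FreeGroup ι)) (x : ι) :
    eps (ZMod p) (FreeGroup ι) (foxl (ZMod p) x (single w 1)) = 0 := by
  have h1 : w ∈ (eh_Thm1 p x).ker := Abelianization.commutator_subset_ker _ hw
  rw [MonoidHom.mem_ker] at h1
  exact congrArg Multiplicative.toAdd h1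

theorem alpha_lin (α : FreeGroup ι →* Multiplicative (ZMod p))
    (a : MonoidAlgebra (ZMod p) (FreeGroup ι)) :
    (a.coeff.sum fun f c => c * (α f).toAdd) =
      ∑ y, (α (FreeGroup.of y)).toAdd * eps (ZMod p) (FreeGroup ι) (foxl (ZMod p) y a) := by
  induction a using MonoidAlgebra.induction_linear with
  | zero =>
    rw [coeff_zero, Finsupp.sum_zero_index]
    symm
    refine Finset.sum_eq_zero fun y _ => ?_
    rw [map_zero, map_zero, mul_zero]
  | add a b ha hb =>
    rw [coeff_add, Finsupp.sum_add_index' (fun f => zero_mul _) (fun f c d => add_mul _ _ _), ha,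
      hb, ← Finset.sum_add_distrib]
    refine Finset.sum_congr rfl fun y _ => ?_
    rw [map_add, map_add, mul_add]
  | single f r =>
    rw [coeff_single, Finsupp.sum_single_index (zero_mul _)]
    have h1 := DFunLike.congr_fun (ah_eq_Thm1 α) f
    have h2 : (α f).toAdd = ∑ y, (α (FreeGroup.of y)).toAdd *
        eps (ZMod p) (FreeGroup ι) (foxl (ZMod p) y (single f 1)) :=
      (congrArg Multiplicative.toAdd h1).symm
    have h3 : (single f r : MonoidAlgebra (ZMod p) (FreeGroup ι)) = r • single f 1 := by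
      rw [MonoidAlgebra.smul_single, smul_eq_mul, mul_one]
    rw [h2, h3, Finset.mul_sum]
    refine Finset.sum_congr rfl fun y _ => ?_
    rw [map_smul, map_smul, smul_eq_mul]
    ring

theorem no_torsion {W : Set (FreeGroup ι)} (hW : NondegAt p W) {P : Type} [Group P] [Finite P]
    (hP : IsPGroup p P) (π : FreeGroup ι →* P) (hπ : Function.Surjective π) :
    ∃ N : ℕ, ∀ (g : MulAut (FreeGroup ι)) (gb : MulAut P), (∀ f, π (g f) = gb (π f)) →
      (∀ w ∈ W, g w = w) →
      (∀ f, single ((g ^ p) f) (1 : ZMod p) - single f 1 ∈ Fil (ZMod p) (FreeGroup ι) N) →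
      gb = 1 := by
  classical
  obtain ⟨s, hs⟩ := exists_fil_eq_bot (p := p) (pg_Thm1 hP)
  obtain ⟨s', hs'⟩ := exists_fil_eq_bot (p := p) hP
  refine ⟨s + s' + p, fun g gb hg hgW hN => ?_⟩
  have hpow : ∀ (k : ℕ) (f : FreeGroup ι), π ((g ^ k) f) = (gb ^ k) (π f) := by
    intro k
    induction k with
    | zero => intro f; rfl
    | succ k ih =>
      intro f
      rw [pow_succ, pow_succ, MulAut.mul_apply, MulAut.mul_apply, ih, hg]
  have hp1 : gb ^ p = 1 := by
    refine MulEquiv.ext fun y => ?_
    obtain ⟨f, rfl⟩ := hπ y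
    rw [← hpow, MulAut.one_apply]
    have h1 := map_fil (R := ZMod p) π (hN f)
    rw [map_sub, mapDomainRingHom_apply, mapDomainRingHom_apply, mapDomain_single,
      mapDomain_single] at h1
    have h2 := fil_le (R := ZMod p) (P := P) (show s' ≤ s + s' + p by omega) h1
    rw [hs', Submodule.mem_bot, sub_eq_zero] at h2
    exact single_inj_Thm1 h2
  by_contra hne
  obtain ⟨K, hK⟩ : ∃ K : Subgroup P, ∀ y, y ∈ K ↔ gb y = y := by
    refine ⟨{ carrier := {y | gb y = y}
              mul_mem' := ?_
              one_mem' := ?_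
              inv_mem' := ?_ }, fun y => Iff.rfl⟩
    · intro a b ha hb
      change gb (a * b) = a * b
      rw [map_mul]
      have ha' : gb a = a := ha
      have hb' : gb b = b := hb
      rw [ha', hb']
    · exact map_one gb
    · intro a ha
      change gb a⁻¹ = a⁻¹
      rw [map_inv]
      have ha' : gb a = a := ha
      rw [ha']
  have hKt : K ≠ ⊤ := by
    intro h
    apply hne
    refine MulEquiv.ext fun y => ?_
    exact (hK y).1 (h ▸ Subgroup.mem_top y)
  obtain ⟨α, hα1, hα2⟩ := exists_alpha hP K hKt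
  obtain ⟨Λ, hΛ1, hΛ2, hΛ3, hΛ4⟩ := exists_lam π g gb hg hp1 α fun y hy => hα2 y ((hK y).2 hy)
  have hInU : ∀ w ∈ W, ∀ m, 1 ≤ m → m ≤ p →
      InU g (s + s' + p) m (vU w : BB p (FreeGroup ι)) := by
    intro w hw m hm
    induction m, hm using Nat.le_induction with
    | base => exact fun _ => base g _ (hgW w hw) fun x => comm_eps (hW.1 w hw) x
    | succ m hm ih =>
      intro hmp
      exact step g hN hm hmp (JJ_anti hmp (vU_mem w)) (ih (by omega))
  have key : ∀ w ∈ W, ∀ x : ι, ∑ y, (α (π (FreeGroup.of y))).toAdd *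
      ((coef w y x : ℤ) : ZMod p) = 0 := by
    intro w hw x
    obtain ⟨c, hc1, hc2, hc3, hc4⟩ := exists_cx (p := p) x
    obtain ⟨w', z, hw', hz, he⟩ := hInU w hw p hp.out.one_lt.le le_rfl
    have e1 : Λ (c (vU w)) = ∑ y, (α (π (FreeGroup.of y))).toAdd *
        ((coef w y x : ℤ) : ZMod p) := by
      rw [hc4, hΛ4]
      have h1 := alpha_lin (α.comp π) (foxr (ZMod p) x (single w 1))
      refine h1.trans (Finset.sum_congr rfl fun y _ => ?_)
      rw [eps_foxl_foxr]
      rfl
    have e2 : ∀ y, Λ (c (ia g (XX p y) * w' y)) = 0 := by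
      intro y
      rw [hc1 _ (hw' y)]
      have h1 : ia g (XX p y) = single (io g (FreeGroup.of y)) 1 - 1 := by
        unfold XX
        rw [map_sub, map_one, ia_single]
      rw [h1, sub_mul, one_mul, map_sub, hΛ1, sub_self]
    have e3 : Λ (c (Nm z)) = 0 := by
      unfold Nm
      rw [map_sum, map_sum, Finset.sum_congr rfl fun i _ => (congrArg Λ (hc2 i z)).trans
        (hΛ2 i (c z)), Finset.sum_const, Finset.card_univ, ZMod.card, nsmul_eq_mul,
        CharP.cast_eq_zero, zero_mul]
    have e4 : Λ (c (vU w - (∑ y, ia g (XX p y) * w' y + Nm z))) = 0 := by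
      apply hΛ3
      have h1 := hc3 (s + s') _ he
      have h2 := map_fil (R := ZMod p) (MonoidHom.pi fun j => π.comp (Pi.evalMonoidHom
        (fun _ : ZMod p => FreeGroup ι) j)) h1
      have h3 := fil_le (R := ZMod p) (P := ZMod p → P) (show s ≤ s + s' by omega) h2
      rw [hs, Submodule.mem_bot] at h3
      exact h3
    rw [map_sub, map_sub, map_add, map_add, map_sum, map_sum, e3,
      Finset.sum_eq_zero fun y _ => e2 y, add_zero, sub_zero] at e4
    rw [← e1]
    exact e4
  have hv := hW.2 (fun y => (α (π (FreeGroup.of y))).toAdd) key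
  apply hα1
  have h1 : α.comp π = 1 := by
    refine FreeGroup.ext_hom _ _ fun y => ?_
    have h2 := congrFun hv y
    change α (π (FreeGroup.of y)) = 1
    rw [← ofAdd_toAdd (α (π (FreeGroup.of y)))]
    exact congrArg Multiplicative.ofAdd h2
  refine MonoidHom.ext fun y => ?_
  obtain ⟨f, rfl⟩ := hπ y
  exact DFunLike.congr_fun h1 f

end Pool.Agent.MCG
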