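import Pool.Agent.MCG.Denom
import Pool.Agent.MCG.Lat
import Pool.Agent.MCG.Thm1
import Pool.Agent.Lvl.Final

set_option autoImplicit false
set_option linter.unusedSectionVars false

noncomputable section

open Classical

/-!
The property `NT` for groups of automorphisms of a free group which fix the elements of a
nondegenerate set and act on `H₁(F; ℤ/q)` as a `p`-group.
-/

namespace Pool.Agent.MCG

open MonoidAlgebra Pool.Agent.Lvl

section

variable {H G : Type} [Group H] [Group G]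

private def actL (f : H →* H) : MonoidAlgebra ℚ H →ₗ[ℚ] MonoidAlgebra ℚ H :=
  (mapDomainAlgHom ℚ ℚ f).toLinearMap

private lemma actL_apply (f : H →* H) (x : MonoidAlgebra ℚ H) :
    actL f x = mapDomainRingHom ℚ f x := rfl

private lemma act_one (x : MonoidAlgebra ℚ H) :
    mapDomainRingHom ℚ ((1 : MulAut H) : H →* H) x = x := by
  have h1 : ((1 : MulAut H) : H →* H) = MonoidHom.id H := rfl
  rw [h1, mapDomainRingHom_id]
  rfl

private lemma act_mul (a b : MulAut H) (x : MonoidAlgebra ℚ H) :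
    mapDomainRingHom ℚ ((a * b : MulAut H) : H →* H) x =
      mapDomainRingHom ℚ (a : H →* H) (mapDomainRingHom ℚ (b : H →* H) x) := by
  have h1 : ((a * b : MulAut H) : H →* H) = (a : H →* H).comp (b : H →* H) := rfl
  rw [h1, mapDomainRingHom_comp]
  rfl

/-- the action on the quotient by `Fil n` -/
private def actF (φ : G →* MulAut H) (n : ℕ) :
    G →* Module.End ℚ (MonoidAlgebra ℚ H ⧸ Fil ℚ H n) where
  toFun γ := (Fil ℚ H n).mapQ (Fil ℚ H n) (actL (φ γ : H →* H)) (fun _ hx => map_fil _ hx)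
  map_one' := by
    refine LinearMap.ext fun v => ?_
    obtain ⟨x, rfl⟩ := (Fil ℚ H n).mkQ_surjective v
    rw [Submodule.mkQ_apply, Submodule.mapQ_apply, actL_apply, map_one, act_one]
    rfl
  map_mul' a b := by
    refine LinearMap.ext fun v => ?_
    obtain ⟨x, rfl⟩ := (Fil ℚ H n).mkQ_surjective v
    rw [Module.End.mul_apply, Submodule.mkQ_apply, Submodule.mapQ_apply, Submodule.mapQ_apply,
      Submodule.mapQ_apply, actL_apply, actL_apply, actL_apply, map_mul, act_mul]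

private lemma actF_apply (φ : G →* MulAut H) (n : ℕ) (γ : G) (x : MonoidAlgebra ℚ H) :
    actF φ n γ ((Fil ℚ H n).mkQ x) = (Fil ℚ H n).mkQ (mapDomainRingHom ℚ (φ γ : H →* H) x) := rfl

private lemma act_yy (φ : MulAut H) (q : ℕ) (h : H) :
    mapDomainRingHom ℚ (φ : H →* H) (yy q h) = yy q (φ h) := by
  have h1 : ∀ x, mapDomainRingHom ℚ (φ : H →* H) x = actL (φ : H →* H) x := fun _ => rfl
  unfold yy
  rw [h1, map_smul, map_sub, actL_apply, actL_apply, map_one, mapDomainRingHom_apply,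
    mapDomain_single]
  rfl

private lemma act_SS {q : ℕ} (φ : MulAut H) {x : MonoidAlgebra ℚ H} (hx : x ∈ SS H q) :
    mapDomainRingHom ℚ (φ : H →* H) x ∈ SS H q := by
  have hx' : x ∈ Subring.closure (Set.range (yy q : H → MonoidAlgebra ℚ H)) := hx
  clear hx
  induction hx' using Subring.closure_induction with
  | mem x hx =>
    obtain ⟨h, rfl⟩ := hx
    rw [act_yy]
    exact yy_mem _
  | zero => rw [map_zero]; exact zero_mem _
  | one => rw [map_one]; exact one_mem _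
  | add x y _ _ hx hy => rw [map_add]; exact add_mem hx hy
  | neg x _ hx => rw [map_neg]; exact neg_mem hx
  | mul x y _ _ hx hy => rw [map_mul]; exact mul_mem hx hy

/-- the automorphism induced on `H₁(H; ℤ/m)` -/
private def ind (φ : MulAut H) (m : ℕ) : MulAut (H ⧸ UU H m) where
  toFun := QuotientGroup.map (UU H m) (UU H m) (φ : H →* H) fun _ hx => UU_char H m φ hx
  invFun := QuotientGroup.map (UU H m) (UU H m) ((φ⁻¹ : MulAut H) : H →* H)
    fun _ hx => UU_char H m φ⁻¹ hx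
  left_inv x := by
    obtain ⟨x, rfl⟩ := QuotientGroup.mk_surjective x
    show (((φ⁻¹ : MulAut H) (φ x) : H) : H ⧸ UU H m) = x
    rw [MulAut.inv_apply_self]
  right_inv x := by
    obtain ⟨x, rfl⟩ := QuotientGroup.mk_surjective x
    show ((φ ((φ⁻¹ : MulAut H) x) : H) : H ⧸ UU H m) = x
    rw [MulAut.apply_inv_self]
  map_mul' x y := map_mul _ x y

end

variable {ι : Type} [DecidableEq ι] [Fintype ι]

/-- the criterion: every `g` whose `p`-th power is trivial modulo a high power of the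
augmentation ideal of `𝔽_p F` acts trivially on `H₁(F; ℤ/q)` -/
theorem nt_of_level {p q : ℕ} [hp : Fact p.Prime]
    (hq : ∃ s, q = p ^ s) (h3 : 3 ≤ q) {G : Type} [Group G] (f : G →* MulAut (FreeGroup ι))
    (hf : Function.Injective f)
    (hN : ∃ N0 : ℕ, ∀ g, (∀ h, single ((f g ^ p) h) (1 : ZMod p) - single h 1 ∈
      Fil (ZMod p) (FreeGroup ι) N0) → f g ∈ level (FreeGroup ι) q)
    (hpg : ∀ g, ∃ a : ℕ, f g ^ p ^ a ∈ level (FreeGroup ι) q) : NT p q G := by
  have hq0 : 0 < q := by omega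
  have hfg : Group.FG (FreeGroup ι) := inferInstance
  obtain ⟨N0, hN0⟩ := hN
  have hres : ResN (FreeGroup ι) :=
    SurfH.resN (Or.inl ⟨Fintype.card ι, ⟨FreeGroup.freeGroupCongr (Fintype.equivFin ι)⟩⟩)
  intro E hE
  have hdet : ∀ g : E, ∃ (h : FreeGroup ι) (n : ℕ),
      (single (f g h) (1 : ℚ) - single h 1 : MonoidAlgebra ℚ (FreeGroup ι)) ∉
        Fil ℚ (FreeGroup ι) n := by
    intro g
    have hg1 : f g ≠ 1 := fun h1 => hE g g.2 (hf (h1.trans (map_one f).symm))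
    obtain ⟨h, hh⟩ : ∃ h, f g h ≠ h := by
      by_contra hcon
      push Not at hcon
      exact hg1 (MulEquiv.ext hcon)
    obtain ⟨n, hn⟩ := hres (h⁻¹ * f g h) (by
      intro h2
      apply hh
      rw [inv_mul_eq_one] at h2
      exact h2.symm)
    refine ⟨h, n, fun hmem => hn ?_⟩
    have h3 := fil_mul_left hmem (single h⁻¹ 1)
    rwa [mul_sub, single_mul_single, single_mul_single, mul_one, inv_mul_cancel,
      ← MonoidAlgebra.one_def] at h3
  choose hh nn hhn using hdet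
  set r := N0 + ∑ g, nn g with hr
  have hrn : ∀ g, nn g ≤ r + 1 := fun g => by
    have h1 : nn g ≤ ∑ g, nn g :=
      Finset.single_le_sum (fun _ _ => Nat.zero_le _) (Finset.mem_univ g)
    omega
  set Λ : AddSubgroup (MonoidAlgebra ℚ (FreeGroup ι) ⧸ Fil ℚ (FreeGroup ι) (r + 1)) :=
    (SS (FreeGroup ι) q).toAddSubgroup.map (Fil ℚ (FreeGroup ι) (r + 1)).mkQ.toAddMonoidHom with hΛ
  have hmemΛ : ∀ x ∈ SS (FreeGroup ι) q, (Fil ℚ (FreeGroup ι) (r + 1)).mkQ x ∈ Λ :=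
    fun x hx => ⟨x, hx, rfl⟩
  obtain ⟨N, φ, h1, h2⟩ := lattice_rep (actF f (r + 1)) Λ (SS_fg hq0 _ le_rfl) (by
    rintro g _ ⟨x, hx, rfl⟩
    exact ⟨_, act_SS (f g) hx, rfl⟩)
  have hlev : ∀ g, f g ∈ level (FreeGroup ι) q → ∀ i j, (q : ℤ) ∣ (φ g - 1) i j := by
    intro g hg
    rw [h2 q g]
    rintro _ ⟨x, hx, rfl⟩
    obtain ⟨y, hy, hxy⟩ := act_sub hq0 (f g : FreeGroup ι →* FreeGroup ι) hg hx
    refine ⟨_, hmemΛ y hy, ?_⟩
    show (Fil ℚ (FreeGroup ι) (r + 1)).mkQ _ = (Fil ℚ (FreeGroup ι) (r + 1)).mkQ x +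
      q • (Fil ℚ (FreeGroup ι) (r + 1)).mkQ y
    have hxy' : (actL (f g : FreeGroup ι →* FreeGroup ι)) x = x + (q : ℚ) • y := hxy
    have h4 : (Fil ℚ (FreeGroup ι) (r + 1)).mkQ ((actL (f g : FreeGroup ι →* FreeGroup ι)) x) =
        (Fil ℚ (FreeGroup ι) (r + 1)).mkQ x + q • (Fil ℚ (FreeGroup ι) (r + 1)).mkQ y := by
      rw [hxy', map_add, map_smul, Nat.cast_smul_eq_nsmul]
    exact h4
  refine ⟨N, φ, fun g => ?_, ?_, fun g hg hφ => ?_⟩
  · obtain ⟨a, ha⟩ := hpg g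
    refine ⟨a, ?_⟩
    rw [← map_pow]
    exact hlev _ (by rwa [map_pow])
  · obtain ⟨M, hM⟩ := denom (ι := ι) hq0 p r
    refine ⟨M, fun g hg => hlev g ?_⟩
    rw [← map_pow] at hg
    rw [h2 (q * p ^ M) (g ^ p)] at hg
    have key : ∀ h, single ((f g ^ p) h) (1 : ZMod p) - single h 1 ∈
        Fil (ZMod p) (FreeGroup ι) N0 := by
      intro h
      obtain ⟨_, ⟨s, hs, rfl⟩, h6⟩ := hg _ (hmemΛ _ (yy_mem h))
      have h7 : (Fil ℚ (FreeGroup ι) (r + 1)).mkQ (yy q (f (g ^ p) h)) =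
          (Fil ℚ (FreeGroup ι) (r + 1)).mkQ (yy q h) +
            (q * p ^ M) • (Fil ℚ (FreeGroup ι) (r + 1)).mkQ s := by
        rw [← act_yy]
        exact h6
      have h8 : yy q (f (g ^ p) h) - yy q h - ((q * p ^ M : ℕ) : ℚ) • s ∈
          Fil ℚ (FreeGroup ι) (r + 1) := by
        rw [← Submodule.ker_mkQ (Fil ℚ (FreeGroup ι) (r + 1)), LinearMap.mem_ker, map_sub,
          map_sub, map_smul, h7, Nat.cast_smul_eq_nsmul]
        abel
      have hqs : (q : ℚ) • s ∈ SS (FreeGroup ι) q := by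
        rw [Nat.cast_smul_eq_nsmul]
        exact nsmul_mem hs q
      have h9 := hM (f (g ^ p) h) h ((q : ℚ) • s) hqs
        ((q : ℚ) • (yy q (f (g ^ p) h) - yy q h - ((q * p ^ M : ℕ) : ℚ) • s))
        (Submodule.smul_mem _ _ h8) (by
          rw [single_eq hq0 (f (g ^ p) h), single_eq hq0 h, smul_sub, smul_sub,
            smul_comm (q : ℚ) (((q * p ^ M : ℕ) : ℚ)) s]
          abel)
      rw [map_pow] at h9
      exact fil_le (by omega) h9
    exact hN0 g key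
  · have h4 := h1 g hφ _ (hmemΛ _ (yy_mem (hh ⟨g, hg⟩)))
    have h5 : (Fil ℚ (FreeGroup ι) (r + 1)).mkQ (yy q (f g (hh ⟨g, hg⟩))) =
        (Fil ℚ (FreeGroup ι) (r + 1)).mkQ (yy q (hh ⟨g, hg⟩)) := by
      rw [← act_yy]
      exact h4
    have h6 : yy q (f g (hh ⟨g, hg⟩)) - yy q (hh ⟨g, hg⟩) ∈ Fil ℚ (FreeGroup ι) (r + 1) := by
      rw [← Submodule.ker_mkQ (Fil ℚ (FreeGroup ι) (r + 1)), LinearMap.mem_ker, map_sub, h5,
        sub_self]
    have h7 := Submodule.smul_mem _ (q : ℚ) h6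
    have h8 : (q : ℚ) • (yy q (f g (hh ⟨g, hg⟩)) - yy q (hh ⟨g, hg⟩)) =
        single (f g (hh ⟨g, hg⟩)) 1 - single (hh ⟨g, hg⟩) 1 := by
      rw [single_eq hq0 (f g (hh ⟨g, hg⟩)), single_eq hq0 (hh ⟨g, hg⟩), smul_sub]
      abel
    rw [h8] at h7
    exact hhn ⟨g, hg⟩ (fil_le (hrn ⟨g, hg⟩) h7)

theorem level_of_fix {p q : ℕ} [hp : Fact p.Prime] {W : Set (FreeGroup ι)} (hW : NondegAt p W)
    (hq : ∃ s, q = p ^ s) (h3 : 3 ≤ q) {G : Type} [Group G] (f : G →* MulAut (FreeGroup ι))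
    (hfix : ∀ g, ∀ w ∈ W, f g w = w) :
    ∃ N0 : ℕ, ∀ g, (∀ h, single ((f g ^ p) h) (1 : ZMod p) - single h 1 ∈
      Fil (ZMod p) (FreeGroup ι) N0) → f g ∈ level (FreeGroup ι) q := by
  have hq0 : 0 < q := by omega
  have hfg : Group.FG (FreeGroup ι) := inferInstance
  have hfin : Finite (FreeGroup ι ⧸ UU (FreeGroup ι) q) := finite_quot hq0
  have hP : IsPGroup p (FreeGroup ι ⧸ UU (FreeGroup ι) q) := by
    obtain ⟨s, hs⟩ := hq
    intro x
    obtain ⟨a, rfl⟩ := QuotientGroup.mk_surjective x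
    refine ⟨s, ?_⟩
    rw [← hs]
    exact (QuotientGroup.eq_one_iff _).2 (Subgroup.subset_closure (Or.inr ⟨a, rfl⟩))
  obtain ⟨N0, hN0⟩ := no_torsion hW hP (QuotientGroup.mk' (UU (FreeGroup ι) q))
    (QuotientGroup.mk'_surjective _)
  refine ⟨N0, fun g key => ?_⟩
  have h5 := hN0 (f g) (ind (f g) q) (fun x => rfl) (hfix g) key
  intro x
  have h6 := congrArg (fun u : MulAut (FreeGroup ι ⧸ UU (FreeGroup ι) q) =>
    u (x : FreeGroup ι ⧸ UU (FreeGroup ι) q)) h5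
  exact QuotientGroup.eq.1 (Eq.symm h6 :
    (x : FreeGroup ι ⧸ UU (FreeGroup ι) q) = (f g x : FreeGroup ι))

theorem nt_of_fix {p q : ℕ} [hp : Fact p.Prime] {W : Set (FreeGroup ι)} (hW : NondegAt p W)
    (hq : ∃ s, q = p ^ s) (h3 : 3 ≤ q) {G : Type} [Group G] (f : G →* MulAut (FreeGroup ι))
    (hf : Function.Injective f) (hfix : ∀ g, ∀ w ∈ W, f g w = w)
    (hpg : ∀ g, ∃ a : ℕ, f g ^ p ^ a ∈ level (FreeGroup ι) q) : NT p q G :=
  nt_of_level hq h3 f hf (level_of_fix hW hq h3 f hfix) hpg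

end Pool.Agent.MCG
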