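import Pool.Agent.MCG.PEx

set_option autoImplicit false
set_option linter.unusedSectionVars false

noncomputable section

/-!
The centraliser of a generator, modulo the powers of the augmentation ideal (`cent` of `PCent.lean`).
-/

namespace Pool.Agent.MCG

open MonoidAlgebra Pool.Agent.Lvl

variable {ι : Type} [DecidableEq ι] [Fintype ι]

theorem cent_group {R : Type} [CommRing R] (j : ι) (N : ℕ) (y : FreeGroup ι)
    (h : single (y * FreeGroup.of j) (1 : R) - single (FreeGroup.of j * y) 1 ∈
      Fil R (FreeGroup ι) (N + 1)) :
    single y (1 : R) - single (FreeGroup.of j ^ ex j y) 1 ∈ Fil R (FreeGroup ι) N := by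
  refine cent j y ?_
  have h1 := Submodule.neg_mem _ h
  rwa [neg_sub] at h1

end Pool.Agent.MCG
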