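import Pool.Agent.MCG.Fox

set_option autoImplicit false
set_option linter.unusedSectionVars false

noncomputable section

/-!
The centraliser of a generator `x` modulo powers of the augmentation ideal: an element which
commutes with `x` modulo `I ^ (N + 1)` is congruent to a power of `x` modulo `I ^ N`. Here
`retr x` is the retraction of the free group to the powers of `x`.

Proof. Let `X = x - 1` and `d` with `X d - d X ∈ I ^ (N + 1)` and `retr d ∈ I ^ N`; then `d ∈ I ^ N`
by induction on `N`, with the right Fox derivatives `d_y`: for `y ≠ x` the derivative of the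
commutator is `X d_y`, so `d_y ∈ I ^ (N - 1)`; for `y = x` it is `X d_x + eps d - d`, so `d ≡ X d_x`
modulo `I ^ N`, and `d = ∑ d_y (y - 1) ≡ d_x X`. So `d_x` satisfies the hypothesis for `N - 1`.
-/

namespace Pool.Agent.MCG

open MonoidAlgebra Pool.Agent.Lvl

section

variable {ι : Type} [DecidableEq ι]

/-- the retraction to the powers of the generator `x` -/
def retr (x : ι) : FreeGroup ι →* FreeGroup ι :=
  FreeGroup.lift fun y => if y = x then FreeGroup.of x else 1

/-- all exponent sums of the element, as a homomorphism to the integers -/
def expo (x : ι) : FreeGroup ι →* Multiplicative ℤ :=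
  FreeGroup.lift fun y => if y = x then Multiplicative.ofAdd 1 else 1

theorem retr_eq (x : ι) (z : FreeGroup ι) : retr x z = FreeGroup.of x ^ (expo x z).toAdd := by
  have h : retr x = ((zpowersHom (FreeGroup ι)) (FreeGroup.of x)).comp (expo x) := by
    refine FreeGroup.ext_hom _ _ fun y => ?_
    unfold retr expo
    rw [MonoidHom.comp_apply, FreeGroup.lift_apply_of, FreeGroup.lift_apply_of]
    by_cases h : y = x
    · rw [if_pos h, if_pos h]
      simp
    · rw [if_neg h, if_neg h, map_one]
  rw [h]
  rfl

variable {R : Type} [CommRing R] [Fintype ι]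

private theorem xx_mul (x : ι) (a : MonoidAlgebra R (FreeGroup ι)) :
    foxl R x ((single (FreeGroup.of x) 1 - 1) * a) = a := by
  have h := foxl_unique (R := R) (fun y => if y = x then a else 0) x
  rw [if_pos rfl, Finset.sum_eq_single x] at h
  · rwa [if_pos rfl] at h
  · intro y _ hy
    rw [if_neg hy, mul_zero]
  · intro h
    exact absurd (Finset.mem_univ x) h

private theorem mul_xx (x y : ι) (a : MonoidAlgebra R (FreeGroup ι)) :
    foxr R y (a * (single (FreeGroup.of x) 1 - 1)) = if y = x then a else 0 := by
  have h := foxr_unique (R := R) (fun y => if y = x then a else 0) y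
  rw [Finset.sum_eq_single x] at h
  · rwa [if_pos rfl] at h
  · intro y _ hy
    rw [if_neg hy, zero_mul]
  · intro h
    exact absurd (Finset.mem_univ x) h

private theorem eps_xx (x : ι) :
    eps R (FreeGroup ι) (single (FreeGroup.of x) 1 - 1) = 0 := by
  unfold eps
  exact lift_fil_one (single_sub_mem _)

private theorem foxr_xx (x y : ι) :
    foxr R y (single (FreeGroup.of x) 1 - 1) = if y = x then 1 else 0 := by
  have h := mul_xx (R := R) x y 1
  rwa [one_mul] at h

private theorem eps_map (x : ι) (a : MonoidAlgebra R (FreeGroup ι)) :
    eps R (FreeGroup ι) (mapDomainRingHom R (retr x) a) = eps R (FreeGroup ι) a := by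
  induction a using MonoidAlgebra.induction_linear with
  | zero => rw [map_zero, map_zero]
  | add a b ha hb => rw [map_add, map_add, map_add, ha, hb]
  | single g r =>
    have h : mapDomainRingHom R (retr x) (single g r) = single (retr x g) r := mapDomain_single
    rw [h]
    unfold eps
    rw [MonoidAlgebra.lift_single, MonoidAlgebra.lift_single]
    rfl

private theorem cent_aux (x : ι) : ∀ (N : ℕ) (d : MonoidAlgebra R (FreeGroup ι)),
    (single (FreeGroup.of x) 1 - 1) * d - d * (single (FreeGroup.of x) 1 - 1) ∈
      Fil R (FreeGroup ι) (N + 1) →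
    mapDomainRingHom R (retr x) d ∈ Fil R (FreeGroup ι) N → d ∈ Fil R (FreeGroup ι) N := by
  intro N
  induction N with
  | zero => exact fun d _ _ => mem_fil_zero d
  | succ N ih =>
    intro d h1 h2
    -- the augmentation of `d` is zero
    have h0 : eps R (FreeGroup ι) d = 0 := by
      rw [← eps_map x d]
      unfold eps
      exact lift_fil_one (fil_le (by omega) h2)
    have hsum := foxr_sum d
    rw [h0, single_zero, zero_add] at hsum
    -- the derivatives with respect to the other generators
    have hy : ∀ y, y ≠ x → foxr R y d ∈ Fil R (FreeGroup ι) N := by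
      intro y hy
      have h3 := foxr_fil y h1
      rw [map_sub, foxr_mul, foxr_xx, if_neg hy, smul_zero, add_zero, mul_xx, if_neg hy,
        sub_zero] at h3
      have h4 := foxl_fil x h3
      rwa [xx_mul] at h4
    -- the derivative with respect to `x`
    have hx : (single (FreeGroup.of x) 1 - 1) * foxr R x d - d ∈ Fil R (FreeGroup ι) (N + 1) := by
      have h3 := foxr_fil x h1
      rwa [map_sub, foxr_mul, foxr_xx, if_pos rfl, h0, zero_smul, add_zero, mul_xx,
        if_pos rfl] at h3
    have hd : d - foxr R x d * (single (FreeGroup.of x) 1 - 1) ∈ Fil R (FreeGroup ι) (N + 1) := by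
      have e : d - foxr R x d * (single (FreeGroup.of x) 1 - 1) =
          ∑ y ∈ Finset.univ.erase x, foxr R y d * (single (FreeGroup.of y) 1 - 1) := by
        rw [sub_eq_iff_eq_add, Finset.sum_erase_add _ _ (Finset.mem_univ x)]
        exact hsum
      rw [e]
      refine Submodule.sum_mem _ fun y hy' => ?_
      exact fil_mul (hy y (Finset.ne_of_mem_erase hy')) (single_sub_mem _)
    have he : foxr R x d ∈ Fil R (FreeGroup ι) N := by
      refine ih _ ?_ ?_
      · have h5 := Submodule.add_mem _ hx hd
        rwa [sub_add_sub_cancel] at h5
      · have h6 := map_fil (retr x) hd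
        rw [map_sub, map_mul] at h6
        have h7 := Submodule.sub_mem _ h2 h6
        rw [sub_sub_cancel] at h7
        have h8 : mapDomainRingHom R (retr x) (single (FreeGroup.of x) 1 - 1 :
            MonoidAlgebra R (FreeGroup ι)) = single (FreeGroup.of x) 1 - 1 := by
          rw [map_sub, map_one]
          have h9 : mapDomainRingHom R (retr x) (single (FreeGroup.of x) (1 : R)) =
              single (retr x (FreeGroup.of x)) 1 := mapDomain_single
          rw [h9]
          unfold retr
          rw [FreeGroup.lift_apply_of, if_pos rfl]
        rw [h8] at h7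
        have h10 := foxr_fil x h7
        rwa [mul_xx, if_pos rfl] at h10
    have h11 := fil_mul he (single_sub_mem (R := R) (FreeGroup.of x))
    have h12 := Submodule.add_mem _ hd h11
    rwa [sub_add_cancel] at h12

/-- the centraliser of a generator -/
theorem cent (x : ι) (z : FreeGroup ι) {N : ℕ}
    (h : (single (FreeGroup.of x * z) 1 - single (z * FreeGroup.of x) 1 :
      MonoidAlgebra R (FreeGroup ι)) ∈ Fil R (FreeGroup ι) (N + 1)) :
    (single z 1 - single (FreeGroup.of x ^ (expo x z).toAdd) 1 :
      MonoidAlgebra R (FreeGroup ι)) ∈ Fil R (FreeGroup ι) N := by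
  rw [← retr_eq]
  have hrr : retr x (retr x z) = retr x z := by
    rw [retr_eq x z, map_zpow]
    unfold retr
    rw [FreeGroup.lift_apply_of, if_pos rfl]
  refine cent_aux x N _ ?_ ?_
  · have e : (single (FreeGroup.of x) 1 - 1) * (single z 1 - single (retr x z) 1) -
        (single z 1 - single (retr x z) 1) * (single (FreeGroup.of x) 1 - 1) =
        (single (FreeGroup.of x * z) 1 - single (z * FreeGroup.of x) 1 :
          MonoidAlgebra R (FreeGroup ι)) := by
      have hc : (single (FreeGroup.of x * retr x z) 1 : MonoidAlgebra R (FreeGroup ι)) =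
          single (retr x z * FreeGroup.of x) 1 := by
        rw [retr_eq]
        congr 1
        exact ((Commute.refl (FreeGroup.of x)).zpow_right _).eq
      rw [sub_mul, sub_mul, mul_sub, mul_sub, mul_sub, mul_sub, one_mul, one_mul, mul_one, mul_one,
        single_mul_single, single_mul_single, single_mul_single, single_mul_single, mul_one, hc]
      abel
    rw [e]
    exact h
  · have h1 : mapDomainRingHom R (retr x) (single z (1 : R) - single (retr x z) 1) = 0 := by
      rw [map_sub]
      have h2 : mapDomainRingHom R (retr x) (single z (1 : R)) = single (retr x z) 1 :=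
        mapDomain_single
      have h3 : mapDomainRingHom R (retr x) (single (retr x z) (1 : R)) =
          single (retr x (retr x z)) 1 := mapDomain_single
      rw [h2, h3, hrr, sub_self]
    rw [h1]
    exact Submodule.zero_mem _

end

end Pool.Agent.MCG
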