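import Pool.Agent.MCG.PKill
import Pool.Agent.MCG.Uni

set_option autoImplicit false
set_option linter.unusedSectionVars false

noncomputable section

/-!
The boundary word of the surface with punctures; change of the basis.
-/

namespace Pool.Agent.MCG

open MonoidAlgebra Pool.Agent.Lvl CongCL

private theorem heis_map {κ ι : Type} [DecidableEq κ] [DecidableEq ι] (e : κ ≃ ι) (i j : κ)
    (w : FreeGroup κ) : heis (e i) (e j) (FreeGroup.map e w) = heis i j w := by
  have h : (heis (e i) (e j)).comp (FreeGroup.map e) = heis i j := by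
    refine FreeGroup.ext_hom _ _ fun l => ?_
    rw [MonoidHom.comp_apply, FreeGroup.map.of]
    unfold heis
    rw [FreeGroup.lift_apply_of, FreeGroup.lift_apply_of]
    simp
  rw [← h]
  rfl

theorem nondegAt_map {κ ι : Type} [DecidableEq κ] [Fintype κ] [DecidableEq ι] [Fintype ι] {p : ℕ}
    (e : κ ≃ ι) {W : Set (FreeGroup κ)} (hW : NondegAt p W) :
    NondegAt p (FreeGroup.map e '' W) := by
  refine ⟨?_, fun v hv => ?_⟩
  · rintro _ ⟨w, hw, rfl⟩
    have h1 := hW.1 w hw
    have h2 : FreeGroup.map e w ∈ (commutator (FreeGroup κ)).map (FreeGroup.map e) :=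
      ⟨w, h1, rfl⟩
    rw [commutator_def, Subgroup.map_commutator] at h2
    exact Subgroup.commutator_mono le_top le_top h2
  · have h1 := hW.2 (fun i => v (e i)) fun w hw j => by
      have h2 := hv _ ⟨w, hw, rfl⟩ (e j)
      rw [← e.sum_comp] at h2
      simp only [coef, heis_map] at h2 ⊢
      exact h2
    funext i
    have h2 := congrFun h1 (e.symm i)
    simpa using h2

/-- the generators `x_j` -/
def isX (g m : ℕ) (i : (Fin g × Bool) ⊕ Fin m) : Prop := i.isRight = true

instance (g m : ℕ) : DecidablePred (isX g m) := fun i => inferInstanceAs (Decidable (i.isRight = true))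

private def eX (g m : ℕ) : Fin g × Bool ≃ {i // ¬ isX g m i} where
  toFun i := ⟨Sum.inl i, by simp [isX]⟩
  invFun a := match a with
    | ⟨Sum.inl i, _⟩ => i
    | ⟨Sum.inr _, h⟩ => (h rfl).elim
  left_inv i := rfl
  right_inv := by
    rintro ⟨i | j, h⟩
    · rfl
    · exact (h rfl).elim

private theorem kill_bdW (g m : ℕ) :
    kill (isX g m) (bdW g m) = FreeGroup.map (eX g m) (surfRel g) := by
  unfold bdW
  rw [map_mul, map_list_prod, List.map_ofFn]
  have h1 : (List.ofFn ((kill (isX g m)) ∘ fun j : Fin m => FreeGroup.of (Sum.inr j))).prod = 1 := by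
    apply List.prod_eq_one
    intro x hx
    obtain ⟨i, rfl⟩ := (List.mem_ofFn' _ _).1 hx
    exact kill_of (isX g m) (i := Sum.inr i) (by simp [isX])
  rw [h1, one_mul]
  have h2 : (kill (isX g m)).comp (FreeGroup.map Sum.inl) = FreeGroup.map (eX g m) := by
    refine FreeGroup.ext_hom _ _ fun i => ?_
    rw [MonoidHom.comp_apply, FreeGroup.map.of, FreeGroup.map.of,
      kill_of_not (isX g m) (i := Sum.inl i) (by simp [isX])]
    rfl
  rw [← h2]
  rfl

theorem nondeg_kill (p : ℕ) (hp : p.Prime) (g m : ℕ) :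
    NondegAt p {kill (isX g m) (bdW g m)} := by
  rw [kill_bdW]
  have h := nondeg_of_unimod (unimod_surfRel g)
  have h1 : NondegAt p ({surfRel g} : Set (FreeGroup (Fin g × Bool))) := ⟨h.1, h.2 p hp⟩
  have h2 := nondegAt_map (eX g m) h1
  rwa [Set.image_singleton] at h2

theorem ex_bdW (g m : ℕ) (j : Fin m) : ex (Sum.inr j) (bdW g m) = 1 := by
  unfold bdW
  rw [ex_mul]
  have h1 : ex (Sum.inr j) (FreeGroup.map Sum.inl (surfRel g) :
      FreeGroup ((Fin g × Bool) ⊕ Fin m)) = 0 := by
    apply ex_comm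
    have h1 := (nondeg_of_unimod (unimod_surfRel g)).1 _ rfl
    have h2 : (FreeGroup.map Sum.inl (surfRel g) : FreeGroup ((Fin g × Bool) ⊕ Fin m)) ∈
        (commutator (FreeGroup (Fin g × Bool))).map (FreeGroup.map Sum.inl) := ⟨_, h1, rfl⟩
    rw [commutator_def, Subgroup.map_commutator] at h2
    exact Subgroup.commutator_mono le_top le_top h2
  rw [h1, add_zero]
  have h2 : ∀ l : List (Fin m), ex (Sum.inr j)
      ((l.map fun i => (FreeGroup.of (Sum.inr i) : FreeGroup ((Fin g × Bool) ⊕ Fin m))).prod) =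
        (l.count j : ℤ) := by
    intro l
    induction l with
    | nil => simp [ex_one]
    | cons a l ih =>
      rw [List.map_cons, List.prod_cons, ex_mul, ih, ex_of, List.count_cons]
      by_cases h : a = j
      · subst h
        simp [add_comm]
      · have h3 : ¬ ((Sum.inr a : (Fin g × Bool) ⊕ Fin m) = Sum.inr j) := fun h4 =>
          h (Sum.inr_injective h4)
        simp [h]
  have h3 : (List.ofFn fun j : Fin m => (FreeGroup.of (Sum.inr j) :
      FreeGroup ((Fin g × Bool) ⊕ Fin m))) =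
      (List.finRange m).map fun i => FreeGroup.of (Sum.inr i) := by
    rw [List.ofFn_eq_map]
  rw [h3, h2, List.count_eq_one_of_mem (List.nodup_finRange m) (List.mem_finRange j)]
  rfl

theorem bdry_bdW (p : ℕ) (hp : p.Prime) (g m : ℕ) : Bdry p (isX g m) {bdW g m} := by
  refine ⟨?_, ?_⟩
  · rw [Set.image_singleton]
    exact nondeg_kill p hp g m
  · rintro (i | j) hi
    · simp [isX] at hi
    · refine ⟨_, rfl, ?_⟩
      rw [ex_bdW]
      intro h
      have := Int.eq_one_of_dvd_one (by positivity) h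
      exact hp.one_lt.ne' (by exact_mod_cast this)

private theorem split_bdW (g m : ℕ) (j : Fin m) : ∃ P Q : FreeGroup ((Fin g × Bool) ⊕ Fin m),
    bdW g m = P * FreeGroup.of (Sum.inr j) * Q ∧
    P ∈ Subgroup.closure {x | ∃ i : Fin m, i ≠ j ∧ x = FreeGroup.of (Sum.inr i)} ∧
    Q ∈ Subgroup.closure {x | ∃ i, i ≠ Sum.inr j ∧ x = FreeGroup.of i} := by
  obtain ⟨l1, l2, h1, h2⟩ : ∃ l1 l2 : List (Fin m), List.finRange m = l1 ++ j :: l2 ∧
      j ∉ l1 ∧ j ∉ l2 := by
    obtain ⟨l1, l2, h⟩ := List.append_of_mem (List.mem_finRange j)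
    have hn := List.nodup_finRange m
    rw [h] at hn
    refine ⟨l1, l2, h, ?_, ?_⟩
    · intro h3
      exact (List.nodup_append.1 hn).2.2 _ h3 _ (List.mem_cons_self) rfl
    · exact (List.nodup_cons.1 (List.nodup_append.1 hn).2.1).1
  refine ⟨(l1.map fun i => FreeGroup.of (Sum.inr i)).prod,
    (l2.map fun i => FreeGroup.of (Sum.inr i)).prod * FreeGroup.map Sum.inl (surfRel g), ?_, ?_, ?_⟩
  · unfold bdW
    have h3 : (List.ofFn fun j : Fin m => (FreeGroup.of (Sum.inr j) :
        FreeGroup ((Fin g × Bool) ⊕ Fin m))) =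
        (List.finRange m).map fun i => FreeGroup.of (Sum.inr i) := by
      rw [List.ofFn_eq_map]
    rw [h3, h1, List.map_append, List.prod_append, List.map_cons, List.prod_cons]
    simp only [mul_assoc]
  · refine Subgroup.list_prod_mem _ fun x hx => ?_
    obtain ⟨i, hi, rfl⟩ := List.mem_map.1 hx
    exact Subgroup.subset_closure ⟨i, fun h => h2.1 (h ▸ hi), rfl⟩
  · refine Subgroup.mul_mem _ (Subgroup.list_prod_mem _ fun x hx => ?_) ?_
    · obtain ⟨i, hi, rfl⟩ := List.mem_map.1 hx
      exact Subgroup.subset_closure ⟨Sum.inr i, fun h => h2.2 (Sum.inr_injective h ▸ hi), rfl⟩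
    · induction surfRel g using FreeGroup.induction_on with
      | C1 => rw [map_one]; exact Subgroup.one_mem _
      | of a =>
        rw [FreeGroup.map.of]
        exact Subgroup.subset_closure ⟨Sum.inl a, Sum.inl_ne_inr, rfl⟩
      | inv_of a ih => rw [map_inv]; exact Subgroup.inv_mem _ ih
      | mul a b ha hb => rw [map_mul]; exact Subgroup.mul_mem _ ha hb

private theorem fix_closure {ι : Type} [DecidableEq ι] {φ : FreeGroup ι →* FreeGroup ι} {x : ι}
    (h : ∀ i, i ≠ x → φ (FreeGroup.of i) = FreeGroup.of i) {f : FreeGroup ι}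
    (hf : f ∈ Subgroup.closure {y | ∃ i, i ≠ x ∧ y = FreeGroup.of i}) : φ f = f := by
  induction hf using Subgroup.closure_induction with
  | mem y hy =>
    obtain ⟨i, hi, rfl⟩ := hy
    exact h i hi
  | one => exact map_one _
  | mul a b _ _ ha hb => rw [map_mul, ha, hb]
  | inv a _ ha => rw [map_inv, ha]

theorem exists_tau (g m : ℕ) (j : Fin m) :
    ∃ τ : MulAut (FreeGroup ((Fin g × Bool) ⊕ Fin m)),
      τ (FreeGroup.of (Sum.inr j)) = bdW g m ∧
      (∀ i, i ≠ Sum.inr j → τ (FreeGroup.of i) = FreeGroup.of i) ∧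
      ∀ p : ℕ, p.Prime → Bdry p (isX g m) {(τ⁻¹ (FreeGroup.of (Sum.inr j)))⁻¹} := by
  obtain ⟨P, Q, h1, hP, hQ⟩ := split_bdW g m j
  have hP' : P ∈ Subgroup.closure {x | ∃ i, i ≠ Sum.inr j ∧
      x = (FreeGroup.of i : FreeGroup ((Fin g × Bool) ⊕ Fin m))} := by
    refine Subgroup.closure_mono ?_ hP
    rintro _ ⟨i, hi, rfl⟩
    exact ⟨Sum.inr i, fun h => hi (Sum.inr_injective h), rfl⟩
  let φ : FreeGroup ((Fin g × Bool) ⊕ Fin m) →* FreeGroup ((Fin g × Bool) ⊕ Fin m) :=
    FreeGroup.lift fun i => if i = Sum.inr j then P * FreeGroup.of (Sum.inr j) * Q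
      else FreeGroup.of i
  let ψ : FreeGroup ((Fin g × Bool) ⊕ Fin m) →* FreeGroup ((Fin g × Bool) ⊕ Fin m) :=
    FreeGroup.lift fun i => if i = Sum.inr j then P⁻¹ * FreeGroup.of (Sum.inr j) * Q⁻¹
      else FreeGroup.of i
  have hφj : φ (FreeGroup.of (Sum.inr j)) = P * FreeGroup.of (Sum.inr j) * Q := by
    simp [φ]
  have hψj : ψ (FreeGroup.of (Sum.inr j)) = P⁻¹ * FreeGroup.of (Sum.inr j) * Q⁻¹ := by
    simp [ψ]
  have hφi : ∀ i, i ≠ Sum.inr j → φ (FreeGroup.of i) = FreeGroup.of i := by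
    intro i hi
    simp [φ, hi]
  have hψi : ∀ i, i ≠ Sum.inr j → ψ (FreeGroup.of i) = FreeGroup.of i := by
    intro i hi
    simp [ψ, hi]
  have e1 : ψ.comp φ = MonoidHom.id _ := by
    refine FreeGroup.ext_hom _ _ fun i => ?_
    rw [MonoidHom.comp_apply, MonoidHom.id_apply]
    by_cases hi : i = Sum.inr j
    · rw [hi, hφj, map_mul, map_mul, hψj, fix_closure hψi hP', fix_closure hψi hQ]
      group
    · rw [hφi i hi, hψi i hi]
  have e2 : φ.comp ψ = MonoidHom.id _ := by
    refine FreeGroup.ext_hom _ _ fun i => ?_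
    rw [MonoidHom.comp_apply, MonoidHom.id_apply]
    by_cases hi : i = Sum.inr j
    · rw [hi, hψj, map_mul, map_mul, map_inv, map_inv, hφj, fix_closure hφi hP',
        fix_closure hφi hQ]
      group
    · rw [hψi i hi, hφi i hi]
  let τ : MulAut (FreeGroup ((Fin g × Bool) ⊕ Fin m)) := MonoidHom.toMulEquiv φ ψ e1 e2
  have hτ : ∀ f, τ f = φ f := fun f => rfl
  have hτi : τ⁻¹ (FreeGroup.of (Sum.inr j)) = P⁻¹ * FreeGroup.of (Sum.inr j) * Q⁻¹ := by
    have h2 : τ⁻¹ (FreeGroup.of (Sum.inr j)) = ψ (FreeGroup.of (Sum.inr j)) := rfl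
    rw [h2, hψj]
  refine ⟨τ, ?_, ?_, ?_⟩
  · rw [hτ, hφj, h1]
  · intro i hi
    rw [hτ, hφi i hi]
  · intro p hp
    have hv : (τ⁻¹ (FreeGroup.of (Sum.inr j)))⁻¹ = Q * (FreeGroup.of (Sum.inr j))⁻¹ * P := by
      rw [hτi]
      group
    have hkP : kill (isX g m) P = 1 := by
      have h3 : Subgroup.closure {x | ∃ i : Fin m, i ≠ j ∧
          x = (FreeGroup.of (Sum.inr i) : FreeGroup ((Fin g × Bool) ⊕ Fin m))} ≤
            (kill (isX g m)).ker := by
        rw [Subgroup.closure_le]
        rintro _ ⟨i, hi, rfl⟩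
        exact kill_of (isX g m) (i := Sum.inr i) (by simp [isX])
      exact h3 hP
    have hkX : kill (isX g m) (FreeGroup.of (Sum.inr j)) = 1 :=
      kill_of (isX g m) (i := Sum.inr j) (by simp [isX])
    rw [hv]
    refine ⟨?_, ?_⟩
    · rw [Set.image_singleton]
      have h3 := nondeg_kill p hp g m
      rw [h1, map_mul, map_mul, hkP, hkX, one_mul, one_mul] at h3
      rwa [map_mul, map_mul, map_inv, hkP, hkX, inv_one, mul_one, mul_one]
    · rintro (i | i) hi
      · simp [isX] at hi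
      · refine ⟨_, rfl, ?_⟩
        have h4 := ex_bdW g m i
        rw [h1, ex_mul, ex_mul] at h4
        rw [ex_mul, ex_mul, ex_inv]
        rw [ex_of] at h4 ⊢
        intro h5
        by_cases hij : i = j
        · subst hij
          rw [if_pos rfl] at h4 h5
          have h6 : ex (Sum.inr i) Q + -1 + ex (Sum.inr i) P = -1 := by linarith
          rw [h6] at h5
          have h7 := (dvd_neg).1 h5
          have := Int.eq_one_of_dvd_one (by positivity) h7
          exact hp.one_lt.ne' (by exact_mod_cast this)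
        · have h3 : ¬ ((Sum.inr j : (Fin g × Bool) ⊕ Fin m) = Sum.inr i) := fun h4 =>
            hij (Sum.inr_injective h4).symm
          rw [if_neg h3] at h4 h5
          have h6 : ex (Sum.inr i) Q + -0 + ex (Sum.inr i) P = 1 := by linarith
          rw [h6] at h5
          have := Int.eq_one_of_dvd_one (by positivity) h5
          exact hp.one_lt.ne' (by exact_mod_cast this)

end Pool.Agent.MCG
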