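import Pool.Agent.MCG.PDefs
import Pool.Agent.Lvl.Final
import Pool.Agent.Lvl.OddG

set_option autoImplicit false
set_option linter.unusedSectionVars false

noncomputable section

/-!
PACKAGE MCGP-EX. Exponent sums and the subgroup `UU F m = [F, F] F ^ m` of the free group `F`.

* `mem_UU_iff`: `→`: `UU` is generated by commutators (`ex_mul`, `ex_inv`: exponent sums `0`) and
  `m`-th powers (`ex_pow`). `←`: modulo `UU` the group is commutative, so
  `f ≡ ∏ x, (of x) ^ ex x f` (induction on `f`, or: two homomorphisms `F → F ⧸ UU` to a commutative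
  group which agree on the generators; the second one is
  `f ↦ ∏ x, (mk (of x)) ^ (ex x f)`, a homomorphism by `ex_mul`), and every factor is a power of an
  `m`-th power.
* `level_iff`: `→` is `mem_UU_iff` for `h = of y`. `←`: `h⁻¹ * g h ∈ UU`: the set of `h` with this
  property is a subgroup: `(a b)⁻¹ g(a b) = b⁻¹ (a⁻¹ g a) b * (b⁻¹ g b)`, `UU_normal`.
* `trunc_ex`: `foxl x` of the difference is in `Fil (N - 1) ≤ Fil 1` (`foxl_fil`, `fil_le`),
  so its augmentation is `0` (`lift_fil_one`), `eps_foxl_ex`,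
  `(ZMod.intCast_eq_intCast_iff_dvd_sub ..)`.
* `trunc_level`: let `P = F ⧸ UU F m`, a finite `p`-group (`finite_quot`; the elements have order
  dividing `m`), `s` with `Fil s = ⊥` for `P` (`exists_fil_eq_bot`), `N = s`; `map_fil` for
  `QuotientGroup.mk'`: `single (mk ((g ^ p) f)) 1 = single (mk f) 1`.
-/

namespace Pool.Agent.MCG

open MonoidAlgebra Pool.Agent.Lvl

variable {ι : Type} [DecidableEq ι] [Fintype ι]

theorem level_iff {m : ℕ} (g : MulAut (FreeGroup ι)) :
    g ∈ level (FreeGroup ι) m ↔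
      ∀ x y, (m : ℤ) ∣ ex x (g (FreeGroup.of y)) - ex x (FreeGroup.of y) := by
  constructor
  · intro h x y
    have h1 : (m : ℤ) ∣ ex x ((FreeGroup.of y)⁻¹ * g (FreeGroup.of y)) :=
      mem_UU_iff.1 (h (FreeGroup.of y)) x
    rw [ex_mul, ex_inv] at h1
    rwa [sub_eq_neg_add]
  · intro h f
    refine mem_UU_iff.2 fun x => ?_
    change (m : ℤ) ∣ ex x (f⁻¹ * g f)
    have h1 : ex x (g f) = ∑ y, ex y f * ex x (g (FreeGroup.of y)) :=
      ex_map (g : FreeGroup ι →* FreeGroup ι) x f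
    have h2 : ex x f = ∑ y, ex y f * ex x (FreeGroup.of y) := hom_eq (expo x) f
    rw [ex_mul, ex_inv, h1]
    nth_rw 1 [h2]
    rw [← Finset.sum_neg_distrib, ← Finset.sum_add_distrib]
    refine Finset.dvd_sum fun y _ => ?_
    obtain ⟨k, hk⟩ := h x y
    exact ⟨ex y f * k, by
      rw [mul_left_comm, ← hk]
      ring⟩

theorem conj_level {m : ℕ} (u : FreeGroup ι) : MulAut.conj u ∈ level (FreeGroup ι) m := by
  rw [level_iff]
  intro x y
  have h1 : ex x (MulAut.conj u (FreeGroup.of y)) = ex x (FreeGroup.of y) :=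
    (ex_conj x (isConj_iff.2 ⟨u, rfl⟩)).symm
  rw [h1, sub_self]
  exact dvd_zero _

/-- congruent group elements have congruent exponent sums -/
theorem dvd_of_fil {p : ℕ} {N : ℕ} (hN : 2 ≤ N) {a b : FreeGroup ι}
    (h : single a (1 : ZMod p) - single b 1 ∈ Fil (ZMod p) (FreeGroup ι) N) (x : ι) :
    (p : ℤ) ∣ ex x a - ex x b := by
  obtain ⟨n, rfl⟩ : ∃ n, N = n + 1 := ⟨N - 1, by omega⟩
  have h1 := foxl_fil x h
  have h2 : eps (ZMod p) (FreeGroup ι) (foxl (ZMod p) x (single a 1 - single b 1)) = 0 :=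
    lift_fil_one (fil_le (by omega) h1)
  rw [map_sub, map_sub, eps_foxl_ex, eps_foxl_ex, ← Int.cast_sub] at h2
  exact (ZMod.intCast_zmod_eq_zero_iff_dvd _ _).1 h2

theorem trunc_level {p : ℕ} [Fact p.Prime] (s : ℕ) : ∃ N : ℕ, ∀ g : MulAut (FreeGroup ι),
    Trunc p N g → g ^ p ∈ level (FreeGroup ι) (p ^ s) := by
  have hp : 0 < p ^ s := pow_pos (Fact.out : p.Prime).pos s
  have hfin : Finite (FreeGroup ι ⧸ UU (FreeGroup ι) (p ^ s)) := finite_quot hp
  have hP : IsPGroup p (FreeGroup ι ⧸ UU (FreeGroup ι) (p ^ s)) := by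
    intro a
    obtain ⟨a, rfl⟩ := QuotientGroup.mk_surjective a
    refine ⟨s, ?_⟩
    exact (QuotientGroup.eq_one_iff _).2 (Subgroup.subset_closure (Or.inr ⟨a, rfl⟩))
  obtain ⟨N, hN⟩ := exists_fil_eq_bot hP
  refine ⟨N, fun g hg f => ?_⟩
  have h1 := map_fil (QuotientGroup.mk' (UU (FreeGroup ι) (p ^ s))) (hg f)
  rw [hN, Submodule.mem_bot, map_sub, sub_eq_zero] at h1
  simp only [mapDomainRingHom_apply, mapDomain_single] at h1
  have h2 := congrArg (fun u : MonoidAlgebra (ZMod p) (FreeGroup ι ⧸ UU (FreeGroup ι) (p ^ s)) =>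
    u.coeff (QuotientGroup.mk' (UU (FreeGroup ι) (p ^ s)) f)) h1
  simp only [MonoidAlgebra.coeff_single] at h2
  rw [Finsupp.single_eq_same] at h2
  by_contra h3
  rw [Finsupp.single_eq_of_ne] at h2
  · exact zero_ne_one h2
  · intro h4
    exact h3 (QuotientGroup.eq.1 h4)

theorem trunc_le {p M N : ℕ} (h : M ≤ N) {g : MulAut (FreeGroup ι)} (hg : Trunc p N g) :
    Trunc p M g :=
  fun f => fil_le h (hg f)

end Pool.Agent.MCG
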