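import Pool.Agent.MCG.PDefs

set_option autoImplicit false
set_option linter.unusedSectionVars false

noncomputable section

/-!
PACKAGE MCGP-KILL. Setting some generators equal to `1`.

* `kill_surj`: `kill D (of i) = of ⟨i, h⟩` if `h : ¬ D i`; closure of the generators.
* `ex_kill`: induction on `f`.
* `kill_aut`: `s : FreeGroup {i // ¬ D i} →* FreeGroup ι` the section (`FreeGroup.map Subtype.val`),
  `kill D (s f) = f`. `g' = kill D ∘ g ∘ s`. `kill D ∘ g = g' ∘ kill D` because both sides agree on
  the generators (hypothesis `h1`); the same for `g⁻¹` (hypothesis `h2`); so `g'` is invertible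
  with the inverse `kill D ∘ g⁻¹ ∘ s`. `Trunc`: `kill D ((g ^ n) f) = (g' ^ n) (kill D f)`, so
  for `f' = kill D f`: `map_fil (kill D)` applied to `Trunc p N g` (`f = s f'`).
* `kill_perm`: the hypotheses `h1`, `h2` of `kill_aut` follow from `hg`: choose `σ i` for `i` with
  `D i`. `h1`: `kill D (g (of i))` is conjugate to `kill D (of (σ i)) = 1`. `σ` is injective on
  `{i // D i}` (if `σ i = σ j` then `g (of i)` and `g (of j)` are conjugate, so `of i` and `of j`
  are, `isConj_of`), so surjective (`Finite.injective_iff_surjective`), so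
  `g⁻¹ (of i)` is conjugate to `of j` with `D j` for every `i` with `D i`.
-/

namespace Pool.Agent.MCG

open MonoidAlgebra Pool.Agent.Lvl

variable {ι : Type} [DecidableEq ι] (D : ι → Prop) [DecidablePred D]

theorem kill_of {i : ι} (h : D i) : kill D (FreeGroup.of i) = 1 := by
  simp [kill, h]

theorem kill_of_not {i : ι} (h : ¬ D i) : kill D (FreeGroup.of i) = FreeGroup.of ⟨i, h⟩ := by
  simp [kill, h]

private theorem kill_sec (f : FreeGroup {i // ¬ D i}) :
    kill D (FreeGroup.map Subtype.val f) = f := by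
  have h : (kill D).comp (FreeGroup.map Subtype.val) = MonoidHom.id _ := by
    ext x
    simp [kill_of_not D x.2]
  exact DFunLike.congr_fun h f

theorem kill_surj : Function.Surjective (kill D) :=
  fun f => ⟨_, kill_sec D f⟩

theorem ex_kill (x : {i // ¬ D i}) (f : FreeGroup ι) : ex x (kill D f) = ex x.1 f := by
  induction f using FreeGroup.induction_on with
  | C1 => simp [ex_one]
  | of l =>
    by_cases h : D l
    · have h1 : l ≠ x.1 := fun h2 => x.2 (h2 ▸ h)
      rw [kill_of D h, ex_one, ex_of, if_neg h1]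
    · rw [kill_of_not D h, ex_of, ex_of]
      by_cases h1 : l = x.1
      · rw [if_pos h1, if_pos (Subtype.ext h1)]
      · rw [if_neg h1, if_neg fun h2 => h1 (congrArg Subtype.val h2)]
  | inv_of l ih => rw [map_inv, ex_inv, ex_inv, ih]
  | mul a b ha hb => rw [map_mul, ex_mul, ex_mul, ha, hb]

variable {D}

theorem kill_aut (g : MulAut (FreeGroup ι)) (h1 : ∀ i, D i → kill D (g (FreeGroup.of i)) = 1)
    (h2 : ∀ i, D i → kill D (g⁻¹ (FreeGroup.of i)) = 1) :
    ∃ g' : MulAut (FreeGroup {i // ¬ D i}), (∀ f, kill D (g f) = g' (kill D f)) ∧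
      ∀ p N, Trunc p N g → Trunc p N g' := by
  have key : ∀ g : MulAut (FreeGroup ι), (∀ i, D i → kill D (g (FreeGroup.of i)) = 1) →
      ∀ f, kill D (g (FreeGroup.map Subtype.val (kill D f))) = kill D (g f) := by
    intro g hg f
    induction f using FreeGroup.induction_on with
    | C1 => simp
    | of l =>
      by_cases h : D l
      · rw [kill_of D h, hg l h, map_one, map_one, map_one]
      · rw [kill_of_not D h, FreeGroup.map.of]
    | inv_of l ih => simp only [map_inv, ih]
    | mul a b ha hb => simp only [map_mul, ha, hb]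
  let F : MulAut (FreeGroup ι) → (FreeGroup {i // ¬ D i} →* FreeGroup {i // ¬ D i}) := fun g =>
    (kill D).comp ((g : FreeGroup ι →* FreeGroup ι).comp (FreeGroup.map Subtype.val))
  have hF : ∀ (g : MulAut (FreeGroup ι)) (f : FreeGroup {i // ¬ D i}),
      F g f = kill D (g (FreeGroup.map Subtype.val f)) := fun g f => rfl
  have hF1 : ∀ f, F g⁻¹ (F g f) = f := by
    intro f
    rw [hF, hF, key g⁻¹ h2, MulAut.inv_apply_self, kill_sec]
  have hF2 : ∀ f, F g (F g⁻¹ f) = f := by
    intro f
    rw [hF, hF, key g h1, MulAut.apply_inv_self, kill_sec]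
  let g' : MulAut (FreeGroup {i // ¬ D i}) :=
    { toFun := F g
      invFun := F g⁻¹
      left_inv := hF1
      right_inv := hF2
      map_mul' := fun a b => map_mul (F g) a b }
  have hg' : ∀ f, kill D (g f) = g' (kill D f) := fun f => (key g h1 f).symm
  have hpow : ∀ (n : ℕ) (f : FreeGroup ι), kill D ((g ^ n) f) = (g' ^ n) (kill D f) := by
    intro n
    induction n with
    | zero => intro f; rw [pow_zero, pow_zero, MulAut.one_apply, MulAut.one_apply]
    | succ n ih =>
      intro f
      rw [pow_succ, pow_succ, MulAut.mul_apply, MulAut.mul_apply, ih, hg']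
  refine ⟨g', hg', fun p N h f => ?_⟩
  obtain ⟨f, rfl⟩ := kill_surj D f
  have h3 := map_fil (R := ZMod p) (kill D) (h f)
  rw [map_sub, MonoidAlgebra.mapDomainRingHom_apply, MonoidAlgebra.mapDomainRingHom_apply,
    MonoidAlgebra.mapDomain_single, MonoidAlgebra.mapDomain_single] at h3
  rw [← hpow]
  exact h3

theorem kill_perm [Fintype ι] (g : MulAut (FreeGroup ι))
    (hg : ∀ i, D i → ∃ j, D j ∧ IsConj (g (FreeGroup.of i)) (FreeGroup.of j)) :
    (∀ i, D i → kill D (g (FreeGroup.of i)) = 1) ∧
      ∀ i, D i → kill D (g⁻¹ (FreeGroup.of i)) = 1 := by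
  have key : ∀ {f : FreeGroup ι} {j : ι}, D j → IsConj f (FreeGroup.of j) → kill D f = 1 := by
    intro f j hj h
    obtain ⟨c, hc⟩ := isConj_iff.1 h.symm
    rw [← hc, map_mul, map_mul, kill_of D hj, mul_one, map_inv, mul_inv_cancel]
  have hmap : ∀ (g : MulAut (FreeGroup ι)) {a b : FreeGroup ι}, IsConj a b →
      IsConj (g a) (g b) := by
    intro g a b h
    obtain ⟨c, hc⟩ := isConj_iff.1 h
    exact isConj_iff.2 ⟨g c, by rw [← hc, map_mul, map_mul, map_inv]⟩
  constructor
  · intro i hi
    obtain ⟨j, hj, h⟩ := hg i hi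
    exact key hj h
  · choose σ hσ1 hσ2 using hg
    let τ : {i // D i} → {i // D i} := fun i => ⟨σ i.1 i.2, hσ1 i.1 i.2⟩
    have hτ : Function.Injective τ := by
      intro i j hij
      have h1 : σ i.1 i.2 = σ j.1 j.2 := congrArg Subtype.val hij
      have h2 : IsConj (g (FreeGroup.of i.1)) (g (FreeGroup.of j.1)) := by
        have h3 := hσ2 i.1 i.2
        rw [h1] at h3
        exact h3.trans (hσ2 j.1 j.2).symm
      have h4 := hmap g⁻¹ h2
      rw [MulAut.inv_apply_self, MulAut.inv_apply_self] at h4
      exact Subtype.ext (isConj_of h4)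
    intro i hi
    obtain ⟨j, hj⟩ := Finite.surjective_of_injective hτ ⟨i, hi⟩
    have h1 : σ j.1 j.2 = i := congrArg Subtype.val hj
    have h2 := hσ2 j.1 j.2
    rw [h1] at h2
    have h3 := hmap g⁻¹ h2
    rw [MulAut.inv_apply_self] at h3
    exact key j.2 h3.symm

end Pool.Agent.MCG
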