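import Pool.Agent.MCG.PPow
import Pool.Agent.MCG.PKill
import Pool.Agent.MCG.PEx

set_option autoImplicit false
set_option linter.unusedSectionVars false

noncomputable section

/-!
PACKAGE MCGP-CNT. The counting argument. (P2 of the page, last case.)

For `j ∈ B` let `φ_j f = ∑ i < p, ex j ((g ^ i) f)`, additive in `f`. For `β x` and `j ∈ B`: `p ∣
φ_j (of x)`: choose `σ`, `(g ^ i) (of x)` is conjugate to `of (σ^[i] x)`, so `ex j ((g ^ i) (of
x)) = [σ^[i] x = j]`, and `σ^[i] x = j` iff `x = j` (`σ j = j`, and `σ` is injective on `{x // β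
x}`: see `kill_perm`), so the sum is `p` or `0`. By `hom_eq` (`φ_j` is a homomorphism) `φ_j f ≡ ∑
(a with ¬ β a), ex a f * φ_j (of a)` modulo `p`. By `ex_yU` `ex j (yU g (u k) p) = -φ_j (u k)`, so
`M = A C` over `ZMod p` with the matrices `M j k = φ_j (u k)` (`j, k ∈ B`), `A j a = φ_j (of a)`,
`C a k = ex a (u k)`. By `trunc_y` (`2 ≤ N`) and `dvd_of_fil` `φ_j (u k) ≡ -ex j (of k ^ a_k) =
-a_k [k = j]`, `a_k = ex k (yU g (u k) p)`: `M` is diagonal with nonzero entries `-a_k`, so its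
rank is `B.card`, and it is at most `Fintype.card {a // ¬ β a}` (`Matrix.rank_mul_le_left`,
`Matrix.rank_le_card_width`, `Matrix.rank_of_isUnit`).
-/

namespace Pool.Agent.MCG

open MonoidAlgebra Pool.Agent.Lvl

variable {p : ℕ} [hp : Fact p.Prime] {ι : Type} [DecidableEq ι] [Fintype ι]

/-- the orbit of a puncture -/
private theorem orbit_PCnt {β : ι → Prop} {g : MulAut (FreeGroup ι)} {σ : {i // β i} → {i // β i}}
    (hσ : ∀ i, IsConj (g (FreeGroup.of i.1)) (FreeGroup.of (σ i).1)) (x : {i // β i}) (n : ℕ) :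
    IsConj ((g ^ n) (FreeGroup.of x.1)) (FreeGroup.of (σ^[n] x).1) := by
  induction n with
  | zero => exact IsConj.refl _
  | succ n ih =>
    have h1 : (g ^ (n + 1)) (FreeGroup.of x.1) = g ((g ^ n) (FreeGroup.of x.1)) := by
      rw [pow_succ', MulAut.mul_apply]
    rw [h1, Function.iterate_succ_apply']
    exact (MonoidHom.map_isConj g.toMonoidHom ih).trans (hσ _)

/-- the sums over the orbits of the punctures -/
private theorem dvd_PCnt {β : ι → Prop} [DecidablePred β] {g : MulAut (FreeGroup ι)}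
    (hσ : ∀ i, β i → ∃ j, β j ∧ IsConj (g (FreeGroup.of i)) (FreeGroup.of j)) {j : ι} (hj : β j)
    (hfix : IsConj (g (FreeGroup.of j)) (FreeGroup.of j)) {x : ι} (hx : β x) :
    (p : ℤ) ∣ ∑ i ∈ Finset.range p, ex j ((g ^ i) (FreeGroup.of x)) := by
  choose τ hτ hτ' using hσ
  let σ : {i // β i} → {i // β i} := fun i => ⟨τ i.1 i.2, hτ i.1 i.2⟩
  have h1 : ∀ i : {i // β i}, IsConj (g (FreeGroup.of i.1)) (FreeGroup.of (σ i).1) :=
    fun i => hτ' i.1 i.2
  have h2 : Function.Injective σ := by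
    intro a b hab
    have h3 : IsConj (g (FreeGroup.of a.1)) (g (FreeGroup.of b.1)) := by
      refine (h1 a).trans ?_
      rw [hab]
      exact (h1 b).symm
    have h4 := MonoidHom.map_isConj g.symm.toMonoidHom h3
    have h5 : ∀ y : FreeGroup ι, g.symm.toMonoidHom (g y) = y := fun y => g.symm_apply_apply y
    rw [h5, h5] at h4
    exact Subtype.ext (isConj_of h4)
  have h3 : σ ⟨j, hj⟩ = ⟨j, hj⟩ := Subtype.ext (isConj_of ((h1 ⟨j, hj⟩).symm.trans hfix))
  have h4 : ∀ n : ℕ, ex j ((g ^ n) (FreeGroup.of x)) = if x = j then 1 else 0 := by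
    intro n
    rw [ex_conj j (orbit_PCnt h1 ⟨x, hx⟩ n), ex_of]
    refine if_congr ?_ rfl rfl
    have h5 : σ^[n] ⟨j, hj⟩ = ⟨j, hj⟩ := Function.iterate_fixed h3 n
    constructor
    · intro h
      have h6 : σ^[n] ⟨x, hx⟩ = σ^[n] ⟨j, hj⟩ := (Subtype.ext h).trans h5.symm
      exact congrArg Subtype.val (h2.iterate n h6)
    · intro h
      subst h
      rw [h5]
  rw [Finset.sum_congr rfl fun n _ => h4 n, Finset.sum_const, Finset.card_range]
  split_ifs <;> simp

theorem count {β : ι → Prop} [DecidablePred β] {B : Finset ι} (hB : ∀ j ∈ B, β j)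
    {g : MulAut (FreeGroup ι)}
    (hσ : ∀ i, β i → ∃ j, β j ∧ IsConj (g (FreeGroup.of i)) (FreeGroup.of j))
    (u : ι → FreeGroup ι)
    (hu : ∀ j ∈ B, g (FreeGroup.of j) = u j * FreeGroup.of j * (u j)⁻¹) {N : ℕ} (hN : 2 ≤ N)
    (hg : Trunc p (N + 1) g) (hne : ∀ j ∈ B, ¬ (p : ℤ) ∣ ex j (yU g (u j) p)) :
    B.card ≤ Fintype.card {a // ¬ β a} := by
  -- the sums over the powers of `g`
  let Φ : ι → FreeGroup ι →* Multiplicative ℤ := fun j =>
    { toFun := fun f => Multiplicative.ofAdd (∑ i ∈ Finset.range p, ex j ((g ^ i) f))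
      map_one' := by simp [ex_one]
      map_mul' := fun a b => by
        rw [← ofAdd_add, ← Finset.sum_add_distrib]
        congr 1
        exact Finset.sum_congr rfl fun i _ => by rw [map_mul, ex_mul] }
  have hΦ : ∀ j f, (Φ j f).toAdd = ∑ i ∈ Finset.range p, ex j ((g ^ i) f) := fun _ _ => rfl
  have hfix : ∀ j ∈ B, IsConj (g (FreeGroup.of j)) (FreeGroup.of j) := fun j hj => by
    rw [hu j hj]
    exact (isConj_iff.2 ⟨u j, rfl⟩).symm
  have h1 : ∀ j ∈ B, ∀ f, (((Φ j f).toAdd : ℤ) : ZMod p) =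
      ∑ a : {a // ¬ β a}, (ex a.1 f : ZMod p) *
        (((Φ j (FreeGroup.of a.1)).toAdd : ℤ) : ZMod p) := by
    intro j hj f
    rw [hom_eq (Φ j) f, Int.cast_sum, ← Fintype.sum_subtype_add_sum_subtype β]
    have h2 : ∑ x : {x // β x},
        (((ex x.1 f * (Φ j (FreeGroup.of x.1)).toAdd : ℤ)) : ZMod p) = 0 := by
      refine Finset.sum_eq_zero fun x _ => ?_
      have h3 := dvd_PCnt (p := p) hσ (hB j hj) (hfix j hj) x.2
      rw [← hΦ, ← ZMod.intCast_zmod_eq_zero_iff_dvd] at h3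
      rw [Int.cast_mul, h3, mul_zero]
    rw [h2, zero_add]
    exact Finset.sum_congr rfl fun a _ => by rw [Int.cast_mul]
  have h2 : ∀ j k, (Φ j (u k)).toAdd = -ex j (yU g (u k) p) := by
    intro j k
    rw [hΦ, ex_yU, neg_neg]
  have h3 : ∀ k ∈ B, ∀ j, (ex j (yU g (u k) p) : ZMod p) =
      if k = j then (ex k (yU g (u k) p) : ZMod p) else 0 := by
    intro k hk j
    have h4 := dvd_of_fil hN (trunc_y hg (hu k hk)) j
    rw [ex_zpow, ex_of, ← ZMod.intCast_zmod_eq_zero_iff_dvd, Int.cast_sub, sub_eq_zero] at h4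
    rw [h4]
    split_ifs <;> simp
  let A : Matrix B {a // ¬ β a} (ZMod p) :=
    fun j a => (((Φ j (FreeGroup.of a.1)).toAdd : ℤ) : ZMod p)
  let C : Matrix {a // ¬ β a} B (ZMod p) := fun a k => (ex a.1 (u k) : ZMod p)
  have h4 : A * C = Matrix.diagonal fun k : B => -(ex k.1 (yU g (u k) p) : ZMod p) := by
    ext j k
    rw [Matrix.mul_apply]
    have h5 := h1 j j.2 (u k)
    rw [h2, Int.cast_neg, h3 k k.2] at h5
    have h6 : ∑ a, A j a * C a k = ∑ a : {a // ¬ β a}, (ex a.1 (u k) : ZMod p) *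
        (((Φ j (FreeGroup.of a.1)).toAdd : ℤ) : ZMod p) :=
      Finset.sum_congr rfl fun a _ => mul_comm _ _
    rw [h6, ← h5]
    by_cases h7 : j = k
    · subst h7
      rw [if_pos rfl, Matrix.diagonal_apply_eq]
    · rw [if_neg fun h => h7 (Subtype.ext h.symm), Matrix.diagonal_apply_ne _ h7, neg_zero]
  have h5 : (A * C).rank = B.card := by
    rw [h4, Matrix.rank_of_isUnit, Fintype.card_coe]
    rw [Matrix.isUnit_iff_isUnit_det, Matrix.det_diagonal, isUnit_iff_ne_zero]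
    refine Finset.prod_ne_zero_iff.2 fun k _ => neg_ne_zero.2 fun h => ?_
    exact hne k k.2 ((ZMod.intCast_zmod_eq_zero_iff_dvd _ _).1 h)
  rw [← h5]
  exact (Matrix.rank_mul_le_left A C).trans (Matrix.rank_le_card_width A)

end Pool.Agent.MCG
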