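import Pool.Agent.MCG.PExp

set_option autoImplicit false
set_option linter.unusedSectionVars false

noncomputable section

/-!
The count of (P2): if an automorphism `g` of the free group on `A ⊕ B` fixes the classes of the
letters of `B` in the first homology mod `p` and each of these classes is a norm, then `B` has at
most as many elements as `A`.
-/

namespace Pool.Agent.MCG

open Finset

variable {ι : Type} [DecidableEq ι] [Fintype ι]

/-- the class of `w` in the first homology mod `p` -/
def cls (p : ℕ) (w : FreeGroup ι) : ι → ZMod p := fun x => (((expo x w).toAdd : ℤ) : ZMod p)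

theorem cls_mul (p : ℕ) (v w : FreeGroup ι) : cls p (v * w) = cls p v + cls p w := by
  funext x
  change (((expo x (v * w)).toAdd : ℤ) : ZMod p) = _
  rw [map_mul, toAdd_mul, Int.cast_add]
  rfl

theorem cls_one (p : ℕ) : cls p (1 : FreeGroup ι) = 0 := by
  funext x
  change (((expo x (1 : FreeGroup ι)).toAdd : ℤ) : ZMod p) = 0
  rw [map_one, toAdd_one, Int.cast_zero]

theorem cls_inv (p : ℕ) (w : FreeGroup ι) : cls p w⁻¹ = - cls p w := by
  funext x
  change (((expo x w⁻¹).toAdd : ℤ) : ZMod p) = _
  rw [map_inv, toAdd_inv, Int.cast_neg]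
  rfl

theorem cls_of (p : ℕ) (y : ι) : cls p (FreeGroup.of y) = Pi.single y 1 := by
  funext x
  change (((expo x (FreeGroup.of y)).toAdd : ℤ) : ZMod p) = _
  rw [expo_of, Pi.single_apply]
  by_cases h : y = x
  · rw [if_pos h, if_pos h.symm, Int.cast_one]
  · rw [if_neg h, if_neg fun h1 => h h1.symm, Int.cast_zero]

/-- the linear map on the first homology mod `p` which a homomorphism induces -/
def lin (p : ℕ) (g : FreeGroup ι →* FreeGroup ι) : (ι → ZMod p) →ₗ[ZMod p] (ι → ZMod p) :=
  Fintype.linearCombination (ZMod p) fun y => cls p (g (FreeGroup.of y))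

theorem lin_cls (p : ℕ) (g : FreeGroup ι →* FreeGroup ι) (w : FreeGroup ι) :
    lin p g (cls p w) = cls p (g w) := by
  induction w using FreeGroup.induction_on with
  | C1 => rw [map_one, cls_one, map_zero]
  | of y =>
    rw [cls_of]
    unfold lin
    rw [Fintype.linearCombination_apply_single, one_smul]
  | inv_of y ih => rw [map_inv, cls_inv, cls_inv, map_neg, ih]
  | mul a b ha hb => rw [map_mul, cls_mul, cls_mul, map_add, ha, hb]

theorem cls_pow_apply (p : ℕ) (g : MulAut (FreeGroup ι)) (w : FreeGroup ι) (i : ℕ) :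
    ((lin p (g : FreeGroup ι →* FreeGroup ι)) ^ i) (cls p w) = cls p ((g ^ i) w) := by
  induction i with
  | zero => rfl
  | succ i ih =>
    rw [pow_succ', Module.End.mul_apply, ih, lin_cls, pow_succ']
    rfl

theorem count_ab {A B : Type} [DecidableEq A] [Fintype A] [DecidableEq B] [Fintype B]
    {p : ℕ} [hp : Fact p.Prime] (g : MulAut (FreeGroup (A ⊕ B)))
    (hfix : ∀ (j : B) (x : A ⊕ B), (((expo x (g (FreeGroup.of (Sum.inr j)))).toAdd : ℤ) : ZMod p) =
      if x = Sum.inr j then 1 else 0)
    (hu : ∀ j : B, ∃ m : FreeGroup (A ⊕ B), ∀ x, (if x = Sum.inr j then (1 : ZMod p) else 0) =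
      ∑ i ∈ range p, (((expo x ((g ^ i) m)).toAdd : ℤ) : ZMod p)) :
    Fintype.card B ≤ Fintype.card A := by
  set L : (A ⊕ B → ZMod p) →ₗ[ZMod p] (A ⊕ B → ZMod p) :=
    lin p (g : FreeGroup (A ⊕ B) →* FreeGroup (A ⊕ B)) with hL
  set N : (A ⊕ B → ZMod p) →ₗ[ZMod p] (A ⊕ B → ZMod p) := ∑ i ∈ range p, L ^ i with hN
  have hLj : ∀ j : B, L (Pi.single (Sum.inr j) 1) = Pi.single (Sum.inr j) 1 := by
    intro j
    rw [← cls_of, hL, lin_cls]
    funext x
    change (((expo x (g (FreeGroup.of (Sum.inr j)))).toAdd : ℤ) : ZMod p) = _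
    rw [hfix, cls_of, Pi.single_apply]
  have hLi : ∀ (j : B) (i : ℕ), (L ^ i) (Pi.single (Sum.inr j) 1) = Pi.single (Sum.inr j) 1 := by
    intro j i
    induction i with
    | zero => rfl
    | succ i ih => rw [pow_succ, Module.End.mul_apply, hLj, ih]
  have hNj : ∀ j : B, N (Pi.single (Sum.inr j) 1) = 0 := by
    intro j
    rw [hN, LinearMap.sum_apply, sum_congr rfl fun i _ => hLi j i, sum_const, card_range,
      ← Nat.cast_smul_eq_nsmul (ZMod p), ZMod.natCast_self, zero_smul]
  -- the restriction of `N` to the span of `A` has the same range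
  let J : (A → ZMod p) →ₗ[ZMod p] (A ⊕ B → ZMod p) :=
    Fintype.linearCombination (ZMod p) fun a => Pi.single (Sum.inl a) 1
  have hrange : ∀ v, N v ∈ LinearMap.range (N ∘ₗ J) := by
    intro v
    refine ⟨fun a => v (Sum.inl a), ?_⟩
    have h1 : v = ∑ y : A ⊕ B, v y • (Pi.single y 1 : A ⊕ B → ZMod p) := by
      funext x
      rw [Finset.sum_apply, sum_eq_single x]
      · rw [Pi.smul_apply, Pi.single_eq_same, smul_eq_mul, mul_one]
      · intro y _ hy
        rw [Pi.smul_apply, Pi.single_eq_of_ne hy.symm, smul_zero]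
      · intro h
        exact absurd (mem_univ x) h
    have h2 : J (fun a => v (Sum.inl a)) =
        ∑ a : A, v (Sum.inl a) • (Pi.single (Sum.inl a) 1 : A ⊕ B → ZMod p) := rfl
    conv_rhs => rw [h1]
    rw [LinearMap.comp_apply, h2, Fintype.sum_sum_type, map_add, map_sum, map_sum]
    rw [add_eq_left.2]
    refine sum_eq_zero fun j _ => ?_
    rw [map_smul, hNj, smul_zero]
  have hmem : ∀ j : B, (Pi.single (Sum.inr j) 1 : A ⊕ B → ZMod p) ∈ LinearMap.range (N ∘ₗ J) := by
    intro j
    obtain ⟨m, hm⟩ := hu j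
    have h1 : (Pi.single (Sum.inr j) 1 : A ⊕ B → ZMod p) = N (cls p m) := by
      funext x
      rw [Pi.single_apply, hm x, hN, LinearMap.sum_apply, Finset.sum_apply]
      refine sum_congr rfl fun i _ => ?_
      rw [hL, cls_pow_apply]
      rfl
    rw [h1]
    exact hrange _
  have hli : LinearIndependent (ZMod p) fun j : B =>
      (⟨Pi.single (Sum.inr j) 1, hmem j⟩ : LinearMap.range (N ∘ₗ J)) := by
    apply LinearIndependent.of_comp (LinearMap.range (N ∘ₗ J)).subtype
    have h1 : LinearIndependent (ZMod p) fun y : A ⊕ B =>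
        (Pi.single y 1 : A ⊕ B → ZMod p) := by
      have := (Pi.basisFun (ZMod p) (A ⊕ B)).linearIndependent
      convert this using 1
      funext y
      exact (Pi.basisFun_apply (ZMod p) (A ⊕ B) y).symm
    exact h1.comp Sum.inr Sum.inr_injective
  have h3 := hli.fintype_card_le_finrank
  have h4 : Module.finrank (ZMod p) (LinearMap.range (N ∘ₗ J)) ≤
      Module.finrank (ZMod p) (A → ZMod p) := LinearMap.finrank_range_le _
  rw [Module.finrank_fintype_fun_eq_card] at h4
  exact h3.trans h4

end Pool.Agent.MCG
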