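import Mathlib

set_option autoImplicit false

/-!
Linear algebra for (P2): if `T` has order `p` in characteristic `p` and the vectors `e j` are
independent norms, then the dimension is at least `p` times their number (Riemann-Hurwitz).
-/

namespace Pool.Agent.MCG

open Finset

variable {p : ℕ} [hp : Fact p.Prime]

/-- the norm is a power of `T - 1` -/
theorem sum_pow_eq {V : Type} [AddCommGroup V] [Module (ZMod p) V] (T : V →ₗ[ZMod p] V) :
    ∑ i ∈ range p, T ^ i = (T - 1) ^ (p - 1) := by
  have h1 : (∑ i ∈ range p, (Polynomial.X : Polynomial (ZMod p)) ^ i) =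
      (Polynomial.X - 1) ^ (p - 1) := by
    have h0 : (Polynomial.X - 1 : Polynomial (ZMod p)) ≠ 0 := by
      have := Polynomial.X_sub_C_ne_zero (1 : ZMod p)
      rwa [Polynomial.C_1] at this
    apply mul_right_cancel₀ h0
    rw [geom_sum_mul, ← pow_succ, Nat.sub_add_cancel hp.out.one_lt.le, sub_pow_char, one_pow]
  have h2 := congrArg (Polynomial.aeval T) h1
  rw [map_sum, map_pow, map_sub, Polynomial.aeval_X, map_one] at h2
  rw [← h2]
  exact sum_congr rfl fun i _ => by rw [map_pow, Polynomial.aeval_X]

theorem sub_one_pow_eq {V : Type} [AddCommGroup V] [Module (ZMod p) V] (T : V →ₗ[ZMod p] V)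
    (hT : T ^ p = 1) : (T - 1) ^ p = 0 := by
  have h1 : (Polynomial.X - 1 : Polynomial (ZMod p)) ^ p = Polynomial.X ^ p - 1 := by
    rw [sub_pow_char, one_pow]
  have h2 := congrArg (Polynomial.aeval T) h1
  rw [map_pow, map_sub, map_sub, map_pow, Polynomial.aeval_X, map_one, hT, sub_self] at h2
  exact h2

theorem count_lin {V : Type} [AddCommGroup V] [Module (ZMod p) V] [FiniteDimensional (ZMod p) V]
    (T : V →ₗ[ZMod p] V) (hT : T ^ p = 1) {κ : Type} [Fintype κ] (e : κ → V)
    (he : LinearIndependent (ZMod p) e) (hv : ∀ j, ∃ v, ∑ i ∈ range p, (T ^ i) v = e j) :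
    p * Fintype.card κ ≤ Module.finrank (ZMod p) V := by
  classical
  choose v hv using hv
  set S : V →ₗ[ZMod p] V := T - 1 with hS
  have hSp : ∀ n, p ≤ n → S ^ n = 0 := by
    intro n hn
    rw [← Nat.sub_add_cancel hn, pow_add, sub_one_pow_eq T hT, mul_zero]
  have hSe : ∀ j, (S ^ (p - 1)) (v j) = e j := by
    intro j
    rw [← hv j, ← sum_pow_eq, LinearMap.sum_apply]
  have hli : LinearIndependent (ZMod p) fun x : Fin p × κ => (S ^ (x.1 : ℕ)) (v x.2) := by
    rw [Fintype.linearIndependent_iff]
    intro c hc
    have key : ∀ n : ℕ, ∀ (hn : n < p) (j : κ), c (⟨n, hn⟩, j) = 0 := by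
      intro n
      induction n using Nat.strong_induction_on with
      | _ n ih =>
        intro hn
        have h1 : ∑ j, c (⟨n, hn⟩, j) • e j = 0 := by
          have h2 := congrArg (S ^ (p - 1 - n)) hc
          rw [map_sum, map_zero, Fintype.sum_prod_type,
            sum_eq_single (⟨n, hn⟩ : Fin p)] at h2
          · rw [← h2]
            refine sum_congr rfl fun j _ => ?_
            rw [map_smul, ← Module.End.mul_apply, ← pow_add]
            congr 1
            rw [← hSe j]
            congr 2
            change p - 1 = p - 1 - n + n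
            omega
          · intro i _ hi
            refine sum_eq_zero fun j _ => ?_
            rw [map_smul, ← Module.End.mul_apply, ← pow_add]
            rcases lt_or_gt_of_ne (fun h => hi (Fin.ext h) : (i : ℕ) ≠ n) with h | h
            · have h3 := ih i h i.2 j
              change c (i, j) = 0 at h3
              rw [h3, zero_smul]
            · rw [hSp _ (by change p ≤ p - 1 - n + (i : ℕ); omega), LinearMap.zero_apply,
                smul_zero]
          · intro h
            exact absurd (mem_univ _) h
        exact fun j => (Fintype.linearIndependent_iff.1 he) _ h1 j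
    rintro ⟨i, j⟩
    exact key i i.2 j
  have h3 := hli.fintype_card_le_finrank
  rwa [Fintype.card_prod, Fintype.card_fin] at h3

end Pool.Agent.MCG
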