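import Pool.Agent.MCG.PPow
import Pool.Agent.MCG.PKill
import Pool.Agent.MCG.PEx
import Pool.Agent.MCG.PCount
import Pool.Agent.MCG.PLin

set_option autoImplicit false
set_option linter.unusedSectionVars false

noncomputable section

/-!
The counting argument with the sharp bound at the prime `p` (Riemann-Hurwitz): kill the letters
of `β` outside `B`, then `count_lin` in the first homology mod `p`.
-/

namespace Pool.Agent.MCG

open MonoidAlgebra Pool.Agent.Lvl

variable {p : ℕ} [hp : Fact p.Prime] {ι : Type} [DecidableEq ι] [Fintype ι]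

/-- an automorphism whose `p`-th power is trivial modulo the square of the augmentation ideal has
order `p` on the first homology mod `p` -/
theorem lin_pow_eq_one {g : MulAut (FreeGroup ι)} {N : ℕ} (hN : 2 ≤ N) (hg : Trunc p N g) :
    (lin p (g : FreeGroup ι →* FreeGroup ι)) ^ p = 1 := by
  refine LinearMap.pi_ext' fun y => LinearMap.ext_ring ?_
  change ((lin p (g : FreeGroup ι →* FreeGroup ι)) ^ p) (Pi.single y 1) = Pi.single y 1
  rw [← cls_of, cls_pow_apply]
  funext x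
  have h1 := dvd_of_fil hN (hg (FreeGroup.of y)) x
  rw [← ZMod.intCast_zmod_eq_zero_iff_dvd, Int.cast_sub, sub_eq_zero] at h1
  exact h1

theorem count_sharp {β : ι → Prop} [DecidablePred β] {B : Finset ι} (_hB : ∀ j ∈ B, β j)
    {g : MulAut (FreeGroup ι)}
    (hσ : ∀ i, β i → ∃ j, β j ∧ IsConj (g (FreeGroup.of i)) (FreeGroup.of j))
    (u : ι → FreeGroup ι)
    (hu : ∀ j ∈ B, g (FreeGroup.of j) = u j * FreeGroup.of j * (u j)⁻¹) {N : ℕ} (hN : 2 ≤ N)
    (hg : Trunc p (N + 1) g) (hne : ∀ j ∈ B, ¬ (p : ℤ) ∣ ex j (yU g (u j) p)) :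
    (p - 1) * B.card ≤ Fintype.card {a // ¬ β a} := by
  classical
  let D : ι → Prop := fun i => β i ∧ i ∉ B
  have hmap : ∀ (g : MulAut (FreeGroup ι)) {a b : FreeGroup ι}, IsConj a b →
      IsConj (g a) (g b) := by
    intro g a b h
    obtain ⟨c, hc⟩ := isConj_iff.1 h
    exact isConj_iff.2 ⟨g c, by rw [← hc, map_mul, map_mul, map_inv]⟩
  have hD : ∀ i, D i → ∃ j, D j ∧ IsConj (g (FreeGroup.of i)) (FreeGroup.of j) := by
    rintro i ⟨hi, hiB⟩
    obtain ⟨j, hj, h⟩ := hσ i hi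
    refine ⟨j, ⟨hj, fun hjB => hiB ?_⟩, h⟩
    have h1 : IsConj (g (FreeGroup.of j)) (FreeGroup.of j) := by
      rw [hu j hjB]
      exact (isConj_iff.2 ⟨u j, rfl⟩ : IsConj (FreeGroup.of j)
        (u j * FreeGroup.of j * (u j)⁻¹)).symm
    have h2 := hmap g⁻¹ (h.trans h1.symm)
    rw [MulAut.inv_apply_self, MulAut.inv_apply_self] at h2
    rw [isConj_of h2]
    exact hjB
  obtain ⟨h1, h2⟩ := kill_perm g hD
  obtain ⟨g', hg', htr⟩ := kill_aut g h1 h2
  have hpow : ∀ (n : ℕ) (f : FreeGroup ι), kill D ((g ^ n) f) = (g' ^ n) (kill D f) := by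
    intro n
    induction n with
    | zero => intro f; rw [pow_zero, pow_zero, MulAut.one_apply, MulAut.one_apply]
    | succ n ih =>
      intro f
      rw [pow_succ, pow_succ, MulAut.mul_apply, MulAut.mul_apply, ih, hg']
  have hBD : ∀ j : B, ¬ D j.1 := fun j h => h.2 j.2
  let e : B → ({i // ¬ D i} → ZMod p) := fun j => Pi.single ⟨j.1, hBD j⟩ 1
  have he : LinearIndependent (ZMod p) e := by
    have h3 : LinearIndependent (ZMod p) fun y : {i // ¬ D i} =>
        (Pi.single y 1 : {i // ¬ D i} → ZMod p) := by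
      have := (Pi.basisFun (ZMod p) {i // ¬ D i}).linearIndependent
      convert this using 1
      funext y
      exact (Pi.basisFun_apply (ZMod p) _ y).symm
    refine h3.comp (fun j : B => (⟨j.1, hBD j⟩ : {i // ¬ D i})) fun i j h => ?_
    have h4 : (⟨i.1, hBD i⟩ : {i // ¬ D i}) = ⟨j.1, hBD j⟩ := h
    exact Subtype.ext (congrArg (fun y : {i // ¬ D i} => y.1) h4)
  have hv : ∀ j, ∃ v, ∑ i ∈ Finset.range p,
      ((lin p (g' : FreeGroup {i // ¬ D i} →* FreeGroup {i // ¬ D i})) ^ i) v = e j := by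
    intro j
    have ha : (((ex j.1 (yU g (u j.1) p) : ℤ)) : ZMod p) ≠ 0 := fun h =>
      hne j.1 j.2 ((ZMod.intCast_zmod_eq_zero_iff_dvd _ _).1 h)
    refine ⟨(-((ex j.1 (yU g (u j.1) p) : ℤ) : ZMod p))⁻¹ • cls p (kill D (u j.1)), ?_⟩
    have h3 : ∑ i ∈ Finset.range p,
        ((lin p (g' : FreeGroup {i // ¬ D i} →* FreeGroup {i // ¬ D i})) ^ i)
          (cls p (kill D (u j.1))) = (-((ex j.1 (yU g (u j.1) p) : ℤ) : ZMod p)) • e j := by
      funext x
      rw [Finset.sum_apply]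
      have h4 : ∀ i, (((lin p (g' : FreeGroup {i // ¬ D i} →* FreeGroup {i // ¬ D i})) ^ i)
          (cls p (kill D (u j.1)))) x = ((ex x.1 ((g ^ i) (u j.1)) : ℤ) : ZMod p) := by
        intro i
        rw [cls_pow_apply, ← hpow]
        change ((ex x (kill D ((g ^ i) (u j.1))) : ℤ) : ZMod p) = _
        rw [ex_kill]
      rw [Finset.sum_congr rfl fun i _ => h4 i, ← Int.cast_sum]
      have h5 : ∑ i ∈ Finset.range p, ex x.1 ((g ^ i) (u j.1)) = - ex x.1 (yU g (u j.1) p) := by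
        rw [ex_yU, neg_neg]
      rw [h5]
      have h6 := dvd_of_fil hN (trunc_y hg (hu j.1 j.2)) x.1
      rw [← ZMod.intCast_zmod_eq_zero_iff_dvd, Int.cast_sub, sub_eq_zero] at h6
      have he1 : e j x = if x = ⟨j.1, hBD j⟩ then 1 else 0 := Pi.single_apply _ _ _
      rw [Int.cast_neg, h6, ex_zpow, ex_of, Pi.smul_apply, he1]
      by_cases h7 : x = ⟨j.1, hBD j⟩
      · have h8 : j.1 = x.1 := by rw [h7]
        rw [if_pos h7, if_pos h8, smul_eq_mul, mul_one, mul_one]
      · have h8 : ¬ j.1 = x.1 := fun h9 => h7 (Subtype.ext h9.symm)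
        rw [if_neg h7, if_neg h8, smul_eq_mul, mul_zero, mul_zero, Int.cast_zero, neg_zero]
    have h4 : ∀ i, ((lin p (g' : FreeGroup {i // ¬ D i} →* FreeGroup {i // ¬ D i})) ^ i)
        ((-((ex j.1 (yU g (u j.1) p) : ℤ) : ZMod p))⁻¹ • cls p (kill D (u j.1))) =
        (-((ex j.1 (yU g (u j.1) p) : ℤ) : ZMod p))⁻¹ •
          ((lin p (g' : FreeGroup {i // ¬ D i} →* FreeGroup {i // ¬ D i})) ^ i)
            (cls p (kill D (u j.1))) := fun i => map_smul _ _ _
    rw [Finset.sum_congr rfl fun i _ => h4 i, ← Finset.smul_sum, h3, smul_smul,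
      inv_mul_cancel₀ (neg_ne_zero.2 ha), one_smul]
  have h3 := count_lin _ (lin_pow_eq_one (by omega) (htr p _ hg)) e he hv
  rw [Module.finrank_fintype_fun_eq_card, Fintype.card_coe] at h3
  have h4 : Fintype.card {i // ¬ D i} ≤ Fintype.card {a // ¬ β a} + B.card := by
    rw [Fintype.card_subtype, Fintype.card_subtype]
    refine le_trans (Finset.card_le_card fun i hi => ?_) (Finset.card_union_le _ _)
    rw [Finset.mem_filter] at hi
    rw [Finset.mem_union, Finset.mem_filter]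
    by_cases hiB : i ∈ B
    · exact Or.inr hiB
    · exact Or.inl ⟨Finset.mem_univ _, fun h => hi.2 ⟨h, hiB⟩⟩
  obtain ⟨n, hn⟩ : ∃ n, p = n + 1 := ⟨p - 1, (Nat.sub_add_cancel hp.out.one_lt.le).symm⟩
  have h5 : p * B.card = (p - 1) * B.card + B.card := by
    rw [hn, Nat.add_sub_cancel, Nat.succ_mul]
  omega

end Pool.Agent.MCG
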