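import Pool.Agent.MCG.PExp

set_option autoImplicit false
set_option linter.unusedSectionVars false

noncomputable section

/-!
MCG⁺ (MP_95030e), mapping class groups of surfaces with punctures. Definitions and exponent sums.
The page is /team-store/MCG_plus.md.
-/

namespace Pool.Agent.MCG

open MonoidAlgebra Pool.Agent.Lvl CongCL

section

variable {ι : Type} [DecidableEq ι]

/-- the exponent sum of the generator `x` -/
def ex (x : ι) (f : FreeGroup ι) : ℤ := (expo x f).toAdd

/-- the homomorphism which maps the generators `x` with `D x` to `1` -/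
def kill (D : ι → Prop) [DecidablePred D] : FreeGroup ι →* FreeGroup {i // ¬ D i} :=
  FreeGroup.lift fun i => if h : D i then 1 else FreeGroup.of ⟨i, h⟩

/-- `g ^ p ≡ 1` modulo the `N`-th power of the augmentation ideal of the group algebra over the
field with `p` elements -/
def Trunc (p N : ℕ) (g : MulAut (FreeGroup ι)) : Prop :=
  ∀ f, single ((g ^ p) f) (1 : ZMod p) - single f 1 ∈ Fil (ZMod p) (FreeGroup ι) N

/-- `W` is a set of boundary words for the punctures `x_j`, `β j`, at the prime `p` -/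
structure Bdry [Fintype ι] (p : ℕ) (β : ι → Prop) [DecidablePred β] (W : Set (FreeGroup ι)) :
    Prop where
  nondeg : NondegAt p (kill β '' W)
  ex_ne : ∀ j, β j → ∃ w ∈ W, ¬ (p : ℤ) ∣ ex j w

theorem ex_of (x y : ι) : ex x (FreeGroup.of y) = if y = x then 1 else 0 := by
  exact expo_of x y

theorem ex_one (x : ι) : ex x 1 = 0 := by
  simp [ex]

theorem ex_mul (x : ι) (a b : FreeGroup ι) : ex x (a * b) = ex x a + ex x b := by
  simp [ex]

theorem ex_inv (x : ι) (a : FreeGroup ι) : ex x a⁻¹ = -ex x a := by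
  simp [ex]

theorem ex_pow (x : ι) (a : FreeGroup ι) (n : ℕ) : ex x (a ^ n) = n * ex x a := by
  simp [ex]

theorem ex_zpow (x : ι) (a : FreeGroup ι) (n : ℤ) : ex x (a ^ n) = n * ex x a := by
  simp [ex]

theorem ex_conj (x : ι) {a b : FreeGroup ι} (h : IsConj a b) : ex x a = ex x b := by
  obtain ⟨c, rfl⟩ := isConj_iff.1 h
  rw [ex_mul, ex_mul, ex_inv]
  ring

theorem ex_comm (x : ι) {a : FreeGroup ι} (h : a ∈ commutator (FreeGroup ι)) : ex x a = 0 := by
  have h1 : commutator (FreeGroup ι) ≤ (expo x).ker := Abelianization.commutator_subset_ker (expo x)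
  have h2 := h1 h
  rw [MonoidHom.mem_ker] at h2
  rw [ex, h2]
  rfl

/-- a homomorphism to an abelian group is determined by the exponent sums -/
theorem hom_eq [Fintype ι] (φ : FreeGroup ι →* Multiplicative ℤ) (f : FreeGroup ι) :
    (φ f).toAdd = ∑ y, ex y f * (φ (FreeGroup.of y)).toAdd := by
  induction f using FreeGroup.induction_on with
  | C1 => simp [ex_one]
  | of l => simp [ex_of]
  | inv_of l _ => simp [ex_of, ex_inv]
  | mul a b ha hb =>
    rw [map_mul, toAdd_mul, ha, hb, ← Finset.sum_add_distrib]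
    exact Finset.sum_congr rfl fun y _ => by rw [ex_mul]; ring

/-- the chain rule -/
theorem ex_map [Fintype ι] (g : FreeGroup ι →* FreeGroup ι) (x : ι) (f : FreeGroup ι) :
    ex x (g f) = ∑ y, ex y f * ex x (g (FreeGroup.of y)) :=
  hom_eq ((expo x).comp g) f

theorem isConj_of {i j : ι} (h : IsConj (FreeGroup.of i) (FreeGroup.of j)) : i = j := by
  have h1 := ex_conj j h
  rw [ex_of, ex_of, if_pos rfl] at h1
  by_contra h2
  rw [if_neg h2] at h1
  exact zero_ne_one h1

theorem eps_foxl_ex {R : Type} [CommRing R] (x : ι) (w : FreeGroup ι) :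
    eps R (FreeGroup ι) (foxl R x (single w 1)) = ((ex x w : ℤ) : R) :=
  expo_eps_foxl x w

theorem eps_foxr_ex {R : Type} [CommRing R] (x : ι) (w : FreeGroup ι) :
    eps R (FreeGroup ι) (foxr R x (single w 1)) = ((ex x w : ℤ) : R) :=
  eps_foxr_single x w

end

/-- the word `x_1 ⋯ x_m [a_1, b_1] ⋯ [a_g, b_g]` -/
def bdW (g m : ℕ) : FreeGroup ((Fin g × Bool) ⊕ Fin m) :=
  (List.ofFn fun j : Fin m => FreeGroup.of (Sum.inr j)).prod * FreeGroup.map Sum.inl (surfRel g)

end Pool.Agent.MCG
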