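import Pool.Agent.MCG.Index

set_option autoImplicit false
set_option linter.unusedSectionVars false

noncomputable section

open Classical

/-!
Denominators at a prime `p`.
-/

namespace Pool.Agent.MCG

open Pool.Agent.VN Pool.Agent.Lvl

/-- the dimensions of the kernels of all matrices over `ℂK` have a common denominator which is prime
to `p` -/
def DenAt (p : ℕ) (K : Type) [Group K] : Prop :=
  ∃ n : ℕ, n ≠ 0 ∧ ¬ p ∣ n ∧ ∀ (r s : ℕ) (A : Matrix (Fin r) (Fin s) (K →₀ ℂ)),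
    ∃ z : ℤ, (n : ℝ) * kerDim A = z

theorem DenAt.of_atiyah {p : ℕ} (hp : p.Prime) {K : Type} [Group K] (h : AtiyahOver ⊤ K) :
    DenAt p K :=
  ⟨1, one_ne_zero, fun h1 => hp.one_lt.ne' (Nat.dvd_one.1 h1), fun r s A => by
    rw [Nat.cast_one, one_mul]
    exact h r s A fun _ _ _ => Subring.mem_top _⟩

theorem DenAt.of_index {p : ℕ} (hp : p.Prime) {G : Type} [Group G] (K : Subgroup G)
    (h0 : K.index ≠ 0) (h1 : ¬ p ∣ K.index) (h : DenAt p K) : DenAt p G := by
  obtain ⟨n, hn, hpn, hA⟩ := h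
  refine ⟨n * K.index, mul_ne_zero hn h0, fun h2 => ?_, fun r s A => ?_⟩
  · rcases hp.dvd_mul.1 h2 with h2 | h2
    · exact hpn h2
    · exact h1 h2
  · have hfi : K.FiniteIndex := ⟨h0⟩
    have hfin : Fintype (G ⧸ K) := Fintype.ofFinite _
    have h1 := vdim_finIndex K (Set.range (colF A))
    have hC : {c | ∃ a ∈ Set.range (colF A), ∃ q : G ⧸ K, c = cosF K a q}
        = ⋃ q : G ⧸ K, (fun a => cosF K a q) '' Set.range (colF A) := by
      ext c
      simp only [Set.mem_iUnion, Set.mem_image, Set.mem_ofPred_eq]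
      constructor
      · rintro ⟨a, ha, q, rfl⟩
        exact ⟨q, a, ha, rfl⟩
      · rintro ⟨q, a, ha, rfl⟩
        exact ⟨a, ha, q, rfl⟩
    obtain ⟨r', s', B, -, hB⟩ := exists_matrixK ⊤
      {c | ∃ a ∈ Set.range (colF A), ∃ q : G ⧸ K, c = cosF K a q} (by
        rw [hC]
        exact Set.finite_iUnion fun q => (Set.finite_range _).image _)
      fun _ _ _ => Subring.mem_top _
    obtain ⟨z, hz⟩ := hA r' s' B
    refine ⟨z, ?_⟩
    rw [← hz, hB, h1, kerDim_eq, Subgroup.index_eq_card, Nat.card_eq_fintype_card]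
    push_cast
    ring

theorem DenAt.of_sub {p : ℕ} (hp : p.Prime) {G : Type} [Group G]
    (h : ∃ K : Subgroup G, K.index ≠ 0 ∧ ¬ p ∣ K.index ∧ AtiyahOver ⊤ K) : DenAt p G := by
  obtain ⟨K, h0, h1, h2⟩ := h
  exact DenAt.of_index hp K h0 h1 (DenAt.of_atiyah hp h2)

theorem atiyah_of_den {G : Type} [Group G] (h : ∀ p : ℕ, p.Prime → DenAt p G) :
    AtiyahOver ⊤ G := by
  intro r s A _
  refine int_of_index fun p hp => ?_
  obtain ⟨n, hn, hpn, hA⟩ := h p hp
  exact ⟨n, hn, hpn, hA r s A⟩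

end Pool.Agent.MCG
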