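import Pool.Agent.MCG.PGood

set_option autoImplicit false
set_option linter.unusedSectionVars false

noncomputable section

open Classical

/-!
Denominators: the main theorem with a common denominator `D`.
-/

namespace Pool.Agent.MCG

open Pool.Agent.VN Pool.Agent.Lvl

theorem den_index {G : Type} [Group G] (K : Subgroup G) (h0 : K.index ≠ 0) {n : ℕ}
    (hA : ∀ (r s : ℕ) (A : Matrix (Fin r) (Fin s) (K →₀ ℂ)), ∃ z : ℤ, (n : ℝ) * kerDim A = z)
    {r s : ℕ} (A : Matrix (Fin r) (Fin s) (G →₀ ℂ)) :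
    ∃ z : ℤ, ((n * K.index : ℕ) : ℝ) * kerDim A = z := by
  have hfi : K.FiniteIndex := ⟨h0⟩
  have hfin : Fintype (G ⧸ K) := Fintype.ofFinite _
  have h1 := vdim_finIndex K (Set.range (colF A))
  have hC : {c | ∃ a ∈ Set.range (colF A), ∃ q : G ⧸ K, c = cosF K a q}
      = ⋃ q : G ⧸ K, (fun a => cosF K a q) '' Set.range (colF A) := by
    ext c
    simp only [Set.mem_iUnion, Set.mem_image, Set.mem_ofPred_eq]
    constructor
    · rintro ⟨a, ha, q, rfl⟩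
      exact ⟨q, a, ha, rfl⟩
    · rintro ⟨q, a, ha, rfl⟩
      exact ⟨a, ha, q, rfl⟩
  obtain ⟨r', s', B, -, hB⟩ := exists_matrixK ⊤
    {c | ∃ a ∈ Set.range (colF A), ∃ q : G ⧸ K, c = cosF K a q} (by
      rw [hC]
      exact Set.finite_iUnion fun q => (Set.finite_range _).image _)
    fun _ _ _ => Subring.mem_top _
  obtain ⟨z, hz⟩ := hA r' s' B
  refine ⟨z, ?_⟩
  rw [← hz, hB, h1, kerDim_eq, Subgroup.index_eq_card, Nat.card_eq_fintype_card]
  push_cast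
  ring

/-- `D x` is an integer if for every prime `p` some `n x` is, the `p`-part of `n` dividing `D` -/
theorem int_of_parts {x : ℝ} {D : ℕ} (h : ∀ p : ℕ, p.Prime → ∃ n : ℕ, n ≠ 0 ∧
    (∀ k, p ^ k ∣ n → p ^ k ∣ D) ∧ ∃ z : ℤ, (n : ℝ) * x = z) : ∃ z : ℤ, (D : ℝ) * x = z := by
  refine int_of_index fun p hp => ?_
  obtain ⟨n, hn, hD, z, hz⟩ := h p hp
  obtain ⟨a, m, hm, rfl⟩ := Nat.exists_eq_pow_mul_and_not_dvd hn p hp.ne_one
  obtain ⟨d, rfl⟩ := hD a (Dvd.intro _ rfl)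
  refine ⟨m, fun h0 => hm (h0 ▸ dvd_zero p), hm, d * z, ?_⟩
  push_cast
  rw [← hz]
  push_cast
  ring

/-- **The main theorem, with denominators** -/
theorem den_of_good {G : Type} [Group G] {D : ℕ} (h : ∀ p : ℕ, p.Prime → ∃ K : Subgroup G,
    K.index ≠ 0 ∧ (∀ k, p ^ k ∣ K.index → p ^ k ∣ D) ∧ Good p K)
    {r s : ℕ} (A : Matrix (Fin r) (Fin s) (G →₀ ℂ)) : ∃ z : ℤ, (D : ℝ) * kerDim A = z := by
  refine int_of_parts fun p hp => ?_
  obtain ⟨K, h0, h1, h2⟩ := h p hp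
  obtain ⟨n, hn, hpn, hA⟩ := h2.den hp
  refine ⟨n * K.index, mul_ne_zero hn h0, fun k hk => h1 k ?_, den_index K h0 hA A⟩
  exact (Nat.Coprime.dvd_of_dvd_mul_left ((hp.coprime_iff_not_dvd.2 hpn).pow_left k) hk)

end Pool.Agent.MCG
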