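import Pool.Agent.MCG.PCent
import Pool.Agent.Lvl.SDef

set_option autoImplicit false
set_option linter.unusedSectionVars false

noncomputable section

/-!
Exponent sums: `expo x w` is the coefficient of `X_x`, and the subgroup `[F, F] F ^ m` of the free
group `F` consists of all elements whose exponent sums are divisible by `m`.
-/

namespace Pool.Agent.MCG

open MonoidAlgebra Pool.Agent.Lvl

variable {ι : Type} [DecidableEq ι]

theorem expo_of (x y : ι) : (expo x (FreeGroup.of y)).toAdd = if y = x then 1 else 0 := by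
  unfold expo
  rw [FreeGroup.lift_apply_of]
  split_ifs <;> rfl

/-- the exponent sum is the augmentation of the right Fox derivative -/
theorem eps_foxr_single {R : Type} [CommRing R] (x : ι) (w : FreeGroup ι) :
    eps R (FreeGroup ι) (foxr R x (single w 1)) = (((expo x w).toAdd : ℤ) : R) := by
  have he : ∀ a : FreeGroup ι, eps R (FreeGroup ι) (single a 1) = 1 := by
    intro a
    unfold eps
    rw [MonoidAlgebra.lift_single, MonoidHom.one_apply, one_smul]
  have hmul : ∀ a b : FreeGroup ι,
      eps R (FreeGroup ι) (foxr R x (single (a * b) 1)) =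
        eps R (FreeGroup ι) (foxr R x (single a 1)) +
          eps R (FreeGroup ι) (foxr R x (single b 1)) := by
    intro a b
    have h1 : (single (a * b) 1 : MonoidAlgebra R (FreeGroup ι)) = single a 1 * single b 1 := by
      rw [single_mul_single, mul_one]
    rw [h1, foxr_mul, he, one_smul, map_add, map_mul, he, one_mul, add_comm]
  have hone : eps R (FreeGroup ι) (foxr R x (single 1 1)) = 0 := by
    rw [← MonoidAlgebra.one_def, foxr_one, map_zero]
  induction w using FreeGroup.induction_on with
  | C1 => rw [hone, map_one, toAdd_one, Int.cast_zero]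
  | of y =>
    rw [foxr_of, expo_of]
    split_ifs
    · rw [map_one, Int.cast_one]
    · rw [map_zero, Int.cast_zero]
  | inv_of y ih =>
    have h1 := hmul (FreeGroup.of y)⁻¹ (FreeGroup.of y)
    rw [inv_mul_cancel, hone, ih] at h1
    rw [map_inv, toAdd_inv, Int.cast_neg]
    exact eq_neg_of_add_eq_zero_left h1.symm
  | mul a b ha hb => rw [hmul, ha, hb, map_mul, toAdd_mul, Int.cast_add]

theorem expo_eps_foxl {R : Type} [CommRing R] (x : ι) (w : FreeGroup ι) :
    eps R (FreeGroup ι) (foxl R x (single w 1)) = (((expo x w).toAdd : ℤ) : R) := by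
  have he : ∀ a : FreeGroup ι, eps R (FreeGroup ι) (single a 1) = 1 := by
    intro a
    unfold eps
    rw [MonoidAlgebra.lift_single, MonoidHom.one_apply, one_smul]
  have hmul : ∀ a b : FreeGroup ι,
      eps R (FreeGroup ι) (foxl R x (single (a * b) 1)) =
        eps R (FreeGroup ι) (foxl R x (single a 1)) +
          eps R (FreeGroup ι) (foxl R x (single b 1)) := by
    intro a b
    have h1 : (single (a * b) 1 : MonoidAlgebra R (FreeGroup ι)) = single a 1 * single b 1 := by
      rw [single_mul_single, mul_one]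
    rw [h1, foxl_mul, he, one_smul, map_add, map_mul, he, mul_one]
  have hone : eps R (FreeGroup ι) (foxl R x (single 1 1)) = 0 := by
    rw [← MonoidAlgebra.one_def, foxl_one, map_zero]
  induction w using FreeGroup.induction_on with
  | C1 => rw [hone, map_one, toAdd_one, Int.cast_zero]
  | of y =>
    rw [foxl_of, expo_of]
    split_ifs
    · rw [map_one, Int.cast_one]
    · rw [map_zero, Int.cast_zero]
  | inv_of y ih =>
    have h1 := hmul (FreeGroup.of y)⁻¹ (FreeGroup.of y)
    rw [inv_mul_cancel, hone, ih] at h1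
    rw [map_inv, toAdd_inv, Int.cast_neg]
    exact eq_neg_of_add_eq_zero_left h1.symm
  | mul a b ha hb => rw [hmul, ha, hb, map_mul, toAdd_mul, Int.cast_add]

/-- the exponent sum `expo x` kills the commutators and is divisible by `m` on `m`-th powers -/
theorem dvd_of_mem_UU {m : ℕ} {f : FreeGroup ι} (hf : f ∈ UU (FreeGroup ι) m) (x : ι) :
    (m : ℤ) ∣ (expo x f).toAdd := by
  have hf' : f ∈ Subgroup.closure ({x : FreeGroup ι | ∃ a b, x = a * b * a⁻¹ * b⁻¹} ∪
    {x | ∃ a, x = a ^ m}) := hf
  clear hf
  induction hf' using Subgroup.closure_induction with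
  | mem f hf =>
    rcases hf with ⟨a, b, rfl⟩ | ⟨a, rfl⟩
    · have h1 : expo x (a * b * a⁻¹ * b⁻¹) = 1 := by
        rw [map_mul, map_mul, map_mul, map_inv, map_inv, mul_comm (expo x a) (expo x b),
          mul_inv_cancel_right, mul_inv_cancel]
      rw [h1, toAdd_one]
      exact dvd_zero _
    · rw [map_pow, toAdd_pow, nsmul_eq_mul]
      exact dvd_mul_right _ _
  | one => rw [map_one, toAdd_one]; exact dvd_zero _
  | mul a b _ _ ha hb => rw [map_mul, toAdd_mul]; exact dvd_add ha hb
  | inv a _ ha => rw [map_inv, toAdd_inv]; exact (dvd_neg).2 ha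

variable [Fintype ι]

/-- an abelian quotient of a finitely generated free group: the value of a homomorphism depends only
on the exponent sums -/
theorem hom_eq_prod {A : Type} [CommGroup A] (φ : FreeGroup ι →* A) (f : FreeGroup ι) :
    φ f = ∏ x, φ (FreeGroup.of x) ^ (expo x f).toAdd := by
  have h : φ = ∏ x : ι, (zpowersHom A (φ (FreeGroup.of x))).comp (expo x) := by
    refine FreeGroup.ext_hom _ _ fun y => ?_
    rw [MonoidHom.finsetProd_apply, Finset.prod_eq_single y]
    · rw [MonoidHom.comp_apply, zpowersHom_apply, expo_of, if_pos rfl, zpow_one]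
    · intro x _ hx
      rw [MonoidHom.comp_apply, zpowersHom_apply, expo_of, if_neg (Ne.symm hx), zpow_zero]
    · intro h
      exact absurd (Finset.mem_univ y) h
  conv_lhs => rw [h]
  rw [MonoidHom.finsetProd_apply]
  rfl

theorem mem_UU_iff {m : ℕ} {f : FreeGroup ι} :
    f ∈ UU (FreeGroup ι) m ↔ ∀ x, (m : ℤ) ∣ (expo x f).toAdd := by
  refine ⟨fun h x => dvd_of_mem_UU h x, fun h => ?_⟩
  have hnorm : (UU (FreeGroup ι) m).Normal := by
    refine ⟨fun a ha b => ?_⟩
    have h1 : b * a * b⁻¹ * a⁻¹ ∈ UU (FreeGroup ι) m := Subgroup.subset_closure (Or.inl ⟨b, a, rfl⟩)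
    have h2 := (UU (FreeGroup ι) m).mul_mem h1 ha
    rwa [inv_mul_cancel_right] at h2
  let I : CommGroup (FreeGroup ι ⧸ UU (FreeGroup ι) m) :=
    { (inferInstance : Group (FreeGroup ι ⧸ UU (FreeGroup ι) m)) with
      mul_comm := by
        intro a b
        obtain ⟨a, rfl⟩ := QuotientGroup.mk_surjective a
        obtain ⟨b, rfl⟩ := QuotientGroup.mk_surjective b
        rw [← QuotientGroup.mk_mul, ← QuotientGroup.mk_mul, QuotientGroup.eq]
        refine Subgroup.subset_closure (Or.inl ⟨b⁻¹, a⁻¹, ?_⟩)
        group }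
  have h1 := @hom_eq_prod ι _ _ (FreeGroup ι ⧸ UU (FreeGroup ι) m) I
    (QuotientGroup.mk' (UU (FreeGroup ι) m)) f
  have h2 : QuotientGroup.mk' (UU (FreeGroup ι) m) f = 1 := by
    refine h1.trans (Finset.prod_eq_one fun x _ => ?_)
    obtain ⟨k, hk⟩ := h x
    rw [hk, zpow_mul, zpow_natCast]
    have h3 : (QuotientGroup.mk' (UU (FreeGroup ι) m) (FreeGroup.of x)) ^ m = 1 := by
      rw [← map_pow]
      exact (QuotientGroup.eq_one_iff _).2 (Subgroup.subset_closure (Or.inr ⟨_, rfl⟩))
    rw [h3, one_zpow]
  exact (QuotientGroup.eq_one_iff _).1 h2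

end Pool.Agent.MCG
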