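import Pool.Agent.MCG.PMain
import Pool.Agent.MCG.PDen
import Pool.Agent.MCG.Level4
import Pool.Agent.RGL.Fin

set_option autoImplicit false
set_option linter.unusedSectionVars false

noncomputable section

/-!
MCG⁺: goodness at a prime, surfaces with boundary.
-/

namespace Pool.Agent.MCG

open Pool.Agent.VN Pool.Agent.Lvl Pool.Agent.RGL

section

variable {ι : Type} {m : ℕ}

/-- the homomorphism from the free group on the `a_i`, `x_j` to the free group on the `a_i` with
`a_i ↦ a_i`, `x_j ↦ 1` -/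
def fill : FreeGroup (ι ⊕ Fin m) →* FreeGroup ι :=
  FreeGroup.lift (Sum.elim FreeGroup.of fun _ => 1)

/-- the automorphism `φ` permutes the conjugacy classes of the generators `x_j` -/
def PermX (φ : MulAut (FreeGroup (ι ⊕ Fin m))) : Prop :=
  ∀ j : Fin m, ∃ i : Fin m, IsConj (φ (FreeGroup.of (Sum.inr j))) (FreeGroup.of (Sum.inr i))

variable [DecidableEq ι] [Fintype ι]

private def isR (i : ι ⊕ Fin m) : Prop := i.isRight = true

private instance : DecidablePred (isR (ι := ι) (m := m)) := fun i =>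
  inferInstanceAs (Decidable (i.isRight = true))

private def eR : ι ≃ {i : ι ⊕ Fin m // ¬ isR i} where
  toFun i := ⟨Sum.inl i, by simp [isR]⟩
  invFun a := match a with
    | ⟨Sum.inl i, _⟩ => i
    | ⟨Sum.inr _, h⟩ => (h rfl).elim
  left_inv i := rfl
  right_inv := by
    rintro ⟨i | j, h⟩
    · rfl
    · exact (h rfl).elim

private theorem map_fill (w : FreeGroup (ι ⊕ Fin m)) :
    FreeGroup.map (eR (ι := ι) (m := m)) (fill w) = kill isR w := by
  have h : (FreeGroup.map (eR (ι := ι) (m := m))).comp fill = kill isR := by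
    refine FreeGroup.ext_hom _ _ fun i => ?_
    rcases i with i | j
    · rw [MonoidHom.comp_apply, kill_of_not isR (by simp [isR])]
      simp [fill, eR]
    · rw [MonoidHom.comp_apply, kill_of isR (by simp [isR])]
      simp [fill]
  rw [← h]
  rfl

private theorem kill_image (W : Set (FreeGroup (ι ⊕ Fin m))) :
    kill isR '' W = FreeGroup.map (eR (ι := ι) (m := m)) '' (fill '' W) := by
  rw [Set.image_image]
  exact Set.image_congr fun w _ => (map_fill w).symm

theorem den_boundary {p : ℕ} (hp : p.Prime) {W : Set (FreeGroup (ι ⊕ Fin m))}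
    (h1 : NondegAt p (fill '' W)) (h2 : ∀ j : Fin m, ∃ w ∈ W, ¬ (p : ℤ) ∣ ex (Sum.inr j) w)
    {K : Type} [Group K] (f : K →* MulAut (FreeGroup (ι ⊕ Fin m))) (hf : Function.Injective f)
    (hx : ∀ k, PermX (f k)) (hW : ∀ k, ∀ w ∈ W, f k w = w) : DenAt p K := by
  have : Fact p.Prime := ⟨hp⟩
  have hB : Bdry p isR W := by
    refine ⟨?_, ?_⟩
    · rw [kill_image]
      exact nondegAt_map _ h1
    · rintro (i | j) hi
      · simp [isR] at hi
      · exact h2 j
  have hs : 3 ≤ p ^ 2 := by
    have := hp.two_le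
    nlinarith
  refine DenAt.of_sub hp (exists_sub_of_level f hf ⟨2, hs, ?_⟩)
  obtain ⟨N, hN⟩ := p1 hB 2
  refine ⟨N, fun k hk => hN (f k) (hW k) ?_ hk⟩
  rintro (i | j) hi
  · simp [isR] at hi
  · obtain ⟨i, hi⟩ := hx k j
    exact ⟨Sum.inr i, by simp [isR], hi⟩

end

theorem den_punctures {p : ℕ} (hp : p.Prime) (g m : ℕ) {K : Type} [Group K]
    (f : K →* MulAut (FreeGroup ((Fin g × Bool) ⊕ Fin m))) (hf : Function.Injective f)
    (hx : ∀ k, PermX (f k)) (hw : ∀ k, IsConj (f k (bdW g m)) (bdW g m))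
    (h : ∀ k, (∀ j, IsConj ((f k ^ p) (FreeGroup.of (Sum.inr j))) (FreeGroup.of (Sum.inr j))) →
      2 * g < (p - 1) *
        Nat.card {j // IsConj (f k (FreeGroup.of (Sum.inr j))) (FreeGroup.of (Sum.inr j))}) :
    DenAt p K := by
  have : Fact p.Prime := ⟨hp⟩
  have hs : 3 ≤ p ^ 2 := by
    have := hp.two_le
    nlinarith
  refine DenAt.of_sub hp (exists_sub_of_level f hf ⟨2, hs, ?_⟩)
  obtain ⟨N, hN⟩ := p2_each (p := p) g m 2
  exact ⟨N, fun k hk => hN (f k) (hx k) (hw k) (h k) hk⟩

theorem den_of_bounds {Q : Type} [Group Q] {L : ℕ → Subgroup Q} {N : ℕ} (hL : LevelBounds L N)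
    {p : ℕ} (hp : p.Prime) {K : Type} [Group K] (f : K →* Q) (hf : Function.Injective f)
    (h : (∃ m : ℕ, 3 ≤ m ∧ ∀ k, f k ∈ L m) ∨ N + 1 < p) : DenAt p K := by
  obtain ⟨-, -, h3⟩ := hL K f hf
  rcases h with ⟨m, hm, h⟩ | h
  · refine ⟨1, one_ne_zero, fun h1 => hp.one_lt.ne' (Nat.dvd_one.1 h1), fun r s A => ?_⟩
    obtain ⟨z, hz⟩ := (h3 r s A).1 m hm
    have h5 : (L m).comap f = ⊤ := by
      rw [eq_top_iff]
      intro g _
      exact h g
    rw [h5, Subgroup.index_top] at hz
    exact ⟨z, hz⟩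
  · exact ⟨mink N, mink_ne_zero N, not_dvd_mink hp h, fun r s A => (h3 r s A).2⟩

/-- The group `K` is good at the prime `p` if one of the following holds.

* `boundary`: `K` acts faithfully by automorphisms on the free group on finitely many letters `a_i`,
  `x_j`, permutes the conjugacy classes of the `x_j` and fixes every element of a set `W` of words
  such that the set `fill '' W` (all `x_j` are replaced by `1`) is nondegenerate at `p` and every
  `x_j` has in some `w ∈ W` an exponent sum which is prime to `p`.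
* `punctures`: `K` acts faithfully by automorphisms on the free group on `a_1, b_1, …, a_g, b_g`,
  `x_1, …, x_m`, permutes the conjugacy classes of the `x_j`, preserves the conjugacy class of
  `x_1 ⋯ x_m [a_1, b_1] ⋯ [a_g, b_g]` (`bdW g m`), and every `k ∈ K` such that `k ^ p` preserves the
  conjugacy classes of all `x_j` preserves the conjugacy classes of more than `2 g / (p - 1)` of
  them.
* `level`: `K` acts faithfully by automorphisms on a residually torsion-free nilpotent group `H`
  with `N` generators, and trivially on `H₁(H; ℤ/m)` for some `m ≥ 3`, or `p > N + 1`.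
* `outLevel`: `K` acts faithfully by outer automorphisms on a group `H` which is a right-angled
  Artin group with `N` nodes (for example a free group of rank `N`) or the fundamental group of a
  closed orientable surface of genus `N / 2`, and trivially on `H₁(H; ℤ/m)` for some `m ≥ 3`, or
  `p > N + 1`. -/
inductive Good (p : ℕ) (K : Type) [Group K] : Prop
  | boundary (ι : Type) [Fintype ι] [DecidableEq ι] (m : ℕ)
      (f : K →* MulAut (FreeGroup (ι ⊕ Fin m))) (hf : Function.Injective f)
      (hx : ∀ k, PermX (f k)) (W : Set (FreeGroup (ι ⊕ Fin m))) (hW : ∀ k, ∀ w ∈ W, f k w = w)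
      (h1 : NondegAt p (fill '' W)) (h2 : ∀ j : Fin m, ∃ w ∈ W, ¬ (p : ℤ) ∣ ex (Sum.inr j) w)
  | punctures (g m : ℕ) (f : K →* MulAut (FreeGroup ((Fin g × Bool) ⊕ Fin m)))
      (hf : Function.Injective f) (hx : ∀ k, PermX (f k))
      (hw : ∀ k, IsConj (f k (bdW g m)) (bdW g m))
      (h : ∀ k, (∀ j, IsConj ((f k ^ p) (FreeGroup.of (Sum.inr j))) (FreeGroup.of (Sum.inr j))) →
        2 * g < (p - 1) *
          Nat.card {j // IsConj (f k (FreeGroup.of (Sum.inr j))) (FreeGroup.of (Sum.inr j))})
  | level (H : Type) [Group H] (N : ℕ) (hH : RTFN H N) (f : K →* MulAut H)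
      (hf : Function.Injective f) (h : (∃ m : ℕ, 3 ≤ m ∧ ∀ k, f k ∈ level H m) ∨ N + 1 < p)
  | outLevel (H : Type) [Group H] (N : ℕ) (hH : RaagSurf H N) (f : K →* Out H)
      (hf : Function.Injective f) (h : (∃ m : ℕ, 3 ≤ m ∧ ∀ k, f k ∈ outLevel H m) ∨ N + 1 < p)

theorem Good.den {p : ℕ} (hp : p.Prime) {K : Type} [Group K] (h : Good p K) : DenAt p K := by
  cases h with
  | boundary ι m f hf hx W hW h1 h2 => exact den_boundary hp h1 h2 f hf hx hW
  | punctures g m f hf hx hw h => exact den_punctures hp g m f hf hx hw h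
  | level H N hH f hf h => exact den_of_bounds (levels_res.1 H N hH) hp f hf h
  | outLevel H N hH f hf h => exact den_of_bounds hH.bounds_out hp f hf h

/-- **The main theorem** -/
theorem atiyah_of_good {G : Type} [Group G] (h : ∀ p : ℕ, p.Prime → ∃ K : Subgroup G,
    K.index ≠ 0 ∧ ¬ p ∣ K.index ∧ Good p K) : AtiyahOver ⊤ G :=
  atiyah_of_den fun p hp => by
    obtain ⟨K, h0, h1, h2⟩ := h p hp
    exact DenAt.of_index hp K h0 h1 (h2.den hp)

end Pool.Agent.MCG
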