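import Pool.Agent.MCG.PTwo
import Pool.Agent.MCG.Main

set_option autoImplicit false
set_option linter.unusedSectionVars false

noncomputable section

/-!
MCG⁺: the strong Atiyah conjecture for the mapping class groups of surfaces with punctures.
-/

namespace Pool.Agent.MCG

open MonoidAlgebra Pool.Agent.VN Pool.Agent.Lvl

section

variable {ι : Type} [DecidableEq ι] [Fintype ι]

/-- groups of automorphisms with the property (★) of the page -/
theorem atiyah_of_star {G : Type} [Group G] (f : G →* MulAut (FreeGroup ι))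
    (hf : Function.Injective f)
    (h : ∀ p : ℕ, p.Prime → ∀ s : ℕ, ∃ N : ℕ, ∀ γ, Trunc p N (f γ) →
      f γ ∈ level (FreeGroup ι) (p ^ s)) : AtiyahOver ⊤ G := by
  refine atiyah_of_index fun p hp => ?_
  have : Fact p.Prime := ⟨hp⟩
  have hs : 3 ≤ p ^ 2 := by
    have := hp.two_le
    nlinarith
  exact exists_sub_of_level f hf ⟨2, hs, h p hp 2⟩

/-- **MCG⁺ (a')** -/
theorem atiyah_bdry (β : ι → Prop) [DecidablePred β] (W : Set (FreeGroup ι))
    (hW : ∀ p : ℕ, p.Prime → Bdry p β W) {G : Type} [Group G] (f : G →* MulAut (FreeGroup ι))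
    (hf : Function.Injective f) (hfix : ∀ γ, ∀ w ∈ W, f γ w = w)
    (hβ : ∀ γ i, β i → ∃ j, β j ∧ IsConj (f γ (FreeGroup.of i)) (FreeGroup.of j)) :
    AtiyahOver ⊤ G := by
  refine atiyah_of_star f hf fun p hp s => ?_
  have : Fact p.Prime := ⟨hp⟩
  obtain ⟨N, hN⟩ := p1 (hW p hp) s
  exact ⟨N, fun γ hγ => hN (f γ) (hfix γ) (hβ γ) hγ⟩

end

/-- **MCG⁺ (b)** -/
theorem atiyah_punct (g m : ℕ) {G : Type} [Group G]
    (f : G →* MulAut (FreeGroup ((Fin g × Bool) ⊕ Fin m))) (hf : Function.Injective f)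
    (hx : ∀ γ j, ∃ i, IsConj (f γ (FreeGroup.of (Sum.inr j))) (FreeGroup.of (Sum.inr i)))
    (hw : ∀ γ, IsConj (f γ (bdW g m)) (bdW g m))
    (hB : ∃ B : Finset (Fin m), 2 * g + 1 ≤ B.card ∧
      ∀ γ, ∀ j ∈ B, IsConj (f γ (FreeGroup.of (Sum.inr j))) (FreeGroup.of (Sum.inr j))) :
    AtiyahOver ⊤ G := by
  refine atiyah_of_star f hf fun p hp s => ?_
  have : Fact p.Prime := ⟨hp⟩
  obtain ⟨N, hN⟩ := p2 (p := p) g m s
  obtain ⟨B, hB1, hB2⟩ := hB
  exact ⟨N, fun γ hγ => hN (f γ) (hx γ) (hw γ) ⟨B, hB1, hB2 γ⟩ hγ⟩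

/-- **MCG⁺ (a)** -/
theorem atiyah_bdW (g m : ℕ) {G : Type} [Group G]
    (f : G →* MulAut (FreeGroup ((Fin g × Bool) ⊕ Fin m))) (hf : Function.Injective f)
    (hx : ∀ γ j, ∃ i, IsConj (f γ (FreeGroup.of (Sum.inr j))) (FreeGroup.of (Sum.inr i)))
    (hw : ∀ γ, f γ (bdW g m) = bdW g m) : AtiyahOver ⊤ G := by
  refine atiyah_bdry (isX g m) {bdW g m} (fun p hp => bdry_bdW p hp g m) f hf ?_ ?_
  · rintro γ w rfl
    exact hw γ
  · rintro γ (i | j) hi
    · simp [isX] at hi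
    · obtain ⟨i, hi⟩ := hx γ j
      exact ⟨Sum.inr i, rfl, hi⟩

end Pool.Agent.MCG
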