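import Pool.Agent.MCG.PNorm
import Pool.Agent.MCG.PEx

set_option autoImplicit false
set_option linter.unusedSectionVars false

noncomputable section

/-!
The norm version of Theorem 1 (`norm_zero` of `PNorm.lean`), with integral exponent sums.
-/

namespace Pool.Agent.MCG

open MonoidAlgebra Pool.Agent.Lvl

variable {p : ℕ} [hp : Fact p.Prime] {ι : Type} [DecidableEq ι] [Fintype ι]

theorem no_norm (g : MulAut (FreeGroup ι)) (hN : Trunc p (1 + p) g) {w h : FreeGroup ι}
    (hw : g w = w) (hv : ∀ x, ((ex x w : ℤ) : ZMod p) =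
      ∑ i : ZMod p, ((ex x ((g ^ i.val) h) : ℤ) : ZMod p)) (x : ι) : (p : ℤ) ∣ ex x w := by
  rw [add_comm] at hN
  exact (ZMod.intCast_zmod_eq_zero_iff_dvd _ _).1 (norm_zero g hN hw hv x)

end Pool.Agent.MCG
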