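import Pool.Agent.MCG.SlotFree
import Pool.Agent.MCG.BaseU

set_option autoImplicit false
set_option linter.unusedSectionVars false

noncomputable section

/-!
PACKAGE MCG-STEP. (1.4) of the page.

Let `y - (∑ x, ia (X x) * w x + Nm z) =: e ∈ Fil N`, `w x, z ∈ J_m`, `y ∈ J_(m+1)`. For `S.card = m`
put
`z_S = pk S z`, `w_(x,S) = pk S (w x)`. `pk S y = 0` and `pk_sg` give
(*) `∑ i, sg i (pk (S - i) z) = - ∑ x, pk S (ia (X x)) * w_(x,S) - pk S e`.
`z' = z - ∑_S z_S` is in `J_(m+1)` (`JJ_succ`, `pk_pk_eq_zero`, `pk_pk`, `JJ_pk`; the sum over all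
`S` with `S.card = m`). By `exists_reps` (applied to `φ S = Nm (pk S z)`) and `Nm_sg`:
`Nm (∑_S z_S) = ∑_(S ∈ Rm) Nm (∑ i, sg i (pk (S - i) z))
  = - ∑_(S ∈ Rm) ∑ x, Nm (pk S (ia (X x)) * w_(x,S))` modulo `Fil N`.
`r_(x,S) = ia (X x) * w_(x,S) - pk S (ia (X x)) * w_(x,S)` is in `J_(m+1)` (`JJ_succ`: for `S' = S`
both terms have the same component, for `S' ≠ S` both components are `0`, `pk_pk_eq_zero` for
`w x`).
`Nm (ia (X x) * w_(x,S)) = ∑ i, sg i (ia (X x)) * sg i w_(x,S)`, and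
`sg i (ia (X x))` is `ia (b_i)`, `b_i = (g ^ i.val) (X x)`, modulo `Fil N` (`sg_ia`);
`b_i = ∑ y, X y * foxl y b_i` (`foxl_sum`, `eps b_i = 0`), so it is
`∑ y, ia (X y) * (ia (foxl y b_i) * sg i w_(x,S))` modulo `Fil N`.
So `y = ∑ x, ia (X x) * w' x + Nm z''` modulo `Fil N` with `w' x ∈ J_m`, `z'' ∈ J_(m+1)`
(`z'' = z' + ∑ r`). Apply `pk S`, `S.card = m`: `∑ x, pk S (ia (X x)) * pk S (w' x) ∈ Fil N`
(`pk_fil`, `Nm z'' ∈ J_(m+1)`), so `pk S (w' x) ∈ Fil (N - 1)` by `slot_free` (`N = N' + 1`; `S` is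
nonempty because `1 ≤ m`), and `ia (X x) * pk S (w' x) ∈ Fil N` (`ia_fil`, `single_sub_mem`,
`fil_mul`). Replace `w' x` by `w' x - ∑_S pk S (w' x) ∈ J_(m+1)`.
-/

namespace Pool.Agent.MCG

open MonoidAlgebra Pool.Agent.Lvl

variable {p : ℕ} [hp : Fact p.Prime] {ι : Type} [DecidableEq ι] [Fintype ι]

private theorem comp_Step {F : Type} [Group F] {m : ℕ} {u : BB p F} (hu : u ∈ JJ p F m) :
    u - ∑ S ∈ Finset.univ.filter (fun S : Finset (ZMod p) => S.card = m), pk S u ∈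
      JJ p F (m + 1) := by
  classical
  refine JJ_succ (Submodule.sub_mem _ hu (Submodule.sum_mem _ fun S _ => JJ_pk hu S))
    fun S' hS' => ?_
  rw [map_sub, map_sum, Finset.sum_eq_single S']
  · rw [pk_pk, Finset.inter_self, sub_self]
  · intro S hS hne
    exact pk_pk_eq_zero hu (Finset.mem_filter.1 hS).2 hS' hne
  · intro h
    exact absurd ((Finset.mem_filter (p := fun S : Finset (ZMod p) => S.card = m)).2
      ⟨Finset.mem_univ S', hS'⟩) h

private theorem Nm_sub_Step {F : Type} [Group F] (a b : BB p F) : Nm (a - b) = Nm a - Nm b :=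
  (AddMonoidHom.mk' (Nm : BB p F → BB p F) Nm_add).map_sub a b

private theorem eps_map_Step {F : Type} [Group F] (f : F →* F) (x : F) :
    eps (ZMod p) F (mapDomainRingHom (ZMod p) f (single x 1 - 1)) = 0 := by
  rw [map_sub, map_one, mapDomainRingHom_apply, mapDomain_single, map_sub, map_one]
  unfold eps
  rw [MonoidAlgebra.lift_single]
  simp

private theorem nm_Step (g : MulAut (FreeGroup ι)) {N : ℕ}
    (h : ∀ f, single ((g ^ p) f) (1 : ZMod p) - single f 1 ∈ Fil (ZMod p) (FreeGroup ι) N)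
    {m : ℕ} (x : ι) {u : BB p (FreeGroup ι)} (hu : u ∈ JJ p (FreeGroup ι) m) :
    ∃ v : ι → BB p (FreeGroup ι), (∀ y, v y ∈ JJ p (FreeGroup ι) m) ∧
      Nm (ia g (XX p x) * u) - ∑ y, ia g (XX p y) * v y ∈
        Fil (ZMod p) (ZMod p → FreeGroup ι) N := by
  obtain ⟨b, hb⟩ : ∃ b : ZMod p → MonoidAlgebra (ZMod p) (FreeGroup ι),
      ∀ i, b i = mapDomainRingHom (ZMod p)
        ((g ^ i.val : MulAut (FreeGroup ι)) : FreeGroup ι →* FreeGroup ι) (XX p x) :=
    ⟨_, fun _ => rfl⟩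
  have h1 : ∀ i, sg i (ia g (XX p x)) - ia g (b i) ∈
      Fil (ZMod p) (ZMod p → FreeGroup ι) N := by
    intro i
    rw [hb]
    exact sg_ia g h i (XX p x)
  have h2 : ∀ i, eps (ZMod p) (FreeGroup ι) (b i) = 0 := by
    intro i
    rw [hb]
    exact eps_map_Step _ _
  have h3 : ∀ i, ia g (b i) = ∑ y, ia g (XX p y) * ia g (foxl (ZMod p) y (b i)) := by
    intro i
    have h4 := foxl_sum (R := ZMod p) (b i)
    rw [h2, single_zero, zero_add] at h4
    conv_lhs => rw [h4]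
    rw [map_sum]
    exact Finset.sum_congr rfl fun y _ => map_mul _ _ _
  refine ⟨fun y => ∑ i : ZMod p, ia g (foxl (ZMod p) y (b i)) * sg i u,
    fun y => Submodule.sum_mem _ fun i _ => JJ_mul_left (JJ_sg hu i) _, ?_⟩
  have h5 : Nm (ia g (XX p x) * u) -
      ∑ y, ia g (XX p y) * ∑ i : ZMod p, ia g (foxl (ZMod p) y (b i)) * sg i u =
      ∑ i : ZMod p, (sg i (ia g (XX p x)) - ia g (b i)) * sg i u := by
    unfold Nm
    rw [Finset.sum_congr rfl fun (i : ZMod p) _ => sub_mul (sg i (ia g (XX p x))) (ia g (b i))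
      (sg i u), Finset.sum_sub_distrib]
    congr 1
    · exact Finset.sum_congr rfl fun i _ => map_mul _ _ _
    · rw [Finset.sum_congr rfl fun y _ => Finset.mul_sum _ _ _, Finset.sum_comm]
      refine Finset.sum_congr rfl fun i _ => ?_
      rw [h3 i, Finset.sum_mul]
      exact Finset.sum_congr rfl fun y _ => (mul_assoc _ _ _).symm
  rw [h5]
  exact Submodule.sum_mem _ fun i _ => fil_mul_right (h1 i) _

private theorem r_Step {F : Type} [Group F] {m : ℕ} {u : BB p F} (hu : u ∈ JJ p F m)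
    (a : BB p F) {S : Finset (ZMod p)} (hS : S.card = m) :
    a * pk S u - pk S a * pk S u ∈ JJ p F (m + 1) := by
  refine JJ_succ (Submodule.sub_mem _ (JJ_mul_left (JJ_pk hu S) _)
    (JJ_mul_left (JJ_pk hu S) _)) fun S' hS' => ?_
  rw [map_sub, map_mul, map_mul]
  by_cases hne : S = S'
  · subst hne
    rw [pk_pk, pk_pk, Finset.inter_self, sub_self]
  · rw [pk_pk_eq_zero hu hS hS' hne, mul_zero, mul_zero, sub_self]

theorem step (g : MulAut (FreeGroup ι)) {N : ℕ}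
    (h : ∀ f, single ((g ^ p) f) (1 : ZMod p) - single f 1 ∈ Fil (ZMod p) (FreeGroup ι) N)
    {m : ℕ} (h1 : 1 ≤ m) (h2 : m < p) {y : BB p (FreeGroup ι)}
    (hy : y ∈ JJ p (FreeGroup ι) (m + 1)) (hu : InU g N m y) : InU g N (m + 1) y := by
  classical
  rcases Nat.eq_zero_or_pos N with hN | hN
  · subst hN
    exact ⟨fun _ => 0, 0, fun _ => Submodule.zero_mem _, Submodule.zero_mem _, mem_fil_zero _⟩
  obtain ⟨N', rfl⟩ : ∃ N', N = N' + 1 := ⟨N - 1, by omega⟩
  obtain ⟨w, z, hw, hz, he⟩ := hu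
  obtain ⟨Rm, hR, hreps⟩ := exists_reps p (m := m) (by omega) h2
  have hC : Nm (∑ S ∈ Finset.univ.filter (fun S : Finset (ZMod p) => S.card = m), pk S z) =
      ∑ S ∈ Rm, Nm (pk S (Nm z)) := by
    rw [Nm_sum, hreps (fun S => Nm (pk S z))]
    refine Finset.sum_congr rfl fun S _ => ?_
    have h3 : pk S (Nm z) = ∑ i : ZMod p, sg i (pk (S.image fun j => j - i) z) := by
      unfold Nm
      rw [map_sum]
      exact Finset.sum_congr rfl fun i _ => pk_sg S i z
    rw [h3, Nm_sum]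
    exact Finset.sum_congr rfl fun i _ => (Nm_sg i _).symm
  have hB : ∀ S ∈ Rm, pk S (Nm z) + ∑ x, pk S (ia g (XX p x)) * pk S (w x) ∈
      Fil (ZMod p) (ZMod p → FreeGroup ι) (N' + 1) := by
    intro S hS
    have h3 := pk_fil he S
    rw [map_sub, map_add, map_sum, hy S (by rw [hR S hS]; omega), zero_sub] at h3
    have h4 := Submodule.neg_mem _ h3
    rw [neg_neg, Finset.sum_congr rfl fun x _ => map_mul (pk S) (ia g (XX p x)) (w x)] at h4
    rwa [add_comm (pk S (Nm z))]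
  obtain ⟨PS, hPS⟩ : ∃ PS : AddSubgroup (BB p (FreeGroup ι)), ∀ u, u ∈ PS ↔
      ∃ v : ι → BB p (FreeGroup ι), (∀ x, v x ∈ JJ p (FreeGroup ι) m) ∧
        u - ∑ x, ia g (XX p x) * v x ∈ Fil (ZMod p) (ZMod p → FreeGroup ι) (N' + 1) := by
    refine ⟨{ carrier := {u | ∃ v : ι → BB p (FreeGroup ι), (∀ x, v x ∈ JJ p (FreeGroup ι) m) ∧
        u - ∑ x, ia g (XX p x) * v x ∈ Fil (ZMod p) (ZMod p → FreeGroup ι) (N' + 1)}
              add_mem' := ?_
              zero_mem' := ?_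
              neg_mem' := ?_ }, fun u => Iff.rfl⟩
    · rintro a b ⟨v, hv1, hv2⟩ ⟨v', hv1', hv2'⟩
      refine ⟨fun x => v x + v' x, fun x => Submodule.add_mem _ (hv1 x) (hv1' x), ?_⟩
      have h3 : a + b - ∑ x, ia g (XX p x) * (v x + v' x) =
          (a - ∑ x, ia g (XX p x) * v x) + (b - ∑ x, ia g (XX p x) * v' x) := by
        rw [Finset.sum_congr rfl fun x _ => mul_add (ia g (XX p x)) (v x) (v' x),
          Finset.sum_add_distrib]
        abel
      rw [h3]
      exact Submodule.add_mem _ hv2 hv2'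
    · refine ⟨fun _ => 0, fun _ => Submodule.zero_mem _, ?_⟩
      rw [Finset.sum_congr rfl fun x _ => mul_zero (ia g (XX p x)), Finset.sum_const_zero,
        sub_zero]
      exact Submodule.zero_mem _
    · rintro a ⟨v, hv1, hv2⟩
      refine ⟨fun x => - v x, fun x => Submodule.neg_mem _ (hv1 x), ?_⟩
      have h3 : -a - ∑ x, ia g (XX p x) * (-v x) = -(a - ∑ x, ia g (XX p x) * v x) := by
        rw [Finset.sum_congr rfl fun x _ => mul_neg (ia g (XX p x)) (v x),
          Finset.sum_neg_distrib]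
        abel
      rw [h3]
      exact Submodule.neg_mem _ hv2
  have hfilPS : ∀ u ∈ Fil (ZMod p) (ZMod p → FreeGroup ι) (N' + 1), u ∈ PS := by
    intro u hu
    rw [hPS]
    refine ⟨fun _ => 0, fun _ => Submodule.zero_mem _, ?_⟩
    rw [Finset.sum_congr rfl fun x _ => mul_zero (ia g (XX p x)), Finset.sum_const_zero,
      sub_zero]
    exact hu
  have hXPS : ∑ x, ia g (XX p x) * w x ∈ PS := by
    rw [hPS]
    refine ⟨w, hw, ?_⟩
    rw [sub_self]
    exact Submodule.zero_mem _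
  have hNPS : ∀ (S : Finset (ZMod p)) (x : ι), Nm (ia g (XX p x) * pk S (w x)) ∈ PS := by
    intro S x
    rw [hPS]
    exact nm_Step g h x (JJ_pk (hw x) S)
  obtain ⟨z2, hz2⟩ : ∃ z2 : BB p (FreeGroup ι), z2 = (z - ∑ S ∈ Finset.univ.filter
      (fun S : Finset (ZMod p) => S.card = m), pk S z) + ∑ S ∈ Rm, ∑ x,
        (ia g (XX p x) * pk S (w x) - pk S (ia g (XX p x)) * pk S (w x)) := ⟨_, rfl⟩
  have hz2J : z2 ∈ JJ p (FreeGroup ι) (m + 1) := by
    rw [hz2]
    exact Submodule.add_mem _ (comp_Step hz) (Submodule.sum_mem _ fun S hS =>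
      Submodule.sum_mem _ fun x _ => r_Step (hw x) _ (hR S hS))
  have hmain : y - Nm z2 ∈ PS := by
    have h3 : Nm z2 = Nm z - ∑ S ∈ Rm, Nm (pk S (Nm z)) + ∑ S ∈ Rm, ∑ x,
        (Nm (ia g (XX p x) * pk S (w x)) - Nm (pk S (ia g (XX p x)) * pk S (w x))) := by
      rw [hz2, Nm_add, Nm_sub_Step, hC, Nm_sum]
      congr 1
      refine Finset.sum_congr rfl fun S _ => ?_
      rw [Nm_sum]
      exact Finset.sum_congr rfl fun x _ => Nm_sub_Step _ _
    have h4 : y - Nm z2 = (y - (∑ x, ia g (XX p x) * w x + Nm z)) + ∑ x, ia g (XX p x) * w x +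
        ∑ S ∈ Rm, (Nm (pk S (Nm z) + ∑ x, pk S (ia g (XX p x)) * pk S (w x)) -
          ∑ x, Nm (ia g (XX p x) * pk S (w x))) := by
      have h5 : ∀ S ∈ Rm, Nm (pk S (Nm z) + ∑ x, pk S (ia g (XX p x)) * pk S (w x)) -
          ∑ x, Nm (ia g (XX p x) * pk S (w x)) = Nm (pk S (Nm z)) - ∑ x,
            (Nm (ia g (XX p x) * pk S (w x)) - Nm (pk S (ia g (XX p x)) * pk S (w x))) := by
        intro S _
        rw [Nm_add, Nm_sum, Finset.sum_sub_distrib]
        abel
      rw [Finset.sum_congr rfl h5, Finset.sum_sub_distrib, h3]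
      abel
    rw [h4]
    refine PS.add_mem (PS.add_mem (hfilPS _ he) hXPS) (PS.sum_mem fun S hS => PS.sub_mem
      (hfilPS _ (Nm_fil (hB S hS))) (PS.sum_mem fun x _ => hNPS S x))
  obtain ⟨w', hw', he'⟩ := (hPS _).1 hmain
  have hG : ∀ S : Finset (ZMod p), S.card = m → ∀ x, pk S (w' x) ∈
      Fil (ZMod p) (ZMod p → FreeGroup ι) N' := by
    intro S hS
    have h3 := pk_fil he' S
    rw [map_sub, map_sub, hy S (by omega), JJ_Nm hz2J S (by omega), sub_zero, zero_sub,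
      map_sum] at h3
    have h4 := Submodule.neg_mem _ h3
    rw [neg_neg, Finset.sum_congr rfl fun x _ => map_mul (pk S) (ia g (XX p x)) (w' x)] at h4
    exact slot_free g (Finset.card_pos.1 (by omega)) (fun x => pk S (w' x)) h4
  refine ⟨fun x => w' x - ∑ S ∈ Finset.univ.filter (fun S : Finset (ZMod p) => S.card = m),
    pk S (w' x), z2, fun x => comp_Step (hw' x), hz2J, ?_⟩
  have h3 : y - (∑ x, ia g (XX p x) * (w' x - ∑ S ∈ Finset.univ.filter
      (fun S : Finset (ZMod p) => S.card = m), pk S (w' x)) + Nm z2) =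
      (y - Nm z2 - ∑ x, ia g (XX p x) * w' x) + ∑ x, ∑ S ∈ Finset.univ.filter
        (fun S : Finset (ZMod p) => S.card = m), ia g (XX p x) * pk S (w' x) := by
    rw [Finset.sum_congr rfl fun x _ => mul_sub (ia g (XX p x)) (w' x) _,
      Finset.sum_sub_distrib, Finset.sum_congr rfl fun x _ => Finset.mul_sum _ _ _]
    abel
  rw [h3]
  refine Submodule.add_mem _ he' (Submodule.sum_mem _ fun x _ => Submodule.sum_mem _
    fun S hS => ?_)
  have h5 := fil_mul (ia_fil g (single_sub_mem (R := ZMod p) (FreeGroup.of x)))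
    (hG S (Finset.mem_filter.1 hS).2 x)
  rwa [add_comm 1 N'] at h5

end Pool.Agent.MCG
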