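import Pool.Agent.MCG.PExp
import Pool.Agent.MCG.Step
import Pool.Agent.MCG.Cx

set_option autoImplicit false
set_option linter.unusedSectionVars false

noncomputable section

/-!
(P0): an element `w` which is fixed by `g`, `g ^ p = 1` modulo `I ^ (p + 1)`, and whose class in
`H_1(F; F_p)` is a norm `m + g m + ... + g ^ (p - 1) m`, has class zero. (In the proof of Theorem 1
only the base changes: `w - 1 = ∑ (g ^ i m - 1) + r` with `r ∈ I ^ 2`; and the functional is the
augmentation.)
-/

namespace Pool.Agent.MCG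

open MonoidAlgebra Pool.Agent.Lvl

variable {p : ℕ} [hp : Fact p.Prime]

section incl

variable {F : Type} [Group F]

private def PN_v (w : F) (S : Finset (ZMod p)) : BB p F :=
  ∑ T ∈ S.powerset, (-1 : ZMod p) ^ (S.card - T.card) • single (kp T fun _ => w) 1

private theorem PN_v_univ (w : F) : PN_v w (Finset.univ : Finset (ZMod p)) = vU w := by
  unfold PN_v vU
  rw [Finset.powerset_univ, Finset.card_univ, ZMod.card]

private theorem PN_sum_insert {A : Type} [AddCommGroup A] [Module (ZMod p) A]
    (f : Finset (ZMod p) → A) {a : ZMod p} {S : Finset (ZMod p)} (ha : a ∉ S) :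
    ∑ T ∈ (insert a S).powerset, (-1 : ZMod p) ^ ((insert a S).card - T.card) • f T =
      ∑ T ∈ S.powerset, (-1 : ZMod p) ^ (S.card - T.card) • f (insert a T) -
        ∑ T ∈ S.powerset, (-1 : ZMod p) ^ (S.card - T.card) • f T := by
  rw [Finset.sum_powerset_insert ha, Finset.card_insert_of_notMem ha, add_comm,
    sub_eq_add_neg, ← Finset.sum_neg_distrib]
  congr 1
  · refine Finset.sum_congr rfl fun T hT => ?_
    have hT' := Finset.mem_powerset.1 hT
    rw [Finset.card_insert_of_notMem fun h => ha (hT' h), Nat.add_sub_add_right]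
  · refine Finset.sum_congr rfl fun T hT => ?_
    have hT' := Finset.card_le_card (Finset.mem_powerset.1 hT)
    rw [Nat.succ_sub hT', pow_succ, mul_neg_one, neg_smul]

private theorem PN_inv {A : Type} [AddCommGroup A] [Module (ZMod p) A]
    (U : Finset (ZMod p)) : ∀ f : Finset (ZMod p) → A,
    ∑ S ∈ U.powerset, ∑ T ∈ S.powerset, (-1 : ZMod p) ^ (S.card - T.card) • f T = f U := by
  classical
  induction U using Finset.induction_on with
  | empty =>
    intro f
    simp
  | insert a U ha ih =>
    intro f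
    rw [Finset.sum_powerset_insert ha, ih f]
    have h1 : ∀ S ∈ U.powerset, ∑ T ∈ (insert a S).powerset,
        (-1 : ZMod p) ^ ((insert a S).card - T.card) • f T =
        ∑ T ∈ S.powerset, (-1 : ZMod p) ^ (S.card - T.card) • f (insert a T) -
          ∑ T ∈ S.powerset, (-1 : ZMod p) ^ (S.card - T.card) • f T := fun S hS =>
      PN_sum_insert f fun h => ha (Finset.mem_powerset.1 hS h)
    rw [Finset.sum_congr rfl h1, Finset.sum_sub_distrib, ih f, ih fun T => f (insert a T)]
    abel

private theorem PN_kp (R T : Finset (ZMod p)) (z : ZMod p → F) :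
    kp R (kp T z) = kp (R ∩ T) z := by
  funext j
  change (if j ∈ R then (if j ∈ T then z j else 1) else 1) = if j ∈ R ∩ T then z j else 1
  by_cases h1 : j ∈ R <;> by_cases h2 : j ∈ T <;> simp [h1, h2]

private theorem PN_pk_v (w : F) {S R : Finset (ZMod p)} (h : ¬ S ⊆ R) :
    pk R (PN_v w S) = 0 := by
  classical
  obtain ⟨a, haS, haR⟩ := Finset.not_subset.1 h
  unfold PN_v
  have h0 : ∀ S' : Finset (ZMod p), pk R (∑ T ∈ S'.powerset,
      (-1 : ZMod p) ^ (S'.card - T.card) • single (kp T fun _ => w) 1) =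
      ∑ T ∈ S'.powerset, (-1 : ZMod p) ^ (S'.card - T.card) •
        (single (kp (R ∩ T) fun _ => w) 1 : BB p F) := by
    intro S'
    rw [map_sum]
    refine Finset.sum_congr rfl fun T _ => ?_
    rw [pk_smul, pk_single, PN_kp]
  rw [h0]
  obtain ⟨S', haS', rfl⟩ : ∃ S', a ∉ S' ∧ S = insert a S' :=
    ⟨S.erase a, Finset.notMem_erase a S, (Finset.insert_erase haS).symm⟩
  rw [PN_sum_insert (fun T => (single (kp (R ∩ T) fun _ => w) 1 : BB p F)) haS', sub_eq_zero]
  refine Finset.sum_congr rfl fun T _ => ?_
  rw [Finset.inter_insert_of_notMem haR]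

private theorem PN_v_mem (w : F) {S : Finset (ZMod p)} {m : ℕ} (h : m ≤ S.card) :
    PN_v w S ∈ JJ p F m := by
  intro T hT
  exact PN_pk_v w fun h1 => by
    have := Finset.card_le_card h1
    omega

private theorem PN_sg_v (w : F) (i : ZMod p) (S : Finset (ZMod p)) :
    sg i (PN_v w S) = PN_v w (S.image fun j => j + i) := by
  classical
  have hinj : Function.Injective fun j : ZMod p => j + i := add_left_injective i
  unfold PN_v
  rw [Finset.powerset_image, Finset.sum_image fun T _ T' _ h => Finset.image_injective hinj h,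
    map_sum]
  refine Finset.sum_congr rfl fun T _ => ?_
  rw [sg_smul, sg_single, Finset.card_image_of_injective _ hinj,
    Finset.card_image_of_injective _ hinj]
  congr 2
  funext j
  change (if j - i ∈ T then w else 1) = if j ∈ T.image fun j => j + i then w else 1
  have h1 : (j ∈ T.image fun j => j + i) ↔ j - i ∈ T := by
    rw [Finset.mem_image]
    constructor
    · rintro ⟨k, hk, rfl⟩
      rwa [add_sub_cancel_right]
    · intro hj
      exact ⟨j - i, hj, sub_add_cancel j i⟩
  simp only [h1]

private theorem PN_Nm_v (w : F) (S : Finset (ZMod p)) :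
    Nm (PN_v w S) = ∑ i : ZMod p, PN_v w (S.image fun j => j - i) := by
  unfold Nm
  rw [← Equiv.sum_comp (Equiv.neg (ZMod p))]
  refine Finset.sum_congr rfl fun i _ => ?_
  rw [PN_sg_v]
  congr 2
  funext j
  exact (sub_eq_add_neg j i).symm

end incl

private theorem PN_mid {F : Type} [Group F] (w : F) :
    ∃ z ∈ JJ p F 1, ∑ m ∈ Finset.Ico 1 p,
      ∑ S ∈ Finset.univ.filter (fun S : Finset (ZMod p) => S.card = m), PN_v w S = Nm z := by
  refine Finset.sum_induction _ (fun y => ∃ z ∈ JJ p F 1, y = Nm z) ?_ ?_ ?_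
  · rintro _ _ ⟨z, hz, rfl⟩ ⟨z', hz', rfl⟩
    exact ⟨z + z', Submodule.add_mem _ hz hz', (Nm_add z z').symm⟩
  · refine ⟨0, Submodule.zero_mem _, ?_⟩
    have h := Nm_sum (p := p) (F := F) (∅ : Finset ℕ) fun _ => 0
    rw [Finset.sum_empty, Finset.sum_empty] at h
    exact h.symm
  · intro m hm
    rw [Finset.mem_Ico] at hm
    obtain ⟨Rm, hR, h⟩ := exists_reps p (m := m) (by omega) hm.2
    refine ⟨∑ S ∈ Rm, PN_v w S, Submodule.sum_mem _ fun S hS => ?_, ?_⟩
    · exact PN_v_mem w (by rw [hR S hS]; exact hm.1)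
    · rw [h, Nm_sum]
      exact Finset.sum_congr rfl fun S _ => (PN_Nm_v w S).symm


/-- the decomposition of `single (w, ..., w) 1` -/
theorem vU_split {F : Type} [Group F] (w : F) :
    ∃ z ∈ JJ p F 1, (single (fun _ : ZMod p => w) 1 : BB p F) = 1 + Nm z + vU w := by
  classical
  obtain ⟨z, hz, hzN⟩ := PN_mid (p := p) w
  have hp1 : 1 ≤ p := hp.out.one_lt.le
  have htot : ∑ S ∈ (Finset.univ : Finset (Finset (ZMod p))), PN_v w S =
      (single (fun _ : ZMod p => w) 1 : BB p F) := by
    have h := PN_inv (p := p) (A := BB p F) Finset.univ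
      fun T => single (kp T fun _ => w) 1
    rw [Finset.powerset_univ] at h
    have h2 : kp (Finset.univ : Finset (ZMod p)) (fun _ => w) = fun _ => w := by
      funext j
      change (if j ∈ Finset.univ then w else 1) = w
      rw [if_pos (Finset.mem_univ j)]
    rw [h2] at h
    exact h
  have hsplit : ∑ S ∈ (Finset.univ : Finset (Finset (ZMod p))), PN_v w S =
      1 + Nm z + vU w := by
    rw [← Finset.sum_fiberwise_of_maps_to (t := Finset.range (p + 1)) (g := Finset.card)
      fun S _ => Finset.mem_range.2 (Nat.lt_succ_of_le ?_)]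
    · rw [Finset.sum_range_succ, Finset.range_eq_Ico,
        Finset.sum_eq_sum_Ico_succ_bot (by omega : 0 < p), hzN]
      congr 1
      · congr 1
        have h3 : Finset.univ.filter (fun S : Finset (ZMod p) => S.card = 0) = {∅} := by
          ext S
          simp
        rw [h3, Finset.sum_singleton]
        unfold PN_v
        rw [Finset.powerset_empty, Finset.sum_singleton, Nat.sub_self, pow_zero, one_smul]
        have h4 : kp (∅ : Finset (ZMod p)) (fun _ => w) = 1 := by
          funext j
          change (if j ∈ (∅ : Finset (ZMod p)) then w else 1) = 1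
          rw [if_neg (Finset.notMem_empty j)]
        rw [h4]
        rfl
      · have h3 : Finset.univ.filter (fun S : Finset (ZMod p) => S.card = p) =
            {Finset.univ} := by
          ext S
          rw [Finset.mem_filter, Finset.mem_singleton]
          constructor
          · rintro ⟨-, h⟩
            exact (Finset.card_eq_iff_eq_univ S).1 (by rw [h, ZMod.card])
          · rintro rfl
            exact ⟨Finset.mem_univ _, by rw [Finset.card_univ, ZMod.card]⟩
        rw [h3, Finset.sum_singleton, PN_v_univ]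
    · have := Finset.card_le_univ S
      rwa [ZMod.card] at this
  exact ⟨z, hz, by rw [← htot, hsplit]⟩

section

variable {ι : Type} [DecidableEq ι] [Fintype ι]

private theorem PN_Nm_sub (a b : BB p (FreeGroup ι)) : Nm (a - b) = Nm a - Nm b := by
  have h := Nm_add (a - b) b
  rw [sub_add_cancel] at h
  exact eq_sub_of_add_eq h.symm

private theorem PN_eps (a : FreeGroup ι) :
    eps (ZMod p) (FreeGroup ι) (single a 1) = 1 := by
  unfold eps
  rw [MonoidAlgebra.lift_single, MonoidHom.one_apply, one_smul]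

private theorem PN_fix {g : MulAut (FreeGroup ι)} {w : FreeGroup ι} (hw : g w = w) :
    io g w = fun _ : ZMod p => w := by
  funext j
  change (g ^ j.val)⁻¹ w = w
  have hpow : ∀ k : ℕ, (g ^ k) w = w := by
    intro k
    induction k with
    | zero => rfl
    | succ k ih => rw [pow_succ, MulAut.mul_apply, hw, ih]
  conv_lhs => rw [← hpow j.val]
  exact MulAut.inv_apply_self _ (g ^ j.val) w

/-- the base with a norm -/
theorem base_nm (g : MulAut (FreeGroup ι)) {N : ℕ}
    (hgp : ∀ f, single ((g ^ p) f) (1 : ZMod p) - single f 1 ∈ Fil (ZMod p) (FreeGroup ι) N)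
    {w m : FreeGroup ι} (hw : g w = w)
    (hm : ∀ x, (((expo x w).toAdd : ℤ) : ZMod p) =
      ∑ i : ZMod p, (((expo x ((g ^ i.val) m)).toAdd : ℤ) : ZMod p)) :
    InU g N 1 (vU w : BB p (FreeGroup ι)) := by
  classical
  obtain ⟨z, hz, hzw⟩ := vU_split (p := p) w
  set r : MonoidAlgebra (ZMod p) (FreeGroup ι) :=
    (single w 1 - 1) - ∑ i : ZMod p, (single ((g ^ i.val) m) 1 - 1) with hr
  have hr0 : eps (ZMod p) (FreeGroup ι) r = 0 := by
    rw [hr, map_sub, map_sub, PN_eps, map_one, sub_self, map_sum, zero_sub, neg_eq_zero]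
    refine Finset.sum_eq_zero fun i _ => ?_
    rw [map_sub, PN_eps, map_one, sub_self]
  have hr1 : ∀ x, eps (ZMod p) (FreeGroup ι) (foxl (ZMod p) x r) = 0 := by
    intro x
    rw [hr, map_sub, map_sub, map_sub (foxl (ZMod p) x) (single w 1) 1, foxl_one, sub_zero,
      expo_eps_foxl, hm x, map_sum, map_sum, sub_eq_zero]
    refine Finset.sum_congr rfl fun i _ => ?_
    rw [map_sub, foxl_one, sub_zero, expo_eps_foxl]
  have hrs : r = ∑ x, XX p x * foxl (ZMod p) x r := by
    have h := foxl_sum (R := ZMod p) r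
    rw [hr0, single_zero, zero_add] at h
    exact h
  have h1 : (single w 1 : MonoidAlgebra (ZMod p) (FreeGroup ι)) =
      1 + ∑ i : ZMod p, (single ((g ^ i.val) m) 1 - 1) + r := by
    rw [hr]
    abel
  have h2 := congrArg (ia g) h1
  rw [ia_single, PN_fix hw, hzw, map_add, map_add, map_one] at h2
  have h3 : ∑ i : ZMod p, ia g (single ((g ^ i.val) m) 1 - 1) -
      Nm (ia g (single m 1 - 1)) ∈ Fil (ZMod p) (ZMod p → FreeGroup ι) N := by
    unfold Nm
    rw [← Finset.sum_sub_distrib]
    refine Submodule.sum_mem _ fun i _ => ?_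
    have h4 := sg_ia g hgp i (single m 1 - 1)
    have h5 : mapDomainRingHom (ZMod p) ((g ^ i.val : MulAut (FreeGroup ι)) :
        FreeGroup ι →* FreeGroup ι) (single m 1 - 1) = single ((g ^ i.val) m) 1 - 1 := by
      rw [map_sub, map_one, mapDomainRingHom_apply, mapDomain_single]
      rfl
    rw [h5] at h4
    rw [← neg_sub]
    exact Submodule.neg_mem _ h4
  refine ⟨fun x => ia g (foxl (ZMod p) x r), ia g (single m 1 - 1) - z,
    fun x => ia_JJ g (hr1 x), Submodule.sub_mem _ (ia_JJ g ?_) hz, ?_⟩
  · rw [map_sub, PN_eps, map_one, sub_self]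
  · have h6 : ∑ x, ia g (XX p x) * ia g (foxl (ZMod p) x r) = ia g r := by
      conv_rhs => rw [hrs]
      rw [map_sum]
      exact Finset.sum_congr rfl fun x _ => (map_mul _ _ _).symm
    rw [h6, PN_Nm_sub]
    have h7 : vU w - (ia g r + (Nm (ia g (single m 1 - 1)) - Nm z)) =
        ∑ i : ZMod p, ia g (single ((g ^ i.val) m) 1 - 1) -
          Nm (ia g (single m 1 - 1)) := by
      rw [map_sum] at h2
      have h8 : (vU w : BB p (FreeGroup ι)) =
          ∑ i : ZMod p, ia g (single ((g ^ i.val) m) 1 - 1) + ia g r - Nm z := by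
        rw [eq_sub_iff_add_eq, add_comm]
        refine add_left_cancel (a := (1 : BB p (FreeGroup ι))) ?_
        rw [← add_assoc, h2]
        abel
      rw [h8]
      abel
    rw [h7]
    exact h3

/-- (P0) -/
theorem norm_zero (g : MulAut (FreeGroup ι))
    (hgp : ∀ f, single ((g ^ p) f) (1 : ZMod p) - single f 1 ∈
      Fil (ZMod p) (FreeGroup ι) (p + 1)) {w m : FreeGroup ι} (hw : g w = w)
    (hm : ∀ x, (((expo x w).toAdd : ℤ) : ZMod p) =
      ∑ i : ZMod p, (((expo x ((g ^ i.val) m)).toAdd : ℤ) : ZMod p)) (x : ι) :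
    (((expo x w).toAdd : ℤ) : ZMod p) = 0 := by
  classical
  have hstep : ∀ k, 1 ≤ k → k ≤ p → InU g (p + 1) k (vU w : BB p (FreeGroup ι)) := by
    intro k hk1
    induction k, hk1 using Nat.le_induction with
    | base => exact fun _ => base_nm g hgp hw hm
    | succ k hk ih =>
      intro hkp
      exact step g hgp hk (by omega) (JJ_anti (by omega) (vU_mem w)) (ih (by omega))
  obtain ⟨u, z, hu, hz, hN⟩ := hstep p hp.out.one_lt.le le_rfl
  obtain ⟨c, hc1, hc2, hc3, hc4⟩ := exists_cx (p := p) x
  -- the functional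
  have hepsm : ∀ a : FreeGroup ι, eps (ZMod p) (ZMod p → FreeGroup ι)
      (ia g (single a 1 - 1)) = 0 := by
    intro a
    rw [map_sub, map_one, ia_single, map_sub, map_one]
    unfold eps
    rw [MonoidAlgebra.lift_single, MonoidHom.one_apply, one_smul, sub_self]
  have hepss : ∀ (i : ZMod p) (a : BB p (FreeGroup ι)),
      eps (ZMod p) (ZMod p → FreeGroup ι) (sg i a) = eps (ZMod p) (ZMod p → FreeGroup ι) a := by
    intro i a
    induction a using MonoidAlgebra.induction_linear with
    | zero => rw [map_zero]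
    | add a b ha hb => rw [map_add, map_add, map_add, ha, hb]
    | single y r =>
      rw [sg_single]
      unfold eps
      rw [MonoidAlgebra.lift_single, MonoidAlgebra.lift_single]
      rfl
  have h1 := hc3 1 _ (by rwa [Nat.add_comm 1 p])
  have h2 : eps (ZMod p) (ZMod p → FreeGroup ι)
      (c (vU w - (∑ y, ia g (XX p y) * u y + Nm z))) = 0 := by
    unfold eps
    exact lift_fil_one h1
  have h3 : c (∑ y, ia g (XX p y) * u y + Nm z) =
      ∑ y, ia g (XX p y) * c (u y) + ∑ i : ZMod p, sg i (c z) := by
    unfold Nm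
    rw [map_add, map_sum, map_sum]
    congr 1
    · exact Finset.sum_congr rfl fun y _ => hc1 _ (hu y) _
    · exact Finset.sum_congr rfl fun i _ => hc2 i z
  have h4 : eps (ZMod p) (ZMod p → FreeGroup ι) (c (∑ y, ia g (XX p y) * u y + Nm z)) = 0 := by
    rw [h3, map_add, map_sum, map_sum, Finset.sum_congr rfl fun i _ => hepss i (c z),
      Finset.sum_const, Finset.card_univ, ZMod.card, nsmul_eq_mul, ZMod.natCast_self, zero_mul,
      add_zero]
    refine Finset.sum_eq_zero fun y _ => ?_
    unfold XX
    rw [map_mul, hepsm, zero_mul]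
  rw [map_sub, map_sub, h4, sub_zero, hc4] at h2
  have h5 : ∀ a : MonoidAlgebra (ZMod p) (FreeGroup ι),
      eps (ZMod p) (ZMod p → FreeGroup ι) (tens fun _ => a) =
        (eps (ZMod p) (FreeGroup ι) a) ^ p := by
    intro a
    have h6 : eps (ZMod p) (FreeGroup ι) a = ∑ f ∈ a.coeff.support, a.coeff f := by
      have h7 : eps (ZMod p) (FreeGroup ι) a = a.coeff.sum fun _ c => c := by
        induction a using MonoidAlgebra.induction_linear with
        | zero => rw [map_zero]; rfl
        | add a b ha hb =>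
          rw [map_add, ha, hb, coeff_add, Finsupp.sum_add_index' (fun _ => rfl) fun _ _ _ => rfl]
        | single y r =>
          rw [coeff_single, Finsupp.sum_single_index rfl]
          unfold eps
          rw [MonoidAlgebra.lift_single, MonoidHom.one_apply, smul_eq_mul, mul_one]
      exact h7
    have h8 : (∑ f ∈ a.coeff.support, a.coeff f) ^ p =
        ∏ _j : ZMod p, ∑ f ∈ a.coeff.support, a.coeff f := by
      rw [Finset.prod_const, Finset.card_univ, ZMod.card]
    rw [h6, h8, Finset.prod_univ_sum]
    unfold tens eps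
    rw [map_sum]
    refine Finset.sum_congr rfl fun z _ => ?_
    rw [MonoidAlgebra.lift_single, MonoidHom.one_apply, smul_eq_mul, mul_one]
  rw [h5, eps_foxr_single] at h2
  exact pow_eq_zero_iff (hp.out.ne_zero) |>.1 h2

/-- the sum over `ZMod p` is the sum over `0, ..., p - 1` -/
theorem sum_zmod_range {A : Type} [AddCommMonoid A] (f : ℕ → A) :
    ∑ i : ZMod p, f i.val = ∑ i ∈ Finset.range p, f i := by
  refine Finset.sum_bij' (fun i _ => i.val) (fun n _ => (n : ZMod p)) ?_ ?_ ?_ ?_ ?_
  · intro i _
    exact Finset.mem_range.2 i.val_lt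
  · intro n _
    exact Finset.mem_univ _
  · intro i _
    exact ZMod.natCast_zmod_val i
  · intro n hn
    exact ZMod.val_cast_of_lt (Finset.mem_range.1 hn)
  · intro i _
    rfl

end

end Pool.Agent.MCG
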