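import Pool.Agent.MCG.PCen

set_option autoImplicit false
set_option linter.unusedSectionVars false

noncomputable section

/-!
PACKAGE MCGP-POW. An automorphism which maps a generator to a conjugate. (P2 of the page.)

`yU g u n = u⁻¹ g(u⁻¹) ⋯ g^(n-1)(u⁻¹)`. `conj_pow`: induction on `n`:
`(c_(u⁻¹) g)^(n+1) = (c_(y_n) g^n) (c_(u⁻¹) g)`, and `g^n c_v = c_(g^n v) g^n`.
`trunc_y`: `ρ = conj u⁻¹ * g` fixes `of j`, so `ρ ^ p` does:
`y * (g ^ p) (of j) * y⁻¹ = of j`, `y = yU g u p`, so `y * (g ^ p) (of j) = of j * y`, and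
`single (y * of j) 1 - single (y * (g ^ p) (of j)) 1 = single y 1 * (..) ∈ Fil (N + 1)` by the
hypothesis (`fil_mul_left`), `cent_group`.
`trunc_rho`: `ρ' = conj (of j ^ (-b)) * ρ`, it fixes `of j`;
`ρ' ^ p = conj (of j ^ (-(p b))) * ρ ^ p` (`ρ` and `conj (of j)` commute because `ρ (of j) = of j`),
so `(ρ' ^ p) f = c * (g ^ p) f * c⁻¹`, `c = of j ^ (-(p b)) * y`, and `single c 1 - 1 ∈ Fil N` by
`trunc_y` (`fil_mul_left` with `single (of j ^ (-(p b))) 1`), so
`single (c * f' * c⁻¹) 1 - single f' 1 ∈ Fil N` and `single f' 1 - single f 1 ∈ Fil N` for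
`f' = (g ^ p) f`.
-/

namespace Pool.Agent.MCG

open MonoidAlgebra Pool.Agent.Lvl

variable {ι : Type} [DecidableEq ι]

/-- `u⁻¹ g(u⁻¹) ⋯ g^(n-1)(u⁻¹)` -/
def yU (g : MulAut (FreeGroup ι)) (u : FreeGroup ι) : ℕ → FreeGroup ι
  | 0 => 1
  | n + 1 => yU g u n * (g ^ n) u⁻¹

theorem ex_yU (x : ι) (g : MulAut (FreeGroup ι)) (u : FreeGroup ι) (n : ℕ) :
    ex x (yU g u n) = -∑ i ∈ Finset.range n, ex x ((g ^ i) u) := by
  induction n with
  | zero => simp [yU, ex_one]
  | succ n ih =>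
    rw [yU, ex_mul, ih, Finset.sum_range_succ, map_inv, ex_inv]
    ring

theorem conj_pow' (g : MulAut (FreeGroup ι)) (u : FreeGroup ι) (n : ℕ) :
    (MulAut.conj u⁻¹ * g) ^ n = MulAut.conj (yU g u n) * g ^ n := by
  induction n with
  | zero =>
    rw [pow_zero, pow_zero, yU, map_one, one_mul]
  | succ n ih =>
    rw [pow_succ, ih, yU]
    refine MulEquiv.ext fun x => ?_
    rw [pow_succ g n]
    change yU g u n * (g ^ n) (u⁻¹ * g x * u⁻¹⁻¹) * (yU g u n)⁻¹ =
      (yU g u n * (g ^ n) u⁻¹) * (g ^ n) (g x) * (yU g u n * (g ^ n) u⁻¹)⁻¹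
    simp only [map_mul, map_inv, mul_inv_rev, inv_inv, mul_assoc]

private lemma pow_fix (g : MulAut (FreeGroup ι)) {x : FreeGroup ι} (h : g x = x) (n : ℕ) :
    (g ^ n) x = x := by
  induction n with
  | zero => rw [pow_zero, MulAut.one_apply]
  | succ n ih => rw [pow_succ, MulAut.mul_apply, h, ih]

private lemma conj_fix (r : MulAut (FreeGroup ι)) {c : FreeGroup ι} (h : r c = c)
    (x : FreeGroup ι) : r (c * x * c⁻¹) = c * r x * c⁻¹ := by
  rw [map_mul, map_mul, map_inv, h]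

private lemma rho_fix {g : MulAut (FreeGroup ι)} {j : ι} {u : FreeGroup ι}
    (hu : g (FreeGroup.of j) = u * FreeGroup.of j * u⁻¹) :
    (MulAut.conj u⁻¹ * g) (FreeGroup.of j) = FreeGroup.of j := by
  rw [MulAut.mul_apply, MulAut.conj_apply, hu]
  group

theorem trunc_y [Fintype ι] {p N : ℕ} {g : MulAut (FreeGroup ι)} (hg : Trunc p (N + 1) g) {j : ι}
    {u : FreeGroup ι} (hu : g (FreeGroup.of j) = u * FreeGroup.of j * u⁻¹) :
    single (yU g u p) (1 : ZMod p) - single (FreeGroup.of j ^ ex j (yU g u p)) 1 ∈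
      Fil (ZMod p) (FreeGroup ι) N := by
  have h1 : ((MulAut.conj u⁻¹ * g) ^ p) (FreeGroup.of j) = FreeGroup.of j :=
    pow_fix _ (rho_fix hu) p
  rw [conj_pow', MulAut.mul_apply, MulAut.conj_apply] at h1
  have h2 : yU g u p * (g ^ p) (FreeGroup.of j) = FreeGroup.of j * yU g u p := by
    rw [← h1]
    simp only [inv_mul_cancel_right]
    rw [h1]
  refine cent_group j N _ ?_
  have h3 : single (yU g u p * FreeGroup.of j) (1 : ZMod p) -
      single (FreeGroup.of j * yU g u p) 1 =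
      single (yU g u p) 1 * -(single ((g ^ p) (FreeGroup.of j)) (1 : ZMod p) -
        single (FreeGroup.of j) 1) := by
    rw [neg_sub, mul_sub, single_mul_single, single_mul_single, mul_one, h2]
  rw [h3]
  exact fil_mul_left (Submodule.neg_mem _ (hg _)) _

private lemma fil_inv {R : Type} [CommRing R] {N : ℕ} {c : FreeGroup ι}
    (h : single c (1 : R) - 1 ∈ Fil R (FreeGroup ι) N) (f : FreeGroup ι) :
    single (c * f * c⁻¹) (1 : R) - single f 1 ∈ Fil R (FreeGroup ι) N := by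
  have h1 : single (c * f * c⁻¹) (1 : R) - single f 1 =
      (single c 1 - 1) * single (f * c⁻¹) (1 : R) + single (f * c⁻¹) (1 : R) *
        -(single c 1 - 1) := by
    rw [sub_mul, one_mul, neg_sub, mul_sub, mul_one, single_mul_single, single_mul_single, mul_one,
      inv_mul_cancel_right, mul_assoc]
    abel
  rw [h1]
  exact Submodule.add_mem _ (fil_mul_right h _) (fil_mul_left (Submodule.neg_mem _ h) _)

theorem trunc_rho [Fintype ι] {p N : ℕ} {g : MulAut (FreeGroup ι)} (hg : Trunc p (N + 1) g) {j : ι}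
    {u : FreeGroup ι} (hu : g (FreeGroup.of j) = u * FreeGroup.of j * u⁻¹)
    (hp : (p : ℤ) ∣ ex j (yU g u p)) :
    ∃ v : FreeGroup ι, (MulAut.conj v * g) (FreeGroup.of j) = FreeGroup.of j ∧
      Trunc p N (MulAut.conj v * g) := by
  obtain ⟨b, hb⟩ := hp
  have hr := rho_fix hu
  have hy := trunc_y hg hu
  have hc : (MulAut.conj u⁻¹ * g) (FreeGroup.of j ^ (-b)) = FreeGroup.of j ^ (-b) := by
    rw [map_zpow, hr]
  have e1 : MulAut.conj (FreeGroup.of j ^ (-b) * u⁻¹) * g =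
      MulAut.conj (FreeGroup.of j ^ (-b)) * (MulAut.conj u⁻¹ * g) := by
    rw [map_mul, mul_assoc]
  have e2 : Commute (MulAut.conj (FreeGroup.of j ^ (-b))) (MulAut.conj u⁻¹ * g) := by
    refine MulEquiv.ext fun x => ?_
    have h5 : (MulAut.conj u⁻¹ * g) (FreeGroup.of j ^ (-b) * x * (FreeGroup.of j ^ (-b))⁻¹) =
        FreeGroup.of j ^ (-b) * (MulAut.conj u⁻¹ * g) x * (FreeGroup.of j ^ (-b))⁻¹ :=
      conj_fix _ hc x
    change FreeGroup.of j ^ (-b) * (MulAut.conj u⁻¹ * g) x * (FreeGroup.of j ^ (-b))⁻¹ =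
      (MulAut.conj u⁻¹ * g) (FreeGroup.of j ^ (-b) * x * (FreeGroup.of j ^ (-b))⁻¹)
    exact h5.symm
  refine ⟨FreeGroup.of j ^ (-b) * u⁻¹, ?_, fun f => ?_⟩
  · rw [e1, MulAut.mul_apply, hr, MulAut.conj_apply]
    group
  · rw [e1, e2.mul_pow, conj_pow', ← map_pow, ← mul_assoc, ← map_mul, MulAut.mul_apply,
      MulAut.conj_apply]
    have h6 : single ((FreeGroup.of j ^ (-b)) ^ p * yU g u p) (1 : ZMod p) - 1 ∈
        Fil (ZMod p) (FreeGroup ι) N := by
      have h7 := fil_mul_left hy (single ((FreeGroup.of j ^ (-b)) ^ p) (1 : ZMod p))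
      rw [mul_sub, single_mul_single, single_mul_single, mul_one] at h7
      have h8 : (FreeGroup.of j ^ (-b)) ^ p * FreeGroup.of j ^ ex j (yU g u p) = 1 := by
        rw [hb, ← zpow_natCast, ← zpow_mul, ← zpow_add]
        have h9 : -b * (p : ℤ) + (p : ℤ) * b = 0 := by ring
        rw [h9, zpow_zero]
      rw [h8] at h7
      exact h7
    have h9 := Submodule.add_mem _ (fil_inv h6 ((g ^ p) f)) (fil_le (Nat.le_succ N) (hg f))
    rwa [sub_add_sub_cancel] at h9

end Pool.Agent.MCG
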