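import Pool.Agent.MCG.PNo
import Pool.Agent.MCG.PKill

set_option autoImplicit false
set_option linter.unusedSectionVars false

noncomputable section

/-!
PACKAGE MCGP-SIG. An automorphism of order `p` (approximately) which fixes the boundary words does
not permute the punctures. (P1, first half, of the page.)

Let `j₀` with `β j₀`; choose `σ : ι → ι` with `β (σ i)`, `IsConj (g (of i)) (of (σ i))` for `β i`.
Then `(g ^ n) (of i)` is conjugate to `of (σ^[n] i)` (`β i`; `IsConj` is preserved by `g`,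
`MonoidHom.map_isConj` or `isConj_iff`), so
`σ^[p] i = i` (the exponent sums of `(g ^ p) (of i)` and `of i` are congruent modulo `p`,
`dvd_of_fil`, `2 ≤ N`; `p ≥ 2` does not divide `1`). Suppose `σ j₀ ≠ j₀`. Let
`O = {σ^[n] j₀ | n}`, `D i = β i ∧ i ∉ O`. `O` has exactly the elements `σ^[i.val] j₀`, `i : ZMod p`,
which are different (the period of `j₀` divides the prime `p` and is not `1`,
`Function.minimalPeriod`, `Function.IsPeriodicPt`). `D` is preserved by `σ` (if
`σ i = σ^[n] j₀` then `i = σ^[p] i = σ^[n + p - 1] j₀`). `kill_perm`, `kill_aut` give `g'` on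
`FreeGroup {i // ¬ D i}`; let `w ∈ W` with `p ∤ ex j₀ w`, `w' = kill D w`, `g' w' = w'`.
`h' = (of j₀) ^ (ex j₀ w)`. The hypothesis `hv` of `no_norm`: for `x` with `¬ D x`:
`ex x w' = ex x w`
(`ex_kill`) is `0` if `¬ β x` (`hA`), and `∑ i, ex x ((g' ^ i.val) h') = ex j₀ w * ∑ i, [x = σ^[i] j₀]`.
For `x ∈ O`: `ex x w = ex j₀ w`: by `ex_map` and `g w = w`,
`ex (σ k) w = ∑ y, ex y w * ex (σ k) (g (of y))`; the `y` with `¬ β y` contribute `0`, the `y`
with `β y`: `ex (σ k) (g (of y)) = [σ y = σ k] = [y = k]`. `no_norm` for `x = j₀`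
gives `p ∣ ex j₀ w`, contradiction. (`1 + p ≤ N`.)
-/

namespace Pool.Agent.MCG

open MonoidAlgebra Pool.Agent.Lvl

variable {p : ℕ} [hp : Fact p.Prime] {ι : Type} [DecidableEq ι] [Fintype ι]

private theorem PS_iter {β : ι → Prop} {g : MulAut (FreeGroup ι)} (s : {i // β i} → {i // β i})
    (hs : ∀ i : {i // β i}, IsConj (g (FreeGroup.of i.1)) (FreeGroup.of (s i).1)) (n : ℕ) :
    ∀ i : {i // β i}, IsConj ((g ^ n) (FreeGroup.of i.1)) (FreeGroup.of (s^[n] i).1) := by
  induction n with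
  | zero =>
    intro i
    exact IsConj.refl _
  | succ n ih =>
    intro i
    rw [Function.iterate_succ_apply', pow_succ', MulAut.mul_apply]
    exact ((g : FreeGroup ι →* FreeGroup ι).map_isConj (ih i)).trans (hs _)

private theorem PS_per {β : ι → Prop} {g : MulAut (FreeGroup ι)} (s : {i // β i} → {i // β i})
    (hs : ∀ i : {i // β i}, IsConj (g (FreeGroup.of i.1)) (FreeGroup.of (s i).1))
    (hN : Trunc p (1 + p) g) (i : {i // β i}) : s^[p] i = i := by
  have hp2 := hp.out.two_le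
  have h1 := dvd_of_fil (by omega) (hN (FreeGroup.of i.1)) (s^[p] i).1
  rw [ex_conj _ (PS_iter s hs p i), ex_of, ex_of, if_pos rfl] at h1
  by_contra h2
  rw [if_neg fun h3 => h2 (Subtype.ext h3).symm, sub_zero] at h1
  have h4 : (p : ℤ) ≤ 1 := Int.le_of_dvd one_pos h1
  omega

private theorem PS_inj {β : ι → Prop} (s : {i // β i} → {i // β i})
    (h : ∀ i, s^[p] i = i) : Function.Injective s := by
  intro a b hab
  have hp1 := hp.out.pos
  obtain ⟨q, hq⟩ : ∃ q, p = q + 1 := ⟨p - 1, by omega⟩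
  have h1 : ∀ i, s^[q] (s i) = i := by
    intro i
    rw [← Function.iterate_succ_apply, ← Nat.add_one, ← hq]
    exact h i
  rw [← h1 a, ← h1 b, hab]

private theorem PS_ex {β : ι → Prop} {W : Set (FreeGroup ι)}
    (hA : ∀ w ∈ W, ∀ a, ¬ β a → ex a w = 0) {g : MulAut (FreeGroup ι)}
    (hg : ∀ w ∈ W, g w = w) (s : {i // β i} → {i // β i})
    (hs : ∀ i : {i // β i}, IsConj (g (FreeGroup.of i.1)) (FreeGroup.of (s i).1))
    (hi : Function.Injective s) {w : FreeGroup ι} (hw : w ∈ W) (k : {i // β i}) :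
    ex (s k).1 w = ex k.1 w := by
  have h1 := ex_map (g : FreeGroup ι →* FreeGroup ι) (s k).1 w
  have h2 : (g : FreeGroup ι →* FreeGroup ι) w = w := hg w hw
  rw [h2] at h1
  rw [h1, Finset.sum_eq_single k.1]
  · have h3 : ex (s k).1 ((g : FreeGroup ι →* FreeGroup ι) (FreeGroup.of k.1)) = 1 := by
      have h4 := ex_conj (s k).1 (hs k)
      rw [ex_of, if_pos rfl] at h4
      exact h4
    rw [h3, mul_one]
  · intro y _ hy
    by_cases hb : β y
    · have h4 := ex_conj (s k).1 (hs ⟨y, hb⟩)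
      rw [ex_of, if_neg] at h4
      · have h5 : ex (s k).1 ((g : FreeGroup ι →* FreeGroup ι) (FreeGroup.of y)) = 0 := h4
        rw [h5, mul_zero]
      · intro h6
        have h7 := hi (Subtype.ext h6)
        exact hy (congrArg Subtype.val h7)
    · rw [hA w hw y hb, zero_mul]
  · intro h
    exact absurd (Finset.mem_univ _) h

theorem sig_eq {β : ι → Prop} [DecidablePred β] {W : Set (FreeGroup ι)}
    (hA : ∀ w ∈ W, ∀ a, ¬ β a → ex a w = 0) (hB : ∀ j, β j → ∃ w ∈ W, ¬ (p : ℤ) ∣ ex j w)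
    {g : MulAut (FreeGroup ι)} (hg : ∀ w ∈ W, g w = w)
    (hσ : ∀ i, β i → ∃ j, β j ∧ IsConj (g (FreeGroup.of i)) (FreeGroup.of j))
    (hN : Trunc p (1 + p) g) (i : ι) (hi : β i) : IsConj (g (FreeGroup.of i)) (FreeGroup.of i) := by
  classical
  choose σ hσβ hσc using hσ
  obtain ⟨s, hs⟩ : ∃ s : {i // β i} → {i // β i},
      ∀ i : {i // β i}, IsConj (g (FreeGroup.of i.1)) (FreeGroup.of (s i).1) :=
    ⟨fun k => ⟨σ k.1 k.2, hσβ k.1 k.2⟩, fun k => hσc k.1 k.2⟩
  have hp2 := hp.out.two_le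
  have hper : ∀ k, s^[p] k = k := PS_per s hs hN
  have hinj : Function.Injective s := PS_inj s hper
  suffices hfix : s ⟨i, hi⟩ = ⟨i, hi⟩ by
    have h1 := hs ⟨i, hi⟩
    rw [hfix] at h1
    exact h1
  by_contra hne
  obtain ⟨j₀, hj₀⟩ : ∃ j₀ : {i // β i}, j₀ = ⟨i, hi⟩ := ⟨_, rfl⟩
  rw [← hj₀] at hne
  obtain ⟨w, hw, hpw⟩ := hB j₀.1 j₀.2
  obtain ⟨q, hq⟩ : ∃ q, p = q + 1 := ⟨p - 1, by omega⟩
  have hback : ∀ k, s^[q] (s k) = k := by
    intro k
    rw [← Function.iterate_succ_apply, ← Nat.add_one, ← hq]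
    exact hper k
  -- the orbit
  have hmin : Function.minimalPeriod s j₀ = p := by
    have h1 : Function.IsPeriodicPt s p j₀ := hper j₀
    rcases (Nat.dvd_prime hp.out).1 h1.minimalPeriod_dvd with h2 | h2
    · exact absurd (Function.minimalPeriod_eq_one_iff_isFixedPt.1 h2) hne
    · exact h2
  have heinj : ∀ a b : ZMod p, s^[a.val] j₀ = s^[b.val] j₀ → a = b := by
    intro a b hab
    have h1 := Function.iterate_injOn_Iio_minimalPeriod (f := s) (x := j₀)
    rw [hmin] at h1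
    exact ZMod.val_injective p (h1 (ZMod.val_lt a) (ZMod.val_lt b) hab)
  have hemod : ∀ n : ℕ, s^[((n : ZMod p)).val] j₀ = s^[n] j₀ := by
    intro n
    rw [ZMod.val_natCast]
    exact Function.IsPeriodicPt.iterate_mod_apply (hper j₀) n
  obtain ⟨D, hD⟩ : ∃ D : ι → Prop, ∀ k, D k ↔ (β k ∧ ∀ n, (s^[n] j₀).1 ≠ k) :=
    ⟨_, fun _ => Iff.rfl⟩
  have hDO : ∀ n, ¬ D (s^[n] j₀).1 := fun n h => ((hD _).1 h).2 n rfl
  have hg' : ∀ k, D k → ∃ j, D j ∧ IsConj (g (FreeGroup.of k)) (FreeGroup.of j) := by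
    intro k hk
    obtain ⟨hk1, hk2⟩ := (hD k).1 hk
    refine ⟨(s ⟨k, hk1⟩).1, (hD _).2 ⟨(s ⟨k, hk1⟩).2, fun n hn => ?_⟩, hs ⟨k, hk1⟩⟩
    refine hk2 (q + n) ?_
    rw [Function.iterate_add_apply, Subtype.ext hn, hback]
  obtain ⟨h1, h2⟩ := kill_perm g hg'
  obtain ⟨g', hgg, hT⟩ := kill_aut g h1 h2
  have hgn : ∀ (n : ℕ) (f : FreeGroup ι), kill D ((g ^ n) f) = (g' ^ n) (kill D f) := by
    intro n
    induction n with
    | zero =>
      intro f
      rfl
    | succ n ih =>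
      intro f
      rw [pow_succ', pow_succ', MulAut.mul_apply, MulAut.mul_apply, hgg, ih]
  have hexn : ∀ n, ex (s^[n] j₀).1 w = ex j₀.1 w := by
    intro n
    induction n with
    | zero => rfl
    | succ n ih => rw [Function.iterate_succ_apply', PS_ex hA hg s hs hinj hw, ih]
  have hsum : ∀ (x : {k // ¬ D k}) (n : ℕ),
      ex x ((g' ^ n) (kill D (FreeGroup.of j₀.1 ^ ex j₀.1 w))) =
        ex j₀.1 w * if (s^[n] j₀).1 = x.1 then 1 else 0 := by
    intro x n
    rw [← hgn, ex_kill, map_zpow, ex_zpow, ex_conj _ (PS_iter s hs n j₀), ex_of]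
  have hv : ∀ x : {k // ¬ D k}, ((ex x (kill D w) : ℤ) : ZMod p) =
      ∑ a : ZMod p, ((ex x ((g' ^ a.val) (kill D (FreeGroup.of j₀.1 ^ ex j₀.1 w))) : ℤ) :
        ZMod p) := by
    intro x
    rw [ex_kill]
    simp only [hsum]
    by_cases hx : ∃ n, (s^[n] j₀).1 = x.1
    · obtain ⟨n, hn⟩ := hx
      rw [Finset.sum_eq_single (n : ZMod p)]
      · rw [hemod, if_pos hn, mul_one, ← hn, hexn]
      · intro a _ ha
        rw [if_neg, mul_zero, Int.cast_zero]
        intro h3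
        refine ha (heinj a n ?_)
        rw [hemod]
        exact Subtype.ext (h3.trans hn.symm)
      · intro h
        exact absurd (Finset.mem_univ _) h
    · have hxb : ¬ β x.1 := fun hb => x.2 ((hD _).2 ⟨hb, fun n hn => hx ⟨n, hn⟩⟩)
      rw [hA w hw x.1 hxb, Int.cast_zero]
      symm
      refine Finset.sum_eq_zero fun a _ => ?_
      rw [if_neg fun h => hx ⟨_, h⟩, mul_zero, Int.cast_zero]
  have hfin := no_norm g' (hT p (1 + p) hN) (w := kill D w) (by rw [← hgg, hg w hw]) hv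
    ⟨j₀.1, hDO 0⟩
  rw [ex_kill] at hfin
  exact hpw hfin

end Pool.Agent.MCG
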