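import Pool.Agent.MCG.PUni
import Pool.Agent.MCG.PCnt2
import Pool.Agent.MCG.PChg

set_option autoImplicit false
set_option linter.unusedSectionVars false

noncomputable section

/-!
The case without boundary (P2 of the page).

For every `j : Fin m` let `τ_j` be from `exists_tau`, `w_j = (τ_j⁻¹ (of (inr j)))⁻¹`, and `N_j` from
`p1` for `W = {w_j}`. `N = ∑ j, N_j + 2`, and the bound of the theorem is `N + 1`. Let `φ` be given,
`u j` with `φ (of (inr j)) = u j * of (inr j) * (u j)⁻¹` for `j ∈ B` (`isConj_iff`). `count` (for the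
image
of `B` under `inr`, `Fintype.card {a // ¬ isX g m a} = 2 * g`): there is a `j ∈ B` with
`p ∣ ex (inr j) (yU φ (u j) p)`. `trunc_rho`: `ρ = conj v * φ` fixes `of (inr j)` and
`Trunc p N ρ`. `ψ = τ_j⁻¹ * ρ * τ_j`:
* `Trunc p N ψ`: `ψ ^ p = τ_j⁻¹ * ρ ^ p * τ_j`, `map_fil` for `τ_j⁻¹`.
* `ψ` fixes `w_j`: `ψ (τ_j⁻¹ (of (inr j))) = τ_j⁻¹ (ρ (of (inr j)))`.
* `ψ` permutes the classes: for `i ≠ j`: `ψ (X i) = τ_j⁻¹ (ρ (X i))`, `ρ (X i)` is conjugate to
  `X i'`, `i' ≠ j` (`i' = j` would imply that `X i` and `X j` are conjugate, `ρ (X j) = X j`), so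
  `ψ (X i)` is conjugate to `τ_j⁻¹ (X i') = X i'`. `ψ (X j) = τ_j⁻¹ (ρ (bdW g m))` is conjugate to
  `τ_j⁻¹ (bdW g m) = X j`.
`p1`: `ψ ∈ level`, which is a normal subgroup of `MulAut` (`ker_actQ`, or `UU_char`), so `ρ ∈ level`,
so `φ = conj v⁻¹ * ρ ∈ level` (`conj_level`).
-/

namespace Pool.Agent.MCG

open MonoidAlgebra Pool.Agent.Lvl CongCL

variable {p : ℕ} [hp : Fact p.Prime]

private theorem card_PTwo (g m : ℕ) : Fintype.card {a // ¬ isX g m a} = 2 * g := by
  have e : Fin g × Bool ≃ {a // ¬ isX g m a} :=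
    { toFun := fun i => ⟨Sum.inl i, by simp [isX]⟩
      invFun := fun a => match a with
        | ⟨Sum.inl i, _⟩ => i
        | ⟨Sum.inr _, h⟩ => (h rfl).elim
      left_inv := fun i => rfl
      right_inv := by
        rintro ⟨i | j, h⟩
        · rfl
        · exact (h rfl).elim }
  rw [← Fintype.card_congr e, Fintype.card_prod, Fintype.card_fin, Fintype.card_bool, mul_comm]

private theorem level_normal_PTwo {H : Type} [Group H] (k : ℕ) : (level H k).Normal := by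
  rw [← ker_actQ]
  infer_instance

private theorem conjPow_PTwo {G : Type} [Group G] (a b : G) (n : ℕ) :
    (a⁻¹ * b * a) ^ n = a⁻¹ * b ^ n * a := by
  have := conj_pow (a := a⁻¹) (b := b) (i := n)
  simpa using this

/-- **P2**, the case without boundary, sharp form: it is enough that `φ` fixes more than
`2 g / (p - 1)` of the classes of the `x_j` -/
theorem p2_sharp (g m s : ℕ) : ∃ N : ℕ, ∀ φ : MulAut (FreeGroup ((Fin g × Bool) ⊕ Fin m)),
    (∀ j, ∃ i, IsConj (φ (FreeGroup.of (Sum.inr j))) (FreeGroup.of (Sum.inr i))) →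
    IsConj (φ (bdW g m)) (bdW g m) →
    (∃ B : Finset (Fin m), 2 * g < (p - 1) * B.card ∧
      ∀ j ∈ B, IsConj (φ (FreeGroup.of (Sum.inr j))) (FreeGroup.of (Sum.inr j))) →
    Trunc p N φ → φ ∈ level (FreeGroup ((Fin g × Bool) ⊕ Fin m)) (p ^ s) := by
  classical
  choose τ hτ1 hτ2 hτ3 using exists_tau g m
  have hch : ∀ j : Fin m, ∃ N : ℕ, ∀ ψ : MulAut (FreeGroup ((Fin g × Bool) ⊕ Fin m)),
      (∀ w ∈ ({((τ j)⁻¹ (FreeGroup.of (Sum.inr j)))⁻¹} :
        Set (FreeGroup ((Fin g × Bool) ⊕ Fin m))), ψ w = w) →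
      (∀ i, isX g m i → ∃ k, isX g m k ∧ IsConj (ψ (FreeGroup.of i)) (FreeGroup.of k)) →
      Trunc p N ψ → ψ ∈ level (FreeGroup ((Fin g × Bool) ⊕ Fin m)) (p ^ s) :=
    fun j => p1 (hτ3 j p hp.out) s
  choose Nf hNf using hch
  refine ⟨(∑ j, Nf j + 2) + 1, fun φ hperm hconj hB htr => ?_⟩
  obtain ⟨B, hBc, hfix⟩ := hB
  have hex : ∀ i : (Fin g × Bool) ⊕ Fin m, ∃ u : FreeGroup ((Fin g × Bool) ⊕ Fin m),
      (∃ j ∈ B, i = Sum.inr j) → φ (FreeGroup.of i) = u * FreeGroup.of i * u⁻¹ := by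
    intro i
    by_cases h : ∃ j ∈ B, i = Sum.inr j
    · obtain ⟨j, hj, rfl⟩ := h
      obtain ⟨c, hc⟩ := isConj_iff.1 (hfix j hj).symm
      exact ⟨c, fun _ => hc.symm⟩
    · exact ⟨1, fun h' => absurd h' h⟩
  choose u hu using hex
  have hj : ∃ j ∈ B, (p : ℤ) ∣ ex (Sum.inr j) (yU φ (u (Sum.inr j)) p) := by
    by_contra hcon
    push Not at hcon
    have h1 := count_sharp (p := p) (β := isX g m) (B := B.map ⟨Sum.inr, Sum.inr_injective⟩)
      (fun i hi => by
        obtain ⟨j, _, rfl⟩ := Finset.mem_map.1 hi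
        simp [isX]) (g := φ)
      (fun i hi => by
        rcases i with i | j
        · simp [isX] at hi
        · obtain ⟨k, hk⟩ := hperm j
          exact ⟨Sum.inr k, by simp [isX], hk⟩) u
      (fun i hi => by
        obtain ⟨j, hj, rfl⟩ := Finset.mem_map.1 hi
        exact hu (Sum.inr j) ⟨j, hj, rfl⟩) (N := ∑ j, Nf j + 2) (by omega) htr
      (fun i hi => by
        obtain ⟨j, hj, rfl⟩ := Finset.mem_map.1 hi
        exact hcon j hj)
    rw [Finset.card_map, card_PTwo] at h1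
    omega
  obtain ⟨j, hjB, hdvd⟩ := hj
  obtain ⟨v, hv1, hv2⟩ := trunc_rho htr (hu (Sum.inr j) ⟨j, hjB, rfl⟩) hdvd
  set ρ := MulAut.conj v * φ with hρ
  have hρc : ∀ f, IsConj (ρ f) (φ f) := fun f => by
    refine (isConj_iff.2 ⟨v, ?_⟩).symm
    rfl
  set ψ := (τ j)⁻¹ * ρ * τ j with hψ
  have hψa : ∀ f, ψ f = (τ j)⁻¹ (ρ (τ j f)) := fun f => rfl
  have hti : ∀ f, (τ j)⁻¹ (τ j f) = f := fun f => MulAut.inv_apply_self _ _ _
  have hit : ∀ f, τ j ((τ j)⁻¹ f) = f := fun f => MulAut.apply_inv_self _ _ _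
  have htr2 : Trunc p (Nf j) ψ := by
    refine trunc_le (N := ∑ j, Nf j + 2) ?_ ?_
    · have := Finset.single_le_sum (f := Nf) (fun i _ => Nat.zero_le _) (Finset.mem_univ j)
      omega
    · intro f
      have h1 := hv2 (τ j f)
      have h2 := map_fil (R := ZMod p) (((τ j)⁻¹ : MulAut (FreeGroup ((Fin g × Bool) ⊕ Fin m))) :
        FreeGroup ((Fin g × Bool) ⊕ Fin m) →* FreeGroup ((Fin g × Bool) ⊕ Fin m)) h1
      have h3 : (ψ ^ p) f = (τ j)⁻¹ ((ρ ^ p) (τ j f)) := by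
        rw [hψ, conjPow_PTwo]
        rfl
      rw [h3]
      rw [map_sub] at h2
      simpa [hti] using h2
  have hlev : ψ ∈ level (FreeGroup ((Fin g × Bool) ⊕ Fin m)) (p ^ s) := by
    refine hNf j ψ ?_ ?_ htr2
    · intro w hw
      rw [Set.mem_singleton_iff] at hw
      rw [hw, map_inv, hψa, hit, hv1]
    · intro i hi
      rcases i with i | i
      · simp [isX] at hi
      · by_cases hij : i = j
        · subst hij
          refine ⟨Sum.inr i, by simp [isX], ?_⟩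
          rw [hψa, hτ1]
          have h1 : IsConj (ρ (bdW g m)) (bdW g m) := (hρc _).trans hconj
          have h2 := MonoidHom.map_isConj (((τ i)⁻¹ : MulAut (FreeGroup ((Fin g × Bool) ⊕ Fin m))) :
            FreeGroup ((Fin g × Bool) ⊕ Fin m) →* FreeGroup ((Fin g × Bool) ⊕ Fin m)) h1
          have h3 : (τ i)⁻¹ (bdW g m) = FreeGroup.of (Sum.inr i) := by
            rw [← hτ1 i, hti]
          rw [← h3]
          exact h2
        · obtain ⟨k, hk⟩ := hperm i
          have h1 : IsConj (ρ (FreeGroup.of (Sum.inr i))) (FreeGroup.of (Sum.inr k)) :=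
            (hρc _).trans hk
          have hkj : k ≠ j := by
            rintro rfl
            have h2 : IsConj (ρ (FreeGroup.of (Sum.inr i))) (ρ (FreeGroup.of (Sum.inr k))) := by
              rw [hv1]
              exact h1
            have h3 := MonoidHom.map_isConj ((ρ⁻¹ : MulAut (FreeGroup ((Fin g × Bool) ⊕ Fin m))) :
              FreeGroup ((Fin g × Bool) ⊕ Fin m) →* FreeGroup ((Fin g × Bool) ⊕ Fin m)) h2
            have h4 : IsConj (FreeGroup.of (Sum.inr i) : FreeGroup ((Fin g × Bool) ⊕ Fin m))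
                (FreeGroup.of (Sum.inr k)) := by
              have e1 : ∀ f, ρ⁻¹ (ρ f) = f := fun f => MulAut.inv_apply_self _ _ _
              have h5 : IsConj (ρ⁻¹ (ρ (FreeGroup.of (Sum.inr i))))
                (ρ⁻¹ (ρ (FreeGroup.of (Sum.inr k)))) := h3
              rwa [e1, e1] at h5
            exact hij (Sum.inr_injective (isConj_of h4))
          refine ⟨Sum.inr k, by simp [isX], ?_⟩
          rw [hψa, hτ2 j _ (fun h => hij (Sum.inr_injective h))]
          have h2 := MonoidHom.map_isConj (((τ j)⁻¹ : MulAut (FreeGroup ((Fin g × Bool) ⊕ Fin m))) :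
            FreeGroup ((Fin g × Bool) ⊕ Fin m) →* FreeGroup ((Fin g × Bool) ⊕ Fin m)) h1
          have h3 : (τ j)⁻¹ (FreeGroup.of (Sum.inr k)) = FreeGroup.of (Sum.inr k) := by
            have h4 := hti (FreeGroup.of (Sum.inr k))
            rwa [hτ2 j _ (fun h => hkj (Sum.inr_injective h))] at h4
          rw [← h3]
          exact h2
  have hρl : ρ ∈ level (FreeGroup ((Fin g × Bool) ⊕ Fin m)) (p ^ s) := by
    have hn := level_normal_PTwo (H := FreeGroup ((Fin g × Bool) ⊕ Fin m)) (p ^ s)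
    have h1 := hn.conj_mem ψ hlev (τ j)
    have h2 : τ j * ψ * (τ j)⁻¹ = ρ := by
      rw [hψ]
      group
    rwa [h2] at h1
  have hφ : φ = MulAut.conj v⁻¹ * ρ := by
    rw [hρ, map_inv, inv_mul_cancel_left]
  rw [hφ]
  exact (level _ _).mul_mem (conj_level _) hρl

/-- **P2**, the case without boundary -/
theorem p2 (g m s : ℕ) : ∃ N : ℕ, ∀ φ : MulAut (FreeGroup ((Fin g × Bool) ⊕ Fin m)),
    (∀ j, ∃ i, IsConj (φ (FreeGroup.of (Sum.inr j))) (FreeGroup.of (Sum.inr i))) →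
    IsConj (φ (bdW g m)) (bdW g m) →
    (∃ B : Finset (Fin m), 2 * g + 1 ≤ B.card ∧
      ∀ j ∈ B, IsConj (φ (FreeGroup.of (Sum.inr j))) (FreeGroup.of (Sum.inr j))) →
    Trunc p N φ → φ ∈ level (FreeGroup ((Fin g × Bool) ⊕ Fin m)) (p ^ s) := by
  obtain ⟨N, hN⟩ := p2_sharp (p := p) g m s
  refine ⟨N, fun φ h1 h2 ⟨B, hB, h3⟩ h4 => hN φ h1 h2 ⟨B, ?_, h3⟩ h4⟩
  have h5 := hp.out.two_le
  have h6 : 1 * B.card ≤ (p - 1) * B.card := Nat.mul_le_mul_right _ (by omega)
  omega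

/-- the permutation of the classes of the `x_j` has order `1` or `p` -/
theorem perm_pow {ι : Type} [DecidableEq ι] [Fintype ι] {m N : ℕ} (hN : 2 ≤ N)
    {φ : MulAut (FreeGroup (ι ⊕ Fin m))}
    (h : ∀ j : Fin m, ∃ i : Fin m, IsConj (φ (FreeGroup.of (Sum.inr j))) (FreeGroup.of (Sum.inr i)))
    (ht : Trunc p N φ) (j : Fin m) :
    IsConj ((φ ^ p) (FreeGroup.of (Sum.inr j))) (FreeGroup.of (Sum.inr j)) := by
  have h1 : ∀ n : ℕ, ∃ i : Fin m,
      IsConj ((φ ^ n) (FreeGroup.of (Sum.inr j))) (FreeGroup.of (Sum.inr i)) := by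
    intro n
    induction n with
    | zero => exact ⟨j, IsConj.refl _⟩
    | succ n ih =>
      obtain ⟨i, hi⟩ := ih
      obtain ⟨k, hk⟩ := h i
      refine ⟨k, ?_⟩
      rw [pow_succ', MulAut.mul_apply]
      exact (MonoidHom.map_isConj φ.toMonoidHom hi).trans hk
  obtain ⟨i, hi⟩ := h1 p
  have h2 := dvd_of_fil hN (ht (FreeGroup.of (Sum.inr j))) (Sum.inr i)
  rw [ex_conj _ hi, ex_of, ex_of, if_pos rfl] at h2
  by_cases hij : i = j
  · rwa [hij] at hi
  · rw [if_neg fun h => hij (Sum.inr_injective h).symm, sub_zero] at h2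
    have h3 := Int.le_of_dvd one_pos h2
    have h4 := hp.out.two_le
    omega

/-- **P2**, the condition depends on the automorphism -/
theorem p2_each (g m s : ℕ) : ∃ N : ℕ, ∀ φ : MulAut (FreeGroup ((Fin g × Bool) ⊕ Fin m)),
    (∀ j, ∃ i, IsConj (φ (FreeGroup.of (Sum.inr j))) (FreeGroup.of (Sum.inr i))) →
    IsConj (φ (bdW g m)) (bdW g m) →
    ((∀ j, IsConj ((φ ^ p) (FreeGroup.of (Sum.inr j))) (FreeGroup.of (Sum.inr j))) →
      2 * g < (p - 1) *
        Nat.card {j // IsConj (φ (FreeGroup.of (Sum.inr j))) (FreeGroup.of (Sum.inr j))}) →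
    Trunc p N φ → φ ∈ level (FreeGroup ((Fin g × Bool) ⊕ Fin m)) (p ^ s) := by
  classical
  obtain ⟨N, hN⟩ := p2_sharp (p := p) g m s
  refine ⟨max 2 N, fun φ h1 h2 h3 h4 => hN φ h1 h2 ?_ (trunc_le (le_max_right 2 N) h4)⟩
  refine ⟨Finset.univ.filter fun j =>
    IsConj (φ (FreeGroup.of (Sum.inr j))) (FreeGroup.of (Sum.inr j)), ?_, fun j hj =>
      (Finset.mem_filter.1 hj).2⟩
  have h5 := h3 fun j => perm_pow (le_max_left 2 N) h1 h4 j
  rwa [Nat.card_eq_fintype_card, Fintype.card_subtype] at h5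

end Pool.Agent.MCG
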