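import Pool.Agent.MCG.PSig
import Pool.Agent.MCG.Thm1

set_option autoImplicit false
set_option linter.unusedSectionVars false

noncomputable section

/-!
PACKAGE MCGP-UNI. The case with boundary (P1 of the page).

`uni`: kill the generators `x` with `β x` (`kill_perm`, `kill_aut`): `g'` on `FreeGroup {i // ¬ β i}`
fixes the elements of `kill β '' W`, which is `NondegAt p`. `no_torsion` for `W' = kill β '' W`,
`P = F' ⧸ UU F' (p ^ (s + 1))`, `π = QuotientGroup.mk'`, gives an `N₁` such that `Trunc p N₁ g'` implies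
`g' ∈ level F' (p ^ (s + 1))` (the induced automorphism of the quotient, see `ind` in
`NTFix.lean`, is `1`). `trunc_level (s + 1)` gives `N₂`; `N = max N₁ N₂`. Let `E x y = ex x (g (of
y))`,
`d x y = E x y - [y = x]` (`[y = x] = ex x (of y)`).
* `d x y = 0` for `β y` (`ex_conj`).
* `p ^ (s + 1) ∣ d x y` for `¬ β x`, `¬ β y`: `ex_kill` and `level_iff` for `g'`.
* so for all `x`, `z`: `p ^ (s + 1) ∣ ∑ y, d x y * d y z` (the terms with `β y` vanish; for
  `¬ β y` and `β z` the factor `d y z` is `0`; for `¬ β y`, `¬ β z` it is divisible).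
* so, by induction on `n` (`ex_map`): `ex x ((g ^ n) (of z)) ≡ [z = x] + n * d x z` modulo
  `p ^ (s + 1)`.
* for `n = p` and `trunc_level`: `p ^ (s + 1) ∣ p * d x z`, so `p ^ s ∣ d x z`, `level_iff`.
`p1`: `sig_eq` and `uni`; `hA` of `sig_eq`: `kill β w` is in the commutator subgroup, `ex_kill`,
`ex_comm`.
-/

namespace Pool.Agent.MCG

open MonoidAlgebra Pool.Agent.Lvl

variable {p : ℕ} [hp : Fact p.Prime] {ι : Type} [DecidableEq ι] [Fintype ι]

private theorem dvd_of_eq_PUni {m a b : ℤ} (h : a = b) (hm : m ∣ a) : m ∣ b := h ▸ hm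

private theorem pgroup_UU {H : Type} [Group H] (k : ℕ) : IsPGroup p (H ⧸ UU H (p ^ k)) := by
  intro a
  obtain ⟨a, rfl⟩ := QuotientGroup.mk_surjective a
  refine ⟨k, ?_⟩
  have h1 : ((a ^ p ^ k : H) : H ⧸ UU H (p ^ k)) = 1 :=
    (QuotientGroup.eq_one_iff _).2 (Subgroup.subset_closure (Or.inr ⟨a, rfl⟩))
  exact h1

private def ind_PUni {H : Type} [Group H] (φ : MulAut H) (m : ℕ) : MulAut (H ⧸ UU H m) where
  toFun := QuotientGroup.map (UU H m) (UU H m) (φ : H →* H) fun _ hx => UU_char H m φ hx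
  invFun := QuotientGroup.map (UU H m) (UU H m) ((φ⁻¹ : MulAut H) : H →* H)
    fun _ hx => UU_char H m φ⁻¹ hx
  left_inv x := by
    obtain ⟨x, rfl⟩ := QuotientGroup.mk_surjective x
    show (((φ⁻¹ : MulAut H) (φ x) : H) : H ⧸ UU H m) = x
    rw [MulAut.inv_apply_self]
  right_inv x := by
    obtain ⟨x, rfl⟩ := QuotientGroup.mk_surjective x
    show ((φ ((φ⁻¹ : MulAut H) x) : H) : H ⧸ UU H m) = x
    rw [MulAut.apply_inv_self]
  map_mul' x y := map_mul _ x y

private theorem level_of_ind {H : Type} [Group H] (φ : MulAut H) (m : ℕ)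
    (h : ind_PUni φ m = 1) : φ ∈ level H m := by
  intro x
  have h1 : ind_PUni φ m (x : H ⧸ UU H m) = (x : H ⧸ UU H m) := by
    rw [h, MulAut.one_apply]
  have h2 : ((φ x : H) : H ⧸ UU H m) = (x : H ⧸ UU H m) := h1
  exact QuotientGroup.eq.1 h2.symm

theorem uni {β : ι → Prop} [DecidablePred β] {W : Set (FreeGroup ι)}
    (hW : NondegAt p (kill β '' W)) (s : ℕ) : ∃ N : ℕ, ∀ g : MulAut (FreeGroup ι),
      (∀ w ∈ W, g w = w) → (∀ i, β i → IsConj (g (FreeGroup.of i)) (FreeGroup.of i)) →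
      Trunc p N g → g ∈ level (FreeGroup ι) (p ^ s) := by
  have hfin : Finite (FreeGroup {i // ¬ β i} ⧸ UU (FreeGroup {i // ¬ β i}) (p ^ (s + 1))) :=
    finite_quot (pow_pos hp.out.pos _)
  obtain ⟨N₁, hN₁⟩ := no_torsion hW (pgroup_UU (p := p) (H := FreeGroup {i // ¬ β i}) (s + 1))
    (QuotientGroup.mk' (UU (FreeGroup {i // ¬ β i}) (p ^ (s + 1))))
    (QuotientGroup.mk'_surjective _)
  obtain ⟨N₂, hN₂⟩ := trunc_level (ι := ι) (p := p) (s + 1)
  refine ⟨max N₁ N₂, fun g hg hc hT => ?_⟩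
  obtain ⟨hk1, hk2⟩ := kill_perm (D := β) g fun i hi => ⟨i, hi, hc i hi⟩
  obtain ⟨g', hg', hT'⟩ := kill_aut g hk1 hk2
  have hlev' : g' ∈ level (FreeGroup {i // ¬ β i}) (p ^ (s + 1)) := by
    refine level_of_ind g' _ (hN₁ g' (ind_PUni g' _) (fun _ => rfl) ?_ ?_)
    · rintro _ ⟨w, hw, rfl⟩
      rw [← hg', hg w hw]
    · exact trunc_le (le_max_left _ _) (hT' p _ hT)
  have hlev := hN₂ g (trunc_le (le_max_right _ _) hT)
  set m : ℕ := p ^ (s + 1) with hm
  set d : ι → ι → ℤ := fun x y => ex x (g (FreeGroup.of y)) - ex x (FreeGroup.of y) with hd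
  have hd1 : ∀ x y, β y → d x y = 0 := fun x y hy => by
    simp only [hd]
    rw [ex_conj x (hc y hy), sub_self]
  have hd2 : ∀ x y, ¬ β x → ¬ β y → (m : ℤ) ∣ d x y := fun x y hx hy => by
    have h1 := (level_iff g').1 hlev' ⟨x, hx⟩ ⟨y, hy⟩
    rw [← kill_of_not β hy, ← hg', ex_kill, ex_kill] at h1
    exact h1
  have hdd : ∀ x z, (m : ℤ) ∣ ∑ y, d y z * d x y := fun x z => by
    refine Finset.dvd_sum fun y _ => ?_
    by_cases hy : β y
    · rw [hd1 x y hy, mul_zero]
      exact dvd_zero _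
    · by_cases hz : β z
      · rw [hd1 y z hz, zero_mul]
        exact dvd_zero _
      · exact Dvd.dvd.mul_right (hd2 y z hy hz) _
  have hn : ∀ (n : ℕ) (x z : ι), (m : ℤ) ∣
      ex x ((g ^ n) (FreeGroup.of z)) - (ex x (FreeGroup.of z) + n * d x z) := by
    intro n
    induction n with
    | zero =>
      intro x z
      rw [pow_zero, MulAut.one_apply, Nat.cast_zero, zero_mul, add_zero, sub_self]
      exact dvd_zero _
    | succ n ih =>
      intro x z
      have h1 : ex x ((g ^ (n + 1)) (FreeGroup.of z)) =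
          ∑ y, ex y (g (FreeGroup.of z)) * ex x ((g ^ n) (FreeGroup.of y)) := by
        rw [pow_succ, MulAut.mul_apply]
        exact ex_map ((g ^ n : MulAut (FreeGroup ι)) : FreeGroup ι →* FreeGroup ι) x _
      have h2 : (m : ℤ) ∣ ∑ y, ex y (g (FreeGroup.of z)) *
          (ex x ((g ^ n) (FreeGroup.of y)) - (ex x (FreeGroup.of y) + n * d x y)) :=
        Finset.dvd_sum fun y _ => Dvd.dvd.mul_left (ih x y) _
      have h3 : ∑ y, ex y (g (FreeGroup.of z)) * ex x (FreeGroup.of y) =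
          ex x (g (FreeGroup.of z)) := by
        have := ex_map (MonoidHom.id (FreeGroup ι)) x (g (FreeGroup.of z))
        exact this.symm
      have h4 : ∑ y, ex y (g (FreeGroup.of z)) * (n * d x y) =
          n * d x z + n * ∑ y, d y z * d x y := by
        have e : ∀ y, ex y (g (FreeGroup.of z)) * (n * d x y) =
            (if z = y then (n : ℤ) * d x y else 0) + n * (d y z * d x y) := by
          intro y
          have e1 : ex y (g (FreeGroup.of z)) = (if z = y then 1 else 0) + d y z := by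
            simp only [hd]
            rw [ex_of]
            ring
          rw [e1]
          split_ifs
          · ring
          · ring
        rw [Finset.sum_congr rfl fun y _ => e y, Finset.sum_add_distrib, Finset.mul_sum]
        congr 1
        rw [Finset.sum_ite_eq]
        simp
      have h5 : ∑ y, ex y (g (FreeGroup.of z)) *
          (ex x ((g ^ n) (FreeGroup.of y)) - (ex x (FreeGroup.of y) + n * d x y)) =
          ex x ((g ^ (n + 1)) (FreeGroup.of z)) - (ex x (g (FreeGroup.of z)) +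
            (n * d x z + n * ∑ y, d y z * d x y)) := by
        rw [h1, ← h4, ← h3, ← Finset.sum_add_distrib, ← Finset.sum_sub_distrib]
        refine Finset.sum_congr rfl fun y _ => ?_
        ring
      rw [h5] at h2
      have h6 := dvd_add h2 (Dvd.dvd.mul_left (hdd x z) (n : ℤ))
      refine (dvd_of_eq_PUni ?_ h6)
      simp only [hd]
      push_cast
      ring
  rw [level_iff]
  intro x z
  have h1 := (level_iff (g ^ p)).1 hlev x z
  have h2 := dvd_sub h1 (hn p x z)
  have h3 : ((m : ℕ) : ℤ) ∣ p * d x z := by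
    refine (dvd_of_eq_PUni ?_ h2)
    ring
  rw [hm, pow_succ', Nat.cast_mul] at h3
  exact (mul_dvd_mul_iff_left (Nat.cast_ne_zero.2 hp.out.ne_zero)).1 h3

/-- **P1**, the case with boundary -/
theorem p1 {β : ι → Prop} [DecidablePred β] {W : Set (FreeGroup ι)} (hW : Bdry p β W) (s : ℕ) :
    ∃ N : ℕ, ∀ g : MulAut (FreeGroup ι), (∀ w ∈ W, g w = w) →
      (∀ i, β i → ∃ j, β j ∧ IsConj (g (FreeGroup.of i)) (FreeGroup.of j)) →
      Trunc p N g → g ∈ level (FreeGroup ι) (p ^ s) := by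
  obtain ⟨N, hN⟩ := uni (p := p) hW.nondeg s
  refine ⟨max N (1 + p), fun g hg hσ hT => hN g hg (fun i hi => ?_) (trunc_le (le_max_left _ _) hT)⟩
  refine sig_eq (β := β) (W := W) (fun w hw a ha => ?_) hW.ex_ne hg hσ
    (trunc_le (le_max_right _ _) hT) i hi
  have h1 := ex_comm (⟨a, ha⟩ : {i // ¬ β i}) (hW.nondeg.1 _ ⟨w, hw, rfl⟩)
  rwa [ex_kill] at h1

end Pool.Agent.MCG
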