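import Pool.Agent.MCG.KosN
import Pool.Agent.MCG.FreeEx
import Pool.Agent.MCG.LocL
import Pool.Agent.MCG.LiftFree

set_option autoImplicit false
set_option linter.unusedSectionVars false

noncomputable section

/-!
MCG (MP_95030e), part REG: regularity of the ring `L = lim ℤ_p[P k]`: in every exact sequence of
finitely generated free modules all kernels from the place `d + 1` on are free.

* `reg1`: over `A = lim F_p[P k]`, kernels from the place `d` on: `koszul`, `ex_pi`, `ex_chain`,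
  `free_of_ex` (`isUnit_of_not_fl`, `fl_sep`).
* `reg_fin`: for free modules `L ^ n`: `red_exact`, `ker_lift`, `lift_free`.
* `reg`: transport to finitely generated free modules.
-/

namespace Pool.Agent.MCG

open Pool.Agent.Lvl Module

variable {p q d : ℕ} [hp : Fact p.Prime] (T : Tower p q d)

instance : Unique (Cb d 0) :=
  ⟨⟨⟨∅, rfl⟩⟩, fun I => Subtype.ext (Finset.card_eq_zero.1 I.2)⟩

private theorem cb_empty {i : ℕ} (h : d ≤ i) : IsEmpty (Cb d (i + 1)) := by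
  refine ⟨fun I => ?_⟩
  have h1 := Finset.card_le_univ I.1
  rw [I.2, Fintype.card_fin] at h1
  omega

theorem reg1 (n : ℕ → ℕ)
    (f : ∀ i, (Fin (n (i + 1)) → Lim T (ZMod p)) →ₗ[Lim T (ZMod p)] (Fin (n i) → Lim T (ZMod p)))
    (hex : ∀ i, LinearMap.ker (f i) = LinearMap.range (f (i + 1))) (m : ℕ) (hm : d ≤ m) :
    ∃ s : ℕ, Nonempty (LinearMap.ker (f m) ≃ₗ[Lim T (ZMod p)] (Fin s → Lim T (ZMod p))) := by
  obtain ⟨D, h0, hex', h00, h01⟩ := koszul T
  have h1 : Ex D 0 (LinearMap.ker (f m)) :=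
    ex_chain h0 (fun i hi => cb_empty hi) (fun i => Fin (n i) → Lim T (ZMod p))
      (fun i j => ex_pi hex' _ j) f hex m hm
  refine free_of_ex (h0 0) ?_ ?_ (LinearMap.ker (f m)) h1
  · intro a ha
    have h2 : FL T 1 a := by
      by_contra h
      exact ha (isUnit_of_not_fl T h)
    obtain ⟨x, hx⟩ := h00 (fun _ => a) (fun _ => h2)
    exact ⟨x, congrFun hx default⟩
  · intro m N hN
    have h2 : ∀ k, ∀ z ∈ N, ∀ l, FL T k (z l) := by
      intro k
      induction k with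
      | zero => exact fun z _ l => fl_zero T _
      | succ k ih =>
        intro z hz l
        obtain ⟨v, hv, rfl⟩ := hN z hz
        rw [Finset.sum_apply]
        refine FL.sum T fun I _ => ?_
        rw [add_comm]
        exact fl_mul T (h01 default I) (ih _ (hv I) l)
    rw [eq_bot_iff]
    intro z hz
    rw [AddSubgroup.mem_bot]
    funext l
    exact fl_sep T fun k => h2 k z hz l

theorem reg_fin (n : ℕ → ℕ)
    (f : ∀ i, (Fin (n (i + 1)) → Lim T ℤ_[p]) →ₗ[Lim T ℤ_[p]] (Fin (n i) → Lim T ℤ_[p]))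
    (hex : ∀ i, LinearMap.ker (f i) = LinearMap.range (f (i + 1))) (m : ℕ) (hm : d + 1 ≤ m) :
    ∃ s : ℕ, Nonempty (LinearMap.ker (f m) ≃ₗ[Lim T ℤ_[p]] (Fin s → Lim T ℤ_[p])) := by
  choose g hg using fun i => exists_redm T (f i)
  obtain ⟨m, rfl⟩ : ∃ m', m = m' + 1 := ⟨m - 1, by omega⟩
  have hex1 : ∀ i, LinearMap.ker (g (i + 1)) = LinearMap.range (g (i + 1 + 1)) := fun i =>
    red_exact T (f i) (f (i + 1)) (f (i + 1 + 1)) (hex i) (hex (i + 1)) (g (i + 1)) (hg (i + 1))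
      (g (i + 1 + 1)) (hg (i + 1 + 1))
  obtain ⟨s, ⟨e⟩⟩ := reg1 T (fun i => n (i + 1)) (fun i => g (i + 1)) hex1 m (by omega)
  refine ⟨s, lift_free T (LinearMap.ker (f (m + 1))) ?_ (LinearMap.ker (g (m + 1))) ?_ ?_ e⟩
  · intro z hz
    rw [LinearMap.mem_ker, map_smul] at hz
    rw [LinearMap.mem_ker]
    funext l
    exact p_torsion T (congrFun hz l)
  · intro y hy
    rw [LinearMap.mem_ker, hg, LinearMap.mem_ker.1 hy]
    funext l
    exact map_zero (red T)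
  · intro v hv
    obtain ⟨y, hy, hyv⟩ := ker_lift T (f m) (f (m + 1)) (hex m) (g (m + 1)) (hg (m + 1)) v hv
    exact ⟨y, hy, hyv⟩

/-- the regularity of the limit ring -/
theorem reg (F : ℕ → Type) [∀ i, AddCommGroup (F i)] [∀ i, Module (Lim T ℤ_[p]) (F i)]
    [∀ i, Module.Free (Lim T ℤ_[p]) (F i)] [∀ i, Module.Finite (Lim T ℤ_[p]) (F i)]
    (f : ∀ i, F (i + 1) →ₗ[Lim T ℤ_[p]] F i)
    (hex : ∀ i, LinearMap.ker (f i) = LinearMap.range (f (i + 1))) (m : ℕ) (hm : d + 1 ≤ m) :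
    ∃ s : ℕ, Nonempty (LinearMap.ker (f m) ≃ₗ[Lim T ℤ_[p]] (Fin s → Lim T ℤ_[p])) := by
  let n : ℕ → ℕ := fun i => finrank (Lim T ℤ_[p]) (F i)
  let e : ∀ i, F i ≃ₗ[Lim T ℤ_[p]] (Fin (n i) → Lim T ℤ_[p]) := fun i =>
    (Module.finBasis (Lim T ℤ_[p]) (F i)).equivFun
  let f' : ∀ i, (Fin (n (i + 1)) → Lim T ℤ_[p]) →ₗ[Lim T ℤ_[p]] (Fin (n i) → Lim T ℤ_[p]) :=
    fun i => (e i).toLinearMap ∘ₗ f i ∘ₗ (e (i + 1)).symm.toLinearMap
  have hf' : ∀ i y, f' i (e (i + 1) y) = e i (f i y) := fun i y => by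
    show e i (f i ((e (i + 1)).symm (e (i + 1) y))) = _
    rw [LinearEquiv.symm_apply_apply]
  have hker : ∀ i y, f' i (e (i + 1) y) = 0 ↔ f i y = 0 := fun i y => by
    rw [hf', LinearEquiv.map_eq_zero_iff]
  have hex' : ∀ i, LinearMap.ker (f' i) = LinearMap.range (f' (i + 1)) := by
    intro i
    ext v
    obtain ⟨y, rfl⟩ := (e (i + 1)).surjective v
    rw [LinearMap.mem_ker, hker, LinearMap.mem_range]
    have h1 : f i y = 0 ↔ y ∈ LinearMap.range (f (i + 1)) := by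
      rw [← hex i, LinearMap.mem_ker]
    rw [h1, LinearMap.mem_range]
    constructor
    · rintro ⟨x, rfl⟩
      exact ⟨e (i + 1 + 1) x, hf' (i + 1) x⟩
    · rintro ⟨x, hx⟩
      obtain ⟨x, rfl⟩ := (e (i + 1 + 1)).surjective x
      rw [hf'] at hx
      exact ⟨x, (e (i + 1)).injective hx⟩
  obtain ⟨s, ⟨u⟩⟩ := reg_fin T n f' hex' m hm
  have h2 : (LinearMap.ker (f m)).map ((e (m + 1) : F (m + 1) ≃ₗ[Lim T ℤ_[p]] _) :
      F (m + 1) →ₗ[Lim T ℤ_[p]] (Fin (n (m + 1)) → Lim T ℤ_[p])) = LinearMap.ker (f' m) := by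
    ext v
    obtain ⟨y, rfl⟩ := (e (m + 1)).surjective v
    rw [LinearMap.mem_ker, hker, Submodule.mem_map]
    constructor
    · rintro ⟨y', hy', h3⟩
      have h4 : y' = y := (e (m + 1)).injective h3
      rw [← h4]
      exact hy'
    · exact fun h => ⟨y, h, rfl⟩
  exact ⟨s, ⟨((e (m + 1)).ofSubmodules _ _ h2).trans u⟩⟩

end Pool.Agent.MCG
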