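import Pool.Agent.Lvl.LimZ

set_option autoImplicit false
set_option linter.unusedSectionVars false

noncomputable section

/-!
PACKAGE MCG-REGRED. Reduction modulo `p` of linear maps and exact sequences between free modules
over `L = lim ℤ_p[P k]`, `A = L1 = lim F_p[P k]`, `red T : L → A` (surjective, kernel `p L`).

`redv T y = fun i => red T (y i)`.

* `redv_eq_zero`: `red_eq_zero` coordinatewise.
* `exists_redm`: `g = (Pi.basisFun A (Fin a)).constr ℤ (fun j => redv T (f (Pi.single j 1)))` or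
  `Fintype.linearCombination`; both sides of the claim are additive in `y`, `y = ∑ y j • e_j`.
* `red_exact`: let `g1 ∘ g2` be the reductions. (a) `range ≤ ker`: `redv` is surjective
  (`red_surj`), `f1 (f2 x) = 0`. (b) let `g1 v = 0`, `v = redv y`; `redv (f1 y) = 0`, so
  `f1 y = p • z`; `0 = f0 (f1 y) = p • f0 z`, so `f0 z = 0` (`p_torsion`), `z = f1 x`;
  `f1 (y - p • x) = 0`, `y - p • x = f2 x'`, `v = redv (f2 x') = g2 (redv x')` (`redv` kills
  `p • x`: `red T p = 0`).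
* `ker_lift`: the argument (b): every `v ∈ ker g1` is `redv y` with `y ∈ ker f1`
  (the map `f2` is not needed).
-/

namespace Pool.Agent.MCG

open Pool.Agent.Lvl

variable {p q d : ℕ} [hp : Fact p.Prime] (T : Tower p q d)

/-- reduction of vectors -/
def redv {n : ℕ} (y : Fin n → Lim T ℤ_[p]) : Fin n → Lim T (ZMod p) := fun i => red T (y i)

private theorem redv_add_RegRed {n : ℕ} (y z : Fin n → Lim T ℤ_[p]) :
    redv T (y + z) = redv T y + redv T z := by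
  funext i
  exact map_add (red T) (y i) (z i)

private theorem redv_sub_RegRed {n : ℕ} (y z : Fin n → Lim T ℤ_[p]) :
    redv T (y - z) = redv T y - redv T z := by
  funext i
  exact map_sub (red T) (y i) (z i)

private theorem redv_smul_RegRed {n : ℕ} (c : Lim T ℤ_[p]) (y : Fin n → Lim T ℤ_[p]) :
    redv T (c • y) = red T c • redv T y := by
  funext i
  exact map_mul (red T) c (y i)

private theorem redv_zero_RegRed {n : ℕ} : redv T (0 : Fin n → Lim T ℤ_[p]) = 0 := by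
  funext i
  exact map_zero (red T)

private theorem redv_sum_RegRed {n a : ℕ} (y : Fin a → (Fin n → Lim T ℤ_[p])) :
    redv T (∑ j, y j) = ∑ j, redv T (y j) := by
  funext i
  rw [Finset.sum_apply]
  show red T ((∑ j, y j) i) = ∑ j, red T (y j i)
  rw [Finset.sum_apply, map_sum]

private theorem p_zero_RegRed : ((p : ℕ) : Lim T (ZMod p)) = 0 := by
  apply Subtype.ext
  funext k
  have h1 : (((p : ℕ) : Lim T (ZMod p)) : ∀ k, MonoidAlgebra (ZMod p) (T.P k)) k =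
      ((p : ℕ) : MonoidAlgebra (ZMod p) (T.P k)) := rfl
  rw [h1, ← map_natCast (MonoidAlgebra.singleOneRingHom :
    ZMod p →+* MonoidAlgebra (ZMod p) (T.P k)) p, ZMod.natCast_self, map_zero]
  rfl

theorem redv_surj {n : ℕ} (v : Fin n → Lim T (ZMod p)) : ∃ y, redv T y = v := by
  choose y hy using fun i => red_surj T (v i)
  exact ⟨y, funext hy⟩

theorem redv_eq_zero {n : ℕ} {y : Fin n → Lim T ℤ_[p]} (h : redv T y = 0) :
    ∃ z : Fin n → Lim T ℤ_[p], y = ((p : ℕ) : Lim T ℤ_[p]) • z := by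
  choose z hz using fun i => red_eq_zero T (congrFun h i)
  exact ⟨z, funext hz⟩

theorem redv_p {n : ℕ} (z : Fin n → Lim T ℤ_[p]) : redv T (((p : ℕ) : Lim T ℤ_[p]) • z) = 0 := by
  rw [redv_smul_RegRed, map_natCast, p_zero_RegRed, zero_smul]

theorem exists_redm {a b : ℕ} (f : (Fin a → Lim T ℤ_[p]) →ₗ[Lim T ℤ_[p]] (Fin b → Lim T ℤ_[p])) :
    ∃ g : (Fin a → Lim T (ZMod p)) →ₗ[Lim T (ZMod p)] (Fin b → Lim T (ZMod p)),
      ∀ y, g (redv T y) = redv T (f y) := by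
  refine ⟨Fintype.linearCombination (Lim T (ZMod p))
    (fun i : Fin a => redv T (f fun j => if i = j then 1 else 0)), fun y => ?_⟩
  rw [Fintype.linearCombination_apply, LinearMap.pi_apply_eq_sum_univ f y, redv_sum_RegRed]
  refine Finset.sum_congr rfl fun i _ => ?_
  rw [redv_smul_RegRed]
  rfl

theorem ker_lift {n0 n1 n2 : ℕ}
    (f0 : (Fin n1 → Lim T ℤ_[p]) →ₗ[Lim T ℤ_[p]] (Fin n0 → Lim T ℤ_[p]))
    (f1 : (Fin n2 → Lim T ℤ_[p]) →ₗ[Lim T ℤ_[p]] (Fin n1 → Lim T ℤ_[p]))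
    (h01 : LinearMap.ker f0 = LinearMap.range f1)
    (g1 : (Fin n2 → Lim T (ZMod p)) →ₗ[Lim T (ZMod p)] (Fin n1 → Lim T (ZMod p)))
    (hg1 : ∀ y, g1 (redv T y) = redv T (f1 y)) (v : Fin n2 → Lim T (ZMod p)) (hv : g1 v = 0) :
    ∃ y, f1 y = 0 ∧ redv T y = v := by
  obtain ⟨y0, rfl⟩ := redv_surj T v
  rw [hg1] at hv
  obtain ⟨z, hz⟩ := redv_eq_zero T hv
  have h1 : f1 y0 ∈ LinearMap.ker f0 := by
    rw [h01]
    exact ⟨y0, rfl⟩
  rw [LinearMap.mem_ker, hz, map_smul] at h1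
  have h2 : f0 z = 0 := by
    funext i
    exact p_torsion T (congrFun h1 i)
  have h3 : z ∈ LinearMap.range f1 := by
    rw [← h01]
    exact h2
  obtain ⟨x, hx⟩ := h3
  refine ⟨y0 - ((p : ℕ) : Lim T ℤ_[p]) • x, ?_, ?_⟩
  · rw [map_sub, map_smul, hx, hz, sub_self]
  · rw [redv_sub_RegRed, redv_p, sub_zero]

theorem red_exact {n0 n1 n2 n3 : ℕ}
    (f0 : (Fin n1 → Lim T ℤ_[p]) →ₗ[Lim T ℤ_[p]] (Fin n0 → Lim T ℤ_[p]))
    (f1 : (Fin n2 → Lim T ℤ_[p]) →ₗ[Lim T ℤ_[p]] (Fin n1 → Lim T ℤ_[p]))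
    (f2 : (Fin n3 → Lim T ℤ_[p]) →ₗ[Lim T ℤ_[p]] (Fin n2 → Lim T ℤ_[p]))
    (h01 : LinearMap.ker f0 = LinearMap.range f1) (h12 : LinearMap.ker f1 = LinearMap.range f2)
    (g1 : (Fin n2 → Lim T (ZMod p)) →ₗ[Lim T (ZMod p)] (Fin n1 → Lim T (ZMod p)))
    (hg1 : ∀ y, g1 (redv T y) = redv T (f1 y))
    (g2 : (Fin n3 → Lim T (ZMod p)) →ₗ[Lim T (ZMod p)] (Fin n2 → Lim T (ZMod p)))
    (hg2 : ∀ y, g2 (redv T y) = redv T (f2 y)) :
    LinearMap.ker g1 = LinearMap.range g2 := by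
  ext v
  constructor
  · intro hv
    obtain ⟨y, hy, rfl⟩ := ker_lift T f0 f1 h01 g1 hg1 v hv
    have h1 : y ∈ LinearMap.range f2 := by
      rw [← h12]
      exact hy
    obtain ⟨x, rfl⟩ := h1
    exact ⟨redv T x, hg2 x⟩
  · rintro ⟨w, rfl⟩
    obtain ⟨x, rfl⟩ := redv_surj T w
    have h1 : f2 x ∈ LinearMap.ker f1 := by
      rw [h12]
      exact ⟨x, rfl⟩
    rw [LinearMap.mem_ker] at h1
    rw [LinearMap.mem_ker, hg2, hg1, h1]
    exact redv_zero_RegRed T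

end Pool.Agent.MCG
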