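import Pool.Agent.Lvl.IntRank

set_option autoImplicit false
set_option linter.unusedSectionVars false

noncomputable section

/-!
# Additivity of the normalised ranks (MCG, part R)

Asymptotically faithful representations `ρ k : R → End (V k)` of an Ore domain `R` as in
`Lvl/IntRank`. `IsRk V ρ A r`: the normalised ranks of the matrix `A` converge to `r`.

`exists_rk_ker`: elimination gives `r + s = card κ` and a matrix `T` with `s` rows, `T A = 0`,
of normalised rank `s`. `rk_add`: if the left kernel of `A` is the row space of `B` then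
`rk A + rk B = card κ`. `rk_inj`: `rk A = card κ` if the left kernel of `A` is zero.
-/

namespace Pool.Agent.MCG

open Filter Topology Module Pool.Agent.Lvl

variable {R K : Type} [Ring R] [Field K] {κ ι lam : Type} [Fintype κ] [Fintype ι] [Fintype lam]

/-- the normalised ranks of the matrix `A` converge to `r` -/
def IsRk (V : ℕ → Type) [∀ k, AddCommGroup (V k)] [∀ k, Module K (V k)]
    (ρ : ∀ k, R →+* Module.End K (V k)) (A : Matrix κ ι R) (r : ℕ) : Prop :=
  Tendsto (fun k => (finrank K (LinearMap.range (op (ρ k) A)) : ℝ) / finrank K (V k)) atTop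
    (𝓝 (r : ℝ))

section one

variable {V : Type} [AddCommGroup V] [Module K V]

lemma op_mul (ρ : R →+* Module.End K V) (B : Matrix lam κ R) (A : Matrix κ ι R) :
    op ρ (B * A) = op ρ B ∘ₗ op ρ A := by
  refine LinearMap.ext fun v => funext fun j => ?_
  rw [LinearMap.comp_apply, op_apply, op_apply]
  simp only [Matrix.mul_apply, map_sum, op_apply, LinearMap.sum_apply, map_mul,
    Module.End.mul_apply]
  rw [Finset.sum_comm]

lemma op_zero (ρ : R →+* Module.End K V) : op ρ (0 : Matrix κ ι R) = 0 := by
  refine LinearMap.ext fun v => funext fun j => ?_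
  simp [op_apply]

lemma op_one [DecidableEq κ] (ρ : R →+* Module.End K V) :
    op ρ (1 : Matrix κ κ R) = LinearMap.id := by
  refine LinearMap.ext fun v => funext fun j => ?_
  rw [op_apply, Finset.sum_eq_single j]
  · rw [Matrix.one_apply_eq, map_one]
    rfl
  · intro i _ hi
    rw [Matrix.one_apply_ne hi.symm, map_zero]
    rfl
  · intro h
    exact absurd (Finset.mem_univ _) h

variable [FiniteDimensional K V]

lemma range_add_ker (ρ : R →+* Module.End K V) (A : Matrix κ ι R) :
    finrank K (LinearMap.range (op ρ A)) + finrank K (LinearMap.ker (op ρ A)) =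
      Fintype.card ι * finrank K V := by
  rw [LinearMap.finrank_range_add_finrank_ker, Module.finrank_pi_fintype]
  simp

lemma range_le (ρ : R →+* Module.End K V) (A : Matrix κ ι R) :
    finrank K (LinearMap.range (op ρ A)) ≤ Fintype.card κ * finrank K V := by
  refine (Submodule.finrank_le _).trans ?_
  rw [Module.finrank_pi_fintype]
  simp

private lemma fin_comap {W V' : Type} [AddCommGroup W] [Module K W] [FiniteDimensional K W]
    [AddCommGroup V'] [Module K V'] [FiniteDimensional K V'] (f : W →ₗ[K] V')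
    (S : Submodule K V') :
    finrank K (S.comap f) ≤ finrank K (LinearMap.ker f) + finrank K S := by
  have h := LinearMap.finrank_range_add_finrank_ker (f.domRestrict (S.comap f))
  have h1 : finrank K (LinearMap.range (f.domRestrict (S.comap f))) ≤ finrank K S := by
    refine Submodule.finrank_mono ?_
    rintro _ ⟨⟨v, hv⟩, rfl⟩
    exact hv
  have h2 : finrank K (LinearMap.ker (f.domRestrict (S.comap f))) ≤
      finrank K (LinearMap.ker f) := by
    refine LinearMap.finrank_le_finrank_of_injective
      (f := LinearMap.codRestrict (LinearMap.ker f)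
        ((S.comap f).subtype ∘ₗ (LinearMap.ker (f.domRestrict (S.comap f))).subtype)
        (fun v => v.2)) ?_
    intro v w hvw
    have h3 : ((v : S.comap f) : W) = ((w : S.comap f) : W) :=
      congrArg (fun z : LinearMap.ker f => (z : W)) hvw
    exact Subtype.ext (Subtype.ext h3)
  omega

lemma range_comp_le {W V' V'' : Type} [AddCommGroup W] [Module K W]
    [AddCommGroup V'] [Module K V'] [FiniteDimensional K V'] [AddCommGroup V''] [Module K V'']
    (f : V' →ₗ[K] V'') (g : W →ₗ[K] V') :
    finrank K (LinearMap.range (f ∘ₗ g)) ≤ finrank K (LinearMap.range g) := by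
  rw [LinearMap.range_comp]
  exact Submodule.finrank_map_le _ _

private lemma fin_pi' {m : ℕ} (q : Fin m → Submodule K V) :
    finrank K (Submodule.pi Set.univ q) ≤ ∑ j, finrank K (q j) := by
  have h : finrank K (∀ j, q j) = ∑ j, finrank K (q j) := Module.finrank_pi_fintype K
  rw [← h]
  let f : Submodule.pi Set.univ q →ₗ[K] (∀ j, q j) := LinearMap.pi fun j =>
    LinearMap.codRestrict (q j) (LinearMap.proj j ∘ₗ (Submodule.pi Set.univ q).subtype)
      (fun v => (Submodule.mem_pi.1 v.2) j (Set.mem_univ j))
  refine LinearMap.finrank_le_finrank_of_injective (f := f) ?_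
  intro v w hvw
  refine Subtype.ext (funext fun j => ?_)
  exact congrArg Subtype.val (congrFun hvw j)

/-- the rows of the elimination -/
def elimM {m : ℕ} (j0 : Fin (m + 1)) (x y : Fin m → R) : Matrix (Fin m) (Fin (m + 1)) R :=
  fun j => Fin.insertNth (α := fun _ => R) j0 (-x j) (Pi.single j (y j))

lemma elimM_mul {m : ℕ} (A : Matrix (Fin (m + 1)) ι R) (j0 : Fin (m + 1)) (x y : Fin m → R)
    (j : Fin m) (i : ι) :
    (elimM j0 x y * A) j i = y j * A (j0.succAbove j) i - x j * A j0 i := by
  rw [Matrix.mul_apply, Fin.sum_univ_succAbove _ j0]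
  simp only [elimM, Fin.insertNth_apply_same, Fin.insertNth_apply_succAbove]
  rw [Finset.sum_eq_single j]
  · rw [Pi.single_eq_same]
    noncomm_ring
  · intro l _ hl
    rw [Pi.single_eq_of_ne hl, zero_mul]
  · intro h
    exact absurd (Finset.mem_univ _) h

lemma op_elimM {m : ℕ} (ρ : R →+* Module.End K V) (j0 : Fin (m + 1)) (x y : Fin m → R)
    (v : Fin (m + 1) → V) (j : Fin m) :
    op ρ (elimM j0 x y) v j = ρ (y j) (v (j0.succAbove j)) - ρ (x j) (v j0) := by
  rw [op_apply, Fin.sum_univ_succAbove _ j0]
  simp only [elimM, Fin.insertNth_apply_same, Fin.insertNth_apply_succAbove]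
  rw [Finset.sum_eq_single j]
  · rw [Pi.single_eq_same, map_neg, LinearMap.neg_apply]
    abel
  · intro l _ hl
    rw [Pi.single_eq_of_ne hl, map_zero]
    rfl
  · intro h
    exact absurd (Finset.mem_univ _) h

lemma ker_elimM {m : ℕ} (ρ : R →+* Module.End K V) (j0 : Fin (m + 1)) (x y : Fin m → R) :
    finrank K (LinearMap.ker (op ρ (elimM j0 x y))) ≤
      finrank K V + ∑ j, finrank K (LinearMap.ker (ρ (y j))) := by
  set M := LinearMap.ker (op ρ (elimM j0 x y)) with hM
  let r : M →ₗ[K] V := LinearMap.proj j0 ∘ₗ M.subtype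
  have h1 := LinearMap.finrank_range_add_finrank_ker r
  have h2 : finrank K (LinearMap.range r) ≤ finrank K V := Submodule.finrank_le _
  have h3 : finrank K (LinearMap.ker r) ≤
      finrank K (Submodule.pi Set.univ (fun j => LinearMap.ker (ρ (y j)))) := by
    let f : LinearMap.ker r →ₗ[K] Submodule.pi Set.univ (fun j => LinearMap.ker (ρ (y j))) :=
      LinearMap.codRestrict _
        (LinearMap.pi fun j => LinearMap.proj (j0.succAbove j) ∘ₗ M.subtype ∘ₗ
          (LinearMap.ker r).subtype) (by
        intro v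
        rw [Submodule.mem_pi]
        intro j _
        have e1 : op ρ (elimM j0 x y) ((v : M) : Fin (m + 1) → V) j = 0 := by
          have e2 : op ρ (elimM j0 x y) ((v : M) : Fin (m + 1) → V) = 0 := (v : M).2
          rw [e2]
          rfl
        have e3 : ((v : M) : Fin (m + 1) → V) j0 = 0 := v.2
        rw [op_elimM, e3, map_zero, sub_zero] at e1
        exact e1)
    refine LinearMap.finrank_le_finrank_of_injective (f := f) ?_
    intro v w hvw
    refine Subtype.ext (Subtype.ext (funext fun l => ?_))
    rcases Fin.eq_self_or_eq_succAbove j0 l with h | ⟨j, h⟩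
    · have e3 : ((v : M) : Fin (m + 1) → V) j0 = 0 := v.2
      have e4 : ((w : M) : Fin (m + 1) → V) j0 = 0 := w.2
      rw [h, e3, e4]
    · rw [h]
      exact congrFun (congrArg Subtype.val hvw) j
  have h4 := fin_pi' (fun j => LinearMap.ker (ρ (y j)))
  omega

lemma range_mul_ge {m : ℕ} {s : ℕ} (ρ : R →+* Module.End K V) (T : Matrix (Fin s) (Fin m) R)
    (j0 : Fin (m + 1)) (x y : Fin m → R) :
    finrank K (LinearMap.range (op ρ T)) ≤
      finrank K (LinearMap.range (op ρ (T * elimM j0 x y))) +
        ∑ j, finrank K (LinearMap.ker (ρ (y j))) := by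
  have h1 := range_add_ker ρ T
  have h2 := range_add_ker ρ (T * elimM j0 x y)
  have h3 : LinearMap.ker (op ρ (T * elimM j0 x y)) =
      (LinearMap.ker (op ρ T)).comap (op ρ (elimM j0 x y)) := by
    rw [op_mul, LinearMap.ker_comp]
  have h4 := fin_comap (op ρ (elimM j0 x y)) (LinearMap.ker (op ρ T))
  have h5 := ker_elimM ρ j0 x y
  rw [h3] at h2
  simp only [Fintype.card_fin] at h1 h2
  have h6 : (m + 1) * finrank K V = m * finrank K V + finrank K V := by ring
  omega

end one

section many

variable (V : ℕ → Type) [∀ k, AddCommGroup (V k)] [∀ k, Module K (V k)]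
  [∀ k, FiniteDimensional K (V k)] [∀ k, Nontrivial (V k)] (ρ : ∀ k, R →+* Module.End K (V k))

theorem rk_unique {A : Matrix κ ι R} {r s : ℕ} (h1 : IsRk V ρ A r) (h2 : IsRk V ρ A s) :
    r = s := by
  have h := tendsto_nhds_unique h1 h2
  exact_mod_cast h

private lemma vpos (k : ℕ) : (0 : ℝ) < finrank K (V k) := by
  exact_mod_cast Module.finrank_pos (R := K) (M := V k)

/-- the normalised dimensions of the kernels -/
theorem rk_ker {A : Matrix κ ι R} {r : ℕ} (h : IsRk V ρ A r) :
    Tendsto (fun k => (finrank K (LinearMap.ker (op (ρ k) A)) : ℝ) / finrank K (V k)) atTop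
      (𝓝 ((Fintype.card ι : ℝ) - r)) := by
  refine ((tendsto_const_nhds (x := (Fintype.card ι : ℝ))).sub h).congr fun k => ?_
  have h1 := range_add_ker (ρ k) A
  have h2 : (finrank K (LinearMap.range (op (ρ k) A)) : ℝ) +
      finrank K (LinearMap.ker (op (ρ k) A)) = Fintype.card ι * finrank K (V k) := by
    exact_mod_cast h1
  have hp := vpos (K := K) V k
  field_simp
  linarith

theorem rk_of_ker {A : Matrix κ ι R} {r : ℕ}
    (h : Tendsto (fun k => (finrank K (LinearMap.ker (op (ρ k) A)) : ℝ) / finrank K (V k)) atTop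
      (𝓝 ((Fintype.card ι : ℝ) - r))) : IsRk V ρ A r := by
  have h0 := (tendsto_const_nhds (x := (Fintype.card ι : ℝ))).sub h
  rw [sub_sub_cancel] at h0
  refine h0.congr fun k => ?_
  have h1 := range_add_ker (ρ k) A
  have h2 : (finrank K (LinearMap.range (op (ρ k) A)) : ℝ) +
      finrank K (LinearMap.ker (op (ρ k) A)) = Fintype.card ι * finrank K (V k) := by
    exact_mod_cast h1
  have hp := vpos (K := K) V k
  field_simp
  linarith

private lemma rk_zero {A : Matrix κ ι R} (hA : A = 0) : IsRk V ρ A 0 := by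
  subst hA
  refine tendsto_const_nhds.congr fun k => ?_
  rw [op_zero, LinearMap.range_zero, finrank_bot]
  simp

private lemma rk_one [DecidableEq κ] : IsRk V ρ (1 : Matrix κ κ R) (Fintype.card κ) := by
  refine tendsto_const_nhds.congr fun k => ?_
  rw [op_one, LinearMap.range_id, finrank_top, Module.finrank_pi_fintype]
  have hp := vpos (K := K) V k
  simp only [Finset.sum_const, Finset.card_univ, smul_eq_mul, Nat.cast_mul]
  field_simp

private lemma exists_fin
    (hOre : ∀ a b : R, a ≠ 0 → b ≠ 0 → ∃ x y : R, x ≠ 0 ∧ y ≠ 0 ∧ x * a = y * b)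
    (h : ∀ a : R, a ≠ 0 → Tendsto (fun k => (finrank K (LinearMap.ker (ρ k a)) : ℝ) /
      finrank K (V k)) atTop (𝓝 0)) (m : ℕ) : ∀ A : Matrix (Fin m) ι R,
    ∃ (r s : ℕ) (T : Matrix (Fin s) (Fin m) R), r + s = m ∧ T * A = 0 ∧ IsRk V ρ A r ∧
      IsRk V ρ T s := by
  induction m with
  | zero =>
    intro A
    refine ⟨0, 0, 0, rfl, by rw [Matrix.zero_mul], ?_, rk_zero V ρ rfl⟩
    exact rk_zero V ρ (by ext j; exact j.elim0)
  | succ m ih =>
    intro A
    by_cases hA : A = 0
    · refine ⟨0, m + 1, 1, by omega, by rw [hA, Matrix.mul_zero], rk_zero V ρ hA, ?_⟩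
      have := rk_one V ρ (κ := Fin (m + 1))
      rwa [Fintype.card_fin] at this
    have hA' : ∃ j i, A j i ≠ 0 := by
      by_contra hc
      push Not at hc
      exact hA (by ext j i; exact hc j i)
    obtain ⟨j0, i0, ha⟩ := hA'
    have hxy : ∀ j : Fin m, ∃ x y : R, y ≠ 0 ∧ x * A j0 i0 = y * A (j0.succAbove j) i0 := by
      intro j
      by_cases hc : A (j0.succAbove j) i0 = 0
      · refine ⟨0, 1, ?_, by rw [hc]; simp⟩
        intro h1
        apply ha
        rw [← one_mul (A j0 i0), h1, zero_mul]
      · obtain ⟨x, y, -, hy, he⟩ := hOre _ _ ha hc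
        exact ⟨x, y, hy, he⟩
    choose x y hy he using hxy
    set B : Matrix (Fin m) ι R := elimM j0 x y * A with hBdef
    have hBA : ∀ j i, B j i = y j * A (j0.succAbove j) i - x j * A j0 i :=
      fun j i => elimM_mul A j0 x y j i
    obtain ⟨r, s, T, hrs, hTB, hB, hT⟩ := ih B
    have hB0 : ∀ j, B j i0 = 0 := by
      intro j
      rw [hBA, he, sub_self]
    have hstep := fun k => elim_step (ρ k) A j0 i0 x y B hBA hB0
    have hsum : Tendsto (fun k => ∑ j, ((finrank K (LinearMap.ker (ρ k (y j))) : ℝ) /
        finrank K (V k))) atTop (𝓝 0) := by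
      have := tendsto_finsetSum (Finset.univ : Finset (Fin m)) (fun j _ => h (y j) (hy j))
      simpa using this
    refine ⟨r + 1, s, T * elimM j0 x y, by omega, ?_, ?_, ?_⟩
    · rw [Matrix.mul_assoc]
      exact hTB
    · -- the rank of `A`
      have hlow : Tendsto (fun k => (finrank K (LinearMap.range (op (ρ k) B)) : ℝ) /
          finrank K (V k) + 1 - (finrank K (LinearMap.ker (ρ k (A j0 i0))) : ℝ) /
          finrank K (V k)) atTop (𝓝 ((r + 1 : ℕ) : ℝ)) := by
        have := (hB.add_const 1).sub (h _ ha)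
        simpa using this
      have hup : Tendsto (fun k => (finrank K (LinearMap.range (op (ρ k) B)) : ℝ) /
          finrank K (V k) + 1 + ∑ j, ((finrank K (LinearMap.ker (ρ k (y j))) : ℝ) /
          finrank K (V k))) atTop (𝓝 ((r + 1 : ℕ) : ℝ)) := by
        have := (hB.add_const 1).add hsum
        simpa using this
      refine tendsto_of_tendsto_of_tendsto_of_le_of_le hlow hup ?_ ?_
      · intro k
        have h1 : (finrank K (LinearMap.range (op (ρ k) A)) : ℝ) +
            finrank K (LinearMap.ker (op (ρ k) A)) = Fintype.card ι * finrank K (V k) := by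
          exact_mod_cast range_add_ker (ρ k) A
        have h2 : (finrank K (LinearMap.range (op (ρ k) B)) : ℝ) +
            finrank K (LinearMap.ker (op (ρ k) B)) = Fintype.card ι * finrank K (V k) := by
          exact_mod_cast range_add_ker (ρ k) B
        have h3 : (finrank K (LinearMap.ker (op (ρ k) A)) : ℝ) + finrank K (V k) ≤
            finrank K (LinearMap.ker (op (ρ k) B)) +
            finrank K (LinearMap.ker (ρ k (A j0 i0))) := by
          exact_mod_cast (hstep k).1
        have hp := vpos (K := K) V k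
        have e1 : (finrank K (LinearMap.range (op (ρ k) B)) : ℝ) / finrank K (V k) + 1 -
            (finrank K (LinearMap.ker (ρ k (A j0 i0))) : ℝ) / finrank K (V k) =
            ((finrank K (LinearMap.range (op (ρ k) B)) : ℝ) + finrank K (V k) -
            (finrank K (LinearMap.ker (ρ k (A j0 i0))) : ℝ)) / finrank K (V k) := by
          field_simp
        simp only []
        rw [e1]
        apply div_le_div_of_nonneg_right _ hp.le
        linarith
      · intro k
        have h1 : (finrank K (LinearMap.range (op (ρ k) A)) : ℝ) +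
            finrank K (LinearMap.ker (op (ρ k) A)) = Fintype.card ι * finrank K (V k) := by
          exact_mod_cast range_add_ker (ρ k) A
        have h2 : (finrank K (LinearMap.range (op (ρ k) B)) : ℝ) +
            finrank K (LinearMap.ker (op (ρ k) B)) = Fintype.card ι * finrank K (V k) := by
          exact_mod_cast range_add_ker (ρ k) B
        have h3 : (finrank K (LinearMap.ker (op (ρ k) B)) : ℝ) ≤
            finrank K (LinearMap.ker (op (ρ k) A)) + finrank K (V k) +
            ∑ j, (finrank K (LinearMap.ker (ρ k (y j))) : ℝ) := by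
          exact_mod_cast (hstep k).2
        have hp := vpos (K := K) V k
        have e1 : (finrank K (LinearMap.range (op (ρ k) B)) : ℝ) / finrank K (V k) + 1 +
            (∑ j, (finrank K (LinearMap.ker (ρ k (y j))) : ℝ)) / finrank K (V k) =
            ((finrank K (LinearMap.range (op (ρ k) B)) : ℝ) + finrank K (V k) +
            (∑ j, (finrank K (LinearMap.ker (ρ k (y j))) : ℝ))) / finrank K (V k) := by
          field_simp
        simp only []
        rw [← Finset.sum_div, e1]
        apply div_le_div_of_nonneg_right _ hp.le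
        linarith
    · -- the rank of `T * M`
      have hlow : Tendsto (fun k => (finrank K (LinearMap.range (op (ρ k) T)) : ℝ) /
          finrank K (V k) - ∑ j, ((finrank K (LinearMap.ker (ρ k (y j))) : ℝ) /
          finrank K (V k))) atTop (𝓝 (s : ℝ)) := by
        have := hT.sub hsum
        simpa using this
      have hup : Tendsto (fun _ : ℕ => (s : ℝ)) atTop (𝓝 (s : ℝ)) := tendsto_const_nhds
      refine tendsto_of_tendsto_of_tendsto_of_le_of_le hlow hup ?_ ?_
      · intro k
        have h3 : (finrank K (LinearMap.range (op (ρ k) T)) : ℝ) ≤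
            finrank K (LinearMap.range (op (ρ k) (T * elimM j0 x y))) +
            ∑ j, (finrank K (LinearMap.ker (ρ k (y j))) : ℝ) := by
          exact_mod_cast range_mul_ge (ρ k) T j0 x y
        have hp := vpos (K := K) V k
        have e1 : (finrank K (LinearMap.range (op (ρ k) T)) : ℝ) / finrank K (V k) -
            (∑ j, (finrank K (LinearMap.ker (ρ k (y j))) : ℝ)) / finrank K (V k) =
            ((finrank K (LinearMap.range (op (ρ k) T)) : ℝ) -
            (∑ j, (finrank K (LinearMap.ker (ρ k (y j))) : ℝ))) / finrank K (V k) := by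
          field_simp
        simp only []
        rw [← Finset.sum_div, e1]
        apply div_le_div_of_nonneg_right _ hp.le
        linarith
      · intro k
        have h3 : (finrank K (LinearMap.range (op (ρ k) (T * elimM j0 x y))) : ℝ) ≤
            s * finrank K (V k) := by
          have h4 := range_le (ρ k) (T * elimM j0 x y)
          rw [Fintype.card_fin] at h4
          exact_mod_cast h4
        have hp := vpos (K := K) V k
        exact (div_le_iff₀ hp).2 h3

private lemma op_reindex_range {κ' : Type} [Fintype κ'] (e : κ' ≃ κ) (A : Matrix κ ι R) (k : ℕ) :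
    finrank K (LinearMap.range (op (ρ k) (fun (j : κ') i => A (e j) i))) =
      finrank K (LinearMap.range (op (ρ k) A)) := by
  have h1 := range_add_ker (ρ k) A
  have h2 := range_add_ker (ρ k) (fun (j : κ') i => A (e j) i)
  have h3 : LinearMap.ker (op (ρ k) (fun (j : κ') i => A (e j) i)) =
      LinearMap.ker (op (ρ k) A) := by
    ext v
    rw [LinearMap.mem_ker, LinearMap.mem_ker]
    constructor
    · intro h
      funext j
      have h1 := congrFun h (e.symm j)
      rw [op_apply] at h1 ⊢
      simpa using h1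
    · intro h
      funext j
      have h1 := congrFun h (e j)
      rw [op_apply] at h1 ⊢
      simpa using h1
  rw [h3] at h2
  omega

private lemma op_reindex_range' {ι' : Type} [Fintype ι'] (e : ι ≃ ι') (A : Matrix κ ι' R)
    (k : ℕ) : finrank K (LinearMap.range (op (ρ k) (fun j (i : ι) => A j (e i)))) =
      finrank K (LinearMap.range (op (ρ k) A)) := by
  have h3 : LinearMap.range (op (ρ k) (fun j (i : ι) => A j (e i))) =
      LinearMap.range (op (ρ k) A) := by
    ext w
    constructor
    · rintro ⟨v, rfl⟩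
      refine ⟨fun i => v (e.symm i), funext fun j => ?_⟩
      rw [op_apply, op_apply]
      exact Fintype.sum_equiv e.symm _ _ (fun i => by simp)
    · rintro ⟨v, rfl⟩
      refine ⟨fun i => v (e i), funext fun j => ?_⟩
      rw [op_apply, op_apply]
      exact Fintype.sum_equiv e _ _ (fun i => rfl)
  rw [h3]

/-- **elimination**: the rank, and a complement in the left kernel -/
theorem exists_rk_ker
    (hOre : ∀ a b : R, a ≠ 0 → b ≠ 0 → ∃ x y : R, x ≠ 0 ∧ y ≠ 0 ∧ x * a = y * b)
    (h : ∀ a : R, a ≠ 0 → Tendsto (fun k => (finrank K (LinearMap.ker (ρ k a)) : ℝ) /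
      finrank K (V k)) atTop (𝓝 0)) (A : Matrix κ ι R) :
    ∃ (r s : ℕ) (T : Matrix (Fin s) κ R), r + s = Fintype.card κ ∧ T * A = 0 ∧ IsRk V ρ A r ∧
      IsRk V ρ T s := by
  let e := Fintype.equivFin κ
  obtain ⟨r, s, T, hrs, hTA, hA, hT⟩ := exists_fin V ρ hOre h (Fintype.card κ)
    (fun j i => A (e.symm j) i)
  refine ⟨r, s, fun j l => T j (e l), hrs, ?_, ?_, ?_⟩
  · ext j i
    have h1 := congrFun (congrFun hTA j) i
    rw [Matrix.mul_apply] at h1 ⊢
    rw [Matrix.zero_apply] at h1 ⊢
    rw [← h1]
    exact Fintype.sum_equiv e _ _ (fun l => by simp)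
  · refine hA.congr fun k => ?_
    rw [op_reindex_range V ρ e.symm A k]
  · refine hT.congr fun k => ?_
    rw [op_reindex_range' V ρ e T k]

theorem exists_rk
    (hOre : ∀ a b : R, a ≠ 0 → b ≠ 0 → ∃ x y : R, x ≠ 0 ∧ y ≠ 0 ∧ x * a = y * b)
    (h : ∀ a : R, a ≠ 0 → Tendsto (fun k => (finrank K (LinearMap.ker (ρ k a)) : ℝ) /
      finrank K (V k)) atTop (𝓝 0)) (A : Matrix κ ι R) : ∃ r : ℕ, IsRk V ρ A r := by
  obtain ⟨r, s, T, -, -, hA, -⟩ := exists_rk_ker V ρ hOre h A
  exact ⟨r, hA⟩

/-- **additivity**: exactness of the row spaces -/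
theorem rk_add
    (hOre : ∀ a b : R, a ≠ 0 → b ≠ 0 → ∃ x y : R, x ≠ 0 ∧ y ≠ 0 ∧ x * a = y * b)
    (h : ∀ a : R, a ≠ 0 → Tendsto (fun k => (finrank K (LinearMap.ker (ρ k a)) : ℝ) /
      finrank K (V k)) atTop (𝓝 0)) {A : Matrix κ ι R} {B : Matrix lam κ R} {r s : ℕ}
    (hA : IsRk V ρ A r) (hB : IsRk V ρ B s) (hBA : B * A = 0)
    (hex : ∀ x : κ → R, Matrix.vecMul x A = 0 → ∃ y : lam → R, Matrix.vecMul y B = x) :
    r + s = Fintype.card κ := by
  obtain ⟨r', s', T, hrs, hTA, hA', hT⟩ := exists_rk_ker V ρ hOre h A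
  have e1 : r = r' := rk_unique V ρ hA hA'
  have h1 : ∀ j, ∃ y : lam → R, Matrix.vecMul y B = T j := by
    intro j
    refine hex (T j) ?_
    funext i
    have h2 : (T * A) j i = 0 := by
      rw [hTA]
      rfl
    exact h2
  choose y hy using h1
  have h2 : T = Matrix.of y * B := by
    ext j l
    rw [← congrFun (hy j) l]
    rfl
  have h3 : s' ≤ s := by
    have h4 : (s' : ℝ) ≤ (s : ℝ) := by
      refine le_of_tendsto_of_tendsto' hT hB fun k => ?_
      have hp := vpos (K := K) V k
      refine div_le_div_of_nonneg_right ?_ hp.le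
      have h5 := range_comp_le (op (ρ k) (Matrix.of y)) (op (ρ k) B)
      rw [← op_mul, ← h2] at h5
      exact_mod_cast h5
    exact_mod_cast h4
  have h4 : (r : ℝ) + s ≤ Fintype.card κ := by
    refine le_of_tendsto_of_tendsto' (hA.add hB) tendsto_const_nhds fun k => ?_
    have hp := vpos (K := K) V k
    rw [← add_div, div_le_iff₀ hp]
    have h5 := range_add_ker (ρ k) B
    have h6 : finrank K (LinearMap.range (op (ρ k) A)) ≤
        finrank K (LinearMap.ker (op (ρ k) B)) := by
      refine Submodule.finrank_mono ?_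
      rintro _ ⟨v, rfl⟩
      rw [LinearMap.mem_ker, ← LinearMap.comp_apply, ← op_mul, hBA, op_zero]
      rfl
    have h7 : finrank K (LinearMap.range (op (ρ k) A)) +
        finrank K (LinearMap.range (op (ρ k) B)) ≤ Fintype.card κ * finrank K (V k) := by
      omega
    exact_mod_cast h7
  have h5 : r + s ≤ Fintype.card κ := by exact_mod_cast h4
  omega

/-- **injectivity**: zero left kernel -/
theorem rk_inj
    (hOre : ∀ a b : R, a ≠ 0 → b ≠ 0 → ∃ x y : R, x ≠ 0 ∧ y ≠ 0 ∧ x * a = y * b)
    (h : ∀ a : R, a ≠ 0 → Tendsto (fun k => (finrank K (LinearMap.ker (ρ k a)) : ℝ) /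
      finrank K (V k)) atTop (𝓝 0)) {A : Matrix κ ι R} {r : ℕ} (hA : IsRk V ρ A r)
    (hinj : ∀ x : κ → R, Matrix.vecMul x A = 0 → x = 0) : r = Fintype.card κ := by
  have h1 : IsRk V ρ (0 : Matrix (Fin 0) κ R) 0 := rk_zero V ρ rfl
  have h2 := rk_add V ρ hOre h hA h1 (Matrix.zero_mul A) (fun x hx =>
    ⟨0, by rw [hinj x hx, Matrix.zero_vecMul]⟩)
  omega

end many

end Pool.Agent.MCG
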