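import Pool.Agent.MCG.SlotDef

set_option autoImplicit false
set_option linter.unusedSectionVars false

noncomputable section

/-!
PACKAGE MCG-SLOT. Elementary properties of the slot maps. Most of them are equalities of ring
homomorphisms or linear maps on a monoid algebra which come from group homomorphisms
(`mapDomainRingHom_comp`, or check on `single`).

* `kp_kp`, `pk_pk`: `kp S (kp T z) = kp (S ∩ T) z`. `pk_sg`: `kp S (sh i z) = sh i (kp (S - i) z)`.
* `Nm_sg`, `sg_Nm`: reindexing of the sum.
* `JJ`: two-sided ideal, invariant under `sg i`; `pk_mem`: `pk T (pk S z) = pk (T ∩ S) z`, and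
  `(T ∩ S).card ≤ T.card`.
* `single_sub_mem_fil`: if `single (z j) 1 - single (z' j) 1 ∈ Fil N` in every slot then
  `single z 1 - single z' 1 ∈ Fil N`: the set of all `c : ZMod p → F` with
  `single c 1 - 1 ∈ Fil N` is a subgroup (`sub_one_mem_closure` or by hand), it contains the
  `Pi.mulSingle j (c j)` (`map_fil` for `MonoidHom.mulSingle`), so it contains all `c` with
  `single (c j) 1 - 1 ∈ Fil N` (`Subgroup.pi_mem_of_mulSingle_mem` or so); apply it to
  `c = z'⁻¹ * z` and multiply by `z'` (`fil_mul_left`).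
* `sg_ia`: both `sh i (io g f)` and `io g (g ^ i.val f)`: in the slot `j` the exponents
  `- (j - i).val` and `i.val - j.val` are equal or differ by `p`, and
  `single ((g ^ p) f) 1 - single f 1 ∈ Fil N` for all `f`. Then linearity in `a` (`ia` applied to
  `mapDomainRingHom (g ^ i.val)`).
-/

namespace Pool.Agent.MCG

open MonoidAlgebra Pool.Agent.Lvl

variable {p : ℕ} [hp : Fact p.Prime] {F : Type} [Group F]

theorem pk_single (T : Finset (ZMod p)) (z : ZMod p → F) (c : ZMod p) :
    pk T (single z c) = single (kp T z) c := by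
  unfold pk
  rw [mapDomainRingHom_apply, mapDomain_single]

theorem sg_single (i : ZMod p) (z : ZMod p → F) (c : ZMod p) :
    sg i (single z c) = single (sh i z) c := by
  unfold sg
  rw [mapDomainRingHom_apply, mapDomain_single]

theorem ia_single (g : MulAut F) (f : F) (c : ZMod p) :
    ia g (single f c) = single (io g f) c := by
  unfold ia
  rw [mapDomainRingHom_apply, mapDomain_single]

theorem pk_pk (S T : Finset (ZMod p)) (z : BB p F) : pk S (pk T z) = pk (S ∩ T) z := by
  induction z using MonoidAlgebra.induction_linear with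
  | zero => rw [map_zero, map_zero, map_zero]
  | add a b ha hb => rw [map_add, map_add, map_add, ha, hb]
  | single h r =>
    rw [pk_single, pk_single, pk_single]
    congr 1
    funext j
    show (if j ∈ S then (if j ∈ T then h j else 1) else 1) = if j ∈ S ∩ T then h j else 1
    by_cases h1 : j ∈ S <;> by_cases h2 : j ∈ T <;> simp [h1, h2]

theorem pk_univ (z : BB p F) : pk Finset.univ z = z := by
  induction z using MonoidAlgebra.induction_linear with
  | zero => rw [map_zero]
  | add a b ha hb => rw [map_add, ha, hb]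
  | single h r =>
    rw [pk_single]
    congr 1
    funext j
    show (if j ∈ Finset.univ then h j else 1) = h j
    rw [if_pos (Finset.mem_univ j)]

theorem pk_sg (S : Finset (ZMod p)) (i : ZMod p) (z : BB p F) :
    pk S (sg i z) = sg i (pk (S.image fun j => j - i) z) := by
  induction z using MonoidAlgebra.induction_linear with
  | zero => rw [map_zero, map_zero, map_zero, map_zero]
  | add a b ha hb => rw [map_add, map_add, map_add, map_add, ha, hb]
  | single h r =>
    rw [sg_single, pk_single, pk_single, sg_single]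
    congr 1
    funext j
    show (if j ∈ S then h (j - i) else 1) =
      if j - i ∈ S.image (fun j => j - i) then h (j - i) else 1
    have h1 : j - i ∈ S.image (fun j => j - i) ↔ j ∈ S := by
      rw [Finset.mem_image]
      constructor
      · rintro ⟨a, ha, hai⟩
        rw [sub_left_inj] at hai
        rwa [← hai]
      · intro hj
        exact ⟨j, hj, rfl⟩
    by_cases h2 : j ∈ S
    · rw [if_pos h2, if_pos (h1.2 h2)]
    · rw [if_neg h2, if_neg (fun h3 => h2 (h1.1 h3))]

theorem sg_sg (i j : ZMod p) (z : BB p F) : sg i (sg j z) = sg (i + j) z := by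
  induction z using MonoidAlgebra.induction_linear with
  | zero => rw [map_zero, map_zero, map_zero]
  | add a b ha hb => rw [map_add, map_add, map_add, ha, hb]
  | single h r =>
    rw [sg_single, sg_single, sg_single]
    congr 1
    funext l
    show h (l - i - j) = h (l - (i + j))
    rw [sub_sub]

theorem sg_zero (z : BB p F) : sg 0 z = z := by
  induction z using MonoidAlgebra.induction_linear with
  | zero => rw [map_zero]
  | add a b ha hb => rw [map_add, ha, hb]
  | single h r =>
    rw [sg_single]
    congr 1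
    funext l
    show h (l - 0) = h l
    rw [sub_zero]

theorem sg_smul (i : ZMod p) (c : ZMod p) (z : BB p F) : sg i (c • z) = c • sg i z :=
  MonoidAlgebra.mapDomain_smul _ _ _

theorem Nm_sg (i : ZMod p) (z : BB p F) : Nm (sg i z) = Nm z := by
  unfold Nm
  have h1 : ∀ j : ZMod p, sg j (sg i z) = sg (j + i) z := fun j => sg_sg j i z
  rw [Finset.sum_congr rfl fun j _ => h1 j]
  exact Equiv.sum_comp (Equiv.addRight i) fun j => sg j z

theorem Nm_add (y z : BB p F) : Nm (y + z) = Nm y + Nm z := by
  unfold Nm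
  rw [← Finset.sum_add_distrib]
  exact Finset.sum_congr rfl fun j _ => map_add _ _ _

theorem Nm_sum {κ : Type} (s : Finset κ) (f : κ → BB p F) :
    Nm (∑ k ∈ s, f k) = ∑ k ∈ s, Nm (f k) := by
  unfold Nm
  rw [Finset.sum_comm]
  exact Finset.sum_congr rfl fun j _ => map_sum _ _ _

theorem JJ_anti {m n : ℕ} (h : m ≤ n) : JJ p F n ≤ JJ p F m :=
  fun _ hz T hT => hz T (lt_of_lt_of_le hT h)

theorem JJ_mul_left {m : ℕ} {z : BB p F} (hz : z ∈ JJ p F m) (u : BB p F) : u * z ∈ JJ p F m := by
  intro T hT
  rw [map_mul, hz T hT, mul_zero]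

theorem JJ_mul_right {m : ℕ} {z : BB p F} (hz : z ∈ JJ p F m) (u : BB p F) : z * u ∈ JJ p F m := by
  intro T hT
  rw [map_mul, hz T hT, zero_mul]

theorem JJ_sg {m : ℕ} {z : BB p F} (hz : z ∈ JJ p F m) (i : ZMod p) : sg i z ∈ JJ p F m := by
  intro T hT
  rw [pk_sg, hz _ (lt_of_le_of_lt Finset.card_image_le hT), map_zero]

theorem JJ_Nm {m : ℕ} {z : BB p F} (hz : z ∈ JJ p F m) : Nm z ∈ JJ p F m := by
  unfold Nm
  exact Submodule.sum_mem _ fun i _ => JJ_sg hz i

theorem JJ_pk {m : ℕ} {z : BB p F} (hz : z ∈ JJ p F m) (S : Finset (ZMod p)) :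
    pk S z ∈ JJ p F m := by
  intro T hT
  rw [pk_pk]
  exact hz _ (lt_of_le_of_lt (Finset.card_le_card Finset.inter_subset_left) hT)

/-- an element of `J_m` is in `J_(m+1)` if its components with `m` slots vanish -/
theorem JJ_succ {m : ℕ} {z : BB p F} (hz : z ∈ JJ p F m)
    (h : ∀ S : Finset (ZMod p), S.card = m → pk S z = 0) : z ∈ JJ p F (m + 1) := by
  intro T hT
  rcases Nat.lt_or_ge T.card m with h1 | h1
  · exact hz T h1
  · exact h T (le_antisymm (Nat.le_of_lt_succ hT) h1)

private theorem pk_empty_Slot (z : BB p F) :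
    pk ∅ z = single 1 (eps (ZMod p) (ZMod p → F) z) := by
  induction z using MonoidAlgebra.induction_linear with
  | zero => rw [map_zero, map_zero, single_zero]
  | add a b ha hb => rw [map_add, map_add, single_add, ha, hb]
  | single h r =>
    rw [pk_single]
    have h1 : kp (∅ : Finset (ZMod p)) h = 1 := by
      funext j
      show (if j ∈ (∅ : Finset (ZMod p)) then h j else 1) = 1
      rw [if_neg (Finset.notMem_empty j)]
    have h2 : eps (ZMod p) (ZMod p → F) (single h r) = r := by
      unfold eps
      rw [MonoidAlgebra.lift_single]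
      simp
    rw [h1, h2]

theorem JJ_one {z : BB p F} (h : eps (ZMod p) (ZMod p → F) z = 0) : z ∈ JJ p F 1 := by
  intro T hT
  have h1 : T = ∅ := Finset.card_eq_zero.1 (Nat.lt_one_iff.1 hT)
  rw [h1, pk_empty_Slot, h, single_zero]

/-- different components -/
theorem pk_pk_eq_zero {m : ℕ} {z : BB p F} (hz : z ∈ JJ p F m) {S S' : Finset (ZMod p)}
    (hS : S.card = m) (hS' : S'.card = m) (hne : S ≠ S') : pk S' (pk S z) = 0 := by
  rw [pk_pk]
  refine hz _ ?_
  have h1 : (S' ∩ S).card ≤ S'.card := Finset.card_le_card Finset.inter_subset_left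
  rcases Nat.lt_or_ge (S' ∩ S).card m with h2 | h2
  · exact h2
  · exfalso
    apply hne
    have h3 : S' ∩ S = S' :=
      Finset.eq_of_subset_of_card_le Finset.inter_subset_left (by rw [hS']; exact h2)
    have h4 : S' ∩ S = S :=
      Finset.eq_of_subset_of_card_le Finset.inter_subset_right (by rw [hS]; exact h2)
    rw [← h4, h3]

theorem pk_fil {N : ℕ} {z : BB p F} (hz : z ∈ Fil (ZMod p) (ZMod p → F) N)
    (S : Finset (ZMod p)) : pk S z ∈ Fil (ZMod p) (ZMod p → F) N :=
  map_fil _ hz

theorem sg_fil {N : ℕ} {z : BB p F} (hz : z ∈ Fil (ZMod p) (ZMod p → F) N)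
    (i : ZMod p) : sg i z ∈ Fil (ZMod p) (ZMod p → F) N :=
  map_fil _ hz

theorem Nm_fil {N : ℕ} {z : BB p F} (hz : z ∈ Fil (ZMod p) (ZMod p → F) N) :
    Nm z ∈ Fil (ZMod p) (ZMod p → F) N := by
  unfold Nm
  exact Submodule.sum_mem _ fun i _ => sg_fil hz i

theorem ia_fil {N : ℕ} (g : MulAut F) {a : MonoidAlgebra (ZMod p) F}
    (ha : a ∈ Fil (ZMod p) F N) : ia g a ∈ Fil (ZMod p) (ZMod p → F) N :=
  map_fil _ ha

private theorem eps_ia_Slot (g : MulAut F) (a : MonoidAlgebra (ZMod p) F) :
    eps (ZMod p) (ZMod p → F) (ia g a) = eps (ZMod p) F a := by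
  induction a using MonoidAlgebra.induction_linear with
  | zero => rw [map_zero, map_zero, map_zero]
  | add a b ha hb => rw [map_add, map_add, map_add, ha, hb]
  | single h r =>
    rw [ia_single]
    unfold eps
    rw [MonoidAlgebra.lift_single, MonoidAlgebra.lift_single]
    simp

theorem ia_JJ (g : MulAut F) {a : MonoidAlgebra (ZMod p) F} (ha : eps (ZMod p) F a = 0) :
    ia g a ∈ JJ p F 1 := by
  refine JJ_one ?_
  rw [eps_ia_Slot, ha]

theorem single_sub_mem_fil {N : ℕ} (z z' : ZMod p → F)
    (h : ∀ j, single (z j) (1 : ZMod p) - single (z' j) 1 ∈ Fil (ZMod p) F N) :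
    single z (1 : ZMod p) - single z' 1 ∈ Fil (ZMod p) (ZMod p → F) N := by
  obtain ⟨c, hc⟩ : ∃ c : ZMod p → F, c = z'⁻¹ * z := ⟨_, rfl⟩
  have h1 : ∀ j, single (c j) (1 : ZMod p) - 1 ∈ Fil (ZMod p) F N := by
    intro j
    have h2 := fil_mul_left (h j) (single (z' j)⁻¹ (1 : ZMod p))
    rw [mul_sub, single_mul_single, single_mul_single, mul_one, inv_mul_cancel,
      ← MonoidAlgebra.one_def] at h2
    rw [hc]
    exact h2
  obtain ⟨S, hS⟩ : ∃ S : Set (ZMod p → F), S =
      {x | single x (1 : ZMod p) - 1 ∈ Fil (ZMod p) (ZMod p → F) N} := ⟨_, rfl⟩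
  have h3 : ∀ x ∈ S, single x (1 : ZMod p) - 1 ∈ Fil (ZMod p) (ZMod p → F) N := by
    intro x hx
    rw [hS] at hx
    exact hx
  have h4 : c ∈ Subgroup.closure S := by
    refine Subgroup.pi_mem_of_mulSingle_mem c fun j => Subgroup.subset_closure ?_
    rw [hS]
    show single (Pi.mulSingle j (c j)) (1 : ZMod p) - 1 ∈ Fil (ZMod p) (ZMod p → F) N
    have h5 := map_fil (MonoidHom.mulSingle (fun _ : ZMod p => F) j) (h1 j)
    rw [map_sub, map_one, mapDomainRingHom_apply, mapDomain_single] at h5
    exact h5
  have h6 := sub_one_mem_closure h3 h4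
  have h7 := fil_mul_left h6 (single z' (1 : ZMod p))
  rw [mul_sub, single_mul_single, mul_one, mul_one, hc, mul_inv_cancel_left] at h7
  exact h7

/-- (1.1) of the page -/
theorem sg_ia {N : ℕ} (g : MulAut F)
    (h : ∀ f, single ((g ^ p) f) (1 : ZMod p) - single f 1 ∈ Fil (ZMod p) F N) (i : ZMod p)
    (a : MonoidAlgebra (ZMod p) F) :
    sg i (ia g a) - ia g (mapDomainRingHom (ZMod p) ((g ^ i.val : MulAut F) : F →* F) a) ∈
      Fil (ZMod p) (ZMod p → F) N := by
  induction a using MonoidAlgebra.induction_linear with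
  | zero =>
    rw [map_zero, map_zero, map_zero, map_zero, sub_zero]
    exact Submodule.zero_mem _
  | add a b ha hb =>
    rw [map_add, map_add, map_add, map_add, add_sub_add_comm]
    exact Submodule.add_mem _ ha hb
  | single f r =>
    rw [ia_single, sg_single, mapDomainRingHom_apply, mapDomain_single, ia_single]
    have h1 : single (sh i (io g f)) (1 : ZMod p) -
        single (io g (((g ^ i.val : MulAut F) : F →* F) f)) 1 ∈
          Fil (ZMod p) (ZMod p → F) N := by
      refine single_sub_mem_fil _ _ fun j => ?_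
      show single ((g ^ (j - i).val)⁻¹ f) (1 : ZMod p) -
        single ((g ^ j.val)⁻¹ ((g ^ i.val) f)) 1 ∈ Fil (ZMod p) F N
      rcases Nat.lt_or_ge j.val i.val with h2 | h2
      · have h3 : (j - i).val + i.val = j.val + p := by
          have h4 : (j - i).val = ((j - i).val + i.val) - i.val := by omega
          have h5 : ((j - i).val + i.val) % p = j.val := by
            rw [← ZMod.val_add, sub_add_cancel]
          have h6 := (j - i).val_lt
          have h7 := i.val_lt
          have h8 := j.val_lt
          rcases Nat.lt_or_ge ((j - i).val + i.val) p with h9 | h9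
          · rw [Nat.mod_eq_of_lt h9] at h5
            omega
          · rw [Nat.mod_eq_sub_mod h9, Nat.mod_eq_of_lt (by omega)] at h5
            omega
        obtain ⟨u, hu⟩ : ∃ u, u = (g ^ (j - i).val)⁻¹ f := ⟨_, rfl⟩
        have h4 : (g ^ j.val)⁻¹ ((g ^ i.val) f) = (g ^ p) u := by
          rw [hu]
          have h5 : (g ^ j.val)⁻¹ * g ^ i.val = g ^ p * (g ^ (j - i).val)⁻¹ := by
            rw [eq_mul_inv_iff_mul_eq, mul_assoc, ← pow_add, inv_mul_eq_iff_eq_mul, ← pow_add,
              Nat.add_comm i.val, h3]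
          have h6 := congrArg (fun t : MulAut F => t f) h5
          exact h6
        rw [h4, ← hu, ← neg_sub]
        exact Submodule.neg_mem _ (h u)
      · have h3 : (j - i).val = j.val - i.val := ZMod.val_sub h2
        have h4 : (g ^ j.val)⁻¹ ((g ^ i.val) f) = (g ^ (j - i).val)⁻¹ f := by
          have h5 : (g ^ j.val)⁻¹ * g ^ i.val = (g ^ (j - i).val)⁻¹ := by
            rw [h3, inv_mul_eq_iff_eq_mul, eq_mul_inv_iff_mul_eq, ← pow_add,
              Nat.add_sub_cancel' h2]
          have h6 := congrArg (fun t : MulAut F => t f) h5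
          exact h6
        rw [h4, sub_self]
        exact Submodule.zero_mem _
    have h2 := Submodule.smul_mem _ r h1
    rw [smul_sub, smul_single, smul_single, smul_eq_mul, mul_one] at h2
    exact h2

end Pool.Agent.MCG
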