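import Pool.Agent.MCG.Fox

set_option autoImplicit false
set_option linter.unusedSectionVars false

noncomputable section

/-!
Definitions for part 1: the group algebra of `F ^ p` (slots indexed by `ZMod p`).
-/

namespace Pool.Agent.MCG

open MonoidAlgebra Pool.Agent.Lvl

section

variable (p : ℕ) (F : Type) [Group F]

/-- the group algebra of `F ^ p` over `F_p` -/
abbrev BB : Type := MonoidAlgebra (ZMod p) (ZMod p → F)

variable {p F}

/-- replace the entries of all slots outside `T` by `1` -/
def kp (T : Finset (ZMod p)) : (ZMod p → F) →* (ZMod p → F) where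
  toFun z := fun j => if j ∈ T then z j else 1
  map_one' := by
    funext j
    simp
  map_mul' z z' := by
    funext j
    by_cases h : j ∈ T <;> simp [h]

/-- the projection of the group algebra to the slots in `T` -/
def pk (T : Finset (ZMod p)) : BB p F →+* BB p F := mapDomainRingHom (ZMod p) (kp T)

theorem pk_smul (T : Finset (ZMod p)) (c : ZMod p) (a : BB p F) :
    pk T (c • a) = c • pk T a :=
  MonoidAlgebra.mapDomain_smul _ _ _

/-- the cyclic shift -/
def sh (i : ZMod p) : (ZMod p → F) →* (ZMod p → F) where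
  toFun z := fun j => z (j - i)
  map_one' := rfl
  map_mul' _ _ := rfl

/-- the cyclic shift of the group algebra -/
def sg (i : ZMod p) : BB p F →+* BB p F := mapDomainRingHom (ZMod p) (sh i)

/-- the sum of all cyclic shifts -/
def Nm [Fintype (ZMod p)] (z : BB p F) : BB p F := ∑ i : ZMod p, sg i z

/-- the twisted diagonal `f ↦ (f, g⁻¹ f, …, g^(-(p-1)) f)` -/
def io (g : MulAut F) : F →* (ZMod p → F) where
  toFun f := fun j => (g ^ j.val)⁻¹ f
  map_one' := by
    funext j
    simp
  map_mul' a b := by
    funext j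
    simp

/-- the twisted diagonal of the group algebra -/
def ia (g : MulAut F) : MonoidAlgebra (ZMod p) F →+* BB p F := mapDomainRingHom (ZMod p) (io g)

/-- all elements which vanish if the entries of all but `m - 1` slots are replaced by `1` -/
def JJ (p : ℕ) (F : Type) [Group F] (m : ℕ) : Submodule (ZMod p) (BB p F) where
  carrier := {z | ∀ T : Finset (ZMod p), T.card < m → pk T z = 0}
  add_mem' := by
    intro a b ha hb T hT
    rw [map_add, ha T hT, hb T hT, add_zero]
  zero_mem' := by
    intro T _
    exact map_zero _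
  smul_mem' := by
    intro c a ha T hT
    rw [pk_smul, ha T hT, smul_zero]

/-- `∏ (w^(j) - 1)` over all slots `j`, by inclusion and exclusion -/
def vU [Fintype (ZMod p)] (w : F) : BB p F :=
  ∑ T : Finset (ZMod p), (-1 : ZMod p) ^ (p - T.card) • single (kp T fun _ => w) 1

end

/-- the elements `x - 1` -/
def XX {ι : Type} (p : ℕ) (x : ι) : MonoidAlgebra (ZMod p) (FreeGroup ι) :=
  single (FreeGroup.of x) 1 - 1

/-- `y` is in `ι(I) J_m + Nm J_m + Fil N` -/
def InU {ι : Type} [Fintype ι] {p : ℕ} [Fintype (ZMod p)] (g : MulAut (FreeGroup ι)) (N m : ℕ)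
    (y : BB p (FreeGroup ι)) : Prop :=
  ∃ (w : ι → BB p (FreeGroup ι)) (z : BB p (FreeGroup ι)),
    (∀ x, w x ∈ JJ p (FreeGroup ι) m) ∧ z ∈ JJ p (FreeGroup ι) m ∧
    y - (∑ x, ia g (XX p x) * w x + Nm z) ∈ Fil (ZMod p) (ZMod p → FreeGroup ι) N

end Pool.Agent.MCG
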