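import Pool.Agent.MCG.FoxFree
import Pool.Agent.MCG.Slot

set_option autoImplicit false
set_option linter.unusedSectionVars false

noncomputable section

/-!
PACKAGE MCG-SLOTFREE. (1.3) of the page for the slots in `S`.

Let `j ∈ S`. Let `H = ZMod p → F` and `φ : (ZMod p → F) → F × H`,
`φ z = (g ^ j.val (z j), z with the slot j replaced by 1)`, `ψ : F × H → (ZMod p → F)` the
homomorphism `ψ (f, h) k = (g ^ j.val)⁻¹ f` if `k = j` and `h k` otherwise; so `ψ ∘ φ = id`. Let
`ρ : F → H`, `ρ f k = (g ^ k.val)⁻¹ f` if `k ∈ S`, `k ≠ j`, and `1` otherwise. Then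
`φ (kp S (io g f)) = (f, ρ f)`. So the image of the hypothesis under `mapDomainRingHom φ`
(`map_fil`) is the hypothesis of `fox_free` for the images of the `u x`; apply
`mapDomainRingHom ψ` to the conclusion.
-/

namespace Pool.Agent.MCG

open MonoidAlgebra Pool.Agent.Lvl

variable {p : ℕ} [hp : Fact p.Prime] {ι : Type} [DecidableEq ι] [Fintype ι]

private def phi_SF {F : Type} [Group F] (a : MulAut F) (j : ZMod p) :
    (ZMod p → F) →* F × (ZMod p → F) where
  toFun z := (a (z j), fun k => if k = j then 1 else z k)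
  map_one' := by
    refine Prod.ext ?_ ?_
    · simp
    · funext k
      simp
  map_mul' z z' := by
    refine Prod.ext ?_ ?_
    · simp
    · funext k
      by_cases h : k = j <;> simp [h]

private def psi_SF {F : Type} [Group F] (a : MulAut F) (j : ZMod p) :
    F × (ZMod p → F) →* (ZMod p → F) where
  toFun q := fun k => if k = j then a⁻¹ q.1 else q.2 k
  map_one' := by
    funext k
    simp
  map_mul' z z' := by
    funext k
    by_cases h : k = j <;> simp [h]

private def rho_SF {F : Type} [Group F] (g : MulAut F) (S : Finset (ZMod p)) (j : ZMod p) :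
    F →* (ZMod p → F) where
  toFun f := fun k => if k = j then 1 else if k ∈ S then (g ^ k.val)⁻¹ f else 1
  map_one' := by
    funext k
    simp
  map_mul' z z' := by
    funext k
    by_cases h : k = j
    · simp [h]
    · by_cases h' : k ∈ S <;> simp [h, h']

private theorem psi_phi_SF {F : Type} [Group F] (a : MulAut F) (j : ZMod p) (z : ZMod p → F) :
    psi_SF a j (phi_SF a j z) = z := by
  funext k
  change (if k = j then a⁻¹ (a (z j)) else if k = j then 1 else z k) = z k
  by_cases h : k = j
  · rw [if_pos h, h, MulAut.inv_apply_self]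
  · rw [if_neg h, if_neg h]

private theorem phi_io_SF {F : Type} [Group F] (g : MulAut F) (S : Finset (ZMod p)) (j : ZMod p)
    (hj : j ∈ S) (f : F) : phi_SF (g ^ j.val) j (kp S (io g f)) = (f, rho_SF g S j f) := by
  refine Prod.ext ?_ ?_
  · change (g ^ j.val) (if j ∈ S then (g ^ j.val)⁻¹ f else 1) = f
    rw [if_pos hj, MulAut.apply_inv_self]
  · funext k
    change (if k = j then 1 else if k ∈ S then (g ^ k.val)⁻¹ f else 1) =
      if k = j then 1 else if k ∈ S then (g ^ k.val)⁻¹ f else 1
    rfl

theorem slot_free (g : MulAut (FreeGroup ι)) {S : Finset (ZMod p)} (hS : S.Nonempty) {N : ℕ}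
    (u : ι → BB p (FreeGroup ι))
    (h : ∑ x, pk S (ia g (XX p x)) * u x ∈ Fil (ZMod p) (ZMod p → FreeGroup ι) (N + 1)) (x : ι) :
    u x ∈ Fil (ZMod p) (ZMod p → FreeGroup ι) N := by
  obtain ⟨j, hj⟩ := hS
  have h1 : ∀ x, pk S (ia g (XX p x)) =
      single (kp S (io g (FreeGroup.of x))) (1 : ZMod p) - 1 := by
    intro x
    unfold XX
    rw [map_sub, map_sub, map_one, map_one, ia_single, pk_single]
  have h2 := map_fil (R := ZMod p) (phi_SF (p := p) (g ^ j.val) j) h
  rw [map_sum] at h2
  have h3 : ∀ x, mapDomainRingHom (ZMod p) (phi_SF (p := p) (g ^ j.val) j)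
      (pk S (ia g (XX p x)) * u x) = (single (FreeGroup.of x, rho_SF g S j (FreeGroup.of x)) 1 - 1) *
        mapDomainRingHom (ZMod p) (phi_SF (p := p) (g ^ j.val) j) (u x) := by
    intro x
    rw [map_mul, h1, map_sub, map_one, mapDomainRingHom_apply, mapDomain_single, phi_io_SF g S j hj]
  rw [Finset.sum_congr rfl fun x _ => h3 x] at h2
  have h4 := fox_free (R := ZMod p) (rho_SF g S j)
    (fun x => mapDomainRingHom (ZMod p) (phi_SF (p := p) (g ^ j.val) j) (u x)) h2 x
  have h5 := map_fil (R := ZMod p) (psi_SF (p := p) (g ^ j.val) j) h4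
  have h6 : (psi_SF (p := p) (g ^ j.val) j).comp (phi_SF (g ^ j.val) j) =
      MonoidHom.id (ZMod p → FreeGroup ι) := MonoidHom.ext fun z => psi_phi_SF _ j z
  rwa [← RingHom.comp_apply, ← mapDomainRingHom_comp, h6, mapDomainRingHom_id, RingHom.id_apply]
    at h5

end Pool.Agent.MCG
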