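import Mathlib

set_option autoImplicit false
set_option linter.unusedSectionVars false

noncomputable section

/-!
MCG, part T. The congruence filtration of a group of integral matrices: `VV p f j` is the subgroup
of all `g` with `f g ≡ 1` modulo `p ^ j`.
-/

namespace Pool.Agent.MCG

/-! ### the power map -/

private lemma dvd_auxT {p : ℕ} (hp : p.Prime) {j m : ℕ} (hj : 1 ≤ j) (h3 : 3 ≤ p ^ j)
    (h2 : 2 ≤ m) (hm : m ≤ p) : p ^ (j + 2) ∣ (p ^ j) ^ m * p.choose m := by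
  rw [← pow_mul]
  rcases Nat.lt_or_ge m p with h | h
  · have h4 : p ∣ p.choose m := hp.dvd_choose_self (by omega) h
    have h5 : p ^ (j + 1) ∣ p ^ (j * m) := pow_dvd_pow p (by nlinarith)
    rw [show j + 2 = (j + 1) + 1 by ring, pow_succ]
    exact Nat.mul_dvd_mul h5 h4
  · have h6 : m = p := le_antisymm hm h
    refine dvd_mul_of_dvd_left (pow_dvd_pow p ?_) _
    rcases Nat.lt_or_ge 2 m with h7 | h7
    · nlinarith
    · have hp2 : p = 2 := by omega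
      have hj2 : j ≠ 1 := by
        rintro rfl
        rw [hp2] at h3
        norm_num at h3
      have : m = 2 := by omega
      subst this
      omega

/-- the `p`-th power of `1 + p ^ j Y` -/
theorem one_add_pow {A : Type} [Ring A] {p : ℕ} (hp : p.Prime) {j : ℕ} (hj : 1 ≤ j)
    (h3 : 3 ≤ p ^ j) (Y : A) : ∃ Z : A, (1 + (p ^ j : ℕ) • Y) ^ p =
      1 + (p ^ (j + 1) : ℕ) • Y + (p ^ (j + 2) : ℕ) • Z := by
  obtain ⟨n, hn⟩ : ∃ n, p = n + 2 := ⟨p - 2, by have := hp.two_le; omega⟩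
  choose D hD using fun (i : ℕ) (hi : i + 2 ≤ p) =>
    dvd_auxT hp hj h3 (m := i + 2) (by omega) hi
  refine ⟨∑ i ∈ Finset.range (n + 1), ((if hi : i + 2 ≤ p then D i hi else 0 : ℕ) •
    Y ^ (i + 2)), ?_⟩
  have hx : ∀ m : ℕ, ((p ^ j : ℕ) • Y) ^ m = ((p ^ j) ^ m : ℕ) • Y ^ m := by
    intro m
    rw [smul_pow]
  have hmain : (1 + (p ^ j : ℕ) • Y) ^ p = ∑ m ∈ Finset.range (n + 3),
      ((p ^ j) ^ m * p.choose m : ℕ) • Y ^ m := by
    rw [add_comm, (Commute.one_right ((p ^ j : ℕ) • Y)).add_pow p,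
      show n + 3 = p + 1 by omega]
    refine Finset.sum_congr rfl fun m _ => ?_
    rw [one_pow, mul_one, hx, mul_comm ((p ^ j) ^ m), mul_smul, nsmul_eq_mul (p.choose m),
      (Nat.cast_commute (p.choose m) (((p ^ j) ^ m) • Y ^ m)).eq]
  rw [hmain, Finset.sum_range_succ', Finset.sum_range_succ']
  have e0 : ((p ^ j) ^ 0 * p.choose 0 : ℕ) • Y ^ 0 = 1 := by simp
  have e1 : ((p ^ j) ^ (0 + 1) * p.choose (0 + 1) : ℕ) • Y ^ (0 + 1) =
      (p ^ (j + 1) : ℕ) • Y := by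
    rw [zero_add, pow_one, pow_one, Nat.choose_one_right, pow_succ]
  rw [e0, e1, add_comm _ (1 : A), add_comm _ ((p ^ (j + 1) : ℕ) • Y), ← add_assoc]
  congr 1
  rw [Finset.smul_sum]
  refine Finset.sum_congr rfl fun i hi => ?_
  have hi2 : i + 2 ≤ p := by
    have := Finset.mem_range.1 hi
    omega
  rw [dif_pos hi2, smul_smul, ← hD i hi2]

/-! ### the filtration -/

variable {p N : ℕ} {G : Type} [Group G] (f : G →* Matrix (Fin N) (Fin N) ℤ)

/-- the elements which are trivial modulo `p ^ j` -/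
def VV (p : ℕ) (f : G →* Matrix (Fin N) (Fin N) ℤ) (j : ℕ) : Subgroup G where
  carrier := {g | ∃ X : Matrix (Fin N) (Fin N) ℤ, f g = 1 + (p ^ j : ℕ) • X}
  mul_mem' := by
    rintro a b ⟨X, hX⟩ ⟨Y, hY⟩
    refine ⟨X + Y + (p ^ j : ℕ) • (X * Y), ?_⟩
    rw [map_mul, hX, hY, add_mul, one_mul, mul_add, mul_one, smul_mul_smul_comm, smul_add,
      smul_add, smul_smul]
    abel
  one_mem' := ⟨0, by rw [map_one, smul_zero, add_zero]⟩
  inv_mem' := by
    rintro a ⟨X, hX⟩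
    refine ⟨- (f a⁻¹ * X), ?_⟩
    have h1 : f a⁻¹ * f a = 1 := by rw [← map_mul, inv_mul_cancel, map_one]
    rw [hX, mul_add, mul_one, mul_smul_comm] at h1
    rw [smul_neg, ← sub_eq_add_neg, eq_sub_iff_add_eq]
    exact h1

theorem mem_VV {j : ℕ} {g : G} : g ∈ VV p f j ↔ ∃ X : Matrix (Fin N) (Fin N) ℤ,
    f g = 1 + (p ^ j : ℕ) • X := Iff.rfl

instance VV_normal (j : ℕ) : (VV p f j).Normal where
  conj_mem := by
    rintro n ⟨X, hX⟩ g
    refine ⟨f g * X * f g⁻¹, ?_⟩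
    have h1 : f g * f g⁻¹ = 1 := by rw [← map_mul, mul_inv_cancel, map_one]
    rw [map_mul, map_mul, hX, mul_add, mul_one, add_mul, h1, mul_smul_comm, smul_mul_assoc]

theorem VV_anti {i j : ℕ} (h : i ≤ j) : VV p f j ≤ VV p f i := by
  rintro g ⟨X, hX⟩
  refine ⟨(p ^ (j - i) : ℕ) • X, ?_⟩
  rw [smul_smul, ← pow_add, Nat.add_sub_cancel' h, hX]

theorem VV_pow [hp : Fact p.Prime] {j : ℕ} (hj : 1 ≤ j) (h3 : 3 ≤ p ^ j) {g : G}
    {X : Matrix (Fin N) (Fin N) ℤ} (hX : f g = 1 + (p ^ j : ℕ) • X) :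
    ∃ Z : Matrix (Fin N) (Fin N) ℤ, f (g ^ p) = 1 + (p ^ (j + 1) : ℕ) • (X + p • Z) := by
  obtain ⟨Z, hZ⟩ := one_add_pow hp.out hj h3 X
  refine ⟨Z, ?_⟩
  rw [map_pow, hX, hZ, smul_add, smul_smul, ← pow_succ, add_assoc]

theorem VV_comm {i j : ℕ} {g h : G} (hg : g ∈ VV p f i) (hh : h ∈ VV p f j) :
    g * h * g⁻¹ * h⁻¹ ∈ VV p f (i + j) := by
  obtain ⟨X, hX⟩ := hg
  obtain ⟨Y, hY⟩ := hh
  refine ⟨(X * Y - Y * X) * f (g⁻¹ * h⁻¹), ?_⟩
  have h0 : f (h * g) * f (g⁻¹ * h⁻¹) = 1 := by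
    rw [← map_mul, show h * g * (g⁻¹ * h⁻¹) = 1 by group, map_one]
  have h1 : f (g * h) = f (h * g) + (p ^ (i + j) : ℕ) • (X * Y - Y * X) := by
    rw [map_mul, map_mul, hX, hY]
    simp only [add_mul, mul_add, one_mul, mul_one, smul_mul_smul_comm, smul_sub, pow_add,
      mul_comm (p ^ j) (p ^ i)]
    abel
  rw [show g * h * g⁻¹ * h⁻¹ = (g * h) * (g⁻¹ * h⁻¹) by group, map_mul, h1, add_mul, h0,
    smul_mul_assoc]

/-- the reduction of the matrices -/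
def redM (N j : ℕ) (p : ℕ) : Matrix (Fin N) (Fin N) ℤ →+* Matrix (Fin N) (Fin N) (ZMod (p ^ j)) :=
  (Int.castRingHom (ZMod (p ^ j))).mapMatrix

theorem redM_eq_zero {n : ℕ} {X : Matrix (Fin N) (Fin N) ℤ}
    (h : (Int.castRingHom (ZMod n)).mapMatrix X = 0) : ∃ Y : Matrix (Fin N) (Fin N) ℤ,
      X = n • Y := by
  have h1 : ∀ i j, ∃ y : ℤ, X i j = n * y := by
    intro i j
    have h2 := congrFun (congrFun h i) j
    have h3 : ((X i j : ℤ) : ZMod n) = 0 := h2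
    exact (ZMod.intCast_zmod_eq_zero_iff_dvd _ _).1 h3
  choose Y hY using h1
  refine ⟨Matrix.of Y, ?_⟩
  ext i j
  rw [Matrix.smul_apply, Matrix.of_apply, hY, nsmul_eq_mul]

theorem redM_smul {n : ℕ} (X : Matrix (Fin N) (Fin N) ℤ) :
    (Int.castRingHom (ZMod n)).mapMatrix (n • X) = 0 := by
  ext i j
  show ((( n • X) i j : ℤ) : ZMod n) = 0
  rw [Matrix.smul_apply, nsmul_eq_mul, Int.cast_mul, Int.cast_natCast, ZMod.natCast_self,
    zero_mul]

/-- the action modulo `p ^ j` -/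
def rj (p : ℕ) (f : G →* Matrix (Fin N) (Fin N) ℤ) (j : ℕ) :
    G →* (Matrix (Fin N) (Fin N) (ZMod (p ^ j)))ˣ :=
  ((redM N j p).toMonoidHom.comp f).toHomUnits

theorem rj_ker (j : ℕ) : (rj p f j).ker = VV p f j := by
  ext g
  rw [MonoidHom.mem_ker, Units.ext_iff]
  show redM N j p (f g) = 1 ↔ _
  constructor
  · intro h
    have h1 : redM N j p (f g - 1) = 0 := by rw [map_sub, map_one, h, sub_self]
    obtain ⟨Y, hY⟩ := redM_eq_zero h1
    exact ⟨Y, by rw [← hY]; abel⟩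
  · rintro ⟨X, hX⟩
    rw [hX, map_add, map_one]
    have h1 : redM N j p ((p ^ j : ℕ) • X) = 0 := redM_smul X
    rw [h1, add_zero]

instance VV_finite [hp : Fact p.Prime] (j : ℕ) : Finite (G ⧸ VV p f j) := by
  have : NeZero (p ^ j) := ⟨pow_ne_zero j hp.out.ne_zero⟩
  rw [← rj_ker]
  exact Finite.of_injective _ (QuotientGroup.kerLift_injective (rj p f j))

end Pool.Agent.MCG
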