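import Pool.Agent.MCG.TowA

set_option autoImplicit false
set_option linter.unusedSectionVars false

noncomputable section

/-!
MCG, part T. The leading matrices of the elements of the congruence filtration.
-/

namespace Pool.Agent.MCG

variable {p N : ℕ} {G : Type} [Group G] (f : G →* Matrix (Fin N) (Fin N) ℤ)

/-- reduction modulo `p` -/
abbrev rpm (p N : ℕ) : Matrix (Fin N) (Fin N) ℤ →+* Matrix (Fin N) (Fin N) (ZMod p) :=
  (Int.castRingHom (ZMod p)).mapMatrix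

theorem smul_inj [hp : Fact p.Prime] (j : ℕ) {X Y : Matrix (Fin N) (Fin N) ℤ}
    (h : (p ^ j : ℕ) • X = (p ^ j : ℕ) • Y) : X = Y := by
  ext a b
  have h1 := congrFun (congrFun h a) b
  rw [Matrix.smul_apply, Matrix.smul_apply, nsmul_eq_mul, nsmul_eq_mul] at h1
  refine mul_left_cancel₀ ?_ h1
  exact_mod_cast pow_ne_zero j hp.out.ne_zero

theorem rpm_pow_smul {j : ℕ} (hj : 1 ≤ j) (X : Matrix (Fin N) (Fin N) ℤ) :
    rpm p N ((p ^ j : ℕ) • X) = 0 := by
  obtain ⟨i, rfl⟩ : ∃ i, j = i + 1 := ⟨j - 1, by omega⟩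
  rw [pow_succ, mul_comm, mul_smul]
  exact redM_smul _

/-- the coefficient of `p ^ j` -/
def leadX {j : ℕ} (g : ↥(VV p f j)) : Matrix (Fin N) (Fin N) ℤ := g.2.choose

theorem leadX_spec {j : ℕ} (g : ↥(VV p f j)) : f g = 1 + (p ^ j : ℕ) • leadX f g :=
  g.2.choose_spec

theorem leadX_eq [hp : Fact p.Prime] {j : ℕ} (g : ↥(VV p f j)) {X : Matrix (Fin N) (Fin N) ℤ}
    (hX : f g = 1 + (p ^ j : ℕ) • X) : leadX f g = X :=
  smul_inj (p := p) j (add_left_cancel ((leadX_spec f g).symm.trans hX))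

/-- the leading matrix -/
def lead [hp : Fact p.Prime] {j : ℕ} (hj : 1 ≤ j) :
    ↥(VV p f j) →* Multiplicative (Matrix (Fin N) (Fin N) (ZMod p)) where
  toFun g := Multiplicative.ofAdd (rpm p N (leadX f g))
  map_one' := by
    rw [leadX_eq f (1 : ↥(VV p f j)) (X := 0), map_zero]
    · rfl
    · rw [OneMemClass.coe_one, map_one, smul_zero, add_zero]
  map_mul' a b := by
    have h4 : leadX f (a * b) = leadX f a + leadX f b +
        (p ^ j : ℕ) • (leadX f a * leadX f b) := by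
      refine leadX_eq f _ ?_
      rw [Subgroup.coe_mul, map_mul, leadX_spec f a, leadX_spec f b, add_mul, one_mul, mul_add,
        mul_one, smul_mul_smul_comm, smul_add, smul_add, smul_smul]
      abel
    rw [h4, (rpm p N).map_add, (rpm p N).map_add, rpm_pow_smul hj, add_zero, ofAdd_add]

variable [hp : Fact p.Prime]

theorem lead_eq {j : ℕ} (hj : 1 ≤ j) (g : ↥(VV p f j)) {X : Matrix (Fin N) (Fin N) ℤ}
    (hX : f g = 1 + (p ^ j : ℕ) • X) : lead f hj g = Multiplicative.ofAdd (rpm p N X) := by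
  show Multiplicative.ofAdd (rpm p N (leadX f g)) = _
  rw [leadX_eq f g hX]

theorem lead_ker {j : ℕ} (hj : 1 ≤ j) :
    (lead f hj).ker = (VV p f (j + 1)).subgroupOf (VV p f j) := by
  ext g
  obtain ⟨X, hX⟩ := g.2
  rw [MonoidHom.mem_ker, lead_eq f hj g hX, Subgroup.mem_subgroupOf]
  constructor
  · intro h
    obtain ⟨Y, hY⟩ := redM_eq_zero (n := p) (X := X) (Multiplicative.ofAdd.injective h)
    refine ⟨Y, ?_⟩
    rw [hX, hY, smul_smul, ← pow_succ]
  · rintro ⟨Y, hY⟩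
    have h1 : X = p • Y := by
      refine smul_inj (p := p) j ?_
      rw [smul_smul, ← pow_succ]
      exact add_left_cancel (hX.symm.trans hY)
    rw [h1]
    have h2 := rpm_pow_smul (p := p) (N := N) (le_refl 1) Y
    rw [pow_one] at h2
    rw [h2]
    rfl

/-- the set of the leading matrices -/
def WW (p : ℕ) (f : G →* Matrix (Fin N) (Fin N) ℤ) (j : ℕ) :
    Set (Matrix (Fin N) (Fin N) (ZMod p)) :=
  {w | ∃ g : G, ∃ X : Matrix (Fin N) (Fin N) ℤ, f g = 1 + (p ^ j : ℕ) • X ∧ rpm p N X = w}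

theorem pow_mem_VV {j : ℕ} (hj : 1 ≤ j) (h3 : 3 ≤ p ^ j) {g : G} (hg : g ∈ VV p f j) :
    g ^ p ∈ VV p f (j + 1) := by
  obtain ⟨X, hX⟩ := hg
  obtain ⟨Z, hZ⟩ := VV_pow f hj h3 hX
  exact ⟨_, hZ⟩

theorem lead_pow {j : ℕ} (hj : 1 ≤ j) (h3 : 3 ≤ p ^ j) (g : ↥(VV p f j)) :
    lead f (j := j + 1) (by omega) ⟨(g : G) ^ p, pow_mem_VV f hj h3 g.2⟩ = lead f hj g := by
  obtain ⟨X, hX⟩ := g.2
  obtain ⟨Z, hZ⟩ := VV_pow f hj h3 hX
  rw [lead_eq f hj g hX, lead_eq f (j := j + 1) (by omega) _ hZ, map_add]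
  have h2 := rpm_pow_smul (p := p) (N := N) (le_refl 1) Z
  rw [pow_one] at h2
  rw [h2, add_zero]

theorem WW_eq_range {j : ℕ} (hj : 1 ≤ j) :
    WW p f j = Set.range fun g => (lead f hj g).toAdd := by
  ext w
  constructor
  · rintro ⟨g, X, hX, rfl⟩
    refine ⟨⟨g, X, hX⟩, ?_⟩
    show (lead f hj ⟨g, X, hX⟩).toAdd = _
    rw [lead_eq f hj ⟨g, X, hX⟩ hX]
    rfl
  · rintro ⟨g, rfl⟩
    obtain ⟨X, hX⟩ := g.2
    refine ⟨g, X, hX, ?_⟩
    show _ = (lead f hj g).toAdd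
    rw [lead_eq f hj g hX]
    rfl

theorem WW_mono {j : ℕ} (hj : 1 ≤ j) (h3 : 3 ≤ p ^ j) : WW p f j ⊆ WW p f (j + 1) := by
  rw [WW_eq_range f hj, WW_eq_range f (j := j + 1) (by omega)]
  rintro _ ⟨g, rfl⟩
  refine ⟨⟨(g : G) ^ p, pow_mem_VV f hj h3 g.2⟩, ?_⟩
  show (lead f (j := j + 1) (by omega) ⟨(g : G) ^ p, pow_mem_VV f hj h3 g.2⟩).toAdd = _
  rw [lead_pow f hj h3]

/-- the leading matrices become constant -/
theorem exists_stable {s : ℕ} (hs : 1 ≤ s) (h3 : 3 ≤ p ^ s) :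
    ∃ j0, s ≤ j0 ∧ ∀ j, j0 ≤ j → WW p f j = WW p f j0 := by
  have hm : Monotone fun i => WW p f (s + i) := by
    refine monotone_nat_of_le_succ fun i => ?_
    refine WW_mono f (by omega) (h3.trans ?_)
    exact Nat.pow_le_pow_right hp.out.pos (by omega)
  have : Finite (Set (Matrix (Fin N) (Fin N) (ZMod p))) := inferInstance
  obtain ⟨n, hn⟩ := WellFoundedGT.monotone_chain_condition ⟨fun i => WW p f (s + i), hm⟩
  refine ⟨s + n, by omega, fun j hj => ?_⟩
  have h1 := hn (j - s) (by omega)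
  have h2 : s + (j - s) = j := by omega
  have h4 : WW p f (s + n) = WW p f (s + (j - s)) := h1
  rw [h2] at h4
  exact h4.symm

/-- the index of two consecutive groups -/
theorem relIndex_succ {j : ℕ} (hj : 1 ≤ j) :
    (VV p f (j + 1)).relIndex (VV p f j) = Nat.card (WW p f j) := by
  rw [Subgroup.relIndex, ← lead_ker f hj, Subgroup.index_ker, WW_eq_range f hj]
  refine Nat.card_congr ?_
  refine Equiv.subtypeEquiv Multiplicative.toAdd fun a => ?_
  constructor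
  · rintro ⟨g, rfl⟩
    exact ⟨g, rfl⟩
  · rintro ⟨g, hg⟩
    exact ⟨g, Multiplicative.toAdd.injective hg⟩

/-- elements with small `p`-th power -/
theorem mem_of_pow_mem {s : ℕ} (hs : 1 ≤ s) (h3 : 3 ≤ p ^ s) {g : G} (hg : g ∈ VV p f s) (n : ℕ)
    (hp' : g ^ p ∈ VV p f (s + n + 1)) : g ∈ VV p f (s + n) := by
  induction n with
  | zero => exact hg
  | succ n ih =>
    have h1 : g ∈ VV p f (s + n) := ih (VV_anti f (by omega) hp')
    have hj : 1 ≤ s + n := by omega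
    have h3' : 3 ≤ p ^ (s + n) := h3.trans (Nat.pow_le_pow_right hp.out.pos (by omega))
    have h4 := lead_pow f hj h3' ⟨g, h1⟩
    have h5 : (⟨g ^ p, pow_mem_VV f hj h3' h1⟩ : ↥(VV p f (s + n + 1))) ∈
        (lead f (j := s + n + 1) (by omega)).ker := by
      rw [lead_ker, Subgroup.mem_subgroupOf]
      exact hp'
    rw [MonoidHom.mem_ker] at h5
    have h6 : (⟨g, h1⟩ : ↥(VV p f (s + n))) ∈ (lead f hj).ker := by
      rw [MonoidHom.mem_ker, ← h4]
      exact h5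
    rw [lead_ker, Subgroup.mem_subgroupOf] at h6
    exact h6

end Pool.Agent.MCG
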