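import Pool.Agent.Lvl.OPow

set_option autoImplicit false
set_option linter.unusedSectionVars false

noncomputable section

/-!
MCG, part T. The tower given by a chain of normal subgroups with constant quotients.
-/

namespace Pool.Agent.MCG

open Pool.Agent.Lvl

/-- A chain of normal subgroups `U k` of finite index with homomorphisms `θ k` of `U k` onto
`(ZMod p)^d` with kernel `U (k + 1)`, such that `θ (k + 1) (g ^ p) = θ k g`. -/
structure Chain (p s d : ℕ) (G : Type) [Group G] where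
  U : ℕ → Subgroup G
  nor : ∀ k, (U k).Normal
  le : ∀ k, U (k + 1) ≤ U k
  fi : ∀ k, (U k).FiniteIndex
  θ : ∀ k, ↥(U k) →* Multiplicative (Fin d → ZMod p)
  θ_surj : ∀ k, Function.Surjective (θ k)
  θ_ker : ∀ k (g : ↥(U k)), θ k g = 1 ↔ (g : G) ∈ U (k + 1)
  pow_mem : ∀ k g, g ∈ U k → g ^ p ∈ U (k + 1)
  θ_pow : ∀ k (g : ↥(U k)), θ (k + 1) ⟨(g : G) ^ p, pow_mem k g g.2⟩ = θ k g
  comm : ∀ k g h, g ∈ U 0 → h ∈ U k → g * h * g⁻¹ * h⁻¹ ∈ U (k + 1)
  comm0 : ∀ g h, g ∈ U 0 → h ∈ U 0 → g * h * g⁻¹ * h⁻¹ ∈ U s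
  h3 : 3 ≤ p ^ s

namespace Chain

variable {p s d : ℕ} {G : Type} [Group G] (C : Chain p s d G)

theorem anti {i j : ℕ} (h : i ≤ j) : C.U j ≤ C.U i := by
  induction j, h using Nat.le_induction with
  | base => exact le_refl _
  | succ n _ ih => exact (C.le n).trans ih

instance nor' (k : ℕ) : ((C.U k).subgroupOf (C.U 0)).Normal := by
  have := C.nor k
  infer_instance

/-- the groups of the tower -/
abbrev P (k : ℕ) : Type := ↥(C.U 0) ⧸ (C.U k).subgroupOf (C.U 0)

instance finP (k : ℕ) : Finite (C.P k) := by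
  have := C.fi k
  infer_instance

/-- the projections from `U 0` -/
def prj (k : ℕ) : ↥(C.U 0) →* C.P k := QuotientGroup.mk' _

theorem prj_eq_one {k : ℕ} {g : ↥(C.U 0)} : C.prj k g = 1 ↔ (g : G) ∈ C.U k := by
  rw [prj, QuotientGroup.mk'_apply, QuotientGroup.eq_one_iff, Subgroup.mem_subgroupOf]

theorem prj_surj (k : ℕ) : Function.Surjective (C.prj k) := QuotientGroup.mk'_surjective _

theorem prj_eq {k : ℕ} {g h : ↥(C.U 0)} :
    C.prj k g = C.prj k h ↔ ((g⁻¹ * h : ↥(C.U 0)) : G) ∈ C.U k := by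
  rw [← prj_eq_one, map_mul, map_inv, inv_mul_eq_one]

/-- the projections between the levels -/
def pr (k : ℕ) : C.P (k + 1) →* C.P k :=
  QuotientGroup.map _ _ (MonoidHom.id _) (by
    intro g hg
    rw [Subgroup.mem_subgroupOf] at hg
    rw [Subgroup.mem_comap, MonoidHom.id_apply, Subgroup.mem_subgroupOf]
    exact C.le k hg)

theorem pr_prj (k : ℕ) (g : ↥(C.U 0)) : C.pr k (C.prj (k + 1) g) = C.prj k g := rfl

/-- the generators -/
def cl (l : Fin d) : ↥(C.U 0) :=
  Function.surjInv (C.θ_surj 0) (Multiplicative.ofAdd (Pi.single l 1))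

theorem θ_cl (l : Fin d) : C.θ 0 (C.cl l) = Multiplicative.ofAdd (Pi.single l 1) :=
  Function.surjInv_eq (C.θ_surj 0) _

theorem pow_pow_mem {i : ℕ} (k : ℕ) {g : G} (hg : g ∈ C.U i) : g ^ p ^ k ∈ C.U (i + k) := by
  induction k with
  | zero => rw [pow_zero, pow_one]; exact hg
  | succ k ih =>
    rw [pow_succ, pow_mul]
    exact C.pow_mem _ _ ih

theorem θ_pow_pow {i : ℕ} (k : ℕ) (g : ↥(C.U i)) :
    C.θ (i + k) ⟨(g : G) ^ p ^ k, C.pow_pow_mem k g.2⟩ = C.θ i g := by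
  induction k with
  | zero =>
    have h : (⟨(g : G) ^ p ^ 0, C.pow_pow_mem 0 g.2⟩ : ↥(C.U (i + 0))) = g := by
      apply Subtype.ext
      show (g : G) ^ p ^ 0 = g
      rw [pow_zero, pow_one]
    exact congrArg (C.θ i) h
  | succ k ih =>
    rw [← ih]
    refine Eq.trans ?_ (C.θ_pow (i + k) ⟨(g : G) ^ p ^ k, C.pow_pow_mem k g.2⟩)
    have h : (⟨(g : G) ^ p ^ (k + 1), C.pow_pow_mem (k + 1) g.2⟩ : ↥(C.U (i + k + 1))) =
        ⟨((g : G) ^ p ^ k) ^ p, C.pow_mem _ _ (C.pow_pow_mem k g.2)⟩ := by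
      apply Subtype.ext
      show (g : G) ^ p ^ (k + 1) = ((g : G) ^ p ^ k) ^ p
      rw [pow_succ, pow_mul]
    exact congrArg (C.θ (i + k + 1)) h

theorem central {k : ℕ} {z : ↥(C.U 0)} (hz : (z : G) ∈ C.U k) (x : C.P (k + 1)) :
    C.prj (k + 1) z * x = x * C.prj (k + 1) z := by
  obtain ⟨x, rfl⟩ := C.prj_surj (k + 1) x
  rw [← map_mul, ← map_mul, ← mul_inv_eq_one, ← map_inv, ← map_mul, prj_eq_one]
  have h := C.comm k x z x.2 hz
  have h2 : ((z * x * (x * z)⁻¹ : ↥(C.U 0)) : G) = ((x : G) * z * (x : G)⁻¹ * (z : G)⁻¹)⁻¹ := by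
    push_cast
    group
  rw [h2]
  exact Subgroup.inv_mem _ h

/-- the elements of `U n` modulo `U (n + 1)` -/
theorem exists_digit [hp : Fact p.Prime] (n : ℕ) (u : ↥(C.U 0)) (hu : (u : G) ∈ C.U n) :
    ∃ y : Fin d → ℕ, C.prj (n + 1) u = opow (fun l => C.prj (n + 1) (C.cl l) ^ p ^ n) y := by
  have hm : ∀ l, ((C.cl l : ↥(C.U 0)) : G) ^ p ^ n ∈ C.U n := by
    intro l
    have h := C.pow_pow_mem n (C.cl l).2
    rwa [zero_add] at h
  have hθ : ∀ l, C.θ n ⟨((C.cl l : ↥(C.U 0)) : G) ^ p ^ n, hm l⟩ =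
      Multiplicative.ofAdd (Pi.single l 1) := by
    intro l
    rw [← C.θ_cl l, ← C.θ_pow_pow n (C.cl l)]
    have h0 : ∀ (j : ℕ) (hj : j = n) (x : G) (hx : x ∈ C.U n) (hx' : x ∈ C.U j),
        C.θ n ⟨x, hx⟩ = C.θ j ⟨x, hx'⟩ := by
      intro j hj
      subst hj
      intro x _ _
      rfl
    exact h0 (0 + n) (zero_add n) _ _ _
  set x : Fin d → ZMod p := (C.θ n ⟨u, hu⟩).toAdd with hx
  refine ⟨fun l => (x l).val, ?_⟩
  set z : ↥(C.U n) := opow (fun l => ⟨((C.cl l : ↥(C.U 0)) : G) ^ p ^ n, hm l⟩)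
    (fun l => (x l).val) with hz
  have h1 : C.θ n z = C.θ n ⟨u, hu⟩ := by
    rw [hz, map_opow]
    simp only [hθ]
    rw [opow, List.prod_ofFn]
    have h2 : ∀ l : Fin d, (Multiplicative.ofAdd (Pi.single l (1 : ZMod p)) :
        Multiplicative (Fin d → ZMod p)) ^ (x l).val =
        Multiplicative.ofAdd (Pi.single l (x l)) := by
      intro l
      rw [← ofAdd_nsmul, ← Pi.single_smul, nsmul_eq_mul, mul_one, ZMod.natCast_zmod_val]
    simp only [h2]
    rw [← ofAdd_sum, Finset.univ_sum_single]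
    rfl
  have h3 : (z : G) = ((opow (fun l => C.cl l ^ p ^ n) (fun l => (x l).val) : ↥(C.U 0)) : G) := by
    have e1 : (z : G) = (C.U n).subtype z := rfl
    rw [e1, hz, map_opow]
    have e2 : ((opow (fun l => C.cl l ^ p ^ n) (fun l => (x l).val) : ↥(C.U 0)) : G) =
      (C.U 0).subtype (opow (fun l => C.cl l ^ p ^ n) (fun l => (x l).val)) := rfl
    rw [e2, map_opow]
    rfl
  have h4 : C.prj (n + 1) u = C.prj (n + 1)
      (opow (fun l => C.cl l ^ p ^ n) (fun l => (x l).val)) := by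
    symm
    rw [C.prj_eq]
    have h5 : C.θ n (z⁻¹ * ⟨u, hu⟩) = 1 := by
      rw [map_mul, map_inv, h1, inv_mul_cancel]
    have h6 := (C.θ_ker n _).1 h5
    have h7 : (((opow (fun l => C.cl l ^ p ^ n) (fun l => (x l).val))⁻¹ * u : ↥(C.U 0)) : G) =
        ((z⁻¹ * ⟨u, hu⟩ : ↥(C.U n)) : G) := by
      rw [Subgroup.coe_mul, Subgroup.coe_mul, Subgroup.coe_inv, Subgroup.coe_inv, h3]
    rw [h7]
    exact h6
  rw [h4, map_opow]
  simp only [map_pow]

theorem approx [hp : Fact p.Prime] (m k : ℕ) (g : ↥(C.U 0)) (hg : (g : G) ∈ C.U m) :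
    ∃ a : Fin d → ℕ, (∀ l, p ^ m ∣ a l) ∧
      C.prj (m + k) g = opow (fun l => C.prj (m + k) (C.cl l)) a := by
  induction k with
  | zero =>
    refine ⟨0, fun l => dvd_zero _, ?_⟩
    rw [opow_zero]
    exact C.prj_eq_one.2 hg
  | succ k ih =>
    obtain ⟨a, ha, h1⟩ := ih
    have h2 : (((opow C.cl a)⁻¹ * g : ↥(C.U 0)) : G) ∈ C.U (m + k) := by
      rw [← prj_eq, h1, map_opow]
    obtain ⟨y, hy⟩ := C.exists_digit (m + k) _ h2
    refine ⟨fun l => a l + p ^ (m + k) * y l, fun l => ?_, ?_⟩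
    · exact dvd_add (ha l) (dvd_mul_of_dvd_left (pow_dvd_pow p (by omega)) _)
    · have h3 : C.prj (m + k + 1) g = C.prj (m + k + 1) (opow C.cl a) *
          C.prj (m + k + 1) ((opow C.cl a)⁻¹ * g) := by
        rw [← map_mul, mul_inv_cancel_left]
      show C.prj (m + k + 1) g = _
      rw [h3, hy, map_opow, ← opow_add_central]
      · rfl
      · intro l x
        rw [← map_pow]
        refine C.central ?_ x
        have h := C.pow_pow_mem (m + k) (C.cl l).2
        rw [zero_add] at h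
        exact h

theorem card_P [hp : Fact p.Prime] (k : ℕ) : Nat.card (C.P k) = p ^ (k * d) := by
  have h : ∀ k, (C.U k).relIndex (C.U 0) = p ^ (k * d) := by
    intro k
    induction k with
    | zero => rw [Subgroup.relIndex_self, zero_mul, pow_zero]
    | succ k ih =>
      rw [← Subgroup.relIndex_mul_relIndex _ _ _ (C.le k) (C.anti (Nat.zero_le k)), ih]
      have h1 : (C.U (k + 1)).relIndex (C.U k) = p ^ d := by
        have h2 : (C.U (k + 1)).subgroupOf (C.U k) = (C.θ k).ker := by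
          ext g
          rw [Subgroup.mem_subgroupOf, MonoidHom.mem_ker, C.θ_ker]
        rw [Subgroup.relIndex, h2, Subgroup.index_ker,
          MonoidHom.range_eq_top.2 (C.θ_surj k)]
        rw [Nat.card_congr (Subgroup.topEquiv (G := Multiplicative (Fin d → ZMod p))).toEquiv,
          Nat.card_congr (Multiplicative.toAdd (α := Fin d → ZMod p)), Nat.card_eq_fintype_card,
          Fintype.card_fun, ZMod.card, Fintype.card_fin]
      rw [h1, ← pow_add, add_mul, one_mul, add_comm]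
  exact h k

/-- the tower of a chain -/
def tower [hp : Fact p.Prime] : Tower p (p ^ s) d where
  hq := ⟨s, rfl⟩
  h3 := C.h3
  P k := C.P k
  grp k := inferInstance
  fin k := Fintype.ofFinite _
  pr k := C.pr k
  c k l := C.prj k (C.cl l)
  pr_c k l := rfl
  card k := by
    rw [← @Nat.card_eq_fintype_card (C.P k) (Fintype.ofFinite _)]
    exact C.card_P k
  gen k g := by
    obtain ⟨g, rfl⟩ := C.prj_surj k g
    obtain ⟨a, -, h⟩ := C.approx 0 k g g.2
    rw [zero_add] at h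
    exact ⟨a, h⟩
  c_pow k l := by
    rw [← map_pow, prj_eq_one]
    have h := C.pow_pow_mem k (C.cl l).2
    rwa [zero_add] at h
  comm k i j := by
    obtain ⟨a, ha, h⟩ := C.approx s k (C.cl i * C.cl j * (C.cl i)⁻¹ * (C.cl j)⁻¹)
      (C.comm0 _ _ (C.cl i).2 (C.cl j).2)
    have hk : ∀ n, C.prj k n = (QuotientGroup.map _ _ (MonoidHom.id _) (by
        intro g hg
        rw [Subgroup.mem_subgroupOf] at hg
        rw [Subgroup.mem_comap, MonoidHom.id_apply, Subgroup.mem_subgroupOf]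
        exact C.anti (by omega) hg) : C.P (s + k) →* C.P k) (C.prj (s + k) n) := fun n => rfl
    rw [← map_mul, ← map_inv, ← map_mul, ← map_inv, ← map_mul, hk, h, map_opow]
    rw [opow]
    refine Subgroup.list_prod_mem _ fun x hx => ?_
    rw [List.mem_ofFn] at hx
    obtain ⟨l, rfl⟩ := hx
    obtain ⟨b, hb⟩ := ha l
    refine Subgroup.subset_closure ⟨(C.prj k (C.cl l)) ^ b, ?_⟩
    show ((C.prj k (C.cl l)) ^ b) ^ p ^ s = (C.prj k (C.cl l)) ^ a l
    rw [← pow_mul, hb, mul_comm]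

end Chain

end Pool.Agent.MCG
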