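import Pool.Agent.MCG.XD

set_option autoImplicit false
set_option linter.unusedSectionVars false

noncomputable section

open Classical

/-!
PACKAGE MCG-XB. `Λ = lim R[Q k]` is a free left module over `L = lim R[P k]` with the basis
`elQ (rp x)`, `x ∈ Q 0`.

* `coF X R a x k ∈ R[P k]`: the coefficient at `u` is the coefficient of `a k` at `dec k (u, x)`.
  `coF_compat`: the coefficient of `mapDomain f b` at `y` is the sum of the coefficients of `b` at
  the `z` with `f z = y`. The elements of `Q (k+1)` over `dec k (u, x)` are the `dec (k+1) (v, x)`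
  with `T.pr k v = u` (`pr_dec`, `dec` is bijective), and `a k = mapDomain (a (k+1))`. (One may
  write `a (k+1) = ∑ v x, single (dec (v, x)) (coefficient)` and compute both sides.)
* `co_spec`: at every level `k` both sides have the coefficient of `a k` at `dec k (u, x)`:
  `inc (co x a) * elQ (rp x)` at the level `k` is `∑ u, single (j k u * e k (rp x)) (coeff)`.
* `co_sum`: the coefficient at `dec k (u, y)`: only the term `x = y` contributes.
* `co_inc_mul`, `co_add`: from `co_spec`, `co_sum` (uniqueness) or coefficientwise.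
-/

namespace Pool.Agent.MCG

open MonoidAlgebra Pool.Agent.Lvl

variable {p q d : ℕ} {T : Tower p q d} {G : Type} [Group G] (X : XT T G) (R : Type) [CommRing R]

private lemma single_sum_XB {M : Type} [Fintype M] (b : MonoidAlgebra R M) :
    b = ∑ z : M, single z (b.coeff z) := by
  apply MonoidAlgebra.ext
  apply Finsupp.ext
  intro y
  rw [coeff_sum, Finsupp.finsetSum_apply, Finset.sum_eq_single y]
  · rw [coeff_single, Finsupp.single_apply, if_pos rfl]
  · intro z _ hz
    rw [coeff_single, Finsupp.single_apply, if_neg hz]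
  · intro h
    exact absurd (Finset.mem_univ _) h

private lemma coeff_single_sum_XB {M : Type} [Fintype M] (f : M → R) (y : M) :
    (∑ z : M, single z (f z) : MonoidAlgebra R M).coeff y = f y := by
  rw [coeff_sum, Finsupp.finsetSum_apply, Finset.sum_eq_single y]
  · rw [coeff_single, Finsupp.single_apply, if_pos rfl]
  · intro z _ hz
    rw [coeff_single, Finsupp.single_apply, if_neg hz]
  · intro h
    exact absurd (Finset.mem_univ _) h

private lemma map_coeff_XB {M N : Type} [Monoid M] [Monoid N] [Fintype M] (φ : M →* N)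
    (b : MonoidAlgebra R M) (y : N) :
    (mapDomainRingHom R φ b).coeff y = ∑ z : M, if φ z = y then b.coeff z else 0 := by
  conv_lhs => rw [single_sum_XB R b]
  rw [map_sum, coeff_sum, Finsupp.finsetSum_apply]
  refine Finset.sum_congr rfl fun z _ => ?_
  rw [mapDomainRingHom_apply, mapDomain_single, coeff_single, Finsupp.single_apply]

/-- the coordinates at the level `k` -/
def coF (a : LimQ X R) (x : X.Q 0) (k : ℕ) : MonoidAlgebra R (T.P k) :=
  ∑ u : T.P k, single u ((a.1 k).coeff (dec X k (u, x)))

lemma coF_coeff (a : LimQ X R) (x : X.Q 0) (k : ℕ) (u : T.P k) :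
    (coF X R a x k).coeff u = (a.1 k).coeff (dec X k (u, x)) := by
  exact coeff_single_sum_XB R (fun u => (a.1 k).coeff (dec X k (u, x))) u

theorem coF_compat (a : LimQ X R) (x : X.Q 0) (k : ℕ) :
    mapDomainRingHom R (T.pr k) (coF X R a x (k + 1)) = coF X R a x k := by
  apply MonoidAlgebra.ext
  apply Finsupp.ext
  intro y
  rw [coF_coeff, map_coeff_XB]
  have h1 : mapDomainRingHom R (X.pr k) (a.1 (k + 1)) = a.1 k := a.2 k
  rw [← h1, map_coeff_XB, ← Equiv.sum_comp (dec X (k + 1)), Fintype.sum_prod_type]
  refine Finset.sum_congr rfl fun v _ => ?_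
  rw [Finset.sum_eq_single x]
  · rw [coF_coeff, pr_dec]
    by_cases h : T.pr k v = y
    · rw [if_pos h, if_pos (by rw [h])]
    · rw [if_neg h, if_neg]
      intro h2
      exact h (congrArg Prod.fst ((dec X k).injective h2))
  · intro x' _ hx'
    rw [pr_dec, if_neg]
    intro h2
    exact hx' (congrArg Prod.snd ((dec X k).injective h2))
  · intro h
    exact absurd (Finset.mem_univ _) h

/-- the coordinates of an element of `lim R[Q k]` -/
def co (x : X.Q 0) (a : LimQ X R) : Lim T R := ⟨fun k => coF X R a x k, coF_compat X R a x⟩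

lemma co_coeff (a : LimQ X R) (x : X.Q 0) (k : ℕ) (u : T.P k) :
    ((co X R x a).1 k).coeff u = (a.1 k).coeff (dec X k (u, x)) := coF_coeff X R a x k u

private lemma sum_val_XB (f : X.Q 0 → LimQ X R) (k : ℕ) :
    (∑ x, f x : LimQ X R).1 k = ∑ x, (f x).1 k := by
  have h1 : ((∑ x, f x : LimQ X R) : ∀ k, MonoidAlgebra R (X.Q k)) = ∑ x, (f x).1 :=
    AddSubmonoidClass.coe_finsetSum f Finset.univ
  show ((∑ x, f x : LimQ X R) : ∀ k, MonoidAlgebra R (X.Q k)) k = _
  rw [h1, Finset.sum_apply]

private lemma inc_mul_XB (b : Lim T R) (x : X.Q 0) (k : ℕ) :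
    (inc X R b * elQ X R (rp X x)).1 k =
      ∑ u : T.P k, single (dec X k (u, x)) ((b.1 k).coeff u) := by
  show mapDomainRingHom R (X.j k) (b.1 k) * single (X.e k (rp X x)) 1 = _
  conv_lhs => rw [single_sum_XB R (b.1 k)]
  rw [map_sum, Finset.sum_mul]
  refine Finset.sum_congr rfl fun u _ => ?_
  rw [mapDomainRingHom_apply, mapDomain_single, single_mul_single, mul_one, dec_apply]

theorem co_spec (a : LimQ X R) : a = ∑ x, inc X R (co X R x a) * elQ X R (rp X x) := by
  apply Subtype.ext
  funext k
  rw [sum_val_XB]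
  simp only [inc_mul_XB, co_coeff]
  conv_lhs => rw [single_sum_XB R (a.1 k)]
  rw [← Equiv.sum_comp (dec X k), Fintype.sum_prod_type_right]

theorem co_sum (b : X.Q 0 → Lim T R) (y : X.Q 0) :
    co X R y (∑ x, inc X R (b x) * elQ X R (rp X x)) = b y := by
  apply Subtype.ext
  funext k
  apply MonoidAlgebra.ext
  apply Finsupp.ext
  intro u
  rw [co_coeff, sum_val_XB, coeff_sum, Finsupp.finsetSum_apply, Finset.sum_eq_single y]
  · rw [inc_mul_XB, coeff_sum, Finsupp.finsetSum_apply, Finset.sum_eq_single u]
    · rw [coeff_single, Finsupp.single_apply, if_pos rfl]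
    · intro v _ hv
      rw [coeff_single, Finsupp.single_apply, if_neg]
      intro h
      exact hv (congrArg Prod.fst ((dec X k).injective h))
    · intro h
      exact absurd (Finset.mem_univ _) h
  · intro x _ hx
    rw [inc_mul_XB, coeff_sum, Finsupp.finsetSum_apply]
    refine Finset.sum_eq_zero fun v _ => ?_
    rw [coeff_single, Finsupp.single_apply, if_neg]
    intro h
    exact hx (congrArg Prod.snd ((dec X k).injective h))
  · intro h
    exact absurd (Finset.mem_univ _) h

theorem co_add (x : X.Q 0) (a b : LimQ X R) : co X R x (a + b) = co X R x a + co X R x b := by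
  apply Subtype.ext
  funext k
  apply MonoidAlgebra.ext
  apply Finsupp.ext
  intro u
  rw [co_coeff]
  show (a.1 k + b.1 k).coeff (dec X k (u, x)) =
    ((co X R x a).1 k + (co X R x b).1 k).coeff u
  rw [coeff_add, coeff_add, Finsupp.add_apply, Finsupp.add_apply, co_coeff, co_coeff]

theorem co_inc_mul (x : X.Q 0) (r : Lim T R) (a : LimQ X R) :
    co X R x (inc X R r * a) = r * co X R x a := by
  have h1 : inc X R r * a = ∑ y, inc X R (r * co X R y a) * elQ X R (rp X y) := by
    conv_lhs => rw [co_spec X R a]
    rw [Finset.mul_sum]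
    refine Finset.sum_congr rfl fun y _ => ?_
    rw [map_mul, mul_assoc]
  rw [h1, co_sum]

end Pool.Agent.MCG
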