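import Pool.Agent.MCG.XH
import Pool.Agent.Lvl.Elim

set_option autoImplicit false
set_option linter.unusedSectionVars false

noncomputable section

open Classical

/-!
PACKAGE MCG-XC. The operators of `A` on `ℚ_p[Q k]` and of `hatM A` on `ℚ_p[P k]`.

`lmQ X k a` is the matrix of left multiplication by `a k` on functions on `Q k`, `rhoQ` its linear
map: `(rhoQ a v) z = ∑ z', a k (z z'⁻¹) * v z'`.
Let `th k v x u = v ((e k (rp x))⁻¹ * j k u)`, a linear map
`(Q k → ℚ_p) → (Q 0 → (P k → ℚ_p))`; it is bijective: `z⁻¹ = (j k u)⁻¹ * e k (rp x)` for unique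
`u`, `x` (`dec_bij`).
* `th_rho`: `th (rhoQ a v) x = ∑ y, rho T k (hat a x y) (th v y)`. Proof: for `g ∈ G` let
  `(g v) z = v ((e k g)⁻¹ z)`, this is `rhoQ (elQ g) v`, and `th v x = (rhoQ (elQ (rp x)) v) ∘ j k`.
  So `th (rhoQ a v) x = (rhoQ (elQ (rp x) * a) v) ∘ j k = ∑ y, (rhoQ (inc (hat a x y)) (rhoQ (elQ
  (rp y)) v)) ∘ j k` by `elQ_mul`, and `(rhoQ (inc r) w) ∘ j k = rho T k r (w ∘ j k)`:
  `(rhoQ (inc r) w) (j u) = ∑ z', (inc r) k (j u * z'⁻¹) * w z'`, the coefficient of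
  `mapDomain (j k) (r k)` at `j u * z'⁻¹` is zero unless `z' = j u'`, and then it is
  `r k (u * u'⁻¹)` (`j` is injective).
* `finrank_ker_hat`: `ker (op (rhoQ k) A)` corresponds to `ker (op (rho T k) (hatM A))` under the
  linear equivalence `(ι → (Q k → ℚ_p)) ≃ (ι × Q 0 → (P k → ℚ_p))`, `v ↦ fun (i, x) => th (v i) x`.
-/

namespace Pool.Agent.MCG

open MonoidAlgebra Pool.Agent.Lvl Module

variable {p q d : ℕ} [hp : Fact p.Prime] {T : Tower p q d} {G : Type} [Group G] (X : XT T G)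

/-- the matrix of left multiplication at the level `k` -/
def lmQ (k : ℕ) : LimQ X ℤ_[p] →+* Matrix (X.Q k) (X.Q k) ℚ_[p] :=
  (lm ℚ_[p] (X.Q k)).comp ((mapRingHom (X.Q k) (algebraMap ℤ_[p] ℚ_[p])).comp
    ((Pi.evalRingHom (fun k => MonoidAlgebra ℤ_[p] (X.Q k)) k).comp (LimQ X ℤ_[p]).subtype))

lemma lmQ_apply (k : ℕ) (a : LimQ X ℤ_[p]) (x y : X.Q k) :
    lmQ X k a x y = algebraMap ℤ_[p] ℚ_[p] ((a.1 k).coeff (x * y⁻¹)) := by
  simp [lmQ, lm_apply]

/-- left multiplication at the level `k` -/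
def rhoQ (k : ℕ) : LimQ X ℤ_[p] →+* Module.End ℚ_[p] (X.Q k → ℚ_[p]) :=
  (Matrix.toLinAlgEquiv' (R := ℚ_[p]) (n := X.Q k)).toRingEquiv.toRingHom.comp (lmQ X k)

lemma rhoQ_apply (k : ℕ) (a : LimQ X ℤ_[p]) : rhoQ X k a = (lmQ X k a).mulVecLin := rfl

/-- the decomposition of functions on `Q k` -/
def th (k : ℕ) : (X.Q k → ℚ_[p]) →ₗ[ℚ_[p]] (X.Q 0 → (T.P k → ℚ_[p])) where
  toFun v x u := v ((X.e k (rp X x))⁻¹ * X.j k u)
  map_add' _ _ := rfl
  map_smul' _ _ := rfl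

/-- `(x, u) ↦ (e (rp x))⁻¹ * j u` -/
private def ed_XC (k : ℕ) : X.Q 0 × T.P k ≃ X.Q k :=
  (((Equiv.prodComm (X.Q 0) (T.P k)).trans
    ((Equiv.inv (T.P k)).prodCongr (Equiv.refl (X.Q 0)))).trans (dec X k)).trans
      (Equiv.inv (X.Q k))

private lemma ed_apply_XC (k : ℕ) (x : X.Q 0) (u : T.P k) :
    ed_XC X k (x, u) = (X.e k (rp X x))⁻¹ * X.j k u := by
  show (dec X k (u⁻¹, x))⁻¹ = _
  rw [dec_apply, mul_inv_rev, map_inv, inv_inv]

private lemma th_ed_XC (k : ℕ) (v : X.Q k → ℚ_[p]) (x : X.Q 0) (u : T.P k) :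
    th X k v x u = v (ed_XC X k (x, u)) := by
  rw [ed_apply_XC]
  rfl

theorem th_bij (k : ℕ) : Function.Bijective (th X k) := by
  constructor
  · intro v w h
    funext z
    obtain ⟨⟨x, u⟩, rfl⟩ := (ed_XC X k).surjective z
    rw [← th_ed_XC X k v x u, ← th_ed_XC X k w x u, h]
  · intro w
    refine ⟨fun z => w ((ed_XC X k).symm z).1 ((ed_XC X k).symm z).2, ?_⟩
    funext x u
    rw [th_ed_XC, Equiv.symm_apply_apply]

theorem th_rho (k : ℕ) (a : LimQ X ℤ_[p]) (v : X.Q k → ℚ_[p]) (x : X.Q 0) :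
    th X k (rhoQ X k a v) x = ∑ y, rho T k (hat X ℤ_[p] a x y) (th X k v y) := by
  funext u
  have h1 : th X k (rhoQ X k a v) x u =
      ∑ z, lmQ X k a (ed_XC X k (x, u)) z * v z := by
    rw [th_ed_XC]
    rfl
  have h2 : (∑ y, rho T k (hat X ℤ_[p] a x y) (th X k v y)) u =
      ∑ y, ∑ u', lmL T k (hat X ℤ_[p] a x y) u u' * v (ed_XC X k (y, u')) := by
    rw [Finset.sum_apply]
    refine Finset.sum_congr rfl fun y _ => ?_
    have h3 : rho T k (hat X ℤ_[p] a x y) (th X k v y) u =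
        ∑ u', lmL T k (hat X ℤ_[p] a x y) u u' * th X k v y u' := rfl
    rw [h3]
    exact Finset.sum_congr rfl fun u' _ => by rw [th_ed_XC]
  rw [h1, h2, ← (ed_XC X k).sum_comp, Fintype.sum_prod_type]
  refine Finset.sum_congr rfl fun y _ => Finset.sum_congr rfl fun u' _ => ?_
  congr 1
  rw [lmQ_apply, lmL_apply]
  congr 1
  have h4 : ((hat X ℤ_[p] a x y).1 k).coeff (u * u'⁻¹) =
      ((elQ X ℤ_[p] (rp X x) * a).1 k).coeff (dec X k (u * u'⁻¹, y)) :=
    co_coeff X ℤ_[p] (elQ X ℤ_[p] (rp X x) * a) y k (u * u'⁻¹)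
  have h5 : (elQ X ℤ_[p] (rp X x) * a).1 k = single (X.e k (rp X x)) 1 * a.1 k := rfl
  rw [h4, h5, coeff_single_mul_apply, one_mul, dec_apply, ed_apply_XC, ed_apply_XC]
  congr 1
  rw [map_mul, map_inv, mul_inv_rev, inv_inv]
  group

theorem finrank_ker_hat {ι κ : Type} [Fintype ι] [Fintype κ] (A : Matrix κ ι (LimQ X ℤ_[p]))
    (k : ℕ) : finrank ℚ_[p] (LinearMap.ker (op (rhoQ X k) A)) =
      finrank ℚ_[p] (LinearMap.ker (op (rho T k) (hatM X ℤ_[p] A))) := by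
  let E := fun (l : Type) => (LinearEquiv.ofBijective
    ({ toFun := fun v a => th X k (v a.1) a.2
       map_add' := fun v w => by
         funext a
         show th X k (v a.1 + w a.1) a.2 = _
         rw [map_add]
         rfl
       map_smul' := fun c v => by
         funext a
         show th X k (c • v a.1) a.2 = _
         rw [map_smul]
         rfl } : (l → (X.Q k → ℚ_[p])) →ₗ[ℚ_[p]] (l × X.Q 0 → (T.P k → ℚ_[p])))
    (by
      constructor
      · intro v w h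
        funext i
        apply (th_bij X k).1
        funext x
        exact congrFun h (i, x)
      · intro w
        choose v hv using fun i => (th_bij X k).2 (fun x => w (i, x))
        exact ⟨v, funext fun a => congrFun (hv a.1) a.2⟩))
  have hE : ∀ (l : Type) (v : l → (X.Q k → ℚ_[p])) (a : l × X.Q 0),
      E l v a = th X k (v a.1) a.2 := fun _ _ _ => rfl
  have h1 : ∀ v, E κ (op (rhoQ X k) A v) = op (rho T k) (hatM X ℤ_[p] A) (E ι v) := by
    intro v
    funext a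
    rw [hE, op_apply, op_apply, map_sum, Finset.sum_apply, Fintype.sum_prod_type]
    refine Finset.sum_congr rfl fun i _ => ?_
    rw [th_rho]
    rfl
  have h2 : LinearMap.ker (op (rho T k) (hatM X ℤ_[p] A)) =
      (LinearMap.ker (op (rhoQ X k) A)).map ((E ι : (ι → (X.Q k → ℚ_[p])) ≃ₗ[ℚ_[p]]
        (ι × X.Q 0 → (T.P k → ℚ_[p]))) : (ι → (X.Q k → ℚ_[p])) →ₗ[ℚ_[p]]
        (ι × X.Q 0 → (T.P k → ℚ_[p]))) := by
    ext w
    rw [LinearMap.mem_ker, Submodule.mem_map]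
    constructor
    · intro h
      refine ⟨(E ι).symm w, ?_, (E ι).apply_symm_apply w⟩
      rw [LinearMap.mem_ker]
      apply (E κ).injective
      rw [h1, (E ι).apply_symm_apply, h, map_zero]
    · rintro ⟨v, hv, rfl⟩
      rw [LinearMap.mem_ker] at hv
      have h3 := h1 v
      rw [hv, map_zero] at h3
      exact h3.symm
  rw [h2]
  exact (LinearEquiv.finrank_map_eq (E ι) _).symm

end Pool.Agent.MCG
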