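import Pool.Agent.MCG.XT

set_option autoImplicit false
set_option linter.unusedSectionVars false

noncomputable section

/-!
PACKAGE MCG-XD. Cosets: every element of `Q k` is uniquely `j k u * e k (rp x)`, `u ∈ P k`,
`x ∈ Q 0`.

* `cQ k : Q k → Q 0` is the composed map. `cQ_e`: induction. `cQ_range`: induction on `k`: `P 0` has
  one element (`T.card 0`), so `(j 0).range = ⊥`; step: `j_ker` and `j_pr`.
* `dec_bij`: injective: apply `cQ k` (`cQ (j u) = 1`, `cQ_e`, `e_rp`) to get `x`, then `j_inj`.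
  Surjective: for `z` let `x = cQ k z`, then `z * (e k (rp x))⁻¹ ∈ (j k).range` by `cQ_range`.
* `card_Q`: `Fintype.card_congr` with `dec`.
-/

namespace Pool.Agent.MCG

open Pool.Agent.Lvl

variable {p q d : ℕ} {T : Tower p q d} {G : Type} [Group G] (X : XT T G)

/-- the map to the level `0` -/
def cQ : ∀ k, X.Q k →* X.Q 0
  | 0 => MonoidHom.id _
  | k + 1 => (cQ k).comp (X.pr k)

lemma cQ_e (k : ℕ) (g : G) : cQ X k (X.e k g) = X.e 0 g := by
  induction k with
  | zero => rfl
  | succ k ih =>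
    have h : cQ X (k + 1) (X.e (k + 1) g) = cQ X k (X.pr k (X.e (k + 1) g)) := rfl
    rw [h, X.e_pr, ih]

lemma cQ_range (k : ℕ) (z : X.Q k) : z ∈ (X.j k).range ↔ cQ X k z = 1 := by
  induction k with
  | zero =>
    have hs : Subsingleton (T.P 0) := by
      rw [← Fintype.card_le_one_iff_subsingleton, T.card 0, Nat.zero_mul, pow_zero]
    have h0 : cQ X 0 z = z := rfl
    rw [h0]
    constructor
    · rintro ⟨u, rfl⟩
      rw [Subsingleton.elim u 1, map_one]
    · intro h
      exact ⟨1, by rw [map_one, h]⟩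
  | succ k ih =>
    have h : cQ X (k + 1) z = cQ X k (X.pr k z) := rfl
    rw [h, ← ih (X.pr k z)]
    constructor
    · rintro ⟨u, rfl⟩
      exact ⟨T.pr k u, (X.j_pr k u).symm⟩
    · exact X.j_ker k z

theorem dec_bij (k : ℕ) : Function.Bijective
    (fun w : T.P k × X.Q 0 => X.j k w.1 * X.e k (rp X w.2)) := by
  have hc : ∀ (u : T.P k) (x : X.Q 0), cQ X k (X.j k u * X.e k (rp X x)) = x := by
    intro u x
    rw [map_mul, (cQ_range X k (X.j k u)).1 ⟨u, rfl⟩, one_mul, cQ_e, e_rp]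
  constructor
  · rintro ⟨u, x⟩ ⟨v, y⟩ h
    have h' : X.j k u * X.e k (rp X x) = X.j k v * X.e k (rp X y) := h
    have hxy : x = y := by
      rw [← hc u x, ← hc v y, h']
    subst hxy
    have h2 : X.j k u = X.j k v := mul_right_cancel h'
    rw [X.j_inj k h2]
  · intro z
    have hz : z * (X.e k (rp X (cQ X k z)))⁻¹ ∈ (X.j k).range := by
      rw [cQ_range, map_mul, map_inv, cQ_e, e_rp, mul_inv_cancel]
    obtain ⟨u, hu⟩ := hz
    refine ⟨(u, cQ X k z), ?_⟩
    show X.j k u * X.e k (rp X (cQ X k z)) = z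
    rw [hu, inv_mul_cancel_right]

/-- coset decomposition -/
def dec (k : ℕ) : T.P k × X.Q 0 ≃ X.Q k := Equiv.ofBijective _ (dec_bij X k)

lemma dec_apply (k : ℕ) (u : T.P k) (x : X.Q 0) :
    dec X k (u, x) = X.j k u * X.e k (rp X x) := rfl

lemma pr_dec (k : ℕ) (u : T.P (k + 1)) (x : X.Q 0) :
    X.pr k (dec X (k + 1) (u, x)) = dec X k (T.pr k u, x) := by
  rw [dec_apply, dec_apply, map_mul, X.j_pr, X.e_pr]

theorem card_Q (k : ℕ) :
    Fintype.card (X.Q k) = Fintype.card (T.P k) * Fintype.card (X.Q 0) := by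
  rw [← Fintype.card_prod]
  exact (Fintype.card_congr (dec X k)).symm

end Pool.Agent.MCG
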