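import Pool.Agent.MCG.XB
import Pool.Agent.Lvl.LimZ

set_option autoImplicit false
set_option linter.unusedSectionVars false

noncomputable section

open Classical

/-!
PACKAGE MCG-XH. Matrices over `Λ = lim R[Q k]` as matrices over `L = lim R[P k]`; `Λ` is Noetherian.

`hat a : Q 0 × Q 0 → L`: `elQ (rp x) * a = ∑ y, inc (hat a x y) * elQ (rp y)` (`co_spec`).
`hatM A` is the matrix with the blocks `hat (A j i)`. A row `w : κ × Q 0 → L` corresponds to the
row `uh w : κ → Λ`, `uh w j = ∑ x, inc (w (j, x)) * elQ (rp x)` (bijectively: `co_spec`,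
`co_sum`).
* `uh_vecMul`: `(uh w ᵥ* A) i = ∑ j, uh w j * A j i = ∑ j x, inc (w (j, x)) * (elQ (rp x) * A j i) =
  ∑ y, inc (∑ j x, w (j, x) * hat (A j i) x y) * elQ (rp y)`.
* `exact_hat`: from `uh_vecMul`, `uh_inj`, `uh_surj`.
* `noeth_Q`: give `Λ` the structure of a left `L`-module by `inc` (`Module.compHom`, as a local
  instance); it is generated by the finitely many `elQ (rp x)` (`co_spec`), so it is Noetherian over
  `L = lim ℤ_p[P k]` (instance in `Lvl/LimZ.lean`), so also over `Λ` (`isNoetherian_of_tower`).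
-/

namespace Pool.Agent.MCG

open MonoidAlgebra Pool.Agent.Lvl

variable {p q d : ℕ} {T : Tower p q d} {G : Type} [Group G] (X : XT T G)

section

variable (R : Type) [CommRing R]

/-- the matrix of right multiplication -/
def hat (a : LimQ X R) : Matrix (X.Q 0) (X.Q 0) (Lim T R) := fun x y =>
  co X R y (elQ X R (rp X x) * a)

lemma elQ_mul (a : LimQ X R) (x : X.Q 0) : elQ X R (rp X x) * a =
    ∑ y, inc X R (hat X R a x y) * elQ X R (rp X y) := co_spec X R _

/-- a matrix over `lim R[Q k]` as a matrix over `lim R[P k]` -/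
def hatM {ι κ : Type} (A : Matrix κ ι (LimQ X R)) : Matrix (κ × X.Q 0) (ι × X.Q 0) (Lim T R) :=
  fun a b => hat X R (A a.1 b.1) a.2 b.2

/-- the row over `lim R[Q k]` of a row over `lim R[P k]` -/
def uh {κ : Type} (w : κ × X.Q 0 → Lim T R) : κ → LimQ X R := fun j =>
  ∑ x, inc X R (w (j, x)) * elQ X R (rp X x)

theorem uh_inj {κ : Type} : Function.Injective (uh X R (κ := κ)) := by
  intro w w' h
  funext a
  have h1 := congrArg (co X R a.2) (congrFun h a.1)
  unfold uh at h1
  rw [co_sum X R (fun x => w (a.1, x)), co_sum X R (fun x => w' (a.1, x))] at h1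
  exact h1

theorem uh_surj {κ : Type} : Function.Surjective (uh X R (κ := κ)) := by
  intro v
  refine ⟨fun a => co X R a.2 (v a.1), ?_⟩
  funext j
  exact (co_spec X R (v j)).symm

theorem uh_vecMul {ι κ : Type} [Fintype κ] (A : Matrix κ ι (LimQ X R))
    (w : κ × X.Q 0 → Lim T R) :
    Matrix.vecMul (uh X R w) A = uh X R (Matrix.vecMul w (hatM X R A)) := by
  funext i
  have h1 : ∀ j, uh X R w j * A j i =
      ∑ x, ∑ y, inc X R (w (j, x) * hat X R (A j i) x y) * elQ X R (rp X y) := by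
    intro j
    unfold uh
    rw [Finset.sum_mul]
    refine Finset.sum_congr rfl fun x _ => ?_
    rw [mul_assoc, elQ_mul, Finset.mul_sum]
    refine Finset.sum_congr rfl fun y _ => ?_
    rw [map_mul, mul_assoc]
  have h2 : ∀ y, (Matrix.vecMul w (hatM X R A)) (i, y) =
      ∑ j, ∑ x, w (j, x) * hat X R (A j i) x y := by
    intro y
    simp only [Matrix.vecMul, dotProduct, hatM]
    rw [Fintype.sum_prod_type]
  calc Matrix.vecMul (uh X R w) A i = ∑ j, uh X R w j * A j i := rfl
    _ = ∑ j, ∑ x, ∑ y, inc X R (w (j, x) * hat X R (A j i) x y) * elQ X R (rp X y) :=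
        Finset.sum_congr rfl fun j _ => h1 j
    _ = ∑ j, ∑ y, ∑ x, inc X R (w (j, x) * hat X R (A j i) x y) * elQ X R (rp X y) :=
        Finset.sum_congr rfl fun j _ => Finset.sum_comm
    _ = ∑ y, ∑ j, ∑ x, inc X R (w (j, x) * hat X R (A j i) x y) * elQ X R (rp X y) :=
        Finset.sum_comm
    _ = uh X R (Matrix.vecMul w (hatM X R A)) i := by
        unfold uh
        refine Finset.sum_congr rfl fun y _ => ?_
        rw [h2 y, map_sum, Finset.sum_mul]
        refine Finset.sum_congr rfl fun j _ => ?_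
        rw [map_sum, Finset.sum_mul]

private lemma uh_zero_XH {κ : Type} : uh X R (0 : κ × X.Q 0 → Lim T R) = 0 := by
  funext j
  unfold uh
  simp

theorem exact_hat {ι κ lam : Type} [Fintype κ] [Fintype lam] (A : Matrix κ ι (LimQ X R))
    (B : Matrix lam κ (LimQ X R))
    (h : ∀ w : κ → LimQ X R, Matrix.vecMul w A = 0 ↔ ∃ v : lam → LimQ X R, w = Matrix.vecMul v B)
    (w : κ × X.Q 0 → Lim T R) : Matrix.vecMul w (hatM X R A) = 0 ↔
      ∃ v : lam × X.Q 0 → Lim T R, w = Matrix.vecMul v (hatM X R B) := by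
  have h1 : Matrix.vecMul w (hatM X R A) = 0 ↔ Matrix.vecMul (uh X R w) A = 0 := by
    rw [uh_vecMul]
    constructor
    · intro h0
      rw [h0, uh_zero_XH]
    · intro h0
      apply uh_inj X R
      rw [h0, uh_zero_XH]
  rw [h1, h]
  constructor
  · rintro ⟨v, hv⟩
    obtain ⟨v', rfl⟩ := uh_surj X R v
    refine ⟨v', uh_inj X R ?_⟩
    rw [hv, uh_vecMul]
  · rintro ⟨v, rfl⟩
    exact ⟨uh X R v, (uh_vecMul X R B v).symm⟩

end

instance noeth_Q [hp : Fact p.Prime] : IsNoetherianRing (LimQ X ℤ_[p]) := by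
  letI : Module (Lim T ℤ_[p]) (LimQ X ℤ_[p]) := Module.compHom _ (inc X ℤ_[p])
  have hsm : ∀ (r : Lim T ℤ_[p]) (a : LimQ X ℤ_[p]), r • a = inc X ℤ_[p] r * a :=
    fun r a => rfl
  haveI : IsScalarTower (Lim T ℤ_[p]) (LimQ X ℤ_[p]) (LimQ X ℤ_[p]) :=
    ⟨fun r a b => by rw [hsm, hsm, smul_eq_mul, smul_eq_mul, mul_assoc]⟩
  haveI : Module.Finite (Lim T ℤ_[p]) (LimQ X ℤ_[p]) := by
    refine ⟨⟨Finset.univ.image fun x => elQ X ℤ_[p] (rp X x), ?_⟩⟩
    rw [eq_top_iff]
    intro a _
    rw [co_spec X ℤ_[p] a]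
    refine Submodule.sum_mem _ fun x _ => ?_
    rw [← hsm]
    refine Submodule.smul_mem _ _ (Submodule.subset_span ?_)
    exact Finset.mem_coe.2 (Finset.mem_image_of_mem _ (Finset.mem_univ x))
  exact isNoetherian_of_tower (Lim T ℤ_[p]) (isNoetherian_of_isNoetherianRing_of_finite _ _)

end Pool.Agent.MCG
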