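import Pool.Agent.MCG.XB
import Pool.Agent.MCG.FinLem

set_option autoImplicit false
set_option linter.unusedSectionVars false

noncomputable section

open Classical

/-!
PACKAGE MCG-XL. The rank of a module over `Λ = lim ℤ_p[Q k]` which is free over `L = lim ℤ_p[P k]`
is divisible by the order of `Q 0`.

`Y` is a left `Λ`-module, `e : Y ≃ L ^ s` additive with `e (inc r • y) = r • e y`. Let `k` be as in
`X.nt`, `W = Fin s → ℤ_p[P k]`, `π : Y → W`, `π y i = (e y i).1 k`.
* `π` is surjective: `Lim T ℤ_p → ℤ_p[P k]` is surjective: for `u ∈ P k` there is `g ∈ G` with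
  `e k g = j k u` (`e_surj`), all `e k' g` are in the range of `j k'` for `k' ≥ k` (`cQ_range`,
  `cQ_e`) hence for all `k'`, and `co X R 1' (elQ g)`.. gives a preimage of `single u 1`. (Or
  directly: `elQ g = inc r` for some `r` with `r k = single u 1`; or from surjectivity of
  `T.pr`, `Pool.Agent.Lvl.pr_surjective`, by lifting group elements.)
* KERNEL: if `a ∈ Λ` has `a k = 0` then `π (a • y) = 0` for all `y`: `a = ∑ x, inc (co x a) * elQ
  (rp x)` (`co_spec`) and `(co x a).1 k = 0` (`co_coeff`), so `e (a • y) = ∑ x, co x a • e (..)`.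
  If `π y = 0` then `π (a • y) = 0` for all `a ∈ Λ`: let `y i` be the basis (`e (y i) = Pi.single
  i 1`), `y = ∑ i, inc (e y i) • y i`, `a • y = ∑ i, (a * inc (e y i)) • y i`, and
  `(a * inc (e y i)) k = a k * mapDomain ((e y i).1 k) = 0`.
* So for every `a ∈ Λ` there is a unique additive map `R a : W → W` with `R a (π y) = π (a • y)`;
  `R (a * b) = R a ∘ R b`, `R 1 = 1`, `R a = R b` if `a k = b k`, `R a` is `ℤ_p`-linear (the
  scalar `c ∈ ℤ_p` is `R` of the central element `(single 1 c)_k`, and `e` is `L`-linear). For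
  `z ∈ Q k` let `ρ z = R (elQ g)` for any `g` with `e k g = z`; this is a monoid homomorphism
  `Q k →* (W →ₗ W)`.
* The basis `b (n, i) = Pi.single i (single (u n) 1)`, `n = j k (u n)` in the subgroup
  `N = (j k).range`: `ρ n (b (n', i)) = b (n * n', i)`: choose `g` with `e k g = n = j k u`;
  `elQ g` and `inc r` with `r k = single u 1` agree at the level `k`, and `R (inc r) w i = r k * w i`.
* `card_dvd` (file `FinLem`): `card (Q k)` divides `s * card N = s * card (P k)`; `card_Q` gives
  the claim.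
-/

namespace Pool.Agent.MCG

open MonoidAlgebra Pool.Agent.Lvl Module

variable {p q d : ℕ} [hp : Fact p.Prime] {T : Tower p q d} {G : Type} [Group G] (X : XT T G)

/-- lifts of the group elements -/
private def glx (a : Fin d → ℕ) : Lim T ℤ_[p] :=
  ⟨fun k' => single (opow (T.c k') a) 1, fun k' => by
    rw [mapDomainRingHom_apply, mapDomain_single, map_opow]
    congr 2
    funext l
    exact T.pr_c k' l⟩

/-- the scalars -/
private def scx (T : Tower p q d) (c : ℤ_[p]) : Lim T ℤ_[p] :=
  ⟨fun k' => single 1 c, fun k' => by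
    rw [mapDomainRingHom_apply, mapDomain_single, map_one]⟩

private lemma lift_xl (k : ℕ) (r : MonoidAlgebra ℤ_[p] (T.P k)) :
    ∃ a : Lim T ℤ_[p], a.1 k = r := by
  induction r using MonoidAlgebra.induction_linear with
  | zero => exact ⟨0, rfl⟩
  | add f g hf hg =>
    obtain ⟨a, ha⟩ := hf
    obtain ⟨b, hb⟩ := hg
    exact ⟨a + b, by rw [← ha, ← hb]; rfl⟩
  | single g c =>
    obtain ⟨a, ha⟩ := T.gen k g
    refine ⟨scx T c * glx a, ?_⟩
    change single 1 c * single (opow (T.c k) a) 1 = single g c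
    rw [single_mul_single, one_mul, mul_one, ha]

private lemma scx_comm (c : ℤ_[p]) (a : LimQ X ℤ_[p]) :
    a * inc X ℤ_[p] (scx T c) = inc X ℤ_[p] (scx T c) * a := by
  apply Subtype.ext
  funext k
  change a.1 k * mapDomainRingHom ℤ_[p] (X.j k) (single 1 c) =
    mapDomainRingHom ℤ_[p] (X.j k) (single 1 c) * a.1 k
  rw [mapDomainRingHom_apply, mapDomain_single, map_one]
  ext z
  simp [mul_comm]

section

variable (Y : Type) [AddCommGroup Y] [Module (LimQ X ℤ_[p]) Y] (s : ℕ)
    (e : Y ≃+ (Fin s → Lim T ℤ_[p]))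
    (he : ∀ (r : Lim T ℤ_[p]) (y : Y), e (inc X ℤ_[p] r • y) = r • e y) (k : ℕ)

/-- the projection to the level `k` -/
private def pix : Y →+ (Fin s → MonoidAlgebra ℤ_[p] (T.P k)) where
  toFun y i := (e y i).1 k
  map_zero' := by
    funext i
    rw [map_zero]
    rfl
  map_add' y y' := by
    funext i
    rw [map_add]
    rfl

private lemma pix_apply (y : Y) (i : Fin s) : pix Y s e k y i = (e y i).1 k := rfl

private lemma pix_surj : Function.Surjective (pix Y s e k) := by
  intro w
  choose a ha using fun i => lift_xl (T := T) k (w i)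
  refine ⟨e.symm a, ?_⟩
  funext i
  rw [pix_apply, AddEquiv.apply_symm_apply]
  exact ha i

include he in
private lemma pix_inc (r : Lim T ℤ_[p]) (y : Y) (i : Fin s) :
    pix Y s e k (inc X ℤ_[p] r • y) i = r.1 k * pix Y s e k y i := by
  rw [pix_apply, he]
  rfl

include he in
private lemma pix_zero_of_level (b : LimQ X ℤ_[p]) (hb : b.1 k = 0) (y : Y) :
    pix Y s e k (b • y) = 0 := by
  rw [co_spec X ℤ_[p] b, Finset.sum_smul, map_sum]
  refine Finset.sum_eq_zero fun x _ => ?_
  funext i
  rw [mul_smul, pix_inc X Y s e he k]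
  have h : (co X ℤ_[p] x b).1 k = 0 := by
    ext u
    rw [co_coeff, hb]
    rfl
  rw [h, zero_mul]
  rfl

include he in
private lemma pix_congr (a b : LimQ X ℤ_[p]) (hb : a.1 k = b.1 k) (y : Y) :
    pix Y s e k (a • y) = pix Y s e k (b • y) := by
  have h := pix_zero_of_level X Y s e he k (a - b) (by
    change a.1 k - b.1 k = 0
    rw [hb, sub_self]) y
  rw [sub_smul, map_sub] at h
  exact sub_eq_zero.mp h

include he in
private lemma pix_ker (y : Y) (hy : pix Y s e k y = 0) (a : LimQ X ℤ_[p]) :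
    pix Y s e k (a • y) = 0 := by
  have h1 : y = ∑ i, inc X ℤ_[p] (e y i) • e.symm (Pi.single i 1) := by
    apply e.injective
    rw [map_sum]
    funext i
    rw [Finset.sum_apply, Finset.sum_eq_single i]
    · rw [he, AddEquiv.apply_symm_apply, Pi.smul_apply, Pi.single_eq_same, smul_eq_mul, mul_one]
    · intro j _ hj
      rw [he, AddEquiv.apply_symm_apply, Pi.smul_apply, Pi.single_eq_of_ne hj.symm, smul_zero]
    · intro h
      exact absurd (Finset.mem_univ _) h
  rw [h1, Finset.smul_sum, map_sum]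
  refine Finset.sum_eq_zero fun i _ => ?_
  rw [← mul_smul]
  apply pix_zero_of_level X Y s e he k
  change a.1 k * mapDomainRingHom ℤ_[p] (X.j k) ((e y i).1 k) = 0
  have h2 : (e y i).1 k = 0 := congrFun hy i
  rw [h2, map_zero, mul_zero]

include he in
private lemma pix_ker2 (y y' : Y) (hy : pix Y s e k y = pix Y s e k y') (a : LimQ X ℤ_[p]) :
    pix Y s e k (a • y) = pix Y s e k (a • y') := by
  have h := pix_ker X Y s e he k (y - y') (by rw [map_sub, hy, sub_self]) a
  rw [smul_sub, map_sub] at h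
  exact sub_eq_zero.mp h

/-- the lift of a vector -/
private def secx (w : Fin s → MonoidAlgebra ℤ_[p] (T.P k)) : Y :=
  Function.surjInv (pix_surj Y s e k) w

private lemma pix_secx (w : Fin s → MonoidAlgebra ℤ_[p] (T.P k)) :
    pix Y s e k (secx Y s e k w) = w := Function.surjInv_eq _ w

include he in
private lemma act_eq (a : LimQ X ℤ_[p]) (y : Y) :
    pix Y s e k (a • secx Y s e k (pix Y s e k y)) = pix Y s e k (a • y) :=
  pix_ker2 X Y s e he k _ _ (pix_secx Y s e k _) a

/-- the action at the level `k` -/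
private def actx (a : LimQ X ℤ_[p]) :
    (Fin s → MonoidAlgebra ℤ_[p] (T.P k)) →ₗ[ℤ_[p]] (Fin s → MonoidAlgebra ℤ_[p] (T.P k)) where
  toFun w := pix Y s e k (a • secx Y s e k w)
  map_add' w w' := by
    obtain ⟨y, rfl⟩ := pix_surj Y s e k w
    obtain ⟨y', rfl⟩ := pix_surj Y s e k w'
    rw [← map_add, act_eq X Y s e he k, act_eq X Y s e he k, act_eq X Y s e he k, smul_add,
      map_add]
  map_smul' c w := by
    obtain ⟨y, rfl⟩ := pix_surj Y s e k w
    have h1 : ∀ y, c • pix Y s e k y = pix Y s e k (inc X ℤ_[p] (scx T c) • y) := by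
      intro y
      funext i
      rw [pix_inc X Y s e he k]
      change c • pix Y s e k y i = single 1 c * pix Y s e k y i
      ext u
      simp
    rw [h1, act_eq X Y s e he k, act_eq X Y s e he k, RingHom.id_apply, h1, ← mul_smul,
      scx_comm, mul_smul]

private lemma actx_pix (a : LimQ X ℤ_[p]) (y : Y) :
    actx X Y s e he k a (pix Y s e k y) = pix Y s e k (a • y) := act_eq X Y s e he k a y

private lemma actx_congr (a b : LimQ X ℤ_[p]) (hb : a.1 k = b.1 k) :
    actx X Y s e he k a = actx X Y s e he k b := by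
  refine LinearMap.ext fun w => ?_
  obtain ⟨y, rfl⟩ := pix_surj Y s e k w
  rw [actx_pix, actx_pix, pix_congr X Y s e he k a b hb]

private lemma actx_mul (a b : LimQ X ℤ_[p]) :
    actx X Y s e he k (a * b) = actx X Y s e he k a * actx X Y s e he k b := by
  refine LinearMap.ext fun w => ?_
  obtain ⟨y, rfl⟩ := pix_surj Y s e k w
  rw [Module.End.mul_apply, actx_pix, actx_pix, actx_pix, mul_smul]

private lemma actx_one : actx X Y s e he k 1 = 1 := by
  refine LinearMap.ext fun w => ?_
  obtain ⟨y, rfl⟩ := pix_surj Y s e k w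
  rw [actx_pix, one_smul]
  rfl

private lemma actx_inc (r : Lim T ℤ_[p]) (w : Fin s → MonoidAlgebra ℤ_[p] (T.P k)) (i : Fin s) :
    actx X Y s e he k (inc X ℤ_[p] r) w i = r.1 k * w i := by
  obtain ⟨y, rfl⟩ := pix_surj Y s e k w
  rw [actx_pix, pix_inc X Y s e he k]

/-- the action of the group at the level `k` -/
private def rhox : X.Q k →*
    ((Fin s → MonoidAlgebra ℤ_[p] (T.P k)) →ₗ[ℤ_[p]] (Fin s → MonoidAlgebra ℤ_[p] (T.P k))) where
  toFun z := actx X Y s e he k (elQ X ℤ_[p] (Function.surjInv (X.e_surj k) z))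
  map_one' := by
    rw [← actx_one X Y s e he k]
    apply actx_congr
    rw [elQ_apply, Function.surjInv_eq (X.e_surj k)]
    rfl
  map_mul' z z' := by
    rw [← actx_mul, ← map_mul]
    apply actx_congr
    rw [elQ_apply, elQ_apply, Function.surjInv_eq (X.e_surj k), map_mul,
      Function.surjInv_eq (X.e_surj k), Function.surjInv_eq (X.e_surj k)]

private lemma rhox_j (u : T.P k) (w : Fin s → MonoidAlgebra ℤ_[p] (T.P k)) (i : Fin s) :
    rhox X Y s e he k (X.j k u) w i = single u 1 * w i := by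
  obtain ⟨r, hr⟩ := lift_xl (T := T) k (single u (1 : ℤ_[p]))
  have h : rhox X Y s e he k (X.j k u) = actx X Y s e he k (inc X ℤ_[p] r) := by
    apply actx_congr
    rw [elQ_apply, Function.surjInv_eq (X.e_surj k), inc_apply, hr, mapDomainRingHom_apply,
      mapDomain_single]
  rw [h, actx_inc, hr]

end

/-- the basis of the level `k` -/
private def basx (s k : ℕ) : Basis ((X.j k).range × Fin s) ℤ_[p]
    (Fin s → MonoidAlgebra ℤ_[p] (T.P k)) :=
  (Pi.basis fun _ : Fin s => MonoidAlgebra.basis (T.P k) ℤ_[p]).reindex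
    ((Equiv.sigmaEquivProd (Fin s) (T.P k)).trans ((Equiv.prodComm _ _).trans
      ((MonoidHom.ofInjective (X.j_inj k)).toEquiv.prodCongr (Equiv.refl _))))

private lemma basx_apply (s k : ℕ) (u : T.P k) (i : Fin s) :
    basx X s k (MonoidHom.ofInjective (X.j_inj k) u, i) = Pi.single i (single u 1) := by
  rw [basx, Basis.reindex_apply]
  have h : ((Equiv.sigmaEquivProd (Fin s) (T.P k)).trans ((Equiv.prodComm _ _).trans
      ((MonoidHom.ofInjective (X.j_inj k)).toEquiv.prodCongr (Equiv.refl _)))).symm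
      (MonoidHom.ofInjective (X.j_inj k) u, i) = ⟨i, u⟩ := by
    rw [Equiv.symm_apply_eq]
    rfl
  rw [h, Pi.basis_apply, MonoidAlgebra.basis_apply]

theorem card_dvd_rank (Y : Type) [AddCommGroup Y] [Module (LimQ X ℤ_[p]) Y] (s : ℕ)
    (e : Y ≃+ (Fin s → Lim T ℤ_[p]))
    (he : ∀ (r : Lim T ℤ_[p]) (y : Y), e (inc X ℤ_[p] r • y) = r • e y) :
    Fintype.card (X.Q 0) ∣ s := by
  obtain ⟨k, hk⟩ := X.nt
  have h1 := card_dvd (X.Q k) (X.pgroup k) (X.j k).range hk s
    (Fin s → MonoidAlgebra ℤ_[p] (T.P k)) (rhox X Y s e he k) (basx X s k) (by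
      intro n n' i
      obtain ⟨u, rfl⟩ := (MonoidHom.ofInjective (X.j_inj k)).surjective n
      obtain ⟨u', rfl⟩ := (MonoidHom.ofInjective (X.j_inj k)).surjective n'
      rw [← map_mul, basx_apply, basx_apply]
      funext l
      change rhox X Y s e he k (X.j k u) (Pi.single i (single u' 1)) l = _
      rw [rhox_j]
      by_cases hl : l = i
      · subst hl
        rw [Pi.single_eq_same, Pi.single_eq_same, single_mul_single, mul_one]
      · rw [Pi.single_eq_of_ne hl, Pi.single_eq_of_ne hl, mul_zero])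
  have h2 : Fintype.card (X.j k).range = Fintype.card (T.P k) :=
    (Fintype.card_congr (MonoidHom.ofInjective (X.j_inj k)).toEquiv).symm
  rw [h2, card_Q, mul_comm s] at h1
  exact Nat.dvd_of_mul_dvd_mul_left Fintype.card_pos h1

end Pool.Agent.MCG
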