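import Mathlib

set_option autoImplicit false

noncomputable section

/-!
PACKAGE MCG-XR. Free resolutions by matrices over a left Noetherian ring.

For a matrix `A : Fin b × Fin a` the left kernel `{w | w ᵥ* A = 0}` is a submodule of the Noetherian
module `Fin b → R`, it is generated by `c` elements (`Submodule.fg_iff_exists_fin_generating_family`),
the rows of a matrix `B : Fin c × Fin b`. Iterate: the step maps `⟨a, b, A⟩` to `⟨b, c, B⟩`, the
sequence `S i` of these triples is defined by `Nat.rec`; `n i = (S i).1`, `n (i + 1) = (S i).2.1` by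
definition.
-/

namespace Pool.Agent.MCG

theorem exists_step {R : Type} [Ring R] [IsNoetherianRing R] {a b : ℕ}
    (A : Matrix (Fin b) (Fin a) R) : ∃ (c : ℕ) (B : Matrix (Fin c) (Fin b) R),
      ∀ w : Fin b → R, Matrix.vecMul w A = 0 ↔ ∃ v : Fin c → R, w = Matrix.vecMul v B := by
  have hfg : (LinearMap.ker (Matrix.vecMulLinear A)).FG :=
    IsNoetherian.noetherian (LinearMap.ker (Matrix.vecMulLinear A))
  obtain ⟨c, s, hs⟩ := Submodule.fg_iff_exists_fin_generating_family.1 hfg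
  refine ⟨c, Matrix.of s, fun w => ?_⟩
  have h1 : Matrix.vecMul w A = 0 ↔ w ∈ LinearMap.ker (Matrix.vecMulLinear A) := by
    rw [LinearMap.mem_ker, Matrix.vecMulLinear_apply]
  rw [h1, ← hs, Submodule.mem_span_range_iff_exists_fun]
  constructor
  · rintro ⟨v, hv⟩
    refine ⟨v, ?_⟩
    rw [← hv]
    funext j
    simp [Matrix.vecMul, dotProduct, Finset.sum_apply]
  · rintro ⟨v, hv⟩
    refine ⟨v, ?_⟩
    rw [hv]
    funext j
    simp [Matrix.vecMul, dotProduct, Finset.sum_apply]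

/-- one step on triples -/
private def stepT {R : Type} [Ring R] [IsNoetherianRing R]
    (S : Σ (a : ℕ) (b : ℕ), Matrix (Fin b) (Fin a) R) :
    Σ (a : ℕ) (b : ℕ), Matrix (Fin b) (Fin a) R :=
  ⟨S.2.1, (exists_step S.2.2).choose, (exists_step S.2.2).choose_spec.choose⟩

private theorem stepT_spec {R : Type} [Ring R] [IsNoetherianRing R]
    (S : Σ (a : ℕ) (b : ℕ), Matrix (Fin b) (Fin a) R) (w : Fin S.2.1 → R) :
    Matrix.vecMul w S.2.2 = 0 ↔
      ∃ v : Fin (stepT S).2.1 → R, w = Matrix.vecMul v (stepT S).2.2 :=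
  (exists_step S.2.2).choose_spec.choose_spec w

/-- the sequence of triples -/
private def seqT {R : Type} [Ring R] [IsNoetherianRing R]
    (S : Σ (a : ℕ) (b : ℕ), Matrix (Fin b) (Fin a) R) : ℕ →
    Σ (a : ℕ) (b : ℕ), Matrix (Fin b) (Fin a) R
  | 0 => S
  | i + 1 => stepT (seqT S i)

theorem exists_resolution {R : Type} [Ring R] [IsNoetherianRing R] {a b : ℕ}
    (A : Matrix (Fin b) (Fin a) R) :
    ∃ (n : ℕ → ℕ) (B : ∀ i, Matrix (Fin (n (i + 1))) (Fin (n i)) R),
      ((⟨n 0, n (0 + 1), B 0⟩ : Σ (a : ℕ) (b : ℕ), Matrix (Fin b) (Fin a) R) = ⟨a, b, A⟩) ∧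
      ∀ i (w : Fin (n (i + 1)) → R), Matrix.vecMul w (B i) = 0 ↔
        ∃ v : Fin (n (i + 1 + 1)) → R, w = Matrix.vecMul v (B (i + 1)) := by
  refine ⟨fun i => (seqT ⟨a, b, A⟩ i).1, fun i => (seqT ⟨a, b, A⟩ i).2.2, rfl, ?_⟩
  intro i w
  exact stepT_spec (seqT ⟨a, b, A⟩ i) w

end Pool.Agent.MCG
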