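import Pool.Agent.MCG.XC
import Pool.Agent.MCG.XL
import Pool.Agent.MCG.XR
import Pool.Agent.MCG.Reg
import Pool.Agent.MCG.RkAdd
import Pool.Agent.Lvl.IntRank
import Pool.Agent.Lvl.Ore

set_option autoImplicit false
set_option linter.unusedSectionVars false

noncomputable section

open Classical

/-!
MCG (MP_95030e), part 2, assembly: the normalised dimensions over the levels `Q k` converge to
integers.
-/

namespace Pool.Agent.MCG

open MonoidAlgebra Pool.Agent.Lvl Filter Topology Module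

variable {p q d : ℕ} [hp : Fact p.Prime] {T : Tower p q d} {G : Type} [Group G] (X : XT T G)

private theorem uh_add' {κ : Type} (w w' : κ × X.Q 0 → Lim T ℤ_[p]) :
    uh X ℤ_[p] (w + w') = uh X ℤ_[p] w + uh X ℤ_[p] w' := by
  funext j
  simp only [uh, Pi.add_apply, map_add, add_mul, Finset.sum_add_distrib]

private theorem uh_smul' {κ : Type} (r : Lim T ℤ_[p]) (w : κ × X.Q 0 → Lim T ℤ_[p]) :
    uh X ℤ_[p] (r • w) = inc X ℤ_[p] r • uh X ℤ_[p] w := by
  funext j
  simp only [uh, Pi.smul_apply, smul_eq_mul, map_mul, Finset.mul_sum, mul_assoc]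

private theorem uh_zero' {κ : Type} : uh X ℤ_[p] (0 : κ × X.Q 0 → Lim T ℤ_[p]) = 0 := by
  have h := uh_add' X (0 : κ × X.Q 0 → Lim T ℤ_[p]) 0
  rw [add_zero] at h
  exact left_eq_add.1 h

/-- the rank of the last syzygy is divisible by the order of `Q 0` -/
private theorem syz_dvd {a b : ℕ} (B : Matrix (Fin b) (Fin a) (LimQ X ℤ_[p])) (s : ℕ)
    (u : LinearMap.ker (hatM X ℤ_[p] B).vecMulLinear ≃ₗ[Lim T ℤ_[p]] (Fin s → Lim T ℤ_[p])) :
    Fintype.card (X.Q 0) ∣ s := by
  let Y := LinearMap.ker B.vecMulLinear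
  let g : LinearMap.ker (hatM X ℤ_[p] B).vecMulLinear → Y := fun w =>
    ⟨uh X ℤ_[p] w.1, by
      have h := w.2
      rw [LinearMap.mem_ker, Matrix.vecMulLinear_apply] at h
      rw [LinearMap.mem_ker, Matrix.vecMulLinear_apply, uh_vecMul, h, uh_zero']⟩
  have hg : Function.Bijective g := by
    constructor
    · intro w w' h
      exact Subtype.ext (uh_inj X ℤ_[p] (congrArg Subtype.val h))
    · rintro ⟨y, hy⟩
      obtain ⟨w, rfl⟩ := uh_surj X ℤ_[p] y
      refine ⟨⟨w, ?_⟩, rfl⟩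
      rw [LinearMap.mem_ker, Matrix.vecMulLinear_apply] at hy ⊢
      rw [uh_vecMul] at hy
      exact uh_inj X ℤ_[p] (hy.trans (uh_zero' X).symm)
  let e0 : LinearMap.ker (hatM X ℤ_[p] B).vecMulLinear ≃+ Y :=
    { Equiv.ofBijective g hg with
      map_add' := fun w w' => Subtype.ext (uh_add' X w.1 w'.1) }
  have he0 : ∀ (r : Lim T ℤ_[p]) w, e0 (r • w) = inc X ℤ_[p] r • e0 w := fun r w =>
    Subtype.ext (uh_smul' X r w.1)
  refine card_dvd_rank X Y s (e0.symm.trans u.toAddEquiv) fun r y => ?_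
  have h1 : e0.symm (inc X ℤ_[p] r • y) = r • e0.symm y := by
    apply e0.injective
    rw [AddEquiv.apply_symm_apply, he0, AddEquiv.apply_symm_apply]
  show u (e0.symm (inc X ℤ_[p] r • y)) = r • u (e0.symm y)
  rw [h1, map_smul]

private theorem hOre' : ∀ a b : Lim T ℤ_[p], a ≠ 0 → b ≠ 0 →
    ∃ x y : Lim T ℤ_[p], x ≠ 0 ∧ y ≠ 0 ∧ x * a = y * b := fun _ _ ha hb => ore ha hb

/-- the rank of a matrix with a free kernel -/
private theorem rk_free {α β : Type} [Fintype α] [Fintype β] (C : Matrix β α (Lim T ℤ_[p]))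
    (s : ℕ) (u : LinearMap.ker C.vecMulLinear ≃ₗ[Lim T ℤ_[p]] (Fin s → Lim T ℤ_[p])) {r : ℕ}
    (hr : IsRk (fun k => T.P k → ℚ_[p]) (fun k => rho T k) C r) : r + s = Fintype.card β := by
  let Z : Matrix (Fin s) β (Lim T ℤ_[p]) := fun l => (u.symm (Pi.single l 1)).1
  have hZ : ∀ x : Fin s → Lim T ℤ_[p], Matrix.vecMul x Z = (u.symm x).1 := by
    intro x
    have h1 : x = ∑ l, x l • (Pi.single l 1 : Fin s → Lim T ℤ_[p]) := by
      funext i
      rw [Finset.sum_apply]
      simp [Pi.single_apply]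
    conv_rhs => rw [h1]
    rw [map_sum, Matrix.vecMul_eq_sum]
    simp only [map_smul]
    rw [AddSubmonoidClass.coe_finsetSum]
    rfl
  obtain ⟨t, ht⟩ := exists_rk (fun k => T.P k → ℚ_[p]) (fun k => rho T k) hOre'
    (fun a ha => tendsto_ker T ha) Z
  have h1 : t = Fintype.card (Fin s) := by
    refine rk_inj _ _ hOre' (fun a ha => tendsto_ker T ha) ht fun x hx => ?_
    rw [hZ] at hx
    have h2 : u.symm x = 0 := Subtype.ext hx
    rwa [LinearEquiv.map_eq_zero_iff] at h2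
  rw [Fintype.card_fin] at h1
  subst h1
  refine rk_add _ _ hOre' (fun a ha => tendsto_ker T ha) hr ht ?_ ?_
  · refine Matrix.ext fun l i => ?_
    have h2 := (u.symm (Pi.single l 1)).2
    rw [LinearMap.mem_ker, Matrix.vecMulLinear_apply] at h2
    exact congrFun h2 i
  · intro x hx
    refine ⟨u ⟨x, by rw [LinearMap.mem_ker, Matrix.vecMulLinear_apply]; exact hx⟩, ?_⟩
    rw [hZ, LinearEquiv.symm_apply_apply]

private theorem int_fin (S : Σ (a : ℕ) (b : ℕ), Matrix (Fin b) (Fin a) (LimQ X ℤ_[p])) :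
    ∃ z : ℤ, Tendsto (fun k => (finrank ℚ_[p] (LinearMap.ker (op (rhoQ X k) S.2.2)) : ℝ) /
      Fintype.card (X.Q k)) atTop (𝓝 (z : ℝ)) := by
  obtain ⟨a, b, A⟩ := S
  obtain ⟨n, B, hB0, hex⟩ := exists_resolution A
  rw [← hB0]
  let C : ∀ i, Matrix (Fin (n (i + 1)) × X.Q 0) (Fin (n i) × X.Q 0) (Lim T ℤ_[p]) :=
    fun i => hatM X ℤ_[p] (B i)
  have hexC : ∀ i w, Matrix.vecMul w (C i) = 0 ↔ ∃ v, w = Matrix.vecMul v (C (i + 1)) :=
    fun i w => exact_hat X ℤ_[p] (B i) (B (i + 1)) (hex i) w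
  choose r hr using fun i => exists_rk (fun k => T.P k → ℚ_[p]) (fun k => rho T k) hOre'
    (fun a ha => tendsto_ker T ha) (C i)
  have hadd : ∀ i, r i + r (i + 1) = n (i + 1) * Fintype.card (X.Q 0) := by
    intro i
    have h1 := rk_add (fun k => T.P k → ℚ_[p]) (fun k => rho T k) hOre'
      (fun a ha => tendsto_ker T ha) (hr i) (hr (i + 1)) (by
        refine Matrix.ext fun l c => ?_
        have h2 : Matrix.vecMul (C (i + 1) l) (C i) = 0 := by
          rw [hexC]
          have h3 := Matrix.single_one_vecMul l (C (i + 1))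
          exact ⟨Pi.single l 1, h3.symm⟩
        exact congrFun h2 c)
      (fun x hx => by
        obtain ⟨v, hv⟩ := (hexC i x).1 hx
        exact ⟨v, hv.symm⟩)
    rw [h1, Fintype.card_prod, Fintype.card_fin]
  obtain ⟨s, ⟨u⟩⟩ := reg T (fun i => Fin (n i) × X.Q 0 → Lim T ℤ_[p])
    (fun i => (C i).vecMulLinear) (fun i => by
      ext w
      rw [LinearMap.mem_ker, LinearMap.mem_range, Matrix.vecMulLinear_apply, hexC]
      constructor
      · rintro ⟨v, rfl⟩
        exact ⟨v, rfl⟩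
      · rintro ⟨v, rfl⟩
        exact ⟨v, rfl⟩) (d + 1) le_rfl
  have hs : Fintype.card (X.Q 0) ∣ s := syz_dvd X (B (d + 1)) s u
  have hlast : r (d + 1) + s = n (d + 1 + 1) * Fintype.card (X.Q 0) := by
    have h1 := rk_free (C (d + 1)) s u (hr (d + 1))
    rw [h1, Fintype.card_prod, Fintype.card_fin]
  have hdvd : ∀ t, t ≤ d + 1 → Fintype.card (X.Q 0) ∣ r (d + 1 - t) := by
    intro t
    induction t with
    | zero =>
      intro _
      rw [Nat.sub_zero]
      have h1 : Fintype.card (X.Q 0) ∣ r (d + 1) + s := by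
        rw [hlast]
        exact Dvd.intro_left _ rfl
      exact (Nat.dvd_add_iff_left hs).2 h1
    | succ t ih =>
      intro ht
      have h1 := ih (by omega)
      have h2 : d + 1 - t = (d + 1 - (t + 1)) + 1 := by omega
      rw [h2] at h1
      have h3 : Fintype.card (X.Q 0) ∣ r (d + 1 - (t + 1)) + r (d + 1 - (t + 1) + 1) := by
        rw [hadd]
        exact Dvd.intro_left _ rfl
      exact (Nat.dvd_add_iff_left h1).2 h3
  obtain ⟨t, ht⟩ : Fintype.card (X.Q 0) ∣ r 0 := by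
    have h1 := hdvd (d + 1) le_rfl
    rwa [Nat.sub_self] at h1
  refine ⟨(n 0 : ℤ) - t, ?_⟩
  have h1 := rk_ker (fun k => T.P k → ℚ_[p]) (fun k => rho T k) (hr 0)
  have h0 : (0 : ℝ) < Fintype.card (X.Q 0) := by exact_mod_cast Fintype.card_pos
  have h2 := h1.div_const (Fintype.card (X.Q 0) : ℝ)
  have h3 : ((Fintype.card (Fin (n 0) × X.Q 0) : ℝ) - r 0) / Fintype.card (X.Q 0) =
      (((n 0 : ℤ) - (t : ℤ) : ℤ) : ℝ) := by
    rw [ht, Fintype.card_prod, Fintype.card_fin]
    push_cast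
    field_simp
  rw [h3] at h2
  refine h2.congr fun k => ?_
  rw [Module.finrank_fintype_fun_eq_card, card_Q X k]
  have h4 := finrank_ker_hat X (B 0) k
  have h5 : finrank ℚ_[p] (LinearMap.ker (op (rhoQ X k) (B 0))) =
      finrank ℚ_[p] (LinearMap.ker (op (rho T k) (C 0))) := h4
  show _ = (finrank ℚ_[p] (LinearMap.ker (op (rhoQ X k) (B 0))) : ℝ) / _
  rw [h5]
  push_cast
  rw [div_div]

private theorem ker_reindex2 {V : Type} [AddCommGroup V] [Module ℚ_[p] V]
    {R : Type} [Ring R] (ρ : R →+* Module.End ℚ_[p] V) {ι κ ι' κ' : Type} [Fintype ι] [Fintype κ]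
    [Fintype ι'] [Fintype κ'] (e : ι' ≃ ι) (e' : κ' ≃ κ) (A : Matrix κ ι R) :
    finrank ℚ_[p] (LinearMap.ker (op ρ (fun (j : κ') (i : ι') => A (e' j) (e i)))) =
      finrank ℚ_[p] (LinearMap.ker (op ρ A)) := by
  let E : (ι → V) ≃ₗ[ℚ_[p]] (ι' → V) := LinearEquiv.funCongrLeft ℚ_[p] V e
  have h1 : ∀ v : ι → V, v ∈ LinearMap.ker (op ρ A) ↔
      E v ∈ LinearMap.ker (op ρ (fun (j : κ') (i : ι') => A (e' j) (e i))) := by
    intro v
    have h2 : ∀ j : κ', op ρ (fun (j : κ') (i : ι') => A (e' j) (e i)) (E v) j =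
        op ρ A v (e' j) := by
      intro j
      rw [op_apply, op_apply]
      exact Fintype.sum_equiv e _ _ (fun i => rfl)
    rw [LinearMap.mem_ker, LinearMap.mem_ker]
    constructor
    · intro h
      funext j
      rw [h2, h]
      rfl
    · intro h
      funext j
      have h3 := h2 (e'.symm j)
      rw [h, Equiv.apply_symm_apply] at h3
      exact h3.symm
  have h2 : (LinearMap.ker (op ρ A)).map (E : (ι → V) →ₗ[ℚ_[p]] (ι' → V)) =
      LinearMap.ker (op ρ (fun (j : κ') (i : ι') => A (e' j) (e i))) := by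
    ext w
    obtain ⟨v, rfl⟩ := E.surjective w
    rw [← h1, Submodule.mem_map]
    constructor
    · rintro ⟨v', hv', h3⟩
      have h4 : v' = v := E.injective h3
      rw [← h4]
      exact hv'
    · exact fun h => ⟨v, h, rfl⟩
  exact (LinearEquiv.finrank_eq (E.ofSubmodules _ _ h2)).symm

theorem int_limit {ι κ : Type} [Fintype ι] [Fintype κ] (A : Matrix κ ι (LimQ X ℤ_[p])) :
    ∃ z : ℤ, Tendsto (fun k => (finrank ℚ_[p] (LinearMap.ker (op (rhoQ X k) A)) : ℝ) /
      Fintype.card (X.Q k)) atTop (𝓝 (z : ℝ)) := by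
  obtain ⟨z, hz⟩ := int_fin X ⟨Fintype.card ι, Fintype.card κ, fun j i =>
    A ((Fintype.equivFin κ).symm j) ((Fintype.equivFin ι).symm i)⟩
  refine ⟨z, hz.congr fun k => ?_⟩
  rw [ker_reindex2 (rhoQ X k) (Fintype.equivFin ι).symm (Fintype.equivFin κ).symm A]

end Pool.Agent.MCG
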